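import Pool.Agent.H820R2.MS.Defs

/-!
# Maximum scatter TSP in the plane: the combinatorial structures of the reduction
-/

namespace Pool.Agent.H820R2.MS

/-- Vertices: kind (`false` for `a`-points, `true` for `b`-points), level, position. -/
abbrev Vx : Type := Bool × ℕ × ℕ

/-- `w` lies in the upward light cone of `v` (pairs are level, position). -/
def dom (v w : ℕ × ℕ) : Prop := v.1 + w.2 ≤ w.1 + v.2 ∧ v.1 + v.2 ≤ w.1 + w.2

/-- The far graph: an `a`-point and a `b`-point in its upward light cone. -/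
def Far (v w : Vx) : Prop :=
  (v.1 = false ∧ w.1 = true ∧ dom v.2 w.2) ∨ (v.1 = true ∧ w.1 = false ∧ dom w.2 v.2)

theorem Far.symm {v w : Vx} (h : Far v w) : Far w v := by
  rcases h with ⟨h1, h2, h3⟩ | ⟨h1, h2, h3⟩
  · exact Or.inr ⟨h2, h1, h3⟩
  · exact Or.inl ⟨h2, h1, h3⟩

/-- Layered slot systems.  Gap `k` (between level `k` and level `k + 1`) has `len k` slots; slot `r`
starts at the `a`-point at level `k` and position `o k r`, ends at the `b`-point at level `k + 1`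
and position `i k r`, and is labelled by `lab k r`.  `op k r` says that slots `r` and `r + 1` of gap
`k` may be swapped; `ins k j` that between the gaps `k` and `k + 1` a new label is born at slots
`j`, `j + 1` of gap `k + 1`. -/
structure Sys (Γ : Type) where
  len : ℕ → ℕ
  o : ℕ → ℕ → ℕ
  i : ℕ → ℕ → ℕ
  lab : ℕ → ℕ → Γ
  op : ℕ → ℕ → Prop
  ins : ℕ → ℕ → Prop

namespace Sys

variable {Γ : Type} (s : Sys Γ)

/-- The slots of gap `k + 1` continue the slots of gap `k`. -/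
def Same (k : ℕ) : Prop :=
  s.len (k + 1) = s.len k ∧ (∀ r, r + 1 < s.len k → s.i k r < s.i k (r + 1)) ∧
    ∀ r < s.len k, s.o (k + 1) r = s.i k r ∧ s.lab (k + 1) r = s.lab k r

/-- Two slots, at `j` and `j + 1`, are born between the gaps `k` and `k + 1`, at a common
`a`-point. -/
def InsAt (k j : ℕ) : Prop :=
  s.len (k + 1) = s.len k + 2 ∧ j ≤ s.len k ∧ (∀ r, r + 1 < s.len k → s.i k r < s.i k (r + 1)) ∧
    (∀ r < j, s.o (k + 1) r = s.i k r ∧ s.lab (k + 1) r = s.lab k r) ∧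
    (∀ r, j ≤ r → r < s.len k → s.o (k + 1) (r + 2) = s.i k r ∧
      s.lab (k + 1) (r + 2) = s.lab k r) ∧
    s.o (k + 1) (j + 1) = s.o (k + 1) j ∧ s.lab (k + 1) (j + 1) = s.lab (k + 1) j ∧
    (∀ r < j, s.i k r < s.o (k + 1) j) ∧ (∀ r, j ≤ r → r < s.len k → s.o (k + 1) j < s.i k r)

/-- Two slots, at `j` and `j + 1`, end between the gaps `k` and `k + 1`, at a common `b`-point. -/
def RemAt (k j : ℕ) : Prop :=
  s.len k = s.len (k + 1) + 2 ∧ j ≤ s.len (k + 1) ∧
    (∀ r, r + 1 < s.len (k + 1) → s.o (k + 1) r < s.o (k + 1) (r + 1)) ∧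
    (∀ r < j, s.o (k + 1) r = s.i k r ∧ s.lab (k + 1) r = s.lab k r) ∧
    (∀ r, j ≤ r → r < s.len (k + 1) → s.o (k + 1) r = s.i k (r + 2) ∧
      s.lab (k + 1) r = s.lab k (r + 2)) ∧
    s.i k (j + 1) = s.i k j ∧ s.lab k (j + 1) = s.lab k j ∧
    (∀ r < j, s.i k r < s.i k j) ∧ (∀ r, j ≤ r → r < s.len (k + 1) → s.i k j < s.i k (r + 2))

/-- The axioms of layered slot systems. -/
structure Good : Prop where
  len_zero : s.len 0 = 0
  len_top : ∃ K, ∀ k, K ≤ k → s.len k = 0
  near : ∀ k r, r < s.len k → s.o k r ≤ s.i k r + 1 ∧ s.i k r ≤ s.o k r + 1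
  mono : ∀ k r, r + 1 < s.len k → (s.o k r < s.o k (r + 1) ∧ s.i k r < s.i k (r + 1)) ∨
    (s.lab k r = s.lab k (r + 1) ∧ s.o k r = s.o k (r + 1) ∧ s.i k r < s.i k (r + 1)) ∨
    (s.lab k r = s.lab k (r + 1) ∧ s.o k r < s.o k (r + 1) ∧ s.i k r = s.i k (r + 1))
  cut : ∀ k r, r + 1 < s.len k → s.lab k r = s.lab k (r + 1) ∨ s.o k r + 1 < s.i k (r + 1) ∨
    s.i k r + 1 < s.o k (r + 1) ∨ s.op k r
  op_spec : ∀ k r, s.op k r → r + 1 < s.len k ∧ s.o k (r + 1) = s.o k r + 1 ∧
    ∀ r' < s.len k, s.i k r' = s.o k r'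
  link : ∀ k, s.Same k ∨ (∃ j, s.ins k j ∧ s.InsAt k j) ∨ ∃ j, s.RemAt k j
  fresh : ∀ k j k' j', s.ins k j → s.ins k' j' → s.lab (k + 1) j = s.lab (k' + 1) j' →
    k = k' ∧ j = j'

/-- The vertices of a slot system. -/
def IsVx (v : Vx) : Prop :=
  ∃ k r, r < s.len k ∧ (v = (false, k, s.o k r) ∨ v = (true, k + 1, s.i k r))

/-- A conflict-free choice of swaps which connects all labels. -/
def Span : Prop :=
  ∃ F : ℕ → ℕ → Prop, (∀ k r, F k r → s.op k r) ∧ (∀ k r, ¬ (F k r ∧ F k (r + 1))) ∧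
    ∀ S : Set Γ, (∀ k r, F k r → (s.lab k r ∈ S ↔ s.lab k (r + 1) ∈ S)) →
      ∀ k r k' r', r < s.len k → r' < s.len k' → (s.lab k r ∈ S ↔ s.lab k' r' ∈ S)

end Sys

/-! ## Words -/

/-- Operations: kind (`0` for cups, `1` for caps, `2, 3, 4` for groups of this length), index, and
length of the state before the operation. -/
abbrev NOp : Type := ℕ × ℕ × ℕ

/-- Horizontal offset of the strand `q` of a group at time `t`. -/
def off (t q : ℕ) : ℕ :=
  if q = 0 then (if t = 2 ∨ t = 3 then 1 else 0)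
  else if q = 1 then 2
  else if q = 2 then (if t = 2 ∨ t = 3 then 3 else 4)
  else (if t = 0 ∨ t = 5 then 6 else if t = 1 ∨ t = 4 then 5 else 4)

/-- Number of strands in gap `t < 5` of an operation. -/
def cnt (a : NOp) (t : ℕ) : ℕ :=
  if a.1 = 0 then (if t < 4 then a.2.2 else a.2.2 + 2)
  else if a.1 = 1 then (if t = 0 then a.2.2 else a.2.2 - 2)
  else a.2.2

/-- Lower position of the strand `r` in gap `t < 5` of an operation. -/
def oPos (a : NOp) (t r : ℕ) : ℕ :=
  if a.1 = 0 then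
    (if t < 4 then (if r < a.2.1 then 2 * r else 2 * r + t)
    else (if r = a.2.1 ∨ r = a.2.1 + 1 then 2 * a.2.1 + 1 else 2 * r))
  else if a.1 = 1 then
    (if t = 0 then 2 * r else (if r < a.2.1 then 2 * r else 2 * r + 5 - t))
  else (if r < a.2.1 ∨ a.2.1 + a.1 ≤ r then 2 * r else 2 * a.2.1 + off t (r - a.2.1))

/-- Upper position of the strand `r` in gap `t < 5` of an operation. -/
def iPos (a : NOp) (t r : ℕ) : ℕ :=
  if a.1 = 0 then
    (if t < 4 then (if r < a.2.1 then 2 * r else 2 * r + t + 1) else 2 * r)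
  else if a.1 = 1 then
    (if t = 0 then (if r = a.2.1 ∨ r = a.2.1 + 1 then 2 * a.2.1 + 1 else 2 * r)
    else (if r < a.2.1 then 2 * r else 2 * r + 4 - t))
  else (if r < a.2.1 ∨ a.2.1 + a.1 ≤ r then 2 * r else 2 * a.2.1 + off (t + 1) (r - a.2.1))

/-- All slots of a word: gap, lower position, upper position. -/
def darts (w : List NOp) : List (ℕ × ℕ × ℕ) :=
  w.zipIdx.flatMap fun e => (List.range 5).flatMap fun t =>
    ((List.range (2 * w.length + 2)).filter (fun r => decide (r < cnt e.1 t))).map fun r =>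
      (5 * e.2 + t, oPos e.1 t r, iPos e.1 t r)

/-- The vertices of the far graph of a word. -/
def verts (w : List NOp) : List Vx :=
  List.dedup ((darts w).map (fun d : ℕ × ℕ × ℕ => ((false, d.1, d.2.1) : Vx)) ++
    (darts w).map (fun d : ℕ × ℕ × ℕ => ((true, d.1 + 1, d.2.2) : Vx)))

/-- What an operation does to the labels: a cup creates a label, a cap, a group with a tag. -/
inductive Evt (Γ Λ : Type) : Type
  | cup (c : Γ) : Evt Γ Λ
  | cap : Evt Γ Λ
  | grp (t : Λ) : Evt Γ Λ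

/-- `Run gr w e s s'`: the word `w` with events `e` transforms the list `s` of strands into `s'`
(a strand is a label with a side); `gr t` is the list of labels met by the group with tag `t`. -/
inductive Run {Γ Λ : Type} (gr : Λ → List Γ) :
    List NOp → List (Evt Γ Λ) → List (Γ × Bool) → List (Γ × Bool) → Prop
  | nil (s : List (Γ × Bool)) : Run gr [] [] s s
  | cup (p q : List (Γ × Bool)) (c : Γ) {w : List NOp} {e : List (Evt Γ Λ)}
      {s' : List (Γ × Bool)} (h : Run gr w e (p ++ (c, false) :: (c, true) :: q) s') :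
      Run gr ((0, p.length, p.length + q.length) :: w) (Evt.cup c :: e) (p ++ q) s'
  | cap (p q : List (Γ × Bool)) (c : Γ) {w : List NOp} {e : List (Evt Γ Λ)}
      {s' : List (Γ × Bool)} (h : Run gr w e (p ++ q) s') :
      Run gr ((1, p.length, p.length + q.length + 2) :: w) (Evt.cap :: e)
        (p ++ (c, false) :: (c, true) :: q) s'
  | grp (p g q : List (Γ × Bool)) (t : Λ) (ht : gr t = g.map Prod.fst) (h2 : 2 ≤ g.length)
      (h4 : g.length ≤ 4) {w : List NOp} {e : List (Evt Γ Λ)}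
      {s' : List (Γ × Bool)} (h : Run gr w e (p ++ (g ++ q)) s') :
      Run gr ((g.length, p.length, p.length + g.length + q.length) :: w) (Evt.grp t :: e)
        (p ++ (g ++ q)) s'

/-- A conflict-free choice of adjacent pairs in the groups which connects all labels. -/
def GSpan {Γ Λ : Type} (gr : Λ → List Γ) (okT : Λ → Prop) (okL : Γ → Prop) : Prop :=
  ∃ f : Λ → ℕ → Prop, (∀ t q, ¬ (f t q ∧ f t (q + 1))) ∧
    ∀ S : Set Γ, (∀ t, okT t → ∀ (q : ℕ) (hq : q + 1 < (gr t).length), f t q →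
      ((gr t)[q] ∈ S ↔ (gr t)[q + 1] ∈ S)) → ∀ a b, okL a → okL b → (a ∈ S ↔ b ∈ S)

/-- The events of a word are different, except for caps. -/
def Fresh {Γ Λ : Type} (e : List (Evt Γ Λ)) : Prop :=
  e.Pairwise (fun a b => a = b → a = Evt.cap)

/-! ## The embedding -/

/-- The embedding of the far graph in the plane. -/
def emb (H M : ℕ) (v : Vx) : ℤ × ℤ :=
  if v.1 = true then
    (2 * (4 ^ (4 * M + 2)) ^ 2 - (2 * 4 ^ (2 * M - (v.2.1 + H + v.2.2)) +
      4 ^ (2 * (M - (v.2.1 + H - v.2.2)))), 2 * 4 ^ (4 * M + 2) * 4 ^ (M - (v.2.1 + H - v.2.2)))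
  else
    (4 ^ (2 * M - 4 * v.2.2) - 4 ^ (2 * M + 1 - (v.2.1 + H + v.2.2)),
      2 * 4 ^ (4 * M + 2) * 4 ^ (M - 2 * v.2.2))

/-- The threshold: the squared length `4 L ^ 4`, where `L = 4 ^ (4 M + 2)`. -/
def thr (M : ℕ) : ℕ := 4 * (4 ^ (4 * M + 2)) ^ 4

/-- The instance of a word. -/
def inst (w : List NOp) : List (ℤ × ℤ) × ℕ :=
  ((verts w).map (emb (4 * w.length + 10) (13 * w.length + 21)), thr (13 * w.length + 21))

end Pool.Agent.H820R2.MS
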