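import Mathlib

/-!
# Maximum scatter TSP in the plane: definitions

Tours of finite lists, and squared Euclidean distances.
-/

namespace Pool.Agent.H820R2.MS

/-- `P` has a tour (a cyclic ordering `σ` of all its members) in which any two cyclically
consecutive members are related by `R`. -/
def Tour {α : Type} (R : α → α → Prop) (P : List α) : Prop :=
  ∃ σ : List α, σ.Perm P ∧ ∀ (i : ℕ) (h : i < σ.length),
    R σ[i] (σ[(i + 1) % σ.length]'(Nat.mod_lt _ (Nat.zero_lt_of_lt h)))

/-- The squared Euclidean distance of two points of the plane with integer coordinates. -/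
def dist2 (p q : ℤ × ℤ) : ℤ := (p.1 - q.1) ^ 2 + (p.2 - q.2) ^ 2

/-- The decision version of the maximum scatter TSP in the Euclidean plane: the list `I.1` consists
of at least three different points with integer coordinates, and it has a tour all of whose edges
have squared Euclidean length at least `I.2`. -/
def MaxScatter (I : List (ℤ × ℤ) × ℕ) : Prop :=
  I.1.Nodup ∧ 3 ≤ I.1.length ∧ Tour (fun p q => (I.2 : ℤ) ≤ dist2 p q) I.1

end Pool.Agent.H820R2.MS
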