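import Pool.Agent.H820R2.MS.Defs

/-!
# Maximum scatter TSP in the plane: rational coordinates
-/

namespace Pool.Agent.H820R2.MS

/-- The point of the Euclidean plane with rational coordinates `p`. -/
noncomputable def ptQ (p : ℚ × ℚ) : EuclideanSpace ℝ (Fin 2) := !₂[(p.1 : ℝ), (p.2 : ℝ)]

/-- The decision version of the Euclidean Max-Scatter-TSP in the plane with rational coordinates:
the list `I.1` consists of at least three different points, and it has a round-trip all of whose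
edges have Euclidean length at least `I.2`. -/
def MaxScatterQ (I : List (ℚ × ℚ) × ℚ) : Prop :=
  I.1.Nodup ∧ 3 ≤ I.1.length ∧ Tour (fun p q => (I.2 : ℝ) ≤ dist (ptQ p) (ptQ q)) I.1

/-- Comparison of Euclidean lengths with a rational number. -/
theorem le_dist_iff (L : ℚ) (p q : ℚ × ℚ) : (L : ℝ) ≤ dist (ptQ p) (ptQ q) ↔
    L < 0 ∨ L ^ 2 ≤ (p.1 - q.1) ^ 2 + (p.2 - q.2) ^ 2 := by
  have h : dist (ptQ p) (ptQ q) =
      Real.sqrt ((((p.1 - q.1) ^ 2 + (p.2 - q.2) ^ 2 : ℚ) : ℝ)) := by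
    rw [EuclideanSpace.dist_eq]
    simp [ptQ, Fin.sum_univ_two, Real.dist_eq, sq_abs]
  rw [h]
  rcases lt_or_ge L 0 with hL | hL
  · have : (L : ℝ) < 0 := by exact_mod_cast hL
    exact ⟨fun _ => Or.inl hL, fun _ => this.le.trans (Real.sqrt_nonneg _)⟩
  · have h0 : (0 : ℝ) ≤ (L : ℝ) := by exact_mod_cast hL
    have h2 : (0 : ℝ) ≤ (((p.1 - q.1) ^ 2 + (p.2 - q.2) ^ 2 : ℚ) : ℝ) := by
      exact_mod_cast add_nonneg (sq_nonneg (p.1 - q.1)) (sq_nonneg (p.2 - q.2))
    rw [Real.le_sqrt h0 h2]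
    constructor
    · intro h1
      right
      exact_mod_cast h1
    · rintro (h1 | h1)
      · exact absurd h1 (not_lt.2 hL)
      · exact_mod_cast h1

end Pool.Agent.H820R2.MS
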