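import Pool.Agent.H820R2.MS.SatDefs

/-!
# Maximum scatter TSP in the plane: the word of a formula runs correctly (task T6a)
-/

namespace Pool.Agent.H820R2.MS

section generic

variable {Γ Λ : Type} {gr : Λ → List Γ}

private theorem Run.cupAt {w : List NOp} {e : List (Evt Γ Λ)} {s s' : List (Γ × Bool)} (k l : ℕ)
    (c : Γ) (hk : k ≤ s.length) (hl : l = s.length)
    (h : Run gr w e (s.take k ++ (c, false) :: (c, true) :: s.drop k) s') :
    Run gr ((0, k, l) :: w) (Evt.cup c :: e) s s' := by
  have h1 := Run.cup (s.take k) (s.drop k) c h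
  rw [List.take_append_drop, List.length_take, List.length_drop, min_eq_left hk] at h1
  rw [hl]
  have h2 : k + (s.length - k) = s.length := by omega
  rw [h2] at h1
  exact h1

private theorem Run.capAt {w : List NOp} {e : List (Evt Γ Λ)} {s s' : List (Γ × Bool)} (k l : ℕ)
    (c : Γ) (hk : k + 2 ≤ s.length) (hl : l = s.length)
    (hs : s = s.take k ++ (c, false) :: (c, true) :: s.drop (k + 2))
    (h : Run gr w e (s.take k ++ s.drop (k + 2)) s') :
    Run gr ((1, k, l) :: w) (Evt.cap :: e) s s' := by
  have h1 := Run.cap (s.take k) (s.drop (k + 2)) c h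
  rw [← hs, List.length_take, List.length_drop, min_eq_left (by omega)] at h1
  rw [hl]
  have h2 : k + (s.length - (k + 2)) + 2 = s.length := by omega
  rw [h2] at h1
  exact h1

private theorem Run.grpAt {w : List NOp} {e : List (Evt Γ Λ)} {s s' : List (Γ × Bool)}
    (g k l : ℕ) (t : Λ) (hk : k + g ≤ s.length) (hl : l = s.length) (h2 : 2 ≤ g) (h4 : g ≤ 4)
    (hg : gr t = ((s.drop k).take g).map Prod.fst) (h : Run gr w e s s') :
    Run gr ((g, k, l) :: w) (Evt.grp t :: e) s s' := by
  have hlen : ((s.drop k).take g).length = g := by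
    rw [List.length_take, List.length_drop]
    omega
  have hs : s.take k ++ ((s.drop k).take g ++ (s.drop k).drop g) = s := by
    rw [List.take_append_drop, List.take_append_drop]
  have h1 := Run.grp (gr := gr) (s.take k) ((s.drop k).take g) ((s.drop k).drop g) t hg
    (by omega) (by omega) (w := w) (e := e) (s' := s') (by rw [hs]; exact h)
  rw [hs, hlen, List.length_take, List.length_drop, List.length_drop, min_eq_left (by omega)] at h1
  rw [hl]
  have h5 : k + g + (s.length - k - g) = s.length := by omega
  rw [h5] at h1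
  exact h1

private theorem Run.cat {w w' : List NOp} {e e' : List (Evt Γ Λ)} {s s' s'' : List (Γ × Bool)}
    (h : Run gr w e s s') (h' : Run gr w' e' s' s'') : Run gr (w ++ w') (e ++ e') s s'' := by
  induction h with
  | nil s => exact h'
  | cup p q c _ ih => exact Run.cup p q c (ih h')
  | cap p q c _ ih => exact Run.cap p q c (ih h')
  | grp p g q t ht h2 h4 _ ih => exact Run.grp p g q t ht h2 h4 (ih h')

private theorem Run.frame {w : List NOp} {e : List (Evt Γ Λ)} {s s' : List (Γ × Bool)}
    (h : Run gr w e s s') (p q : List (Γ × Bool)) :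
    Run gr (w.map (sh p.length (p.length + q.length))) e (p ++ (s ++ q)) (p ++ (s' ++ q)) := by
  induction h with
  | nil s => exact Run.nil _
  | cup p0 q0 c _ ih =>
    have h1 := Run.cup (gr := gr) (p ++ p0) (q0 ++ q) c
      (w := _) (e := _) (s' := _) (by simpa using ih)
    have e1 : sh p.length (p.length + q.length) (0, p0.length, p0.length + q0.length) =
        ((0, (p ++ p0).length, (p ++ p0).length + (q0 ++ q).length) : NOp) := by
      simp only [sh, List.length_append, Prod.mk.injEq, true_and]
      omega
    have e2 : p ++ (p0 ++ q0 ++ q) = (p ++ p0) ++ (q0 ++ q) := by simp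
    rw [List.map_cons, e1, e2]
    exact h1
  | cap p0 q0 c _ ih =>
    have h1 := Run.cap (gr := gr) (p ++ p0) (q0 ++ q) c
      (w := _) (e := _) (s' := _) (by simpa using ih)
    have e1 : sh p.length (p.length + q.length) (1, p0.length, p0.length + q0.length + 2) =
        ((1, (p ++ p0).length, (p ++ p0).length + (q0 ++ q).length + 2) : NOp) := by
      simp only [sh, List.length_append, Prod.mk.injEq, true_and]
      omega
    have e2 : p ++ (p0 ++ (c, false) :: (c, true) :: q0 ++ q) =
        (p ++ p0) ++ (c, false) :: (c, true) :: (q0 ++ q) := by simp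
    rw [List.map_cons, e1, e2]
    exact h1
  | grp p0 g q0 t ht h2 h4 _ ih =>
    have h1 := Run.grp (gr := gr) (p ++ p0) g (q0 ++ q) t ht h2 h4
      (w := _) (e := _) (s' := _) (by simpa using ih)
    have e1 : sh p.length (p.length + q.length)
          (g.length, p0.length, p0.length + g.length + q0.length) =
        ((g.length, (p ++ p0).length, (p ++ p0).length + g.length + (q0 ++ q).length) : NOp) := by
      simp only [sh, List.length_append, Prod.mk.injEq, true_and]
      omega
    have e2 : p ++ (p0 ++ (g ++ q0) ++ q) = (p ++ p0) ++ (g ++ (q0 ++ q)) := by simp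
    rw [List.map_cons, e1, e2]
    exact h1

private theorem Run.loop {N : ℕ} {W : ℕ → List NOp} {E : ℕ → List (Evt Γ Λ)}
    (st : ℕ → List (Γ × Bool)) (h : ∀ i < N, Run gr (W i) (E i) (st i) (st (i + 1))) :
    Run gr ((List.range N).flatMap W) ((List.range N).flatMap E) (st 0) (st N) := by
  induction N with
  | zero => exact Run.nil _
  | succ N ih =>
    rw [List.range_succ, List.flatMap_append, List.flatMap_append, List.flatMap_singleton,
      List.flatMap_singleton]
    exact Run.cat (ih fun i hi => h i (by omega)) (h N (by omega))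

private theorem Run.loopMap {N : ℕ} {W : ℕ → NOp} {E : ℕ → Evt Γ Λ}
    (st : ℕ → List (Γ × Bool)) (h : ∀ i < N, Run gr [W i] [E i] (st i) (st (i + 1))) :
    Run gr ((List.range N).map W) ((List.range N).map E) (st 0) (st N) := by
  induction N with
  | zero => exact Run.nil _
  | succ N ih =>
    rw [List.range_succ, List.map_append, List.map_append, List.map_singleton, List.map_singleton]
    exact Run.cat (ih fun i hi => h i (by omega)) (h N (by omega))

end generic

/-- the wall strands `a, …, a + k - 1` -/
private def wsl (a k : ℕ) : List (Lb × Bool) := (List.range' a k).map ws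

private theorem wsl_length (a k : ℕ) : (wsl a k).length = k := by simp [wsl]

private theorem wsl_add (a k l : ℕ) : wsl a (k + l) = wsl a k ++ wsl (a + k) l := by
  unfold wsl
  rw [← List.map_append]
  congr 1
  have := List.range'_append_1 (s := a) (m := k) (n := l)
  rw [this]

private theorem wsl_succ (a k : ℕ) : wsl a (k + 1) = ws a :: wsl (a + 1) k := by
  simp [wsl, List.range'_succ]

private theorem ws_even (t : ℕ) : ws (2 * t) = (Lb.R t, false) := by
  unfold ws
  have h1 : 2 * t / 2 = t := by omega
  have h2 : decide (2 * t % 2 = 1) = false := by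
    rw [decide_eq_false_iff_not]
    omega
  rw [h1, h2]

private theorem ws_odd (t : ℕ) : ws (2 * t + 1) = (Lb.R t, true) := by
  unfold ws
  have h1 : (2 * t + 1) / 2 = t := by omega
  have h2 : decide ((2 * t + 1) % 2 = 1) = true := by
    rw [decide_eq_true_iff]
    omega
  rw [h1, h2]

/-- the five strands of a column -/
private def col (j i : ℕ) : List (Lb × Bool) :=
  [ws (3 * i), (Lb.V i j, false), (Lb.V i j, true), ws (3 * i + 1), ws (3 * i + 2)]

/-- the columns `a, …, a + k - 1` -/
private def cols (j a k : ℕ) : List (Lb × Bool) := (List.range' a k).flatMap (col j)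

private theorem cols_length (j a k : ℕ) : (cols j a k).length = 5 * k := by
  induction k generalizing a with
  | zero => simp [cols]
  | succ k ih =>
    have := ih (a + 1)
    unfold cols at this ⊢
    rw [List.range'_succ, List.flatMap_cons, List.length_append, this]
    simp [col]
    ring

private theorem cols_add (j a k l : ℕ) : cols j a (k + l) = cols j a k ++ cols j (a + k) l := by
  unfold cols
  rw [← List.flatMap_append]
  congr 1
  have := List.range'_append_1 (s := a) (m := k) (n := l)
  rw [this]

private theorem cols_succ (j a k : ℕ) : cols j a (k + 1) = col j a ++ cols j (a + 1) k := by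
  simp [cols, List.range'_succ]

private theorem cols_one (j a : ℕ) : cols j a 1 = col j a := by
  simp [cols, List.range'_succ]

private def full (n j : ℕ) : List (Lb × Bool) := cols j 0 (2 * n) ++ wsl (6 * n) 2

variable (n m : ℕ) (occ : ℕ → ℕ → Bool)

/-! ### local runs -/

private theorem run_top (t : ℕ) : Run (gr n m occ) topW (topE t)
    (cols 0 (2 * t) 2) (cols 0 (2 * t) 2) := by
  have hc : cols 0 (2 * t) 2 = [ws (3 * (2 * t)), (Lb.V (2 * t) 0, false), (Lb.V (2 * t) 0, true),
      ws (3 * (2 * t) + 1), ws (3 * (2 * t) + 2), ws (3 * (2 * t + 1)),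
      (Lb.V (2 * t + 1) 0, false), (Lb.V (2 * t + 1) 0, true), ws (3 * (2 * t + 1) + 1),
      ws (3 * (2 * t + 1) + 2)] := by
    simp [cols, List.range'_succ, col]
  rw [hc]
  unfold topW topE
  refine Run.cupAt _ _ _ (by simp) rfl ?_
  refine Run.grpAt _ _ _ _ (by simp) rfl (by norm_num) (by norm_num) rfl ?_
  refine Run.cupAt _ _ _ (by simp) rfl ?_
  refine Run.grpAt _ _ _ _ (by simp) rfl (by norm_num) (by norm_num) rfl ?_
  refine Run.grpAt _ _ _ _ (by simp) rfl (by norm_num) (by norm_num) rfl ?_
  refine Run.capAt _ _ _ (by simp) rfl rfl ?_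
  refine Run.capAt _ _ _ (by simp) rfl rfl ?_
  exact Run.nil _

private theorem run_tile (i j : ℕ) : Run (gr n m occ) (tileW (occ i j)) (tileE i j)
    ([(lc i j, false), (lc i j, true)] ++ col j i)
    (col (j + 1) i ++ [(lc (i + 1) j, false), (lc (i + 1) j, true)]) := by
  have hlc : lc (i + 1) j = Lb.J i j := by simp [lc]
  rw [hlc]
  have hcat : ∀ b, tileW b = ((0, 3, 7) : NOp) :: (tileW b).tail := fun _ => rfl
  unfold tileW tileE col
  simp only [List.take_succ_cons, List.take_zero, List.drop_succ_cons,
    List.drop_zero, List.cons_append, List.nil_append]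
  refine Run.cupAt _ _ _ (by simp) rfl ?_
  simp only [List.take_succ_cons, List.take_zero, List.drop_succ_cons,
    List.drop_zero, List.cons_append, List.nil_append]
  refine Run.cupAt _ _ _ (by simp) rfl ?_
  simp only [List.take_succ_cons, List.take_zero, List.drop_succ_cons,
    List.drop_zero, List.cons_append, List.nil_append]
  refine Run.grpAt _ _ _ _ (by simp) rfl (by norm_num) (by norm_num) rfl ?_
  refine Run.capAt _ _ _ (by simp) rfl rfl ?_
  simp only [List.take_succ_cons, List.take_zero, List.drop_succ_cons,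
    List.drop_zero, List.cons_append, List.nil_append]
  refine Run.cupAt _ _ _ (by simp) rfl ?_
  simp only [List.take_succ_cons, List.take_zero, List.drop_succ_cons,
    List.drop_zero, List.cons_append, List.nil_append]
  refine Run.grpAt _ _ _ _ (by simp) rfl (by norm_num) (by norm_num) rfl ?_
  refine Run.capAt _ _ _ (by simp) rfl rfl ?_
  simp only [List.take_succ_cons, List.take_zero, List.drop_succ_cons,
    List.drop_zero, List.cons_append, List.nil_append]
  refine Run.capAt _ _ _ (by simp) rfl rfl ?_
  simp only [List.take_succ_cons, List.take_zero, List.drop_succ_cons,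
    List.drop_zero, List.cons_append, List.nil_append]
  refine Run.cupAt _ _ _ (by simp) rfl ?_
  simp only [List.take_succ_cons, List.take_zero, List.drop_succ_cons,
    List.drop_zero, List.cons_append, List.nil_append]
  refine Run.cupAt _ _ _ (by simp) rfl ?_
  simp only [List.take_succ_cons, List.take_zero, List.drop_succ_cons,
    List.drop_zero, List.cons_append, List.nil_append]
  refine Run.grpAt _ _ _ _ (by simp) rfl (by norm_num) (by norm_num) rfl ?_
  refine Run.capAt _ _ _ (by simp) rfl rfl ?_
  simp only [List.take_succ_cons, List.take_zero, List.drop_succ_cons,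
    List.drop_zero, List.cons_append, List.nil_append]
  refine Run.cupAt _ _ _ (by simp) rfl ?_
  simp only [List.take_succ_cons, List.take_zero, List.drop_succ_cons,
    List.drop_zero, List.cons_append, List.nil_append]
  refine Run.grpAt _ _ _ _ (by simp) rfl (by norm_num) (by norm_num) rfl ?_
  refine Run.capAt _ _ _ (by simp) rfl rfl ?_
  simp only [List.take_succ_cons, List.take_zero, List.drop_succ_cons,
    List.drop_zero, List.cons_append, List.nil_append]
  refine Run.capAt _ _ _ (by simp) rfl rfl ?_
  simp only [List.take_succ_cons, List.take_zero, List.drop_succ_cons,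
    List.drop_zero, List.cons_append, List.nil_append]
  refine Run.cupAt _ _ _ (by simp) rfl ?_
  simp only [List.take_succ_cons, List.take_zero, List.drop_succ_cons,
    List.drop_zero, List.cons_append, List.nil_append]
  refine Run.grpAt _ _ _ _ (by simp) rfl (by norm_num) (by norm_num) rfl ?_
  refine Run.capAt _ _ _ (by simp) rfl rfl ?_
  simp only [List.take_succ_cons, List.take_zero, List.drop_succ_cons,
    List.drop_zero, List.cons_append, List.nil_append]
  refine Run.cupAt _ _ _ (by simp) rfl ?_
  simp only [List.take_succ_cons, List.take_zero, List.drop_succ_cons,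
    List.drop_zero, List.cons_append, List.nil_append]
  refine Run.grpAt _ _ _ _ (by simp) rfl (by norm_num) (by norm_num) rfl ?_
  refine Run.capAt _ _ _ (by simp) rfl rfl ?_
  simp only [List.take_succ_cons, List.take_zero, List.drop_succ_cons,
    List.drop_zero, List.cons_append, List.nil_append]
  refine Run.cupAt _ _ _ (by simp) rfl ?_
  simp only [List.take_succ_cons, List.take_zero, List.drop_succ_cons,
    List.drop_zero, List.cons_append, List.nil_append]
  refine Run.cupAt _ _ _ (by simp) rfl ?_
  simp only [List.take_succ_cons, List.take_zero, List.drop_succ_cons,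
    List.drop_zero, List.cons_append, List.nil_append]
  refine Run.cupAt _ _ _ (by simp) rfl ?_
  simp only [List.take_succ_cons, List.take_zero, List.drop_succ_cons,
    List.drop_zero, List.cons_append, List.nil_append]
  refine Run.cupAt _ _ _ (by simp) rfl ?_
  simp only [List.take_succ_cons, List.take_zero, List.drop_succ_cons,
    List.drop_zero, List.cons_append, List.nil_append]
  refine Run.grpAt _ _ _ _ (by simp) rfl (by norm_num) (by norm_num) rfl ?_
  refine Run.grpAt _ _ _ _ (by simp) rfl (by norm_num) (by norm_num) rfl ?_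
  refine Run.grpAt _ _ _ _ (by split_ifs <;> simp) rfl (by split_ifs <;> norm_num)
    (by split_ifs <;> norm_num) (by
      cases h : occ i j
      · simp only [gr, h]
        rfl
      · simp only [gr, h]
        rfl) ?_
  refine Run.capAt _ _ _ (by simp) rfl rfl ?_
  simp only [List.take_succ_cons, List.take_zero, List.drop_succ_cons,
    List.drop_zero, List.cons_append, List.nil_append]
  refine Run.capAt _ _ _ (by simp) rfl rfl ?_
  simp only [List.take_succ_cons, List.take_zero, List.drop_succ_cons,
    List.drop_zero, List.cons_append, List.nil_append]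
  refine Run.capAt _ _ _ (by simp) rfl rfl ?_
  simp only [List.take_succ_cons, List.take_zero, List.drop_succ_cons,
    List.drop_zero, List.cons_append, List.nil_append]
  refine Run.capAt _ _ _ (by simp) rfl rfl ?_
  simp only [List.take_succ_cons, List.take_zero, List.drop_succ_cons,
    List.drop_zero, List.cons_append, List.nil_append]
  exact Run.nil _

/-! ### the phases -/

private theorem run_cups : Run (gr n m occ)
    ((List.range (3 * n + 1)).map fun t => ((0, 2 * t, 2 * t) : NOp))
    ((List.range (3 * n + 1)).map fun t => Evt.cup (.R t)) [] (wsl 0 (6 * n + 2)) := by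
  have h := Run.loopMap (gr := gr n m occ) (N := 3 * n + 1)
    (W := fun t => ((0, 2 * t, 2 * t) : NOp)) (E := fun t => Evt.cup (.R t))
    (fun t => wsl 0 (2 * t)) (by
      intro t _
      refine Run.cupAt _ _ _ (by simp [wsl_length]) (by simp [wsl_length]) ?_
      have h1 : wsl 0 (2 * (t + 1)) = wsl 0 (2 * t) ++ [(Lb.R t, false), (Lb.R t, true)] := by
        rw [show 2 * (t + 1) = 2 * t + 2 by ring, wsl_add, Nat.zero_add, wsl_succ, wsl_succ,
          ws_even, ws_odd]
        rfl
      rw [h1, List.take_of_length_le (by simp [wsl_length]),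
        List.drop_of_length_le (by simp [wsl_length])]
      exact Run.nil _)
  have e1 : 2 * (3 * n + 1) = 6 * n + 2 := by ring
  simp only [e1] at h
  exact h

private theorem run_links : Run (gr n m occ)
    ((List.range (3 * n)).map fun t => ((2, 2 * t + 1, 6 * n + 2) : NOp))
    ((List.range (3 * n)).map fun t => Evt.grp (.link t)) (wsl 0 (6 * n + 2))
    (wsl 0 (6 * n + 2)) := by
  refine Run.loopMap (gr := gr n m occ) (fun _ => wsl 0 (6 * n + 2)) ?_
  intro t ht
  have h1 : wsl 0 (6 * n + 2) = wsl 0 (2 * t + 1) ++ ([(Lb.R t, true), (Lb.R (t + 1), false)] ++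
      wsl (2 * t + 3) (6 * n + 2 - (2 * t + 3))) := by
    obtain ⟨K, hK⟩ : ∃ K, K = 6 * n + 2 - (2 * t + 3) := ⟨_, rfl⟩
    have e : 6 * n + 2 = (2 * t + 1) + (K + 1 + 1) := by omega
    have e1 : wsl 0 (6 * n + 2) = wsl 0 ((2 * t + 1) + (K + 1 + 1)) := by rw [← e]
    rw [← hK, e1, wsl_add, Nat.zero_add, wsl_succ (2 * t + 1), wsl_succ (2 * t + 1 + 1), ws_odd,
      show 2 * t + 1 + 1 = 2 * (t + 1) by ring, ws_even]
    rfl
  refine Run.grpAt _ _ _ _ ?_ ?_ le_rfl (by norm_num) ?_ (Run.nil _)
  · rw [wsl_length]; omega
  · rw [wsl_length]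
  · rw [h1, List.drop_append_of_le_length (by rw [wsl_length]), List.drop_of_length_le
      (by rw [wsl_length])]
    rfl

private theorem run_cupsV : Run (gr n m occ)
    ((List.range (2 * n)).map fun i => ((0, 5 * i + 1, 6 * n + 2 + 2 * i) : NOp))
    ((List.range (2 * n)).map fun i => Evt.cup (.V i 0)) (wsl 0 (6 * n + 2)) (full n 0) := by
  have h := Run.loopMap (gr := gr n m occ) (N := 2 * n)
    (W := fun i => ((0, 5 * i + 1, 6 * n + 2 + 2 * i) : NOp)) (E := fun i => Evt.cup (.V i 0))
    (fun i => cols 0 0 i ++ wsl (3 * i) (6 * n + 2 - 3 * i)) (by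
      intro i hi
      have h1 : wsl (3 * i) (6 * n + 2 - 3 * i) = ws (3 * i) :: ws (3 * i + 1) :: ws (3 * i + 2) ::
          wsl (3 * (i + 1)) (6 * n + 2 - 3 * (i + 1)) := by
        rw [show 6 * n + 2 - 3 * i = (6 * n + 2 - 3 * (i + 1)) + 1 + 1 + 1 by omega, wsl_succ,
          wsl_succ, wsl_succ]
        rfl
      refine Run.cupAt _ _ _ ?_ ?_ ?_
      · simp only [List.length_append, cols_length, wsl_length]; omega
      · simp only [List.length_append, cols_length, wsl_length]; omega
      · have h2 : cols 0 0 i ++ wsl (3 * i) (6 * n + 2 - 3 * i) =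
            (cols 0 0 i ++ [ws (3 * i)]) ++ (ws (3 * i + 1) :: ws (3 * i + 2) ::
              wsl (3 * (i + 1)) (6 * n + 2 - 3 * (i + 1))) := by
          rw [h1]; simp
        have h3 : (cols 0 0 i ++ [ws (3 * i)]).length = 5 * i + 1 := by
          simp [cols_length]
        have h4 : cols 0 0 (i + 1) ++ wsl (3 * (i + 1)) (6 * n + 2 - 3 * (i + 1)) =
            (cols 0 0 i ++ [ws (3 * i)]) ++ (Lb.V i 0, false) :: (Lb.V i 0, true) ::
            (ws (3 * i + 1) :: ws (3 * i + 2) ::
              wsl (3 * (i + 1)) (6 * n + 2 - 3 * (i + 1))) := by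
          rw [cols_add, cols_one, Nat.zero_add]
          simp [col]
        simp only [h2, h4]
        rw [List.take_left' h3, List.drop_left' h3]
        exact Run.nil _)
  have e2 : 3 * (2 * n) = 6 * n := by ring
  have e4 : 6 * n + 2 - 6 * n = 2 := by omega
  simp only [e2, e4, Nat.mul_zero, Nat.sub_zero] at h
  have e3 : cols 0 0 0 = [] := rfl
  rw [e3, List.nil_append] at h
  exact h

private theorem full_length (j : ℕ) : (full n j).length = 10 * n + 2 := by
  simp only [full, List.length_append, cols_length, wsl_length]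
  ring

private theorem run_tops : Run (gr n m occ)
    ((List.range n).flatMap fun t => topW.map (sh (10 * t) (10 * n - 8)))
    ((List.range n).flatMap fun t => topE t) (full n 0) (full n 0) := by
  refine Run.loop (gr := gr n m occ) (fun _ => full n 0) ?_
  intro t ht
  have h1 : full n 0 = cols 0 0 (2 * t) ++ (cols 0 (2 * t) 2 ++
      (cols 0 (2 * t + 2) (2 * n - (2 * t + 2)) ++ wsl (6 * n) 2)) := by
    unfold full
    rw [show cols 0 0 (2 * n) = cols 0 0 (2 * t + 2 + (2 * n - (2 * t + 2))) by congr 1; omega,
      cols_add, cols_add, Nat.zero_add, Nat.zero_add]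
    simp
  have h2 := Run.frame (run_top n m occ t) (cols 0 0 (2 * t))
    (cols 0 (2 * t + 2) (2 * n - (2 * t + 2)) ++ wsl (6 * n) 2)
  rw [← h1] at h2
  have e1 : (cols 0 0 (2 * t)).length = 10 * t := by rw [cols_length]; ring
  have e2 : (cols 0 (2 * t + 2) (2 * n - (2 * t + 2)) ++ wsl (6 * n) 2).length =
      10 * n - 8 - 10 * t := by
    rw [List.length_append, cols_length, wsl_length]; omega
  rw [e1, e2, show 10 * t + (10 * n - 8 - 10 * t) = 10 * n - 8 by omega] at h2
  exact h2

private theorem run_tiles (j : ℕ) : Run (gr n m occ)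
    ((List.range (2 * n)).flatMap fun i => (tileW (occ i j)).map (sh (5 * i) (10 * n - 3)))
    ((List.range (2 * n)).flatMap fun i => tileE i j)
    ([(Lb.B j, false), (Lb.B j, true)] ++ full n j)
    (cols (j + 1) 0 (2 * n) ++ ([(lc (2 * n) j, false), (lc (2 * n) j, true)] ++
      wsl (6 * n) 2)) := by
  have h := Run.loop (gr := gr n m occ) (N := 2 * n)
    (W := fun i => (tileW (occ i j)).map (sh (5 * i) (10 * n - 3))) (E := fun i => tileE i j)
    (fun i => cols (j + 1) 0 i ++ ([(lc i j, false), (lc i j, true)] ++
      (cols j i (2 * n - i) ++ wsl (6 * n) 2))) (by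
      intro i hi
      have h1 := Run.frame (run_tile n m occ i j) (cols (j + 1) 0 i)
        (cols j (i + 1) (2 * n - (i + 1)) ++ wsl (6 * n) 2)
      have e1 : (cols (j + 1) 0 i).length = 5 * i := cols_length _ _ _
      have e2 : (cols j (i + 1) (2 * n - (i + 1)) ++ wsl (6 * n) 2).length =
          10 * n - 3 - 5 * i := by
        rw [List.length_append, cols_length, wsl_length]; omega
      rw [e1, e2, show 5 * i + (10 * n - 3 - 5 * i) = 10 * n - 3 by omega] at h1
      have e3 : cols (j + 1) 0 i ++ ([(lc i j, false), (lc i j, true)] ++ col j i ++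
          (cols j (i + 1) (2 * n - (i + 1)) ++ wsl (6 * n) 2)) =
          cols (j + 1) 0 i ++ ([(lc i j, false), (lc i j, true)] ++
          (cols j i (2 * n - i) ++ wsl (6 * n) 2)) := by
        rw [show 2 * n - i = (2 * n - (i + 1)) + 1 by omega, cols_succ]
        simp
      have e4 : cols (j + 1) 0 i ++ (col (j + 1) i ++ [(lc (i + 1) j, false), (lc (i + 1) j, true)] ++
          (cols j (i + 1) (2 * n - (i + 1)) ++ wsl (6 * n) 2)) =
          cols (j + 1) 0 (i + 1) ++ ([(lc (i + 1) j, false), (lc (i + 1) j, true)] ++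
          (cols j (i + 1) (2 * n - (i + 1)) ++ wsl (6 * n) 2)) := by
        rw [cols_add, cols_one, Nat.zero_add]
        simp
      rw [e3, e4] at h1
      exact h1)
  have e1 : cols (j + 1) 0 0 = [] := rfl
  have e2 : cols j (2 * n) (2 * n - 2 * n) = [] := by
    rw [Nat.sub_self]; rfl
  have e3 : lc 0 j = Lb.B j := by simp [lc]
  simp only [e1, e2, e3, Nat.sub_zero, List.nil_append] at h
  exact h

private theorem run_row (j : ℕ) : Run (gr n m occ) (rowW n (fun i => occ i j)) (rowE n j)
    (full n j) (full n (j + 1)) := by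
  unfold rowW rowE
  have h0 : Run (gr n m occ) [((0, 0, 10 * n + 2) : NOp)] [Evt.cup (.B j)] (full n j)
      ([(Lb.B j, false), (Lb.B j, true)] ++ full n j) := by
    refine Run.cupAt _ _ _ (by simp) (full_length n j).symm ?_
    exact Run.nil _
  have hw : wsl (6 * n) 2 = [ws (6 * n), ws (6 * n + 1)] := by
    rw [wsl_succ, wsl_succ]; rfl
  set A := cols (j + 1) 0 (2 * n) with hA
  have hAl : A.length = 10 * n := by rw [hA, cols_length]; ring
  have h2 : Run (gr n m occ) [(0, 10 * n + 3, 10 * n + 4), (3, 10 * n + 1, 10 * n + 6),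
      (1, 10 * n + 3, 10 * n + 6), (1, 10 * n, 10 * n + 4)]
      [.cup (.E j), .grp (.fin j), .cap, .cap]
      (A ++ ([(lc (2 * n) j, false), (lc (2 * n) j, true)] ++ wsl (6 * n) 2))
      (full n (j + 1)) := by
    have h3 : Run (gr n m occ) [(0, 3, 4), (3, 1, 6), (1, 3, 6), (1, 0, 4)]
        [.cup (.E j), .grp (.fin j), .cap, .cap]
        [(lc (2 * n) j, false), (lc (2 * n) j, true), ws (6 * n), ws (6 * n + 1)]
        [ws (6 * n), ws (6 * n + 1)] := by
      refine Run.cupAt _ _ _ (by simp) rfl ?_
      simp only [List.take_succ_cons, List.take_zero, List.drop_succ_cons,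
        List.drop_zero, List.cons_append, List.nil_append]
      refine Run.grpAt _ _ _ _ (by simp) rfl (by norm_num) (by norm_num) rfl ?_
      refine Run.capAt _ _ _ (by simp) rfl rfl ?_
      simp only [List.take_succ_cons, List.take_zero, List.drop_succ_cons,
        List.drop_zero, List.cons_append, List.nil_append]
      refine Run.capAt _ _ _ (by simp) rfl rfl ?_
      simp only [List.take_succ_cons, List.take_zero, List.drop_succ_cons,
        List.drop_zero, List.cons_append, List.nil_append]
      exact Run.nil _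
    have h4 := Run.frame h3 A []
    simp only [hAl, List.length_nil, Nat.add_zero, List.append_nil, List.map_cons, List.map_nil,
      sh] at h4
    rw [hw, show full n (j + 1) = A ++ [ws (6 * n), ws (6 * n + 1)] by rw [full, hw]]
    simp only [List.cons_append, List.nil_append]
    have hE : ([(0, 10 * n + 3, 10 * n + 4), (3, 10 * n + 1, 10 * n + 6),
        (1, 10 * n + 3, 10 * n + 6), (1, 10 * n, 10 * n + 4)] : List NOp) =
        [(0, 3 + 10 * n, 4 + 10 * n), (3, 1 + 10 * n, 6 + 10 * n), (1, 3 + 10 * n, 6 + 10 * n),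
          (1, 0 + 10 * n, 4 + 10 * n)] := by
      simp [Nat.add_comm]
    rw [hE]
    exact h4
  have h3 := Run.cat h0 (Run.cat (run_tiles n m occ j) h2)
  simpa using h3

private theorem run_rows : Run (gr n m occ)
    ((List.range m).flatMap fun j => rowW n (fun i => occ i j))
    ((List.range m).flatMap fun j => rowE n j) (full n 0) (full n m) :=
  Run.loop (gr := gr n m occ) (fun j => full n j) fun j _ => run_row n m occ j

private theorem run_bot : Run (gr n m occ)
    ((List.range (2 * n)).map fun i => ((2, 5 * i + 2, 10 * n + 2) : NOp))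
    ((List.range (2 * n)).map fun i => Evt.grp (.bot i)) (full n m) (full n m) := by
  refine Run.loopMap (gr := gr n m occ) (fun _ => full n m) ?_
  intro i hi
  have h1 : full n m = (cols m 0 i ++ [ws (3 * i), (Lb.V i m, false)]) ++
      ([(Lb.V i m, true), ws (3 * i + 1)] ++ (ws (3 * i + 2) ::
        (cols m (i + 1) (2 * n - (i + 1)) ++ wsl (6 * n) 2))) := by
    unfold full
    rw [show cols m 0 (2 * n) = cols m 0 (i + ((2 * n - (i + 1)) + 1)) by congr 1; omega,
      cols_add, cols_succ, Nat.zero_add]
    simp [col]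
  have h2 : (cols m 0 i ++ [ws (3 * i), (Lb.V i m, false)]).length = 5 * i + 2 := by
    simp [cols_length]
  refine Run.grpAt _ _ _ _ ?_ (full_length n m).symm le_rfl (by norm_num) ?_ (Run.nil _)
  · rw [full_length]; omega
  · rw [h1, List.drop_left' h2]
    rfl

private theorem run_capsV : Run (gr n m occ)
    ((List.range (2 * n)).map fun i => ((1, 3 * i + 1, 10 * n + 2 - 2 * i) : NOp))
    ((List.range (2 * n)).map fun _ => Evt.cap) (full n m) (wsl 0 (6 * n + 2)) := by
  have h := Run.loopMap (gr := gr n m occ) (N := 2 * n)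
    (W := fun i => ((1, 3 * i + 1, 10 * n + 2 - 2 * i) : NOp)) (E := fun _ => Evt.cap)
    (fun i => wsl 0 (3 * i) ++ (cols m i (2 * n - i) ++ wsl (6 * n) 2)) (by
      intro i hi
      have h1 : cols m i (2 * n - i) = col m i ++ cols m (i + 1) (2 * n - (i + 1)) := by
        rw [show 2 * n - i = (2 * n - (i + 1)) + 1 by omega, cols_succ]
      have h2 : wsl 0 (3 * i) ++ (cols m i (2 * n - i) ++ wsl (6 * n) 2) =
          (wsl 0 (3 * i) ++ [ws (3 * i)]) ++ ((Lb.V i m, false) :: (Lb.V i m, true) ::
            (ws (3 * i + 1) :: ws (3 * i + 2) ::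
              (cols m (i + 1) (2 * n - (i + 1)) ++ wsl (6 * n) 2))) := by
        rw [h1]; simp [col]
      have h3 : (wsl 0 (3 * i) ++ [ws (3 * i)]).length = 3 * i + 1 := by
        simp [wsl_length]
      have h4 : wsl 0 (3 * (i + 1)) ++ (cols m (i + 1) (2 * n - (i + 1)) ++ wsl (6 * n) 2) =
          (wsl 0 (3 * i) ++ [ws (3 * i)]) ++ (ws (3 * i + 1) :: ws (3 * i + 2) ::
              (cols m (i + 1) (2 * n - (i + 1)) ++ wsl (6 * n) 2)) := by
        rw [show 3 * (i + 1) = 3 * i + 3 by ring, wsl_add, Nat.zero_add, wsl_succ, wsl_succ,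
          wsl_succ]
        simp [wsl]
      have h5 := Run.cap (gr := gr n m occ) (wsl 0 (3 * i) ++ [ws (3 * i)])
        (ws (3 * i + 1) :: ws (3 * i + 2) ::
              (cols m (i + 1) (2 * n - (i + 1)) ++ wsl (6 * n) 2)) (Lb.V i m)
        (Run.nil _)
      rw [h3] at h5
      have h6 : 3 * i + 1 + (ws (3 * i + 1) :: ws (3 * i + 2) ::
              (cols m (i + 1) (2 * n - (i + 1)) ++ wsl (6 * n) 2)).length + 2 =
          10 * n + 2 - 2 * i := by
        simp only [List.length_cons, List.length_append, cols_length, wsl_length]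
        omega
      rw [h6] at h5
      simp only [h2, h4]
      exact h5)
  have e1 : cols m (2 * n) (2 * n - 2 * n) = [] := by
    rw [Nat.sub_self]; rfl
  have e2 : 3 * (2 * n) = 6 * n := by ring
  have e3 : wsl 0 (3 * 0) = [] := rfl
  simp only [e1, e2, e3, Nat.sub_zero, List.nil_append] at h
  have e4 : wsl 0 (6 * n + 2) = wsl 0 (6 * n) ++ wsl (6 * n) 2 := by
    rw [wsl_add, Nat.zero_add]
  rw [e4]
  exact h

private theorem run_caps : Run (gr n m occ)
    ((List.range (3 * n + 1)).map fun t => ((1, 0, 6 * n + 2 - 2 * t) : NOp))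
    ((List.range (3 * n + 1)).map fun _ => Evt.cap) (wsl 0 (6 * n + 2)) [] := by
  have h := Run.loopMap (gr := gr n m occ) (N := 3 * n + 1)
    (W := fun t => ((1, 0, 6 * n + 2 - 2 * t) : NOp)) (E := fun _ => Evt.cap)
    (fun t => wsl (2 * t) (6 * n + 2 - 2 * t)) (by
      intro t ht
      have h1 : wsl (2 * t) (6 * n + 2 - 2 * t) = (Lb.R t, false) :: (Lb.R t, true) ::
          wsl (2 * (t + 1)) (6 * n + 2 - 2 * (t + 1)) := by
        rw [show 6 * n + 2 - 2 * t = (6 * n + 2 - 2 * (t + 1)) + 1 + 1 by omega, wsl_succ,
          wsl_succ, ws_even, ws_odd]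
        rfl
      have h5 := Run.cap (gr := gr n m occ) [] (wsl (2 * (t + 1)) (6 * n + 2 - 2 * (t + 1)))
        (Lb.R t) (Run.nil _)
      have h6 : ([] : List (Lb × Bool)).length +
          (wsl (2 * (t + 1)) (6 * n + 2 - 2 * (t + 1))).length + 2 = 6 * n + 2 - 2 * t := by
        rw [wsl_length, List.length_nil]
        omega
      rw [h6] at h5
      rw [h1]
      exact h5)
  have e1 : wsl (2 * (3 * n + 1)) (6 * n + 2 - 2 * (3 * n + 1)) = [] := by
    rw [show 6 * n + 2 - 2 * (3 * n + 1) = 0 by omega]
    rfl
  simp only [e1, Nat.mul_zero, Nat.sub_zero] at h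
  exact h

theorem sat_run (n m : ℕ) (occ : ℕ → ℕ → Bool) :
    Run (gr n m occ) (satW n m occ) (satE n m) [] [] := by
  unfold satW satE
  exact (run_cups n m occ).cat ((run_links n m occ).cat ((run_cupsV n m occ).cat
    ((run_tops n m occ).cat ((run_rows n m occ).cat ((run_bot n m occ).cat
      ((run_capsV n m occ).cat (run_caps n m occ)))))))

end Pool.Agent.H820R2.MS
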