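import Pool.Agent.H820R2.MS.Core

/-!
# The embedding of the far graph in the plane (task T1)
-/

namespace Pool.Agent.H820R2.MS

namespace T1

/-- the `a`-point with parameters `e1 = M - 2x`, `e2 = 2M - (k+H+x)` -/
theorem emb_a {H M k x : ℕ} (h1 : x ≤ H) (h2 : k + H + x ≤ M) :
    emb H M (false, k, x) = ((4 ^ (M - 2 * x)) ^ 2 - 4 * 4 ^ (2 * M - (k + H + x)),
      2 * 4 ^ (4 * M + 2) * 4 ^ (M - 2 * x)) := by
  have e1 : 2 * M - 4 * x = (M - 2 * x) * 2 := by omega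
  have e2 : 2 * M + 1 - (k + H + x) = (2 * M - (k + H + x)) + 1 := by omega
  unfold emb
  simp only [Bool.false_eq_true, if_false]
  rw [e1, e2, pow_mul, pow_succ (4 : ℤ) (2 * M - (k + H + x))]
  congr 1
  ring

theorem emb_b {H M k x : ℕ} :
    emb H M (true, k, x) = (2 * (4 ^ (4 * M + 2)) ^ 2 - (2 * 4 ^ (2 * M - (k + H + x)) +
      (4 ^ (M - (k + H - x))) ^ 2), 2 * 4 ^ (4 * M + 2) * 4 ^ (M - (k + H - x))) := by
  unfold emb
  simp only [if_true]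
  rw [mul_comm 2 (M - (k + H - x)), pow_mul]

theorem L_eq (M : ℕ) : (4 : ℤ) ^ (4 * M + 2) = 16 * ((4 ^ M) ^ 2) ^ 2 := by
  rw [← pow_mul, ← pow_mul, pow_add, show M * (2 * 2) = 4 * M by ring]
  ring

theorem sq_bound {M e : ℕ} (h : e ≤ M) : ((4 : ℤ) ^ e) ^ 2 ≤ (4 ^ M) ^ 2 := by
  have h1 : (4 : ℤ) ^ e ≤ 4 ^ M := pow_le_pow_right₀ (by norm_num) h
  exact pow_le_pow_left₀ (by positivity) h1 2

theorem lin_bound {M e : ℕ} (h : e ≤ 2 * M) : (4 : ℤ) ^ e ≤ (4 ^ M) ^ 2 := by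
  rw [← pow_mul]
  exact pow_le_pow_right₀ (by norm_num) (by omega)

theorem key_pos {L B p c r d : ℤ} (_hL : L = 16 * B ^ 2) (h : 2 * d + 2 * p * r ≤ 4 * c) :
    4 * L ^ 4 ≤ ((p ^ 2 - 4 * c) - (2 * L ^ 2 - (2 * d + r ^ 2))) ^ 2 +
      (2 * L * p - 2 * L * r) ^ 2 := by
  have e : ((p ^ 2 - 4 * c) - (2 * L ^ 2 - (2 * d + r ^ 2))) ^ 2 + (2 * L * p - 2 * L * r) ^ 2 =
      4 * L ^ 4 + 4 * L ^ 2 * (4 * c - 2 * d - 2 * p * r) + (2 * d + r ^ 2 + p ^ 2 - 4 * c) ^ 2 := by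
    ring
  rw [e]
  have h1 : 0 ≤ 4 * L ^ 2 * (4 * c - 2 * d - 2 * p * r) :=
    mul_nonneg (by positivity) (by linarith)
  have h2 : 0 ≤ (2 * d + r ^ 2 + p ^ 2 - 4 * c) ^ 2 := sq_nonneg _
  linarith

theorem key_neg {L B p c r d : ℤ} (hL : L = 16 * B ^ 2) (hB : 1 ≤ B) (hp : p ^ 2 ≤ B)
    (hr : r ^ 2 ≤ B) (hc0 : 0 ≤ c) (hc : c ≤ B) (hd0 : 0 ≤ d) (hd : d ≤ B)
    (h : 4 * c + 4 ≤ 2 * d + 2 * p * r) :
    ((p ^ 2 - 4 * c) - (2 * L ^ 2 - (2 * d + r ^ 2))) ^ 2 +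
      (2 * L * p - 2 * L * r) ^ 2 < 4 * L ^ 4 := by
  have e : ((p ^ 2 - 4 * c) - (2 * L ^ 2 - (2 * d + r ^ 2))) ^ 2 + (2 * L * p - 2 * L * r) ^ 2 =
      4 * L ^ 4 + 4 * L ^ 2 * (4 * c - 2 * d - 2 * p * r) + (2 * d + r ^ 2 + p ^ 2 - 4 * c) ^ 2 := by
    ring
  rw [e]
  have h1 : 4 * L ^ 2 * (4 * c - 2 * d - 2 * p * r) ≤ 4 * L ^ 2 * (-4) :=
    mul_le_mul_of_nonneg_left (by linarith) (by positivity)
  have hr2 : 0 ≤ r ^ 2 := sq_nonneg r
  have hp2 : 0 ≤ p ^ 2 := sq_nonneg p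
  have h2 : (2 * d + r ^ 2 + p ^ 2 - 4 * c) ^ 2 ≤ (8 * B) ^ 2 := by
    apply sq_le_sq'
    · linarith
    · linarith
  have h3 : (8 * B) ^ 2 < 16 * L ^ 2 := by
    rw [hL]
    have h4 : B ^ 2 ≤ B ^ 4 := pow_le_pow_right₀ hB (by norm_num)
    have h5 : 0 < B ^ 2 := by positivity
    have h6 : 16 * (16 * B ^ 2) ^ 2 = 4096 * B ^ 4 := by ring
    rw [h6]
    nlinarith
  linarith

theorem key_same {L B N N' p p' : ℤ} (hL : L = 16 * B ^ 2) (hB : 1 ≤ B) (hp0 : 0 ≤ p)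
    (hp0' : 0 ≤ p') (hp : p ^ 2 ≤ B) (hp' : p' ^ 2 ≤ B) (h1 : N - N' ≤ 8 * B)
    (h2 : N' - N ≤ 8 * B) :
    (N - N') ^ 2 + (2 * L * p - 2 * L * p') ^ 2 < 4 * L ^ 4 := by
  have h3 : (N - N') ^ 2 ≤ (8 * B) ^ 2 := by
    apply sq_le_sq' <;> linarith
  have h4 : (p - p') ^ 2 ≤ B := by
    rcases le_total p p' with h | h
    · nlinarith
    · nlinarith
  have h5 : (2 * L * p - 2 * L * p') ^ 2 = 4 * L ^ 2 * (p - p') ^ 2 := by ring
  rw [h5]
  have h6 : 4 * L ^ 2 * (p - p') ^ 2 ≤ 4 * L ^ 2 * B :=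
    mul_le_mul_of_nonneg_left h4 (by positivity)
  have h7 : 4 * L ^ 2 * B = 1024 * B ^ 5 := by rw [hL]; ring
  have h8 : 4 * L ^ 4 = 262144 * B ^ 8 := by rw [hL]; ring
  have h9 : B ^ 5 ≤ B ^ 8 := pow_le_pow_right₀ hB (by norm_num)
  have h10 : B ^ 2 ≤ B ^ 8 := pow_le_pow_right₀ hB (by norm_num)
  have h11 : 0 < B ^ 8 := by positivity
  rw [h8]
  rw [h7] at h6
  nlinarith

theorem dist2_comm (p q : ℤ × ℤ) : dist2 p q = dist2 q p := by
  unfold dist2; ring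

theorem thr_cast (M : ℕ) : (thr M : ℤ) = 4 * (4 ^ (4 * M + 2)) ^ 4 := by
  unfold thr
  push_cast
  ring

theorem far_ab {H M k x k' x' : ℕ} (h1 : x ≤ H) (h2 : k + H + x ≤ M) (h1' : x' ≤ H)
    (h2' : k' + H + x' ≤ M) :
    (thr M : ℤ) ≤ dist2 (emb H M (false, k, x)) (emb H M (true, k', x')) ↔
      dom (k, x) (k', x') := by
  rw [thr_cast, emb_a h1 h2, emb_b]
  unfold dist2
  simp only
  set B : ℤ := (4 ^ M) ^ 2 with hBdef
  have hL : (4 : ℤ) ^ (4 * M + 2) = 16 * B ^ 2 := L_eq M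
  have hB : 1 ≤ B := by
    rw [hBdef]
    exact one_le_pow₀ (one_le_pow₀ (by norm_num))
  have hp : ((4 : ℤ) ^ (M - 2 * x)) ^ 2 ≤ B := sq_bound (by omega)
  have hr : ((4 : ℤ) ^ (M - (k' + H - x'))) ^ 2 ≤ B := sq_bound (by omega)
  have hc : (4 : ℤ) ^ (2 * M - (k + H + x)) ≤ B := lin_bound (by omega)
  have hd : (4 : ℤ) ^ (2 * M - (k' + H + x')) ≤ B := lin_bound (by omega)
  constructor
  · intro hle
    by_contra hdom
    unfold dom at hdom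
    simp only [not_and_or, not_le] at hdom
    have hneg : 4 * (4 : ℤ) ^ (2 * M - (k + H + x)) + 4 ≤ 2 * 4 ^ (2 * M - (k' + H + x')) +
        2 * 4 ^ (M - 2 * x) * 4 ^ (M - (k' + H - x')) := by
      have hc1 : (1 : ℤ) ≤ 4 ^ (2 * M - (k + H + x)) := one_le_pow₀ (by norm_num)
      have hd0 : (0 : ℤ) < 4 ^ (2 * M - (k' + H + x')) := by positivity
      have hpr0 : (0 : ℤ) < 4 ^ (M - 2 * x) * 4 ^ (M - (k' + H - x')) := by positivity
      rcases hdom with h | h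
      · have h3 : (4 : ℤ) ^ (2 * M - (k + H + x) + 1) ≤ 4 ^ (M - 2 * x) * 4 ^ (M - (k' + H - x')) := by
          rw [← pow_add]
          exact pow_le_pow_right₀ (by norm_num) (by omega)
        rw [pow_succ] at h3
        nlinarith
      · have h3 : (4 : ℤ) ^ (2 * M - (k + H + x) + 1) ≤ 4 ^ (2 * M - (k' + H + x')) :=
          pow_le_pow_right₀ (by norm_num) (by omega)
        rw [pow_succ] at h3
        nlinarith
    have := key_neg hL hB hp hr (by positivity) hc (by positivity) hd hneg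
    linarith
  · intro hdom
    unfold dom at hdom
    simp only at hdom
    refine key_pos hL ?_
    have h3 : (4 : ℤ) ^ (M - 2 * x) * 4 ^ (M - (k' + H - x')) ≤ 4 ^ (2 * M - (k + H + x)) := by
      rw [← pow_add]
      exact pow_le_pow_right₀ (by norm_num) (by omega)
    have h4 : (4 : ℤ) ^ (2 * M - (k' + H + x')) ≤ 4 ^ (2 * M - (k + H + x)) :=
      pow_le_pow_right₀ (by norm_num) (by omega)
    linarith

theorem not_far_aa {H M k x k' x' : ℕ} (h1 : x ≤ H) (h2 : k + H + x ≤ M) (h1' : x' ≤ H)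
    (h2' : k' + H + x' ≤ M) :
    dist2 (emb H M (false, k, x)) (emb H M (false, k', x')) < (thr M : ℤ) := by
  rw [thr_cast, emb_a h1 h2, emb_a h1' h2']
  unfold dist2
  simp only
  set B : ℤ := (4 ^ M) ^ 2 with hBdef
  have hL : (4 : ℤ) ^ (4 * M + 2) = 16 * B ^ 2 := L_eq M
  have hB : 1 ≤ B := by
    rw [hBdef]
    exact one_le_pow₀ (one_le_pow₀ (by norm_num))
  have hp : ((4 : ℤ) ^ (M - 2 * x)) ^ 2 ≤ B := sq_bound (by omega)
  have hp' : ((4 : ℤ) ^ (M - 2 * x')) ^ 2 ≤ B := sq_bound (by omega)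
  have hc : (4 : ℤ) ^ (2 * M - (k + H + x)) ≤ B := lin_bound (by omega)
  have hc' : (4 : ℤ) ^ (2 * M - (k' + H + x')) ≤ B := lin_bound (by omega)
  have h3 : (0 : ℤ) < 4 ^ (2 * M - (k + H + x)) := by positivity
  have h3' : (0 : ℤ) < 4 ^ (2 * M - (k' + H + x')) := by positivity
  have h4 := sq_nonneg ((4 : ℤ) ^ (M - 2 * x))
  have h4' := sq_nonneg ((4 : ℤ) ^ (M - 2 * x'))
  exact key_same hL hB (by positivity) (by positivity) hp hp' (by linarith) (by linarith)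

theorem not_far_bb {H M k x k' x' : ℕ} (h1 : x ≤ H) (h2 : k + H + x ≤ M) (h1' : x' ≤ H)
    (h2' : k' + H + x' ≤ M) :
    dist2 (emb H M (true, k, x)) (emb H M (true, k', x')) < (thr M : ℤ) := by
  rw [thr_cast, emb_b, emb_b]
  unfold dist2
  simp only
  set B : ℤ := (4 ^ M) ^ 2 with hBdef
  have hL : (4 : ℤ) ^ (4 * M + 2) = 16 * B ^ 2 := L_eq M
  have hB : 1 ≤ B := by
    rw [hBdef]
    exact one_le_pow₀ (one_le_pow₀ (by norm_num))
  have hp : ((4 : ℤ) ^ (M - (k + H - x))) ^ 2 ≤ B := sq_bound (by omega)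
  have hp' : ((4 : ℤ) ^ (M - (k' + H - x'))) ^ 2 ≤ B := sq_bound (by omega)
  have hc : (4 : ℤ) ^ (2 * M - (k + H + x)) ≤ B := lin_bound (by omega)
  have hc' : (4 : ℤ) ^ (2 * M - (k' + H + x')) ≤ B := lin_bound (by omega)
  have h3 : (0 : ℤ) < 4 ^ (2 * M - (k + H + x)) := by positivity
  have h3' : (0 : ℤ) < 4 ^ (2 * M - (k' + H + x')) := by positivity
  have h4 := sq_nonneg ((4 : ℤ) ^ (M - (k + H - x)))
  have h4' := sq_nonneg ((4 : ℤ) ^ (M - (k' + H - x')))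
  exact key_same hL hB (by positivity) (by positivity) hp hp' (by linarith) (by linarith)

theorem pow_inj {a b : ℕ} (h : (4 : ℤ) ^ a = 4 ^ b) : a = b := by
  have : (4 : ℕ) ^ a = 4 ^ b := by exact_mod_cast h
  exact Nat.pow_right_injective (le_refl 2 |>.trans (by norm_num)) this

theorem ne_ab {H M k x k' x' : ℕ} (h1 : x ≤ H) (h2 : k + H + x ≤ M) (h1' : x' ≤ H)
    (h2' : k' + H + x' ≤ M) : emb H M (false, k, x) ≠ emb H M (true, k', x') := by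
  intro h
  rw [emb_a h1 h2, emb_b] at h
  have h3 := congrArg Prod.fst h
  simp only at h3
  set B : ℤ := (4 ^ M) ^ 2 with hBdef
  have hL : (4 : ℤ) ^ (4 * M + 2) = 16 * B ^ 2 := L_eq M
  have hB : 1 ≤ B := by
    rw [hBdef]
    exact one_le_pow₀ (one_le_pow₀ (by norm_num))
  have hp : ((4 : ℤ) ^ (M - 2 * x)) ^ 2 ≤ B := sq_bound (by omega)
  have hr : ((4 : ℤ) ^ (M - (k' + H - x'))) ^ 2 ≤ B := sq_bound (by omega)
  have hd : (4 : ℤ) ^ (2 * M - (k' + H + x')) ≤ B := lin_bound (by omega)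
  have hc0 : (0 : ℤ) < 4 ^ (2 * M - (k + H + x)) := by positivity
  rw [hL] at h3
  have h4 : B ≤ B ^ 4 := by
    calc B = B ^ 1 := (pow_one B).symm
      _ ≤ B ^ 4 := pow_le_pow_right₀ hB (by norm_num)
  have h5 : 2 * (16 * B ^ 2) ^ 2 = 512 * B ^ 4 := by ring
  rw [h5] at h3
  linarith

theorem emb_perm {α β : Type} (f : α → β) {σ : List β} {L : List α} (h : σ.Perm (L.map f)) :
    ∃ τ : List α, τ.Perm L ∧ τ.map f = σ := by
  have h2 : List.Forall₂ (fun (b : β) (a : α) => b = f a) (L.map f) L := by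
    rw [List.forall₂_map_left_iff]
    exact List.forall₂_same.2 fun a _ => rfl
  obtain ⟨τ, h3, h4⟩ := List.perm_comp_forall₂ h h2
  refine ⟨τ, h4, ?_⟩
  clear h h2 h4
  induction h3 with
  | nil => rfl
  | cons hab _ ih => rw [List.map_cons, ih, hab]

end T1

open T1

theorem emb_far (H M : ℕ) (v w : Vx) (hv : v.2.2 ≤ H ∧ v.2.1 + H + v.2.2 ≤ M)
    (hw : w.2.2 ≤ H ∧ w.2.1 + H + w.2.2 ≤ M) :
    (thr M : ℤ) ≤ dist2 (emb H M v) (emb H M w) ↔ Far v w := by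
  obtain ⟨bv, k, x⟩ := v
  obtain ⟨bw, k', x'⟩ := w
  simp only at hv hw
  unfold Far
  cases bv <;> cases bw
  · simp only [Bool.false_eq_true, false_and, and_false, or_false, iff_false, not_le]
    exact not_far_aa hv.1 hv.2 hw.1 hw.2
  · simp only [true_and, Bool.false_eq_true, Bool.true_eq_false, false_and, or_false]
    exact far_ab hv.1 hv.2 hw.1 hw.2
  · simp only [true_and, Bool.false_eq_true, Bool.true_eq_false, false_and, false_or]
    rw [dist2_comm]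
    exact far_ab hw.1 hw.2 hv.1 hv.2
  · simp only [Bool.true_eq_false, false_and, and_false, or_false, iff_false, not_le]
    exact not_far_bb hv.1 hv.2 hw.1 hw.2

theorem emb_inj (H M : ℕ) (v w : Vx) (hv : v.2.2 ≤ H ∧ v.2.1 + H + v.2.2 ≤ M)
    (hw : w.2.2 ≤ H ∧ w.2.1 + H + w.2.2 ≤ M) (h : emb H M v = emb H M w) : v = w := by
  obtain ⟨bv, k, x⟩ := v
  obtain ⟨bw, k', x'⟩ := w
  simp only at hv hw
  cases bv <;> cases bw
  · rw [emb_a hv.1 hv.2, emb_a hw.1 hw.2] at h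
    obtain ⟨h1, h2⟩ := Prod.mk.inj h
    have hL : (2 : ℤ) * 4 ^ (4 * M + 2) ≠ 0 := by positivity
    have h3 := pow_inj (mul_left_cancel₀ hL h2)
    rw [h3] at h1
    have h4 : (4 : ℤ) ^ (2 * M - (k + H + x)) = 4 ^ (2 * M - (k' + H + x')) := by linarith
    have h5 := pow_inj h4
    have h6 : x = x' := by omega
    have h7 : k = k' := by omega
    rw [h6, h7]
  · exact absurd h (ne_ab hv.1 hv.2 hw.1 hw.2)
  · exact absurd h.symm (ne_ab hw.1 hw.2 hv.1 hv.2)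
  · rw [emb_b, emb_b] at h
    obtain ⟨h1, h2⟩ := Prod.mk.inj h
    have hL : (2 : ℤ) * 4 ^ (4 * M + 2) ≠ 0 := by positivity
    have h3 := pow_inj (mul_left_cancel₀ hL h2)
    rw [h3] at h1
    have h4 : (4 : ℤ) ^ (2 * M - (k + H + x)) = 4 ^ (2 * M - (k' + H + x')) := by linarith
    have h5 := pow_inj h4
    have h6 : x = x' := by omega
    have h7 : k = k' := by omega
    rw [h6, h7]

theorem tour_emb_iff (H M : ℕ) (L : List Vx) (hL : ∀ v ∈ L, v.2.2 ≤ H ∧ v.2.1 + H + v.2.2 ≤ M) :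
    Tour (fun p q => (thr M : ℤ) ≤ dist2 p q) (L.map (emb H M)) ↔ Tour Far L := by
  constructor
  · rintro ⟨σ, h1, h2⟩
    obtain ⟨τ, h3, rfl⟩ := emb_perm (emb H M) h1
    refine ⟨τ, h3, fun i hi => ?_⟩
    have h4 := h2 i (by rw [List.length_map]; exact hi)
    have hmem : ∀ (j : ℕ) (hj : j < τ.length), τ[j] ∈ L := fun j hj =>
      h3.mem_iff.1 (List.getElem_mem hj)
    rw [← emb_far H M _ _ (hL _ (hmem i hi)) (hL _ (hmem _ _))]
    simpa only [List.getElem_map, List.length_map] using h4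
  · rintro ⟨τ, h3, h2⟩
    refine ⟨τ.map (emb H M), h3.map _, fun i hi => ?_⟩
    rw [List.length_map] at hi
    have hmem : ∀ (j : ℕ) (hj : j < τ.length), τ[j] ∈ L := fun j hj =>
      h3.mem_iff.1 (List.getElem_mem hj)
    have h4 := (emb_far H M _ _ (hL _ (hmem i hi)) (hL _ (hmem _
      (Nat.mod_lt _ (Nat.zero_lt_of_lt hi))))).2 (h2 i hi)
    simpa only [List.getElem_map, List.length_map] using h4

end Pool.Agent.H820R2.MS
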