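import Pool.Agent.H820R2.MS.Core

/-!
# Maximum scatter TSP in the plane: the links of slot systems
-/

namespace Pool.Agent.H820R2.MS

theorem smono {f : ℕ → ℕ} {n : ℕ} (h : ∀ r, r + 1 < n → f r < f (r + 1)) {r r' : ℕ}
    (hr : r < r') (hr' : r' < n) : f r < f r' := by
  induction r', hr using Nat.le_induction with
  | base => exact h r hr'
  | succ m hm ih => exact (ih (by omega)).trans (h m hr')

theorem smono_inj {f : ℕ → ℕ} {n : ℕ} (h : ∀ r, r + 1 < n → f r < f (r + 1)) {r r' : ℕ}
    (hr : r < n) (hr' : r' < n) (he : f r = f r') : r = r' := by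
  rcases lt_trichotomy r r' with h1 | h1 | h1
  · have := smono h h1 hr'; omega
  · exact h1
  · have := smono h h1 hr; omega

theorem wmono {f : ℕ → ℕ} {n : ℕ} (h : ∀ r, r + 1 < n → f r ≤ f (r + 1)) {r r' : ℕ}
    (hr : r ≤ r') (hr' : r' < n) : f r ≤ f r' := by
  induction r', hr using Nat.le_induction with
  | base => exact le_rfl
  | succ m hm ih => exact (ih (by omega)).trans (h m hr')

theorem iff_steps {P : ℕ → Prop} {a b : ℕ} (hab : a ≤ b)
    (h : ∀ r, a ≤ r → r < b → (P r ↔ P (r + 1))) : P a ↔ P b := by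
  induction b, hab using Nat.le_induction with
  | base => exact Iff.rfl
  | succ m hm ih => exact (ih fun r h1 h2 => h r h1 (by omega)).trans (h m hm (by omega))

namespace Sys

variable {Γ : Type} {s : Sys Γ}

/-- The possible situations at the upper end of a slot. -/
theorem Good.upper (hs : s.Good) {k r : ℕ} (hr : r < s.len k) :
    (∃ r' < s.len (k + 1), s.o (k + 1) r' = s.i k r ∧ s.lab (k + 1) r' = s.lab k r ∧
      (∀ r'' < s.len (k + 1), s.o (k + 1) r'' = s.i k r → r'' = r') ∧
      (∀ r'' < s.len k, s.i k r'' = s.i k r → r'' = r)) ∨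
    (∃ r' < s.len k, r' ≠ r ∧ s.i k r' = s.i k r ∧ s.lab k r' = s.lab k r ∧
      (∀ r'' < s.len k, s.i k r'' = s.i k r → r'' = r ∨ r'' = r') ∧
      (∀ r'' < s.len (k + 1), s.o (k + 1) r'' ≠ s.i k r)) := by
  rcases hs.link k with ⟨h1, h2, h3⟩ | ⟨j, -, h1, h2, h3, h4, h5, h6, h7, h8, h9⟩ |
    ⟨j, h1, h2, h3, h4, h5, h6, h7, h8, h9⟩
  · left
    refine ⟨r, by omega, (h3 r hr).1, (h3 r hr).2, fun r'' hr'' he => ?_,
      fun r'' hr'' he => smono_inj h2 hr'' hr he⟩
    rw [h1] at hr''
    rw [(h3 r'' hr'').1] at he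
    exact smono_inj h2 hr'' hr he
  · left
    by_cases hrj : r < j
    · refine ⟨r, by omega, (h4 r hrj).1, (h4 r hrj).2, fun r'' hr'' he => ?_,
        fun r'' hr'' he => smono_inj h3 hr'' hr he⟩
      by_cases hj : r'' < j
      · rw [(h4 r'' hj).1] at he
        exact smono_inj h3 (by omega) hr he
      · by_cases hj2 : r'' < j + 2
        · have := h8 r hrj
          have h10 : s.o (k + 1) r'' = s.o (k + 1) j := by
            rcases (by omega : r'' = j ∨ r'' = j + 1) with rfl | rfl
            · rfl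
            · exact h6
          omega
        · obtain ⟨q, rfl⟩ : ∃ q, r'' = q + 2 := ⟨r'' - 2, by omega⟩
          rw [(h5 q (by omega) (by omega)).1] at he
          have := smono_inj h3 (by omega) hr he
          omega
    · refine ⟨r + 2, by omega, (h5 r (by omega) hr).1, (h5 r (by omega) hr).2,
        fun r'' hr'' he => ?_, fun r'' hr'' he => smono_inj h3 hr'' hr he⟩
      by_cases hj : r'' < j
      · rw [(h4 r'' hj).1] at he
        have := smono_inj h3 (by omega) hr he
        omega
      · by_cases hj2 : r'' < j + 2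
        · have := h9 r (by omega) hr
          have h10 : s.o (k + 1) r'' = s.o (k + 1) j := by
            rcases (by omega : r'' = j ∨ r'' = j + 1) with rfl | rfl
            · rfl
            · exact h6
          omega
        · obtain ⟨q, rfl⟩ : ∃ q, r'' = q + 2 := ⟨r'' - 2, by omega⟩
          rw [(h5 q (by omega) (by omega)).1] at he
          have := smono_inj h3 (by omega) hr he
          omega
  · -- positions of the upper ends, in terms of gap `k + 1`
    have key : ∀ r'' < s.len k, r'' ≠ j → r'' ≠ j + 1 → ∃ q < s.len (k + 1),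
        s.o (k + 1) q = s.i k r'' ∧ s.lab (k + 1) q = s.lab k r'' ∧
        (r'' < j ∧ q = r'' ∨ j ≤ q ∧ r'' = q + 2) := by
      intro r'' hr'' h10 h11
      by_cases hj : r'' < j
      · exact ⟨r'', by omega, (h4 r'' hj).1, (h4 r'' hj).2, Or.inl ⟨hj, rfl⟩⟩
      · obtain ⟨q, rfl⟩ : ∃ q, r'' = q + 2 := ⟨r'' - 2, by omega⟩
        exact ⟨q, by omega, (h5 q (by omega) (by omega)).1, (h5 q (by omega) (by omega)).2,
          Or.inr ⟨by omega, rfl⟩⟩
    have hne : ∀ q < s.len (k + 1), s.o (k + 1) q ≠ s.i k j := by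
      intro q hq
      by_cases hj : q < j
      · rw [(h4 q hj).1]; have := h8 q hj; omega
      · rw [(h5 q (by omega) hq).1]; have := h9 q (by omega) hq; omega
    by_cases hrj : r = j ∨ r = j + 1
    · right
      have hi : s.i k r = s.i k j := by rcases hrj with rfl | rfl <;> simp [h6]
      have hall : ∀ r'' < s.len k, s.i k r'' = s.i k j → r'' = j ∨ r'' = j + 1 := by
        intro r'' hr'' he
        by_contra hcon
        obtain ⟨q, hq, hq1, -⟩ := key r'' hr'' (by omega) (by omega)
        exact hne q hq (hq1.trans he)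
      rcases hrj with rfl | rfl
      · refine ⟨r + 1, by omega, by omega, h6, h7, fun r'' hr'' he => hall r'' hr'' he, hne⟩
      · refine ⟨j, by omega, by omega, h6.symm, h7.symm, fun r'' hr'' he => ?_, ?_⟩
        · have := hall r'' hr'' (he.trans hi); omega
        · rw [hi]; exact hne
    · left
      obtain ⟨q, hq, hq1, hq2, hq3⟩ := key r hr (by omega) (by omega)
      refine ⟨q, hq, hq1, hq2, fun r'' hr'' he => smono_inj h3 hr'' hq (he.trans hq1.symm),
        fun r'' hr'' he => ?_⟩
      by_cases hj : r'' = j ∨ r'' = j + 1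
      · exfalso
        have : s.i k r'' = s.i k j := by rcases hj with rfl | rfl <;> simp [h6]
        exact hne q hq (by rw [hq1, ← he, this])
      · obtain ⟨q', hq', hq1', -, hq3'⟩ := key r'' hr'' (by omega) (by omega)
        have := smono_inj h3 hq' hq (by rw [hq1', he, hq1])
        omega

/-- The possible situations at the lower end of a slot. -/
theorem Good.lower (hs : s.Good) {k r : ℕ} (hr : r < s.len (k + 1)) :
    (∃ r' < s.len k, s.i k r' = s.o (k + 1) r ∧ s.lab k r' = s.lab (k + 1) r ∧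
      (∀ r'' < s.len (k + 1), s.o (k + 1) r'' = s.o (k + 1) r → r'' = r)) ∨
    (∃ r' < s.len (k + 1), r' ≠ r ∧ s.o (k + 1) r' = s.o (k + 1) r ∧
      s.lab (k + 1) r' = s.lab (k + 1) r ∧
      (∀ r'' < s.len (k + 1), s.o (k + 1) r'' = s.o (k + 1) r → r'' = r ∨ r'' = r') ∧
      (∀ r'' < s.len k, s.i k r'' ≠ s.o (k + 1) r)) := by
  by_cases h : ∃ r' < s.len k, s.i k r' = s.o (k + 1) r
  · left
    obtain ⟨r', hr', he⟩ := h
    rcases hs.upper hr' with ⟨q, hq, h1, h2, h3, h4⟩ | ⟨q, hq, h1, h2, h3, h4, h5⟩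
    · have := h3 r hr he.symm
      subst this
      exact ⟨r', hr', he, h2.symm, fun r'' hr'' h' => h3 r'' hr'' (h'.trans he.symm)⟩
    · exact absurd he.symm (h5 r hr)
  · right
    push Not at h
    rcases hs.link k with ⟨h1, h2, h3⟩ | ⟨j, -, h1, h2, h3, h4, h5, h6, h7, h8, h9⟩ |
      ⟨j, h1, h2, h3, h4, h5, h6, h7, h8, h9⟩
    · exact absurd (h3 r (by omega)).1.symm (h r (by omega))
    · have hr2 : ∀ r'' < s.len (k + 1), s.o (k + 1) r'' = s.o (k + 1) r →
          r'' = j ∨ r'' = j + 1 := by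
        intro r'' hr'' he
        by_contra hcon
        by_cases hj : r'' < j
        · exact h r'' (by omega) ((h4 r'' hj).1.symm.trans he)
        · obtain ⟨q, rfl⟩ : ∃ q, r'' = q + 2 := ⟨r'' - 2, by omega⟩
          exact h q (by omega) ((h5 q (by omega) (by omega)).1.symm.trans he)
      rcases hr2 r hr rfl with rfl | rfl
      · exact ⟨r + 1, by omega, by omega, h6, h7, hr2, h⟩
      · exact ⟨j, by omega, by omega, h6.symm, h7.symm, fun r'' hr'' he => by
          have := hr2 r'' hr'' he; omega, h⟩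
    · by_cases hj : r < j
      · exact absurd (h4 r hj).1.symm (h r (by omega))
      · exact absurd (h5 r (by omega) hr).1.symm (h (r + 2) (by omega))

theorem Good.lab_o (hs : s.Good) {k r r' : ℕ} (hr : r < s.len k) (hr' : r' < s.len k)
    (h : s.o k r = s.o k r') : s.lab k r = s.lab k r' := by
  cases k with
  | zero => rw [hs.len_zero] at hr; omega
  | succ k =>
    rcases hs.lower hr with ⟨q, hq, h1, h2, h3⟩ | ⟨q, hq, h1, h2, h3, h4, h5⟩
    · rw [h3 r' hr' h.symm]
    · rcases h4 r' hr' h.symm with rfl | rfl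
      · rfl
      · exact h3.symm

theorem Good.lab_i (hs : s.Good) {k r r' : ℕ} (hr : r < s.len k) (hr' : r' < s.len k)
    (h : s.i k r = s.i k r') : s.lab k r = s.lab k r' := by
  rcases hs.upper hr with ⟨q, hq, h1, h2, h3, h4⟩ | ⟨q, hq, h1, h2, h3, h4, h5⟩
  · rw [h4 r' hr' h.symm]
  · rcases h4 r' hr' h.symm with rfl | rfl
    · rfl
    · exact h3.symm

theorem Good.lab_io (hs : s.Good) {k r r' : ℕ} (hr : r < s.len k) (hr' : r' < s.len (k + 1))
    (h : s.i k r = s.o (k + 1) r') : s.lab k r = s.lab (k + 1) r' := by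
  rcases hs.upper hr with ⟨q, hq, h1, h2, h3, h4⟩ | ⟨q, hq, h1, h2, h3, h4, h5⟩
  · rw [h3 r' hr' h.symm, h2]
  · exact absurd h.symm (h5 r' hr')

theorem Good.omono (hs : s.Good) {k r r' : ℕ} (h : r ≤ r') (hr' : r' < s.len k) :
    s.o k r ≤ s.o k r' := by
  refine wmono (f := s.o k) (n := s.len k) (fun q hq => ?_) h hr'
  rcases hs.mono k q hq with h | h | h <;> omega

theorem Good.imono (hs : s.Good) {k r r' : ℕ} (h : r ≤ r') (hr' : r' < s.len k) :
    s.i k r ≤ s.i k r' := by
  refine wmono (f := s.i k) (n := s.len k) (fun q hq => ?_) h hr'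
  rcases hs.mono k q hq with h | h | h <;> omega

theorem Good.op_strict (hs : s.Good) {k r0 r : ℕ} (h : s.op k r0) (hr : r + 1 < s.len k) :
    s.o k r < s.o k (r + 1) ∧ s.i k r < s.i k (r + 1) := by
  have h1 := (hs.op_spec k r0 h).2.2 r (by omega)
  have h2 := (hs.op_spec k r0 h).2.2 (r + 1) hr
  rcases hs.mono k r hr with h | h | h <;> omega

end Sys

end Pool.Agent.H820R2.MS
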