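import Pool.Agent.H820R2.MS.Core

/-!
# Maximum scatter TSP in the plane: tightness
-/

namespace Pool.Agent.H820R2.MS

theorem tight (A B : Finset (ℕ × ℕ)) (EF : Finset ((ℕ × ℕ) × (ℕ × ℕ))) (N : ℕ)
    (hE : ∀ e ∈ EF, e.1 ∈ A ∧ e.2 ∈ B ∧ dom e.1 e.2)
    (hA : ∀ a ∈ A, (EF.filter (fun e => e.1 = a)).card = 2)
    (hB : ∀ b ∈ B, (EF.filter (fun e => e.2 = b)).card = 2)
    (h1 : 2 * ∑ b ∈ B, b.1 = 2 * ∑ a ∈ A, a.1 + N) (h2 : 2 * A.card = N + (A ∩ B).card) :
    (∀ x ∈ A ∩ B, (x, x) ∈ EF) ∧ ∀ e ∈ EF, e.1 ≠ e.2 → e.2.1 = e.1.1 + 1 := by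
  classical
  have hcard : EF.card = 2 * A.card := by
    rw [Finset.card_eq_sum_card_fiberwise (f := fun e => e.1) (t := A) (fun e he => (hE e he).1),
      Finset.sum_congr rfl hA, Finset.sum_const, smul_eq_mul, mul_comm]
  have hsA : ∑ e ∈ EF, e.1.1 = 2 * ∑ a ∈ A, a.1 := by
    rw [← Finset.sum_fiberwise_of_maps_to (g := fun e => e.1) (t := A) (fun e he => (hE e he).1),
      Finset.mul_sum]
    refine Finset.sum_congr rfl fun a ha => ?_
    rw [← hA a ha, Finset.card_eq_sum_ones, Finset.sum_mul]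
    refine Finset.sum_congr rfl fun e he => ?_
    rw [one_mul, (Finset.mem_filter.1 he).2]
  have hsB : ∑ e ∈ EF, e.2.1 = 2 * ∑ b ∈ B, b.1 := by
    rw [← Finset.sum_fiberwise_of_maps_to (g := fun e => e.2) (t := B)
      (fun e he => (hE e he).2.1), Finset.mul_sum]
    refine Finset.sum_congr rfl fun a ha => ?_
    rw [← hB a ha, Finset.card_eq_sum_ones, Finset.sum_mul]
    refine Finset.sum_congr rfl fun e he => ?_
    rw [one_mul, (Finset.mem_filter.1 he).2]
  have hsum : ∑ e ∈ EF, e.2.1 = ∑ e ∈ EF, e.1.1 + N := by rw [hsA, hsB, h1]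
  set I := EF.filter (fun e => e.1 = e.2) with hI
  have hle : ∀ e ∈ EF, e.1.1 + (if e.1 = e.2 then 0 else 1) ≤ e.2.1 := by
    intro e he
    obtain ⟨-, -, hd1, hd2⟩ := hE e he
    split_ifs with h
    · rw [h]; omega
    · by_contra hlt
      apply h
      have : e.1.1 = e.2.1 := by omega
      exact Prod.ext this (by omega)
  have hIsum : ∑ e ∈ EF, (if e.1 = e.2 then 0 else 1) + I.card = EF.card := by
    rw [hI, Finset.card_filter, Finset.card_eq_sum_ones, ← Finset.sum_add_distrib]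
    refine Finset.sum_congr rfl fun e _ => ?_
    split_ifs <;> rfl
  have hsl : ∑ e ∈ EF, (e.1.1 + (if e.1 = e.2 then 0 else 1)) ≤ ∑ e ∈ EF, e.2.1 :=
    Finset.sum_le_sum hle
  have hIimg : I.image (fun e => e.1) ⊆ A ∩ B := by
    intro x hx
    obtain ⟨e, he, rfl⟩ := Finset.mem_image.1 hx
    obtain ⟨he1, he2⟩ := Finset.mem_filter.1 he
    exact Finset.mem_inter.2 ⟨(hE e he1).1, he2 ▸ (hE e he1).2.1⟩
  have hIinj : (I.image (fun e => e.1)).card = I.card := by
    refine Finset.card_image_of_injOn fun e he e' he' h => ?_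
    have h1 := (Finset.mem_filter.1 (Finset.mem_coe.1 he)).2
    have h2 := (Finset.mem_filter.1 (Finset.mem_coe.1 he')).2
    exact Prod.ext h (by rw [← h1, ← h2, h])
  have hIle : I.card ≤ (A ∩ B).card := hIinj ▸ Finset.card_le_card hIimg
  rw [Finset.sum_add_distrib] at hsl
  have hIeq : I.card = (A ∩ B).card := by omega
  constructor
  · intro x hx
    have : I.image (fun e => e.1) = A ∩ B :=
      Finset.eq_of_subset_of_card_le hIimg (by rw [hIinj, hIeq])
    rw [← this] at hx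
    obtain ⟨e, he, rfl⟩ := Finset.mem_image.1 hx
    obtain ⟨he1, he2⟩ := Finset.mem_filter.1 he
    have : (e.1, e.1) = e := Prod.ext rfl he2
    rwa [this]
  · intro e he hne
    have heq : ∑ e ∈ EF, (e.1.1 + (if e.1 = e.2 then 0 else 1)) = ∑ e ∈ EF, e.2.1 := by
      rw [Finset.sum_add_distrib]
      omega
    have := (Finset.sum_eq_sum_iff_of_le hle).1 heq e he
    rw [if_neg hne] at this
    omega

end Pool.Agent.H820R2.MS
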