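import Pool.Agent.H820R2.MS.T0
import Pool.Agent.H820R2.MS.T2a
import Pool.Agent.H820R2.MS.Link

/-!
# Maximum scatter TSP in the plane: soundness of slot systems
-/

namespace Pool.Agent.H820R2.MS

namespace Sys

variable {Γ : Type}

/-- The slots below gap `K`. -/
def slots (s : Sys Γ) (K : ℕ) : Finset (ℕ × ℕ) :=
  (Finset.range K).biUnion (fun k => (Finset.range (s.len k)).image (fun r => (k, r)))

/-- The lower end of a slot. -/
def aloc (s : Sys Γ) (p : ℕ × ℕ) : ℕ × ℕ := (p.1, s.o p.1 p.2)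

/-- The upper end of a slot. -/
def bloc (s : Sys Γ) (p : ℕ × ℕ) : ℕ × ℕ := (p.1 + 1, s.i p.1 p.2)

variable {s : Sys Γ}

theorem mem_slots {K : ℕ} (hK : ∀ k, K ≤ k → s.len k = 0) (p : ℕ × ℕ) :
    p ∈ s.slots K ↔ p.2 < s.len p.1 := by
  simp only [slots, Finset.mem_biUnion, Finset.mem_range, Finset.mem_image]
  constructor
  · rintro ⟨k, hk, r, hr, rfl⟩
    exact hr
  · intro h
    refine ⟨p.1, ?_, p.2, h, rfl⟩
    by_contra hc
    rw [hK p.1 (by omega)] at h
    omega

theorem Good.fib_a (hs : s.Good) {K : ℕ} (hK : ∀ k, K ≤ k → s.len k = 0) (a : ℕ × ℕ)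
    (ha : a ∈ (s.slots K).image s.aloc) :
    ((s.slots K).filter (fun p => s.aloc p = a)).card +
      (if a ∈ (s.slots K).image s.bloc then 1 else 0) = 2 := by
  obtain ⟨⟨k, r⟩, hp, rfl⟩ := Finset.mem_image.1 ha
  rw [mem_slots hK] at hp
  simp only at hp
  cases k with
  | zero => rw [hs.len_zero] at hp; omega
  | succ k =>
    rcases hs.lower hp with ⟨q, hq, h1, h2, h3⟩ | ⟨q, hq, h1, h2, h3, h4, h5⟩
    · have hB : s.aloc (k + 1, r) ∈ (s.slots K).image s.bloc :=
        Finset.mem_image.2 ⟨(k, q), (mem_slots hK _).2 hq, by simp [aloc, bloc, h1]⟩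
      rw [if_pos hB]
      have : (s.slots K).filter (fun p => s.aloc p = s.aloc (k + 1, r)) = {(k + 1, r)} := by
        ext ⟨k', r'⟩
        simp only [Finset.mem_filter, mem_slots hK, Finset.mem_singleton, aloc, Prod.mk.injEq]
        constructor
        · rintro ⟨h6, rfl, h7⟩
          exact ⟨rfl, h3 r' h6 h7⟩
        · rintro ⟨rfl, rfl⟩
          exact ⟨hp, rfl, rfl⟩
      rw [this]
      simp
    · have hB : s.aloc (k + 1, r) ∉ (s.slots K).image s.bloc := by
        intro hcon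
        obtain ⟨⟨k', r'⟩, h6, h7⟩ := Finset.mem_image.1 hcon
        rw [mem_slots hK] at h6
        simp only [aloc, bloc, Prod.mk.injEq, Nat.add_right_cancel_iff] at h7 h6
        obtain ⟨rfl, h7⟩ := h7
        exact h5 r' h6 h7
      rw [if_neg hB]
      have : (s.slots K).filter (fun p => s.aloc p = s.aloc (k + 1, r)) =
          {(k + 1, r), (k + 1, q)} := by
        ext ⟨k', r'⟩
        simp only [Finset.mem_filter, mem_slots hK, Finset.mem_singleton, Finset.mem_insert, aloc,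
          Prod.mk.injEq]
        constructor
        · rintro ⟨h6, rfl, h7⟩
          rcases h4 r' h6 h7 with rfl | rfl
          · exact Or.inl ⟨rfl, rfl⟩
          · exact Or.inr ⟨rfl, rfl⟩
        · rintro (⟨rfl, rfl⟩ | ⟨rfl, rfl⟩)
          · exact ⟨hp, rfl, rfl⟩
          · exact ⟨hq, rfl, h2⟩
      rw [this, Finset.card_pair (by simp [Ne.symm h1])]

theorem Good.fib_b (hs : s.Good) {K : ℕ} (hK : ∀ k, K ≤ k → s.len k = 0) (b : ℕ × ℕ)
    (hb : b ∈ (s.slots K).image s.bloc) :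
    ((s.slots K).filter (fun p => s.bloc p = b)).card +
      (if b ∈ (s.slots K).image s.aloc then 1 else 0) = 2 := by
  obtain ⟨⟨k, r⟩, hp, rfl⟩ := Finset.mem_image.1 hb
  rw [mem_slots hK] at hp
  simp only at hp
  rcases hs.upper hp with ⟨q, hq, h1, h2, h3, h3'⟩ | ⟨q, hq, h1, h2, h3, h4, h5⟩
  · have hB : s.bloc (k, r) ∈ (s.slots K).image s.aloc :=
      Finset.mem_image.2 ⟨(k + 1, q), (mem_slots hK _).2 hq, by simp [aloc, bloc, h1]⟩
    rw [if_pos hB]
    have : (s.slots K).filter (fun p => s.bloc p = s.bloc (k, r)) = {(k, r)} := by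
      ext ⟨k', r'⟩
      simp only [Finset.mem_filter, mem_slots hK, Finset.mem_singleton, bloc, Prod.mk.injEq,
        Nat.add_right_cancel_iff]
      constructor
      · rintro ⟨h6, rfl, h7⟩
        exact ⟨rfl, h3' r' h6 h7⟩
      · rintro ⟨rfl, rfl⟩
        exact ⟨hp, rfl, rfl⟩
    rw [this]
    simp
  · have hB : s.bloc (k, r) ∉ (s.slots K).image s.aloc := by
      intro hcon
      obtain ⟨⟨k', r'⟩, h6, h7⟩ := Finset.mem_image.1 hcon
      rw [mem_slots hK] at h6
      simp only [aloc, bloc, Prod.mk.injEq] at h7 h6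
      obtain ⟨rfl, h7⟩ := h7
      exact h5 r' h6 h7
    rw [if_neg hB]
    have : (s.slots K).filter (fun p => s.bloc p = s.bloc (k, r)) = {(k, r), (k, q)} := by
      ext ⟨k', r'⟩
      simp only [Finset.mem_filter, mem_slots hK, Finset.mem_singleton, Finset.mem_insert, bloc,
        Prod.mk.injEq, Nat.add_right_cancel_iff]
      constructor
      · rintro ⟨h6, rfl, h7⟩
        rcases h4 r' h6 h7 with rfl | rfl
        · exact Or.inl ⟨rfl, rfl⟩
        · exact Or.inr ⟨rfl, rfl⟩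
      · rintro (⟨rfl, rfl⟩ | ⟨rfl, rfl⟩)
        · exact ⟨hp, rfl, rfl⟩
        · exact ⟨hq, rfl, h2⟩
    rw [this, Finset.card_pair (by simp [Ne.symm h1])]

/-- A general double counting. -/
theorem sum_fib {D A B : Finset (ℕ × ℕ)} {f : ℕ × ℕ → ℕ × ℕ} (hA : A = D.image f)
    (h : ∀ a ∈ A, (D.filter (fun p => f p = a)).card + (if a ∈ B then 1 else 0) = 2)
    (F : ℕ × ℕ → ℕ) : 2 * ∑ a ∈ A, F a = ∑ p ∈ D, F (f p) + ∑ a ∈ A ∩ B, F a := by
  have h1 : ∑ p ∈ D, F (f p) = ∑ a ∈ A, (D.filter (fun p => f p = a)).card * F a := by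
    rw [← Finset.sum_fiberwise_of_maps_to (g := f) (t := A)
      (fun p hp => hA ▸ Finset.mem_image_of_mem f hp)]
    refine Finset.sum_congr rfl fun a _ => ?_
    rw [Finset.card_eq_sum_ones, Finset.sum_mul]
    refine Finset.sum_congr rfl fun p hp => ?_
    rw [one_mul, (Finset.mem_filter.1 hp).2]
  have h2 : ∑ a ∈ A ∩ B, F a = ∑ a ∈ A, (if a ∈ B then 1 else 0) * F a := by
    rw [← Finset.filter_mem_eq_inter, Finset.sum_filter]
    refine Finset.sum_congr rfl fun a _ => ?_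
    split_ifs <;> simp
  rw [h1, h2, Finset.mul_sum, ← Finset.sum_add_distrib]
  refine Finset.sum_congr rfl fun a ha => ?_
  rw [← add_mul, h a ha]

theorem card_filter_fib {α β : Type} {X : Finset α} {Y : Finset β} {f : α → ℕ × ℕ}
    {g : β → ℕ × ℕ} {A : Finset (ℕ × ℕ)} (hf : ∀ x ∈ X, f x ∈ A) (hg : ∀ y ∈ Y, g y ∈ A)
    (h : ∀ a ∈ A, (X.filter (fun x => f x = a)).card = (Y.filter (fun y => g y = a)).card)
    (P : ℕ × ℕ → Prop) [DecidablePred P] :
    (X.filter (fun x => P (f x))).card = (Y.filter (fun y => P (g y))).card := by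
  have key : ∀ {γ : Type} (Z : Finset γ) (u : γ → ℕ × ℕ) (hu : ∀ z ∈ Z, u z ∈ A),
      (Z.filter (fun z => P (u z))).card =
        ∑ a ∈ A, if P a then (Z.filter (fun z => u z = a)).card else 0 := by
    intro γ Z u hu
    rw [Finset.card_eq_sum_card_fiberwise (f := u) (t := A)
      (fun z hz => hu z (Finset.mem_filter.1 hz).1)]
    refine Finset.sum_congr rfl fun a _ => ?_
    split_ifs with hP
    · congr 1
      ext z
      simp only [Finset.mem_filter]
      constructor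
      · rintro ⟨⟨h1, -⟩, h2⟩
        exact ⟨h1, h2⟩
      · rintro ⟨h1, h2⟩
        exact ⟨⟨h1, h2 ▸ hP⟩, h2⟩
    · rw [Finset.card_eq_zero, Finset.filter_eq_empty_iff]
      intro z hz h2
      exact hP (h2 ▸ (Finset.mem_filter.1 hz).2)
  rw [key X f hf, key Y g hg]
  refine Finset.sum_congr rfl fun a ha => ?_
  rw [h a ha]

/-- The data of a Hamiltonian cycle, after tightness. -/
structure Data (s : Sys Γ) (K : ℕ) (EU : Finset ((ℕ × ℕ) × (ℕ × ℕ))) : Prop where
  mem : ∀ e ∈ EU, e.1 ∈ (s.slots K).image s.aloc ∧ e.2 ∈ (s.slots K).image s.bloc ∧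
    dom e.1 e.2 ∧ e.2.1 = e.1.1 + 1
  degA : ∀ a ∈ (s.slots K).image s.aloc, (EU.filter (fun e => e.1 = a)).card =
    ((s.slots K).filter (fun p => s.aloc p = a)).card
  degB : ∀ b ∈ (s.slots K).image s.bloc, (EU.filter (fun e => e.2 = b)).card =
    ((s.slots K).filter (fun p => s.bloc p = b)).card

theorem Data.cross {K : ℕ} {EU : Finset ((ℕ × ℕ) × (ℕ × ℕ))} (hD : Data s K EU) (hs : s.Good)
    (hK : ∀ k, K ≤ k → s.len k = 0) {k r : ℕ} (hr : r + 1 < s.len k)
    (ho : s.o k r < s.o k (r + 1)) (hi : s.i k r < s.i k (r + 1))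
    (hlab : s.lab k r ≠ s.lab k (r + 1) ∨ s.op k r)
    (hx : (∃ e ∈ EU, (e.1.1 = k ∧ e.1.2 ≤ s.o k r) ∧ ¬ (e.2.1 = k + 1 ∧ e.2.2 ≤ s.i k r)) ∨
      ∃ e ∈ EU, ¬ (e.1.1 = k ∧ e.1.2 ≤ s.o k r) ∧ (e.2.1 = k + 1 ∧ e.2.2 ≤ s.i k r)) :
    s.op k r ∧ ((k, s.o k r), (k + 1, s.i k (r + 1))) ∈ EU ∧
      ((k, s.o k (r + 1)), (k + 1, s.i k r)) ∈ EU := by
  set P : ℕ × ℕ → Prop := fun a => a.1 = k ∧ a.2 ≤ s.o k r with hP
  set Q : ℕ × ℕ → Prop := fun b => b.1 = k + 1 ∧ b.2 ≤ s.i k r with hQ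
  have hcard : (EU.filter (fun e => P e.1)).card = (EU.filter (fun e => Q e.2)).card := by
    rw [card_filter_fib (Y := s.slots K) (g := s.aloc) (A := (s.slots K).image s.aloc)
        (fun e he => (hD.mem e he).1) (fun p hp => Finset.mem_image_of_mem _ hp) hD.degA P,
      card_filter_fib (Y := s.slots K) (g := s.bloc) (A := (s.slots K).image s.bloc)
        (fun e he => (hD.mem e he).2.1) (fun p hp => Finset.mem_image_of_mem _ hp) hD.degB Q]
    congr 1
    ext ⟨k', r'⟩
    simp only [Finset.mem_filter, mem_slots hK, hP, hQ, aloc, bloc, Nat.add_right_cancel_iff,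
      and_congr_right_iff]
    rintro hr' rfl
    constructor
    · intro h
      by_contra hc
      have h1 : r < r' := by
        by_contra hc2
        exact hc (hs.imono (by omega) (by omega))
      have := hs.omono (k := k') (r := r + 1) (r' := r') (by omega) hr'
      omega
    · intro h
      by_contra hc
      have h1 : r < r' := by
        by_contra hc2
        exact hc (hs.omono (by omega) (by omega))
      have := hs.imono (k := k') (r := r + 1) (r' := r') (by omega) hr'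
      omega
  have hcard2 : (EU.filter (fun e => P e.1 ∧ ¬ Q e.2)).card =
      (EU.filter (fun e => ¬ P e.1 ∧ Q e.2)).card := by
    have h1 := Finset.card_filter_add_card_filter_not (s := EU.filter (fun e => P e.1))
      (fun e => Q e.2)
    have h2 := Finset.card_filter_add_card_filter_not (s := EU.filter (fun e => Q e.2))
      (fun e => P e.1)
    rw [Finset.filter_filter, Finset.filter_filter] at h1 h2
    have h3 : (EU.filter (fun e => P e.1 ∧ Q e.2)).card =
        (EU.filter (fun e => Q e.2 ∧ P e.1)).card := by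
      congr 1; ext e; simp only [Finset.mem_filter]; tauto
    have h4 : (EU.filter (fun e => ¬ P e.1 ∧ Q e.2)).card =
        (EU.filter (fun e => Q e.2 ∧ ¬ P e.1)).card := by
      congr 1; ext e; simp only [Finset.mem_filter]; tauto
    omega
  have hboth : (∃ e ∈ EU, P e.1 ∧ ¬ Q e.2) ∧ (∃ e ∈ EU, ¬ P e.1 ∧ Q e.2) := by
    rcases hx with ⟨e, he, h1, h2⟩ | ⟨e, he, h1, h2⟩
    · refine ⟨⟨e, he, h1, h2⟩, ?_⟩
      have : 0 < (EU.filter (fun e => ¬ P e.1 ∧ Q e.2)).card := by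
        rw [← hcard2]
        exact Finset.card_pos.2 ⟨e, Finset.mem_filter.2 ⟨he, h1, h2⟩⟩
      obtain ⟨e', he'⟩ := Finset.card_pos.1 this
      exact ⟨e', (Finset.mem_filter.1 he').1, (Finset.mem_filter.1 he').2⟩
    · refine ⟨?_, ⟨e, he, h1, h2⟩⟩
      have : 0 < (EU.filter (fun e => P e.1 ∧ ¬ Q e.2)).card := by
        rw [hcard2]
        exact Finset.card_pos.2 ⟨e, Finset.mem_filter.2 ⟨he, h1, h2⟩⟩
      obtain ⟨e', he'⟩ := Finset.card_pos.1 this
      exact ⟨e', (Finset.mem_filter.1 he').1, (Finset.mem_filter.1 he').2⟩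
  obtain ⟨⟨e, he, ⟨h1, h2⟩, h3⟩, ⟨e', he', h1', h2', h3'⟩⟩ := hboth
  obtain ⟨hmA, hmB, hd, hl⟩ := hD.mem e he
  obtain ⟨hmA', hmB', hd', hl'⟩ := hD.mem e' he'
  obtain ⟨⟨k1, r1⟩, hp1, h4⟩ := Finset.mem_image.1 hmA
  obtain ⟨⟨k2, r2⟩, hp2, h5⟩ := Finset.mem_image.1 hmB
  obtain ⟨⟨k1', r1'⟩, hp1', h4'⟩ := Finset.mem_image.1 hmA'
  obtain ⟨⟨k2', r2'⟩, hp2', h5'⟩ := Finset.mem_image.1 hmB'
  rw [mem_slots hK] at hp1 hp2 hp1' hp2'
  obtain ⟨⟨a1, a2⟩, ⟨b1, b2⟩⟩ := e
  obtain ⟨⟨a1', a2'⟩, ⟨b1', b2'⟩⟩ := e'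
  simp only [aloc, bloc, Prod.mk.injEq] at h4 h5 h4' h5' hp1 hp2 hp1' hp2'
  simp only [hP, hQ] at h1 h2 h3 h1' h2' h3'
  simp only at hl hl'
  obtain ⟨rfl, rfl⟩ := h4
  obtain ⟨rfl, rfl⟩ := h5
  obtain ⟨rfl, rfl⟩ := h4'
  obtain ⟨rfl, rfl⟩ := h5'
  obtain rfl : k2 = k1 := by omega
  obtain rfl : k2 = k := h1
  obtain rfl : k2' = k2 := by omega
  obtain rfl : k1' = k2' := by omega
  simp only [dom] at hd hd'
  have h6 : ¬ s.i k1' r2 ≤ s.i k1' r := fun h => h3 ⟨rfl, h⟩
  have h7 : r < r2 := by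
    by_contra hc
    exact h6 (hs.imono (by omega) (by omega))
  have h8 := hs.imono (k := k1') (r := r + 1) (r' := r2) (by omega) hp2
  have h6' : ¬ s.o k1' r1' ≤ s.o k1' r := fun h => h1' ⟨rfl, h⟩
  have h7' : r < r1' := by
    by_contra hc
    exact h6' (hs.omono (by omega) (by omega))
  have h8' := hs.omono (k := k1') (r := r + 1) (r' := r1') (by omega) hp1'
  have hop : s.op k1' r := by
    rcases hlab with hlab | hlab
    · rcases hs.cut k1' r hr with h | h | h | h
      · exact absurd h hlab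
      · omega
      · omega
      · exact h
    · exact hlab
  obtain ⟨-, h9, h10⟩ := hs.op_spec _ _ hop
  have h11 := h10 r (by omega)
  have h12 := h10 (r + 1) hr
  refine ⟨hop, ?_, ?_⟩
  · have e1 : s.o k1' r = s.o k1' r1 := by omega
    have e2 : s.i k1' (r + 1) = s.i k1' r2 := by omega
    rw [e1, e2]
    exact he
  · have e1 : s.o k1' (r + 1) = s.o k1' r1' := by omega
    have e2 : s.i k1' r = s.i k1' r2' := by omega
    rw [e1, e2]
    exact he'

open Classical in
theorem sound {Γ : Type} (s : Sys Γ) (hs : s.Good) (L : List Vx) (hL : L.Nodup)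
    (hm : ∀ v, v ∈ L ↔ s.IsVx v) (h3 : 3 ≤ L.length) (h : Tour Far L) : s.Span := by
  obtain ⟨K, hK⟩ := hs.len_top
  obtain ⟨E, hE1, hE2, hE3, hE4⟩ := h.exists_rel (fun v w => Far.symm) hL h3
  set A := (s.slots K).image s.aloc with hA
  set B := (s.slots K).image s.bloc with hB
  have hAm : ∀ a, a ∈ A ↔ ((false, a) : Vx) ∈ L := by
    intro a
    rw [hm, hA, Finset.mem_image]
    constructor
    · rintro ⟨⟨k, r⟩, hp, rfl⟩
      exact ⟨k, r, (mem_slots hK _).1 hp, Or.inl rfl⟩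
    · rintro ⟨k, r, hr, h | h⟩
      · exact ⟨(k, r), (mem_slots hK _).2 hr, (Prod.mk.inj h).2.symm⟩
      · exact absurd (Prod.mk.inj h).1 (by simp)
  have hBm : ∀ b, b ∈ B ↔ ((true, b) : Vx) ∈ L := by
    intro b
    rw [hm, hB, Finset.mem_image]
    constructor
    · rintro ⟨⟨k, r⟩, hp, rfl⟩
      exact ⟨k, r, (mem_slots hK _).1 hp, Or.inr rfl⟩
    · rintro ⟨k, r, hr, h | h⟩
      · exact absurd (Prod.mk.inj h).1 (by simp)
      · exact ⟨(k, r), (mem_slots hK _).2 hr, (Prod.mk.inj h).2.symm⟩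
  set EF : Finset ((ℕ × ℕ) × (ℕ × ℕ)) :=
    (A ×ˢ B).filter (fun e => E (false, e.1) (true, e.2)) with hEF
  have hEFm : ∀ a b, (a, b) ∈ EF ↔ E (false, a) (true, b) := by
    intro a b
    rw [hEF, Finset.mem_filter, Finset.mem_product]
    exact ⟨fun h => h.2, fun h => ⟨⟨(hAm a).2 (hE2 _ _ h).1, (hBm b).2 (hE2 _ _ h).2.1⟩, h⟩⟩
  have hEFd : ∀ e ∈ EF, e.1 ∈ A ∧ e.2 ∈ B ∧ dom e.1 e.2 := by
    rintro ⟨a, b⟩ he
    have he' := (hEFm a b).1 he
    obtain ⟨h1, h2, h3⟩ := hE2 _ _ he'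
    refine ⟨(hAm a).2 h1, (hBm b).2 h2, ?_⟩
    rcases h3 with ⟨-, -, h3⟩ | ⟨h3, -⟩
    · exact h3
    · exact absurd h3 (by simp)
  have hdA : ∀ a ∈ A, (EF.filter (fun e => e.1 = a)).card = 2 := by
    intro a ha
    obtain ⟨v, w, hvw, hvE⟩ := hE3 _ ((hAm a).1 ha)
    have hv : v.1 = true := by
      rcases (hE2 _ _ ((hvE v).2 (Or.inl rfl))).2.2 with ⟨-, h, -⟩ | ⟨h, -⟩
      · exact h
      · exact absurd h (by simp)
    have hw : w.1 = true := by
      rcases (hE2 _ _ ((hvE w).2 (Or.inr rfl))).2.2 with ⟨-, h, -⟩ | ⟨h, -⟩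
      · exact h
      · exact absurd h (by simp)
    obtain ⟨v1, b1⟩ := v
    obtain ⟨w1, b2⟩ := w
    simp only at hv hw
    subst hv hw
    have : EF.filter (fun e => e.1 = a) = {(a, b1), (a, b2)} := by
      ext ⟨a', b'⟩
      simp only [Finset.mem_filter, Finset.mem_insert, Finset.mem_singleton, Prod.mk.injEq]
      constructor
      · rintro ⟨h1, rfl⟩
        rcases (hvE _).1 ((hEFm _ _).1 h1) with h | h
        · exact Or.inl ⟨rfl, (Prod.mk.inj h).2⟩
        · exact Or.inr ⟨rfl, (Prod.mk.inj h).2⟩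
      · rintro (⟨rfl, rfl⟩ | ⟨rfl, rfl⟩)
        · exact ⟨(hEFm _ _).2 ((hvE _).2 (Or.inl rfl)), rfl⟩
        · exact ⟨(hEFm _ _).2 ((hvE _).2 (Or.inr rfl)), rfl⟩
    rw [this, Finset.card_pair]
    intro hc
    exact hvw (by rw [(Prod.mk.inj hc).2])
  have hdB : ∀ b ∈ B, (EF.filter (fun e => e.2 = b)).card = 2 := by
    intro b hb
    obtain ⟨v, w, hvw, hvE⟩ := hE3 _ ((hBm b).1 hb)
    have hv : v.1 = false := by
      rcases (hE2 _ _ ((hvE v).2 (Or.inl rfl))).2.2 with ⟨h, -⟩ | ⟨-, h, -⟩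
      · exact absurd h (by simp)
      · exact h
    have hw : w.1 = false := by
      rcases (hE2 _ _ ((hvE w).2 (Or.inr rfl))).2.2 with ⟨h, -⟩ | ⟨-, h, -⟩
      · exact absurd h (by simp)
      · exact h
    obtain ⟨v1, a1⟩ := v
    obtain ⟨w1, a2⟩ := w
    simp only at hv hw
    subst hv hw
    have : EF.filter (fun e => e.2 = b) = {(a1, b), (a2, b)} := by
      ext ⟨a', b'⟩
      simp only [Finset.mem_filter, Finset.mem_insert, Finset.mem_singleton, Prod.mk.injEq]
      constructor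
      · rintro ⟨h1, rfl⟩
        rcases (hvE _).1 (hE1 _ _ ((hEFm _ _).1 h1)) with h | h
        · exact Or.inl ⟨(Prod.mk.inj h).2, rfl⟩
        · exact Or.inr ⟨(Prod.mk.inj h).2, rfl⟩
      · rintro (⟨rfl, rfl⟩ | ⟨rfl, rfl⟩)
        · exact ⟨(hEFm _ _).2 (hE1 _ _ ((hvE _).2 (Or.inl rfl))), rfl⟩
        · exact ⟨(hEFm _ _).2 (hE1 _ _ ((hvE _).2 (Or.inr rfl))), rfl⟩
    rw [this, Finset.card_pair]
    intro hc
    exact hvw (by rw [(Prod.mk.inj hc).1])
  have hfa := hs.fib_a hK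
  have hfb := hs.fib_b hK
  rw [← hA, ← hB] at hfa hfb
  obtain ⟨ht1, ht2⟩ := tight A B EF (s.slots K).card hEFd hdA hdB
    (by
      rw [sum_fib (D := s.slots K) (B := B) hA hfa (fun a => a.1),
        sum_fib (D := s.slots K) (B := A) hB hfb (fun a => a.1), Finset.inter_comm B A]
      simp only [aloc, bloc, Finset.sum_add_distrib, Finset.sum_const, smul_eq_mul, mul_one]
      ring)
    (by
      have := sum_fib (D := s.slots K) (B := B) hA hfa (fun _ => 1)
      simpa using this)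
  set EU := EF.filter (fun e => e.1 ≠ e.2) with hEU
  have hsplit : ∀ (P : (ℕ × ℕ) × (ℕ × ℕ) → Prop) [DecidablePred P],
      (EU.filter P).card + (EF.filter (fun e => P e ∧ e.1 = e.2)).card = (EF.filter P).card := by
    intro P _
    have h1 := Finset.card_filter_add_card_filter_not (s := EF.filter P) (fun e => e.1 ≠ e.2)
    have e1 : EU.filter P = (EF.filter P).filter (fun e => e.1 ≠ e.2) := by
      ext e
      simp only [hEU, Finset.mem_filter]
      tauto
    have e2 : EF.filter (fun e => P e ∧ e.1 = e.2) =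
        (EF.filter P).filter (fun e => ¬ (e.1 ≠ e.2)) := by
      ext e
      simp only [Finset.mem_filter, not_not]
      tauto
    rw [e1, e2]
    exact h1
  have hD : Data s K EU := by
    refine ⟨fun e he => ?_, fun a ha => ?_, fun b hb => ?_⟩
    · obtain ⟨he1, he2⟩ := Finset.mem_filter.1 he
      obtain ⟨h1, h2, h3⟩ := hEFd e he1
      exact ⟨h1, h2, h3, ht2 e he1 he2⟩
    · have h1 := hfa a ha
      have h2 := hsplit (fun e => e.1 = a)
      rw [hdA a ha] at h2
      have h4 : (EF.filter (fun e => e.1 = a ∧ e.1 = e.2)).card = if a ∈ B then 1 else 0 := by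
        split_ifs with haB
        · rw [Finset.card_eq_one]
          refine ⟨(a, a), ?_⟩
          ext ⟨x, y⟩
          simp only [Finset.mem_filter, Finset.mem_singleton, Prod.mk.injEq]
          constructor
          · rintro ⟨-, rfl, rfl⟩
            exact ⟨rfl, rfl⟩
          · rintro ⟨rfl, rfl⟩
            exact ⟨ht1 _ (Finset.mem_inter.2 ⟨ha, haB⟩), rfl, rfl⟩
        · rw [Finset.card_eq_zero, Finset.filter_eq_empty_iff]
          rintro ⟨x, y⟩ he ⟨h5, h6⟩
          simp only at h5 h6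
          subst h5
          subst h6
          exact haB (hEFd _ he).2.1
      omega
    · have h1 := hfb b hb
      have h2 := hsplit (fun e => e.2 = b)
      rw [hdB b hb] at h2
      have h4 : (EF.filter (fun e => e.2 = b ∧ e.1 = e.2)).card = if b ∈ A then 1 else 0 := by
        split_ifs with hbA
        · rw [Finset.card_eq_one]
          refine ⟨(b, b), ?_⟩
          ext ⟨x, y⟩
          simp only [Finset.mem_filter, Finset.mem_singleton, Prod.mk.injEq]
          constructor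
          · rintro ⟨-, rfl, rfl⟩
            exact ⟨rfl, rfl⟩
          · rintro ⟨rfl, rfl⟩
            exact ⟨ht1 _ (Finset.mem_inter.2 ⟨hbA, hb⟩), rfl, rfl⟩
        · rw [Finset.card_eq_zero, Finset.filter_eq_empty_iff]
          rintro ⟨x, y⟩ he ⟨h5, h6⟩
          simp only at h5 h6
          subst h5
          subst h6
          exact hbA (hEFd _ he).1
      omega
  clear_value EU
  refine ⟨fun k r => s.op k r ∧ ((k, s.o k r), (k + 1, s.i k (r + 1))) ∈ EU, fun k r h => h.1,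
    ?_, ?_⟩
  · rintro k r ⟨⟨hop, he⟩, hop', he'⟩
    have hr := (hs.op_spec _ _ hop').1
    obtain ⟨ho, hi⟩ := hs.op_strict hop (r := r) (by omega)
    obtain ⟨ho', hi'⟩ := hs.op_strict hop (r := r + 1) (by omega)
    obtain ⟨-, -, h5⟩ := hD.cross hs hK (k := k) (r := r) (by omega) ho hi (Or.inr hop)
      (Or.inl ⟨_, he, ⟨rfl, le_rfl⟩, by simp only; omega⟩)
    have ha : (k, s.o k (r + 1)) ∈ A :=
      Finset.mem_image.2 ⟨(k, r + 1), (mem_slots hK _).2 (by simp only; omega), rfl⟩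
    have h6 := hD.degA _ ha
    have h7 : ((s.slots K).filter (fun p => s.aloc p = (k, s.o k (r + 1)))).card = 1 := by
      rw [Finset.card_eq_one]
      refine ⟨(k, r + 1), ?_⟩
      ext ⟨k', r'⟩
      simp only [Finset.mem_filter, mem_slots hK, Finset.mem_singleton, Prod.mk.injEq, aloc]
      constructor
      · rintro ⟨h8, rfl, h9⟩
        exact ⟨rfl, smono_inj (f := s.o k') (n := s.len k')
          (fun q hq => (hs.op_strict hop hq).1) h8 (by omega) h9⟩
      · rintro ⟨rfl, rfl⟩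
        exact ⟨by omega, rfl, rfl⟩
    rw [h7, Finset.card_eq_one] at h6
    obtain ⟨x, hx⟩ := h6
    have h8 : ((k, s.o k (r + 1)), (k + 1, s.i k r)) ∈ ({x} : Finset _) := by
      rw [← hx]; exact Finset.mem_filter.2 ⟨h5, rfl⟩
    have h9 : ((k, s.o k (r + 1)), (k + 1, s.i k (r + 1 + 1))) ∈ ({x} : Finset _) := by
      rw [← hx]; exact Finset.mem_filter.2 ⟨he', rfl⟩
    rw [Finset.mem_singleton] at h8 h9
    have h10 := h8.trans h9.symm
    simp only [Prod.mk.injEq, true_and] at h10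
    omega
  · intro S hS
    -- labels along an edge
    have hedge : ∀ k r1 r2, r1 < s.len k → r2 < s.len k →
        ((k, s.o k r1), (k + 1, s.i k r2)) ∈ EU → (s.lab k r1 ∈ S ↔ s.lab k r2 ∈ S) := by
      intro k r1 r2 h1 h2 he
      have hstep : ∀ r, r + 1 < s.len k → (r1 ≤ r ∧ r < r2 ∨ r2 ≤ r ∧ r < r1) →
          (s.lab k r ∈ S ↔ s.lab k (r + 1) ∈ S) := by
        intro r hr hrr
        by_cases hl : s.lab k r = s.lab k (r + 1)
        · rw [hl]
        · have hst : s.o k r < s.o k (r + 1) ∧ s.i k r < s.i k (r + 1) := by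
            rcases hs.mono k r hr with h | h | h
            · exact h
            · exact absurd h.1 hl
            · exact absurd h.1 hl
          refine hS k r ?_
          have hx := hD.cross hs hK hr hst.1 hst.2 (Or.inl hl) ?_
          · exact ⟨hx.1, hx.2.1⟩
          · rcases hrr with ⟨h4, h5⟩ | ⟨h4, h5⟩
            · left
              refine ⟨_, he, ⟨rfl, hs.omono h4 (by omega)⟩, ?_⟩
              have := hs.imono (k := k) (r := r + 1) (r' := r2) (by omega) h2
              simp only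
              omega
            · right
              refine ⟨_, he, ?_, ⟨rfl, hs.imono h4 (by omega)⟩⟩
              have := hs.omono (k := k) (r := r + 1) (r' := r1) (by omega) h1
              simp only
              omega
      rcases le_total r1 r2 with h12 | h12
      · exact iff_steps (P := fun r => s.lab k r ∈ S) h12
          fun r h4 h5 => hstep r (by omega) (Or.inl ⟨h4, h5⟩)
      · exact (iff_steps (P := fun r => s.lab k r ∈ S) h12
          fun r h4 h5 => hstep r (by omega) (Or.inr ⟨h4, h5⟩)).symm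
    have hEcase : ∀ a b, E (false, a) (true, b) → ∀ k r k' r', r < s.len k → r' < s.len k' →
        a = (k, s.o k r) → b = (k' + 1, s.i k' r') → (s.lab k r ∈ S ↔ s.lab k' r' ∈ S) := by
      intro a b hab k r k' r' hr hr' ha hb
      have he := (hEFm a b).2 hab
      by_cases hab2 : a = b
      · rw [ha, hb] at hab2
        obtain ⟨rfl, h5⟩ := Prod.mk.inj hab2
        rw [hs.lab_io hr' hr h5.symm]
      · have he2 : (a, b) ∈ EU := by
          rw [hEU]; exact Finset.mem_filter.2 ⟨he, hab2⟩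
        have h5 := (hD.mem _ he2).2.2.2
        rw [ha, hb] at h5
        simp only at h5
        obtain rfl : k' = k := by omega
        rw [ha, hb] at he2
        exact hedge k' r r' hr hr' he2
    have hmain : ∀ k r k' r', r < s.len k → r' < s.len k' → s.lab k r ∈ S →
        s.lab k' r' ∈ S := by
      intro k r k' r' hr hr' hS1
      set W : Set Vx := {v | ∃ k r, r < s.len k ∧ (v = (false, k, s.o k r) ∨
        v = (true, k + 1, s.i k r)) ∧ s.lab k r ∈ S} with hW
      have hWall := hE4 W ⟨(false, k, s.o k r), (hm _).2 ⟨k, r, hr, Or.inl rfl⟩,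
        ⟨k, r, hr, Or.inl rfl, hS1⟩⟩ ?_ (false, k', s.o k' r')
        ((hm _).2 ⟨k', r', hr', Or.inl rfl⟩)
      · obtain ⟨k2, r2, hr2, h5 | h5, h6⟩ := hWall
        · obtain ⟨-, h5⟩ := Prod.mk.inj h5
          obtain ⟨rfl, h5⟩ := Prod.mk.inj h5
          rwa [hs.lab_o hr' hr2 h5]
        · exact absurd (Prod.mk.inj h5).1 (by simp)
      · rintro v ⟨k1, r1, hr1, hv, hv2⟩ w hvw
        obtain ⟨hvL, hwL, hF⟩ := hE2 _ _ hvw
        obtain ⟨k2, r2, hr2, hw⟩ := (hm w).1 hwL
        refine ⟨k2, r2, hr2, hw, ?_⟩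
        rcases hv with rfl | rfl <;> rcases hw with rfl | rfl
        · rcases hF with ⟨-, h, -⟩ | ⟨h, -⟩ <;> exact absurd h (by simp)
        · exact (hEcase _ _ hvw k1 r1 k2 r2 hr1 hr2 rfl rfl).1 hv2
        · exact (hEcase _ _ (hE1 _ _ hvw) k2 r2 k1 r1 hr2 hr1 rfl rfl).2 hv2
        · rcases hF with ⟨h, -⟩ | ⟨-, h, -⟩ <;> exact absurd h (by simp)
    intro k r k' r' hr hr'
    exact ⟨hmain k r k' r' hr hr', hmain k' r' k r hr' hr⟩

end Sys

end Pool.Agent.H820R2.MS
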