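import Pool.Agent.H820R2.MS.Defs
import Pool.Agent.H679R2.Oct.Ham

/-!
T0: cyclic lists and connected 2-regular relations.
-/

namespace Pool.Agent.H820R2.MS

/-- cyclic indexing -/
def T0f {α : Type} (σ : List α) (hn : 0 < σ.length) (i : ℕ) : α :=
  σ[i % σ.length]'(Nat.mod_lt _ hn)

theorem T0f_inj {α : Type} {σ : List α} (hσ : σ.Nodup) (hn : 0 < σ.length) {i j : ℕ} :
    T0f σ hn i = T0f σ hn j ↔ i % σ.length = j % σ.length := by
  unfold T0f
  exact hσ.getElem_inj_iff

theorem T0f_add {α : Type} {σ : List α} (hn : 0 < σ.length) (i k : ℕ) :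
    T0f σ hn (i + k * σ.length) = T0f σ hn i := by
  unfold T0f
  congr 1
  exact Nat.add_mul_mod_self_right _ _ _

theorem T0f_mem {α : Type} {σ : List α} (hn : 0 < σ.length) {v : α} :
    v ∈ σ ↔ ∃ i, v = T0f σ hn i := by
  constructor
  · intro h
    obtain ⟨i, hi, rfl⟩ := List.mem_iff_getElem.1 h
    refine ⟨i, ?_⟩
    unfold T0f
    congr 1
    exact (Nat.mod_eq_of_lt hi).symm
  · rintro ⟨i, rfl⟩
    exact List.getElem_mem _

theorem Tour.exists_rel {α : Type} {R : α → α → Prop} (hR : ∀ v w, R v w → R w v) {P : List α}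
    (hP : P.Nodup) (h3 : 3 ≤ P.length) (h : Tour R P) :
    ∃ E : α → α → Prop, (∀ v w, E v w → E w v) ∧ (∀ v w, E v w → v ∈ P ∧ w ∈ P ∧ R v w) ∧
      (∀ v ∈ P, ∃ a b, a ≠ b ∧ ∀ w, E v w ↔ w = a ∨ w = b) ∧
      ∀ W : Set α, (∃ v ∈ P, v ∈ W) → (∀ v ∈ W, ∀ w, E v w → w ∈ W) → ∀ v ∈ P, v ∈ W := by
  obtain ⟨σ, hperm, hσR⟩ := h
  have hnd : σ.Nodup := hperm.nodup_iff.2 hP
  have hlen : 3 ≤ σ.length := by rw [hperm.length_eq]; exact h3
  have hn : 0 < σ.length := by omega
  obtain ⟨n, hnn⟩ : ∃ n, n = σ.length := ⟨_, rfl⟩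
  rw [← hnn] at hlen
  set f := T0f σ hn with hf
  have hinj : ∀ i j, f i = f j ↔ i % n = j % n := fun i j => by rw [hnn]; exact T0f_inj hnd hn
  have hmem : ∀ v, v ∈ P ↔ ∃ i, v = f i := fun v => by rw [← hperm.mem_iff]; exact T0f_mem hn
  have hRf : ∀ i, R (f i) (f (i + 1)) := by
    intro i
    have h1 := hσR (i % σ.length) (Nat.mod_lt _ hn)
    have h2 : (i % σ.length + 1) % σ.length = (i + 1) % σ.length := by rw [Nat.mod_add_mod]
    have h3 : σ[(i % σ.length + 1) % σ.length]'(Nat.mod_lt _ hn) = f (i + 1) := by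
      rw [hf]; unfold T0f
      congr 1
    have h4 : σ[i % σ.length]'(Nat.mod_lt _ hn) = f i := rfl
    rw [← h3, ← h4]
    exact h1
  refine ⟨fun v w => ∃ i, (v = f i ∧ w = f (i + 1)) ∨ (w = f i ∧ v = f (i + 1)), ?_, ?_, ?_, ?_⟩
  · rintro v w ⟨i, h1 | h1⟩
    · exact ⟨i, Or.inr h1⟩
    · exact ⟨i, Or.inl h1⟩
  · rintro v w ⟨i, ⟨rfl, rfl⟩ | ⟨rfl, rfl⟩⟩
    · exact ⟨(hmem _).2 ⟨_, rfl⟩, (hmem _).2 ⟨_, rfl⟩, hRf i⟩
    · exact ⟨(hmem _).2 ⟨_, rfl⟩, (hmem _).2 ⟨_, rfl⟩, hR _ _ (hRf i)⟩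
  · intro v hv
    obtain ⟨i, rfl⟩ := (hmem v).1 hv
    refine ⟨f (i + 1), f (i + (n - 1)), ?_, ?_⟩
    · intro h1
      rw [hinj] at h1
      have h2 : (i + (n - 1)) = (i + 1) + (n - 2) := by omega
      rw [h2] at h1
      have h3 : (n - 2) % n = 0 := by
        have h4 : (i + 1 + 0) % n = (i + 1 + (n - 2)) % n := by rw [add_zero]; exact h1
        have h5 := Nat.ModEq.add_left_cancel' (i + 1) (show i + 1 + 0 ≡ i + 1 + (n - 2) [MOD n] from h4)
        have h6 : 0 % n = (n - 2) % n := h5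
        rw [← h6]; simp
      rw [Nat.mod_eq_of_lt (by omega)] at h3
      omega
    · intro w
      constructor
      · rintro ⟨j, ⟨h1, h2⟩ | ⟨h1, h2⟩⟩
        · left
          rw [h2]
          rw [hinj] at h1 ⊢
          exact (Nat.ModEq.add_right 1 (show i ≡ j [MOD n] from h1)).symm
        · right
          rw [h1]
          rw [hinj] at h2 ⊢
          have h3 : j + 1 + (n - 1) ≡ i + (n - 1) [MOD n] :=
            Nat.ModEq.add_right (n - 1) (show i ≡ j + 1 [MOD n] from h2).symm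
          have h4 : j + 1 + (n - 1) = j + 1 * n := by omega
          rw [h4] at h3
          have h5 : (j + 1 * n) % n = (i + (n - 1)) % n := h3
          rw [Nat.add_mul_mod_self_right] at h5
          exact h5
      · rintro (h1 | h1)
        · exact ⟨i, Or.inl ⟨rfl, h1⟩⟩
        · refine ⟨i + (n - 1), Or.inr ⟨h1, ?_⟩⟩
          have h2 : i + (n - 1) + 1 = i + 1 * n := by omega
          rw [h2]
          rw [hnn]
          exact (T0f_add hn i 1).symm
  · rintro W ⟨v, hv, hvW⟩ hcl w hw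
    obtain ⟨i, rfl⟩ := (hmem v).1 hv
    obtain ⟨j, rfl⟩ := (hmem w).1 hw
    have h1 : ∀ k, f (i + k) ∈ W := by
      intro k
      induction k with
      | zero => exact hvW
      | succ k ih => exact hcl _ ih _ ⟨i + k, Or.inl ⟨rfl, rfl⟩⟩
    have h2 := h1 ((n - 1) * i + j)
    have h3 : i + ((n - 1) * i + j) = j + i * n := by
      obtain ⟨m, hm⟩ : ∃ m, n = m + 1 := ⟨n - 1, by omega⟩
      rw [hm, Nat.add_sub_cancel]
      ring
    rw [h3] at h2
    have h4 : f (j + i * n) = f j := by rw [hnn]; exact T0f_add hn j i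
    rwa [h4] at h2

theorem Tour.of_rel {α : Type} {R : α → α → Prop} {P : List α} (hP : P.Nodup) (hne : P ≠ [])
    (E : α → α → Prop) (h1 : ∀ v w, E v w → E w v) (h2 : ∀ v w, E v w → v ∈ P ∧ w ∈ P ∧ R v w)
    (h3 : ∀ v, ¬ E v v) (h4 : ∀ v ∈ P, ∃ a b, a ≠ b ∧ ∀ w, E v w ↔ w = a ∨ w = b)
    (h5 : ∀ W : Set α, (∃ v ∈ P, v ∈ W) → (∀ v ∈ W, ∀ w, E v w → w ∈ W) → ∀ v ∈ P, v ∈ W) :
    Tour R P := by
  classical
  let V := {v : α // v ∈ P}
  let G : SimpleGraph V :=
    { Adj := fun v w => E v.1 w.1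
      symm := ⟨fun v w h => h1 _ _ h⟩
      loopless := ⟨fun v h => h3 _ h⟩ }
  have hfin : Finite V := List.finite_toSet P
  have hdeg : ∀ v : V, (G.neighborSet v).ncard = 2 := by
    rintro ⟨v, hv⟩
    obtain ⟨a, b, hab, hE⟩ := h4 v hv
    have ha : a ∈ P := (h2 v a ((hE a).2 (Or.inl rfl))).2.1
    have hb : b ∈ P := (h2 v b ((hE b).2 (Or.inr rfl))).2.1
    have : G.neighborSet ⟨v, hv⟩ = {⟨a, ha⟩, ⟨b, hb⟩} := by
      ext ⟨w, hw⟩
      simp only [SimpleGraph.mem_neighborSet, Set.mem_insert_iff, Set.mem_singleton_iff]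
      constructor
      · intro h
        rcases (hE w).1 h with h | h
        · exact Or.inl (Subtype.ext h)
        · exact Or.inr (Subtype.ext h)
      · rintro (h | h)
        · exact (hE w).2 (Or.inl (congrArg Subtype.val h))
        · exact (hE w).2 (Or.inr (congrArg Subtype.val h))
    rw [this]
    apply Set.ncard_pair
    intro h
    exact hab (congrArg Subtype.val h)
  obtain ⟨v0, hv0⟩ := List.exists_mem_of_ne_nil P hne
  have hconn : G.Connected := by
    refine { preconnected := ?_, nonempty := ⟨⟨v0, hv0⟩⟩ }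
    rintro ⟨u, hu⟩ ⟨w, hw⟩
    have key := h5 {x | ∃ h : x ∈ P, G.Reachable ⟨u, hu⟩ ⟨x, h⟩} ⟨u, hu, hu, SimpleGraph.Reachable.refl _⟩
      (by
        rintro v ⟨hv, hr⟩ w' hE
        have hw' : w' ∈ P := (h2 v w' hE).2.1
        refine ⟨hw', hr.trans ?_⟩
        have : G.Adj ⟨v, hv⟩ ⟨w', hw'⟩ := hE
        exact this.reachable) w hw
    obtain ⟨_, hr⟩ := key
    exact hr
  obtain ⟨a, p, hp⟩ := Pool.Agent.H679R2.exists_hamCycle (le_refl G) hdeg hconn
  have hham : p.tail.IsHamiltonian := hp.isHamiltonian_tail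
  have hadj0 : G.Adj a p.snd := p.adj_snd hp.not_nil
  set τ := p.tail.support with hτ
  have hnd : τ.Nodup := hham.isPath.support_nodup
  have hall : ∀ v, v ∈ τ := hham.mem_support
  have hchain : List.IsChain G.Adj τ := p.tail.isChain_adj_support
  have hlen : 0 < τ.length := by rw [hτ, SimpleGraph.Walk.length_support]; omega
  have hfirst : τ[0]'hlen = p.snd := by
    rw [List.getElem_zero]
    exact SimpleGraph.Walk.head_support _
  have hlast : τ[τ.length - 1]'(by omega) = a := by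
    rw [← List.getLast_eq_getElem (by rw [← List.length_pos_iff]; exact hlen)]
    exact SimpleGraph.Walk.getLast_support _
  refine ⟨τ.map Subtype.val, ?_, ?_⟩
  · rw [List.perm_ext_iff_of_nodup (hnd.map Subtype.val_injective) hP]
    intro v
    rw [List.mem_map]
    constructor
    · rintro ⟨x, -, rfl⟩
      exact x.2
    · intro hv
      exact ⟨⟨v, hv⟩, hall _, rfl⟩
  · intro i hi
    rw [List.length_map] at hi
    have hEi : G.Adj τ[i] (τ[(i + 1) % τ.length]'(Nat.mod_lt _ hlen)) := by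
      rcases Nat.lt_or_ge (i + 1) τ.length with h | h
      · have e : (i + 1) % τ.length = i + 1 := Nat.mod_eq_of_lt h
        simp only [e]
        exact List.isChain_iff_getElem.1 hchain i h
      · have hi' : i = τ.length - 1 := by omega
        have e : (i + 1) % τ.length = 0 := by
          have : i + 1 = τ.length := by omega
          rw [this, Nat.mod_self]
        simp only [e, hfirst]
        subst hi'
        rw [hlast]
        exact hadj0
    have := (h2 _ _ hEi).2.2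
    simpa using this

end Pool.Agent.H820R2.MS
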