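import Pool.Agent.H820R2.MS.Core
import Pool.Agent.H820R2.MS.T0
import Pool.Agent.H679R2.Oct.Ham

/-!
# Task T3: a connecting choice of swaps gives a Hamiltonian cycle
-/

set_option autoImplicit false

namespace Pool.Agent.H820R2.MS

namespace T3

open Pool.Agent.H679R2

variable {Γ : Type}

def sz (n m : ℕ) (c : Bool) : ℕ := bif c then m else n
def ps (f g : ℕ → ℕ) (x : Bool × ℕ) : ℕ := bif x.1 then g x.2 else f x.2
def lb (f g : ℕ → Γ) (x : Bool × ℕ) : Γ := bif x.1 then g x.2 else f x.2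

theorem smono {n : ℕ} {f : ℕ → ℕ} (hf : ∀ r, r + 1 < n → f r < f (r + 1)) :
    ∀ a b, a < b → b < n → f a < f b := by
  intro a b hab hb
  induction b with
  | zero => omega
  | succ b ih =>
    rcases Nat.lt_succ_iff_lt_or_eq.1 hab with h | h
    · exact (ih h (by omega)).trans (hf b hb)
    · subst h; exact hf a hb

theorem sinj {n : ℕ} {f : ℕ → ℕ} (hf : ∀ r, r + 1 < n → f r < f (r + 1)) {a b : ℕ}
    (ha : a < n) (hb : b < n) (h : f a = f b) : a = b := by
  rcases lt_trichotomy a b with h1 | h1 | h1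
  · have := smono hf a b h1 hb; omega
  · exact h1
  · have := smono hf b a h1 ha; omega

theorem pair_ins {n j : ℕ} {f g : ℕ → ℕ} {lf lg : ℕ → Γ} (hj : j ≤ n)
    (hf : ∀ r, r + 1 < n → f r < f (r + 1)) (h1 : ∀ r < j, g r = f r ∧ lg r = lf r)
    (h2 : ∀ r, j ≤ r → r < n → g (r + 2) = f r ∧ lg (r + 2) = lf r) (h3 : g (j + 1) = g j)
    (h4 : lg (j + 1) = lg j) (h5 : ∀ r < j, f r < g j) (h6 : ∀ r, j ≤ r → r < n → g j < f r)
    (x : Bool × ℕ) (hx : x.2 < sz n (n + 2) x.1) :
    ∃ y : Bool × ℕ, y.2 < sz n (n + 2) y.1 ∧ y ≠ x ∧ ps f g y = ps f g x ∧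
      lb lf lg y = lb lf lg x ∧ ∀ z : Bool × ℕ, z.2 < sz n (n + 2) z.1 → ps f g z = ps f g x →
        z = x ∨ z = y := by
  -- positions of the second sequence
  have hne : ∀ r < n, f r ≠ g j := by
    intro r hr h
    rcases lt_or_ge r j with h' | h'
    · have := h5 r h'; omega
    · have := h6 r h' hr; omega
  have hg : ∀ r < n + 2, (r < j ∧ r < n ∧ g r = f r ∧ lg r = lf r) ∨
      ((r = j ∨ r = j + 1) ∧ g r = g j ∧ lg r = lg j) ∨
      (j + 2 ≤ r ∧ r - 2 < n ∧ g r = f (r - 2) ∧ lg r = lf (r - 2)) := by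
    intro r hr
    rcases lt_trichotomy r j with h | h | h
    · exact Or.inl ⟨h, by omega, h1 r h⟩
    · subst h; exact Or.inr (Or.inl ⟨Or.inl rfl, rfl, rfl⟩)
    · rcases Nat.lt_or_ge (j + 1) r with h' | h'
      · obtain ⟨q, rfl⟩ : ∃ q, r = q + 2 := ⟨r - 2, by omega⟩
        have := h2 q (by omega) (by omega)
        exact Or.inr (Or.inr ⟨by omega, by omega, by simpa using this⟩)
      · have : r = j + 1 := by omega
        subst this
        exact Or.inr (Or.inl ⟨Or.inr rfl, h3, h4⟩)
  obtain ⟨c, r⟩ := x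
  cases c with
  | false =>
    have hx' : r < n := hx
    by_cases hr : r < j
    · refine ⟨(true, r), show r < n + 2 by omega, by simp, (h1 r hr).1, (h1 r hr).2, ?_⟩
      rintro ⟨c, q⟩ hq hpq
      cases c with
      | false => exact Or.inl (congrArg (Prod.mk false) (sinj (a := q) (b := r) hf hq hx' hpq))
      | true =>
        have hq' : q < n + 2 := hq
        have hpq' : g q = f r := hpq
        rcases hg q hq' with ⟨a1, a2, a3, -⟩ | ⟨a1, a2, -⟩ | ⟨a1, a2, a3, -⟩
        · rw [a3] at hpq'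
          exact Or.inr (congrArg (Prod.mk true) (sinj hf a2 hx' hpq'))
        · rw [a2] at hpq'; exact absurd hpq'.symm (hne r hx')
        · rw [a3] at hpq'
          have := sinj hf a2 hx' hpq'
          omega
    · have hr' : j ≤ r := by omega
      refine ⟨(true, r + 2), show r + 2 < n + 2 by omega, by simp, (h2 r hr' hx').1,
        (h2 r hr' hx').2, ?_⟩
      rintro ⟨c, q⟩ hq hpq
      cases c with
      | false => exact Or.inl (congrArg (Prod.mk false) (sinj (a := q) (b := r) hf hq hx' hpq))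
      | true =>
        have hq' : q < n + 2 := hq
        have hpq' : g q = f r := hpq
        rcases hg q hq' with ⟨a1, a2, a3, -⟩ | ⟨a1, a2, -⟩ | ⟨a1, a2, a3, -⟩
        · rw [a3] at hpq'
          have := sinj hf a2 hx' hpq'
          omega
        · rw [a2] at hpq'; exact absurd hpq'.symm (hne r hx')
        · rw [a3] at hpq'
          have := sinj hf a2 hx' hpq'
          refine Or.inr ?_
          rw [Prod.mk.injEq]
          exact ⟨rfl, by omega⟩
  | true =>
    have hx' : r < n + 2 := hx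
    rcases hg r hx' with ⟨b1, b2, b3, b4⟩ | ⟨b1, b2, b3⟩ | ⟨b1, b2, b3, b4⟩
    · refine ⟨(false, r), b2, by simp, b3.symm, b4.symm, ?_⟩
      rintro ⟨c, q⟩ hq hpq
      cases c with
      | false =>
        have hpq' : f q = g r := hpq
        rw [b3] at hpq'
        exact Or.inr (congrArg (Prod.mk false) (sinj (a := q) hf hq b2 hpq'))
      | true =>
        have hq' : q < n + 2 := hq
        have hpq' : g q = g r := hpq
        rw [b3] at hpq'
        rcases hg q hq' with ⟨a1, a2, a3, -⟩ | ⟨a1, a2, -⟩ | ⟨a1, a2, a3, -⟩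
        · rw [a3] at hpq'
          exact Or.inl (congrArg (Prod.mk true) (sinj hf a2 b2 hpq'))
        · rw [a2] at hpq'; exact absurd hpq'.symm (hne r b2)
        · rw [a3] at hpq'
          have := sinj hf a2 b2 hpq'
          omega
    · have hfin : ∀ z : Bool × ℕ, z.2 < sz n (n + 2) z.1 → ps f g z = ps f g (true, r) →
          z = (true, j) ∨ z = (true, j + 1) := by
        rintro ⟨c, q⟩ hq hpq
        cases c with
        | false =>
          have hpq' : f q = g r := hpq
          rw [b2] at hpq'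
          exact absurd hpq' (hne q hq)
        | true =>
          have hq' : q < n + 2 := hq
          have hpq' : g q = g r := hpq
          rw [b2] at hpq'
          rcases hg q hq' with ⟨a1, a2, a3, -⟩ | ⟨a1, a2, -⟩ | ⟨a1, a2, a3, -⟩
          · rw [a3] at hpq'; exact absurd hpq' (hne q a2)
          · rcases a1 with rfl | rfl
            · exact Or.inl rfl
            · exact Or.inr rfl
          · rw [a3] at hpq'; exact absurd hpq' (hne (q - 2) a2)
      rcases b1 with rfl | rfl
      · refine ⟨(true, r + 1), show r + 1 < n + 2 by omega, by simp, h3, h4, ?_⟩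
        intro z hz hz2
        exact hfin z hz hz2
      · refine ⟨(true, j), show j < n + 2 by omega, by simp, h3.symm, h4.symm, ?_⟩
        intro z hz hz2
        exact (hfin z hz hz2).symm
    · refine ⟨(false, r - 2), b2, by simp, b3.symm, b4.symm, ?_⟩
      rintro ⟨c, q⟩ hq hpq
      cases c with
      | false =>
        have hpq' : f q = g r := hpq
        rw [b3] at hpq'
        exact Or.inr (congrArg (Prod.mk false) (sinj (a := q) hf hq b2 hpq'))
      | true =>
        have hq' : q < n + 2 := hq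
        have hpq' : g q = g r := hpq
        rw [b3] at hpq'
        rcases hg q hq' with ⟨a1, a2, a3, -⟩ | ⟨a1, a2, -⟩ | ⟨a1, a2, a3, -⟩
        · rw [a3] at hpq'
          have := sinj hf a2 b2 hpq'
          omega
        · rw [a2] at hpq'; exact absurd hpq'.symm (hne (r - 2) b2)
        · rw [a3] at hpq'
          have := sinj hf a2 b2 hpq'
          refine Or.inl ?_
          rw [Prod.mk.injEq]
          exact ⟨rfl, by omega⟩

theorem pair_same {n : ℕ} {f g : ℕ → ℕ} {lf lg : ℕ → Γ}
    (hf : ∀ r, r + 1 < n → f r < f (r + 1)) (h1 : ∀ r < n, g r = f r ∧ lg r = lf r)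
    (x : Bool × ℕ) (hx : x.2 < sz n n x.1) :
    ∃ y : Bool × ℕ, y.2 < sz n n y.1 ∧ y ≠ x ∧ ps f g y = ps f g x ∧
      lb lf lg y = lb lf lg x ∧ ∀ z : Bool × ℕ, z.2 < sz n n z.1 → ps f g z = ps f g x →
        z = x ∨ z = y := by
  have hsz : ∀ c, sz n n c = n := by intro c; cases c <;> rfl
  have hps : ∀ z : Bool × ℕ, z.2 < n → ps f g z = f z.2 := by
    rintro ⟨c, q⟩ hq
    cases c with
    | false => rfl
    | true => exact (h1 q hq).1
  have hlb : ∀ z : Bool × ℕ, z.2 < n → lb lf lg z = lf z.2 := by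
    rintro ⟨c, q⟩ hq
    cases c with
    | false => rfl
    | true => exact (h1 q hq).2
  rw [hsz] at hx
  refine ⟨(!x.1, x.2), by rw [hsz]; exact hx, ?_, ?_, ?_, ?_⟩
  · intro h
    have := congrArg Prod.fst h
    simp at this
  · rw [hps _ hx, hps _ (by exact hx)]
  · rw [hlb _ hx, hlb _ (by exact hx)]
  · rintro ⟨c, q⟩ hq hpq
    rw [hsz] at hq
    rw [hps _ hq, hps _ hx] at hpq
    have := sinj hf hq hx hpq
    simp only at this
    subst this
    obtain ⟨c', q'⟩ := x
    cases c <;> cases c' <;> simp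

variable (s : Sys Γ)

/-- dart-ends: gap, slot, `true` for the upper end -/
abbrev D : Type := {x : ℕ × ℕ × Bool // x.2.1 < s.len x.1}

def loc (x : ℕ × ℕ × Bool) : ℕ × ℕ :=
  bif x.2.2 then (x.1 + 1, s.i x.1 x.2.1) else (x.1, s.o x.1 x.2.1)

def vx (x : ℕ × ℕ × Bool) : Vx := (x.2.2, loc s x)

variable {s}

/-- a dart end at level `k + 1` -/
def mk (k : ℕ) (b : Bool) (x : Bool × ℕ) : ℕ × ℕ × Bool :=
  if x.1 = b then (k, x.2, true) else (k + 1, x.2, false)

theorem partner (hs : s.Good) (x : D s) : ∃ y : D s, y ≠ x ∧ loc s y.1 = loc s x.1 ∧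
    s.lab y.1.1 y.1.2.1 = s.lab x.1.1 x.1.2.1 ∧
    ∀ z : D s, loc s z.1 = loc s x.1 → z = x ∨ z = y := by
  -- the level of `x`
  obtain ⟨k, hk⟩ : ∃ k, (loc s x.1).1 = k + 1 := by
    obtain ⟨⟨k, r, e⟩, hx⟩ := x
    cases e with
    | true => exact ⟨k, rfl⟩
    | false =>
      cases k with
      | zero =>
        exfalso
        have h0 := hs.len_zero
        simp only at hx
        omega
      | succ k => exact ⟨k, rfl⟩
  -- all dart-ends of this level
  have hlev : ∀ z : D s, (loc s z.1).1 = k + 1 → (z.1 = (k, z.1.2.1, true) ∧ z.1.2.1 < s.len k ∧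
      loc s z.1 = (k + 1, s.i k z.1.2.1)) ∨ (z.1 = (k + 1, z.1.2.1, false) ∧
        z.1.2.1 < s.len (k + 1) ∧ loc s z.1 = (k + 1, s.o (k + 1) z.1.2.1)) := by
    rintro ⟨⟨k', r, e⟩, hz⟩ h
    cases e with
    | true =>
      have h' : k' + 1 = k + 1 := h
      have h'' : k' = k := by omega
      subst h''
      exact Or.inl ⟨rfl, hz, rfl⟩
    | false =>
      have h' : k' = k + 1 := h
      subst h'
      exact Or.inr ⟨rfl, hz, rfl⟩
  -- abstract pairing on one level
  suffices H : ∀ b : Bool, ∀ f g : ℕ → ℕ, ∀ lf lg : ℕ → Γ, ∀ n m : ℕ,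
      (b = false → f = s.i k ∧ g = s.o (k + 1) ∧ lf = s.lab k ∧ lg = s.lab (k + 1) ∧
        n = s.len k ∧ m = s.len (k + 1)) →
      (b = true → f = s.o (k + 1) ∧ g = s.i k ∧ lf = s.lab (k + 1) ∧ lg = s.lab k ∧
        n = s.len (k + 1) ∧ m = s.len k) →
      (∀ x : Bool × ℕ, x.2 < sz n m x.1 → ∃ y : Bool × ℕ, y.2 < sz n m y.1 ∧ y ≠ x ∧
        ps f g y = ps f g x ∧ lb lf lg y = lb lf lg x ∧ ∀ z : Bool × ℕ, z.2 < sz n m z.1 →
          ps f g z = ps f g x → z = x ∨ z = y) →
      ∃ y : D s, y ≠ x ∧ loc s y.1 = loc s x.1 ∧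
        s.lab y.1.1 y.1.2.1 = s.lab x.1.1 x.1.2.1 ∧
        ∀ z : D s, loc s z.1 = loc s x.1 → z = x ∨ z = y by
    rcases hs.link k with h | ⟨j, -, h⟩ | ⟨j, h⟩
    · obtain ⟨h1, h2, h3⟩ := h
      refine H false (s.i k) (s.o (k + 1)) (s.lab k) (s.lab (k + 1)) (s.len k) (s.len (k + 1))
        (fun _ => ⟨rfl, rfl, rfl, rfl, rfl, rfl⟩) (fun h => by simp at h) ?_
      rw [h1]
      exact pair_same h2 h3
    · obtain ⟨h1, h2, h3, h4, h5, h6, h7, h8, h9⟩ := h
      refine H false (s.i k) (s.o (k + 1)) (s.lab k) (s.lab (k + 1)) (s.len k) (s.len (k + 1))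
        (fun _ => ⟨rfl, rfl, rfl, rfl, rfl, rfl⟩) (fun h => by simp at h) ?_
      rw [h1]
      exact pair_ins h2 h3 h4 h5 h6 h7 h8 h9
    · obtain ⟨h1, h2, h3, h4, h5, h6, h7, h8, h9⟩ := h
      refine H true (s.o (k + 1)) (s.i k) (s.lab (k + 1)) (s.lab k) (s.len (k + 1)) (s.len k)
        (fun h => by simp at h) (fun _ => ⟨rfl, rfl, rfl, rfl, rfl, rfl⟩) ?_
      rw [h1]
      exact pair_ins h2 h3 (fun r hr => ⟨(h4 r hr).1.symm, (h4 r hr).2.symm⟩)
        (fun r hr hr' => ⟨(h5 r hr hr').1.symm, (h5 r hr hr').2.symm⟩) h6 h7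
        (fun r hr => by rw [(h4 r hr).1]; exact h8 r hr)
        (fun r hr hr' => by rw [(h5 r hr hr').1]; exact h9 r hr hr')
  intro b f g lf lg n m hb0 hb1 hP
  -- translation between `Bool × ℕ` and dart-ends
  have hmk : ∀ y : Bool × ℕ, y.2 < sz n m y.1 → (mk k b y).2.1 < s.len (mk k b y).1 := by
    rintro ⟨c, q⟩ hq
    cases b with
    | false =>
      obtain ⟨e1, e2, e3, e4, e5, e6⟩ := hb0 rfl
      subst e5 e6
      cases c <;> exact hq
    | true =>
      obtain ⟨e1, e2, e3, e4, e5, e6⟩ := hb1 rfl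
      subst e5 e6
      cases c <;> exact hq
  have hloc : ∀ y : Bool × ℕ, loc s (mk k b y) = (k + 1, ps f g y) := by
    rintro ⟨c, q⟩
    cases b with
    | false =>
      obtain ⟨e1, e2, e3, e4, e5, e6⟩ := hb0 rfl
      subst e1 e2
      cases c <;> rfl
    | true =>
      obtain ⟨e1, e2, e3, e4, e5, e6⟩ := hb1 rfl
      subst e1 e2
      cases c <;> rfl
  have hlab : ∀ y : Bool × ℕ, s.lab (mk k b y).1 (mk k b y).2.1 = lb lf lg y := by
    rintro ⟨c, q⟩
    cases b with
    | false =>
      obtain ⟨e1, e2, e3, e4, e5, e6⟩ := hb0 rfl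
      subst e3 e4
      cases c <;> rfl
    | true =>
      obtain ⟨e1, e2, e3, e4, e5, e6⟩ := hb1 rfl
      subst e3 e4
      cases c <;> rfl
  have hsurj : ∀ z : D s, (loc s z.1).1 = k + 1 → ∃ y : Bool × ℕ, y.2 < sz n m y.1 ∧
      z.1 = mk k b y := by
    intro z hz
    rcases hlev z hz with ⟨a1, a2, -⟩ | ⟨a1, a2, -⟩
    · cases b with
      | false =>
        obtain ⟨e1, e2, e3, e4, e5, e6⟩ := hb0 rfl
        exact ⟨(false, z.1.2.1), by rw [e5]; exact a2, a1⟩
      | true =>
        obtain ⟨e1, e2, e3, e4, e5, e6⟩ := hb1 rfl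
        exact ⟨(true, z.1.2.1), by rw [e6]; exact a2, a1⟩
    · cases b with
      | false =>
        obtain ⟨e1, e2, e3, e4, e5, e6⟩ := hb0 rfl
        exact ⟨(true, z.1.2.1), by rw [e6]; exact a2, a1⟩
      | true =>
        obtain ⟨e1, e2, e3, e4, e5, e6⟩ := hb1 rfl
        exact ⟨(false, z.1.2.1), by rw [e5]; exact a2, a1⟩
  have hinj : ∀ y y' : Bool × ℕ, mk k b y = mk k b y' → y = y' := by
    rintro ⟨c, q⟩ ⟨c', q'⟩ h
    cases b <;> cases c <;> cases c' <;> simp [mk] at h ⊢ <;> exact h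
  obtain ⟨x0, hx0, hx1⟩ := hsurj x hk
  obtain ⟨y0, hy0, hy1, hy2, hy3, hy4⟩ := hP x0 hx0
  refine ⟨⟨mk k b y0, hmk y0 hy0⟩, ?_, ?_, ?_, ?_⟩
  · intro h
    have h' := congrArg Subtype.val h
    simp only at h'
    rw [hx1] at h'
    exact hy1 (hinj _ _ h')
  · simp only
    rw [hx1, hloc, hloc, hy2]
  · simp only
    rw [hx1, hlab, hlab, hy3]
  · intro z hz
    have hz' : (loc s z.1).1 = k + 1 := by rw [hz]; exact hk
    obtain ⟨z0, hz0, hz1⟩ := hsurj z hz'
    rw [hz1, hx1, hloc, hloc] at hz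
    have hz3 : ps f g z0 = ps f g x0 := congrArg Prod.snd hz
    rcases hy4 z0 hz0 hz3 with h | h
    · left
      apply Subtype.ext
      rw [hz1, hx1, h]
    · right
      apply Subtype.ext
      simp only
      rw [hz1, h]

/-! ### swaps -/

abbrev Iota (F : ℕ → ℕ → Prop) : Type := {p : ℕ × ℕ // F p.1 p.2}

def T (F : ℕ → ℕ → Prop) (z : Iota F → Bool) (k r : ℕ) : Prop :=
  ∃ h : F k r, z ⟨(k, r), h⟩ = true

open Classical in
noncomputable def sg (F : ℕ → ℕ → Prop) (z : Iota F → Bool) (k r : ℕ) : ℕ :=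
  if T F z k r then r + 1 else if 1 ≤ r ∧ T F z k (r - 1) then r - 1 else r

theorem sg_lt {F : ℕ → ℕ → Prop} {z : Iota F → Bool} (hlt : ∀ k r, F k r → r + 1 < s.len k)
    {k r : ℕ} (h : r < s.len k) : sg F z k r < s.len k := by
  unfold sg
  split_ifs with h1 h2
  · exact hlt k r h1.1
  · omega
  · exact h

theorem sg_sg {F : ℕ → ℕ → Prop} {z : Iota F → Bool} (hadj : ∀ k r, ¬ (F k r ∧ F k (r + 1)))
    (k r : ℕ) : sg F z k (sg F z k r) = r := by
  by_cases h1 : T F z k r
  · have e1 : sg F z k r = r + 1 := by unfold sg; rw [if_pos h1]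
    have h2 : ¬ T F z k (r + 1) := fun h => hadj k r ⟨h1.1, h.1⟩
    rw [e1]
    unfold sg
    rw [if_neg h2, if_pos ⟨by omega, by simpa using h1⟩]
    omega
  · by_cases h2 : 1 ≤ r ∧ T F z k (r - 1)
    · have e1 : sg F z k r = r - 1 := by unfold sg; rw [if_neg h1, if_pos h2]
      rw [e1]
      unfold sg
      rw [if_pos h2.2]
      omega
    · have e1 : sg F z k r = r := by unfold sg; rw [if_neg h1, if_neg h2]
      rw [e1, e1]

noncomputable def Sz (F : ℕ → ℕ → Prop) (hlt : ∀ k r, F k r → r + 1 < s.len k)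
    (z : Iota F → Bool) (x : D s) : D s :=
  ⟨(x.1.1, sg F z x.1.1 x.1.2.1, !x.1.2.2), sg_lt hlt x.2⟩

theorem finite_D (hs : s.Good) : Finite (D s) := by
  obtain ⟨K, hK⟩ := hs.len_top
  have hB : ∀ k < K, s.len k ≤ ∑ k ∈ Finset.range K, s.len k := fun k hk =>
    Finset.single_le_sum (f := s.len) (fun _ _ => Nat.zero_le _) (Finset.mem_range.2 hk)
  have : {x : ℕ × ℕ × Bool | x.2.1 < s.len x.1}.Finite := by
    refine Set.Finite.subset ((Set.finite_Iio K).prod
      ((Set.finite_Iio (∑ k ∈ Finset.range K, s.len k)).prod (Set.finite_univ (α := Bool)))) ?_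
    rintro ⟨k, r, e⟩ hx
    have hx' : r < s.len k := hx
    have hk : k < K := by
      by_contra hc
      have := hK k (by omega)
      omega
    exact ⟨hk, lt_of_lt_of_le hx' (hB k hk), trivial⟩
  exact this.to_subtype

/-- both sequences are weakly increasing, and the pair strictly -/
theorem mono2 (hs : s.Good) {k a b : ℕ} (hab : a < b) (hb : b < s.len k) :
    s.o k a ≤ s.o k b ∧ s.i k a ≤ s.i k b ∧ (s.o k a < s.o k b ∨ s.i k a < s.i k b) := by
  induction b with
  | zero => omega
  | succ b ih =>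
    have h1 := hs.mono k b hb
    rcases Nat.lt_succ_iff_lt_or_eq.1 hab with h | h
    · have h2 := ih h (by omega)
      omega
    · subst h; omega

end T3

open T3 Pool.Agent.H679R2 in
theorem Sys.complete {Γ : Type} (s : Sys Γ) (hs : s.Good) (L : List Vx) (hL : L.Nodup)
    (hm : ∀ v, v ∈ L ↔ s.IsVx v) (h3 : 3 ≤ L.length) (h : s.Span) : Tour Far L := by
  classical
  obtain ⟨F, hF1, hF2, hF3⟩ := h
  have hlt : ∀ k r, F k r → r + 1 < s.len k := fun k r h => (hs.op_spec k r (hF1 k r h)).1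
  have hfin : Finite (D s) := finite_D hs
  have hfin2 : Finite (Iota F) := by
    refine Finite.of_injective (β := D s) (fun p => ⟨(p.1.1, p.1.2, true), by
      have := hlt _ _ p.2
      show p.1.2 < s.len p.1.1
      omega⟩) ?_
    rintro ⟨⟨a, b⟩, hp⟩ ⟨⟨c, d⟩, hq⟩ h
    simp only [Subtype.mk.injEq, Prod.mk.injEq, and_true] at h
    obtain ⟨rfl, rfl⟩ := h
    rfl
  have := Fintype.ofFinite (D s)
  have := Fintype.ofFinite (Iota F)
  choose M hM1 hM2 hM3 hM4 using partner (s := s) hs
  have hMinv : Function.Involutive M := by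
    intro x
    rcases hM4 x (M (M x)) (by rw [hM2, hM2]) with h | h
    · exact h
    · exact absurd h (hM1 (M x))
  have hSinv : ∀ z, Function.Involutive (Sz (s := s) F hlt z) := by
    intro z x
    apply Subtype.ext
    obtain ⟨⟨k, r, e⟩, hx⟩ := x
    simp only [Sz, Bool.not_not]
    rw [sg_sg hF2]
  have hSne : ∀ z x, Sz (s := s) F hlt z x ≠ x := by
    intro z x h
    have := congrArg (fun y : D s => y.1.2.2) h
    simp [Sz] at this
  obtain ⟨z, hz⟩ := exists_free (M := M) (fun z => Sz (s := s) F hlt z)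
    (fun (p : Iota F) => ![(⟨(p.1.1, p.1.2, false), by
        have := hlt _ _ p.2; show p.1.2 < s.len p.1.1; omega⟩ : D s),
      ⟨(p.1.1, p.1.2, true), by
        have := hlt _ _ p.2; show p.1.2 < s.len p.1.1; omega⟩,
      ⟨(p.1.1, p.1.2 + 1, false), hlt _ _ p.2⟩, ⟨(p.1.1, p.1.2 + 1, true), hlt _ _ p.2⟩])
    hMinv (fun x => hM1 x) hSinv hSne
    (by
      rintro z ⟨⟨k, r⟩, hp⟩ hzk
      have hp' : F k r := hp
      have n1 : ¬ T F z k r := by
        rintro ⟨h1, h2⟩
        rw [hzk] at h2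
        exact Bool.noConfusion h2
      have n2 : ¬ (1 ≤ r ∧ T F z k (r - 1)) := by
        rintro ⟨h1, h2, -⟩
        refine hF2 k (r - 1) ⟨h2, ?_⟩
        rw [Nat.sub_add_cancel h1]; exact hp'
      have n3 : ¬ T F z k (r + 1) := fun h1 => hF2 k r ⟨hp', h1.1⟩
      have e1 : sg F z k r = r := by unfold sg; rw [if_neg n1, if_neg n2]
      have e2 : sg F z k (r + 1) = r + 1 := by
        unfold sg; rw [if_neg n3, if_neg (by
          rintro ⟨-, h2⟩
          exact n1 (by simpa using h2))]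
      constructor
      · apply Subtype.ext
        show (k, sg F z k r, !false) = (k, r, true)
        rw [e1]; rfl
      · apply Subtype.ext
        show (k, sg F z k (r + 1), !false) = (k, r + 1, true)
        rw [e2]; rfl)
    (by
      rintro z ⟨⟨k, r⟩, hp⟩ hzk
      have hp' : F k r := hp
      have n1 : T F z k r := ⟨hp', hzk⟩
      have n3 : ¬ T F z k (r + 1) := fun h1 => hF2 k r ⟨hp', h1.1⟩
      have e1 : sg F z k r = r + 1 := by unfold sg; rw [if_pos n1]
      have e2 : sg F z k (r + 1) = r := by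
        unfold sg; rw [if_neg n3, if_pos ⟨by omega, by simpa using n1⟩]
        omega
      constructor
      · apply Subtype.ext
        show (k, sg F z k r, !true) = (k, r + 1, false)
        rw [e1]; rfl
      · apply Subtype.ext
        show (k, sg F z k (r + 1), !true) = (k, r, false)
        rw [e2]; rfl)
    (by
      rintro z ⟨⟨k, r⟩, hp⟩ ⟨⟨k', r', e⟩, hx⟩ hne
      have hT : ∀ q, ¬ (k' = k ∧ q = r) →
          (T F (Function.update z ⟨(k, r), hp⟩ (!z ⟨(k, r), hp⟩)) k' q ↔ T F z k' q) := by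
        intro q hq
        unfold T
        refine exists_congr fun h1 => ?_
        rw [Function.update_of_ne]
        intro h2
        simp only [Subtype.mk.injEq, Prod.mk.injEq] at h2
        exact hq h2
      have h1 : ¬ (k' = k ∧ r' = r) := by
        rintro ⟨rfl, rfl⟩
        cases e
        · exact hne 0 rfl
        · exact hne 1 rfl
      have h2 : ¬ (k' = k ∧ r' = r + 1) := by
        rintro ⟨rfl, rfl⟩
        cases e
        · exact hne 2 rfl
        · exact hne 3 rfl
      apply Subtype.ext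
      show (k', sg F _ k' r', !e) = (k', sg F z k' r', !e)
      have h3 : sg F (Function.update z ⟨(k, r), hp⟩ (!z ⟨(k, r), hp⟩)) k' r' =
          sg F z k' r' := by
        unfold sg
        simp only [hT r' h1]
        by_cases h4 : 1 ≤ r'
        · have h5 := hT (r' - 1) (by
            rintro ⟨a1, a2⟩
            exact h2 ⟨a1, by omega⟩)
          simp only [h5]
        · simp only [h4, false_and, if_false]
      rw [h3])
  set S := Sz (s := s) F hlt z with hSd
  have hSS : ∀ x, S (S x) = x := hSinv z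
  -- locations
  have hCM : ∀ x y : D s, loc s y.1 = loc s x.1 → Conn M S x y := by
    intro x y hxy
    rcases hM4 x y hxy with h | h
    · rw [h]; exact Conn.refl _
    · rw [h]; exact Conn.left _
  -- the terminals of a switch
  have hCF : ∀ k r (hp : F k r) (hr : r < s.len k) (hr' : r + 1 < s.len k) (e e' : Bool),
      Conn M S ⟨(k, r, e), hr⟩ ⟨(k, r, e'), hr⟩ ∧
      Conn M S ⟨(k, r + 1, e), hr'⟩ ⟨(k, r + 1, e'), hr'⟩ ∧
      Conn M S ⟨(k, r, e), hr⟩ ⟨(k, r + 1, e'), hr'⟩ := by
    intro k r hp hr hr' e e'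
    have h1 := hz ⟨(k, r), hp⟩
    cases e <;> cases e'
    · exact ⟨h1 0 0, h1 2 2, h1 0 2⟩
    · exact ⟨h1 0 1, h1 2 3, h1 0 3⟩
    · exact ⟨h1 1 0, h1 3 2, h1 1 2⟩
    · exact ⟨h1 1 1, h1 3 3, h1 1 3⟩
  -- straight strands
  have hCS : ∀ k r (hr : r < s.len k), Conn M S ⟨(k, r, true), hr⟩ ⟨(k, r, false), hr⟩ := by
    intro k r hr
    by_cases n1 : T F z k r
    · exact (hCF k r n1.1 hr (hlt _ _ n1.1) true false).1
    · by_cases n2 : 1 ≤ r ∧ T F z k (r - 1)
      · obtain ⟨q, rfl⟩ : ∃ q, r = q + 1 := ⟨r - 1, by omega⟩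
        have h4 : F k q := by simpa using n2.2.1
        exact (hCF k q h4 (by omega) hr true false).2.1
      · have e1 : sg F z k r = r := by unfold sg; rw [if_neg n1, if_neg n2]
        have h5 : S ⟨(k, r, true), hr⟩ = ⟨(k, r, false), hr⟩ := by
          apply Subtype.ext
          show (k, sg F z k r, !true) = (k, r, false)
          rw [e1]; rfl
        rw [← h5]
        exact Conn.right _
  -- every strand starts at a birth with the same label
  have hLC : ∀ k r (hr : r < s.len k), ∃ k' j, ∃ hj : j < s.len (k' + 1), s.ins k' j ∧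
      Conn M S ⟨(k, r, false), hr⟩ ⟨(k' + 1, j, false), hj⟩ ∧ s.lab (k' + 1) j = s.lab k r := by
    intro k
    induction k with
    | zero =>
      intro r hr
      have := hs.len_zero
      omega
    | succ k ih =>
      intro r hr
      have step : ∀ q (hq : q < s.len k), s.o (k + 1) r = s.i k q → s.lab (k + 1) r = s.lab k q →
          ∃ k' j, ∃ hj : j < s.len (k' + 1), s.ins k' j ∧
            Conn M S ⟨(k + 1, r, false), hr⟩ ⟨(k' + 1, j, false), hj⟩ ∧
            s.lab (k' + 1) j = s.lab (k + 1) r := by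
        intro q hq e1 e2
        obtain ⟨k', j, hj, a1, a2, a3⟩ := ih q hq
        refine ⟨k', j, hj, a1, ?_, by rw [a3, e2]⟩
        have b1 : Conn M S ⟨(k + 1, r, false), hr⟩ ⟨(k, q, true), hq⟩ := by
          apply hCM
          show (k + 1, s.i k q) = (k + 1, s.o (k + 1) r)
          rw [e1]
        exact b1.trans ((hCS k q hq).trans a2)
      rcases hs.link k with h | ⟨j, hj0, h⟩ | ⟨j, h⟩
      · obtain ⟨g1, g2, g3⟩ := h
        have hr' : r < s.len k := by omega
        exact step r hr' (g3 r hr').1 (g3 r hr').2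
      · obtain ⟨g1, g2, g3, g4, g5, g6, g7, g8, g9⟩ := h
        rcases lt_or_ge r j with h | h
        · exact step r (by omega) (g4 r h).1 (g4 r h).2
        · rcases lt_or_ge r (j + 2) with h' | h'
          · have hj1 : j < s.len (k + 1) := by omega
            rcases Nat.lt_or_ge j r with h'' | h''
            · have : r = j + 1 := by omega
              subst this
              refine ⟨k, j, hj1, hj0, ?_, g7.symm⟩
              apply hCM
              show (k + 1, s.o (k + 1) j) = (k + 1, s.o (k + 1) (j + 1))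
              rw [g6]
            · have : r = j := by omega
              subst this
              exact ⟨k, r, hr, hj0, Conn.refl _, rfl⟩
          · obtain ⟨q, rfl⟩ : ∃ q, r = q + 2 := ⟨r - 2, by omega⟩
            have := g5 q (by omega) (by omega)
            exact step q (by omega) this.1 this.2
      · obtain ⟨g1, g2, g3, g4, g5, g6, g7, g8, g9⟩ := h
        rcases lt_or_ge r j with h | h
        · exact step r (by omega) (g4 r h).1 (g4 r h).2
        · have := g5 r h hr
          exact step (r + 2) (by omega) this.1 this.2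
  have hfalse : ∀ x : D s, Conn M S x ⟨(x.1.1, x.1.2.1, false), x.2⟩ := by
    rintro ⟨⟨k, r, e⟩, hx⟩
    cases e
    · exact Conn.refl _
    · exact hCS k r hx
  have hLL : ∀ x y : D s, s.lab x.1.1 x.1.2.1 = s.lab y.1.1 y.1.2.1 → Conn M S x y := by
    intro x y hxy
    obtain ⟨k1, j1, hj1, a1, a2, a3⟩ := hLC x.1.1 x.1.2.1 x.2
    obtain ⟨k2, j2, hj2, b1, b2, b3⟩ := hLC y.1.1 y.1.2.1 y.2
    obtain ⟨rfl, rfl⟩ := hs.fresh k1 j1 k2 j2 a1 b1 (by rw [a3, b3, hxy])
    exact ((hfalse x).trans a2).trans (((hfalse y).trans b2).symm)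
  have hall : ∀ x y : D s, Conn M S x y := by
    intro x y
    have key := hF3 {g | ∃ y : D s, Conn M S x y ∧ s.lab y.1.1 y.1.2.1 = g} (by
      intro k r hkr
      have hr' := hlt k r hkr
      have hr : r < s.len k := by omega
      constructor
      · rintro ⟨y, h1, h2⟩
        refine ⟨⟨(k, r + 1, false), hr'⟩, ?_, rfl⟩
        exact (h1.trans (hLL y ⟨(k, r, false), hr⟩ h2)).trans (hCF k r hkr hr hr' false false).2.2
      · rintro ⟨y, h1, h2⟩
        refine ⟨⟨(k, r, false), hr⟩, ?_, rfl⟩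
        exact (h1.trans (hLL y ⟨(k, r + 1, false), hr'⟩ h2)).trans
          (hCF k r hkr hr hr' false false).2.2.symm) x.1.1 x.1.2.1 y.1.1 y.1.2.1 x.2 y.2
    obtain ⟨y', h1, h2⟩ := key.1 ⟨x, Conn.refl _, rfl⟩
    exact h1.trans (hLL y' y h2)
  -- the relation on vertices
  have hvL : ∀ x : D s, vx s x.1 ∈ L := by
    rintro ⟨⟨k, r, e⟩, hx⟩
    rw [hm]
    cases e
    · exact ⟨k, r, hx, Or.inl rfl⟩
    · exact ⟨k, r, hx, Or.inr rfl⟩
  have hLv : ∀ v ∈ L, ∃ x : D s, vx s x.1 = v := by
    intro v hv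
    rw [hm] at hv
    obtain ⟨k, r, hr, h | h⟩ := hv
    · exact ⟨⟨(k, r, false), hr⟩, h.symm⟩
    · exact ⟨⟨(k, r, true), hr⟩, h.symm⟩
  have hvloc : ∀ x : D s, (vx s x.1).2 = loc s x.1 := fun x => rfl
  have hvk : ∀ x : D s, (vx s x.1).1 = x.1.2.2 := fun x => rfl
  have hSk : ∀ x : D s, (S x).1.2.2 = !x.1.2.2 := fun x => rfl
  have hlevel : ∀ x : D s, (loc s (S x).1).1 ≠ (loc s x.1).1 := by
    rintro ⟨⟨k, r, e⟩, hx⟩
    cases e
    · show k + 1 ≠ k
      omega
    · show k ≠ k + 1
      omega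
  -- far edges
  have hfar0 : ∀ k r (hr : r < s.len k), dom (k, s.o k r) (k + 1, s.i k (sg F z k r)) := by
    intro k r hr
    have hsp : ∀ q, F k q → s.o k (q + 1) = s.o k q + 1 ∧ s.i k q = s.o k q ∧
        s.i k (q + 1) = s.o k (q + 1) := by
      intro q hq
      obtain ⟨c1, c2, c3⟩ := hs.op_spec k q (hF1 k q hq)
      exact ⟨c2, c3 q (by omega), c3 (q + 1) c1⟩
    unfold sg dom
    split_ifs with n1 n2
    · have := hsp r n1.1
      simp only; omega
    · obtain ⟨q, rfl⟩ : ∃ q, r = q + 1 := ⟨r - 1, by omega⟩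
      have h4 : F k q := by simpa using n2.2.1
      have := hsp q h4
      simp only [Nat.add_sub_cancel]; omega
    · have := hs.near k r hr
      simp only; omega
  have hfar : ∀ x : D s, Far (vx s x.1) (vx s (S x).1) := by
    have h0 : ∀ x : D s, x.1.2.2 = false → Far (vx s x.1) (vx s (S x).1) := by
      rintro ⟨⟨k, r, e⟩, hx⟩ he
      have he' : e = false := he
      subst he'
      exact Or.inl ⟨rfl, rfl, hfar0 k r hx⟩
    intro x
    cases hx : x.1.2.2 with
    | false => exact h0 x hx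
    | true =>
      have h1 := h0 (S x) (by rw [hSk, hx]; rfl)
      rw [hSS] at h1
      exact h1.symm
  -- two dart-ends of the same kind at the same location: no swaps in this gap
  have hstr : ∀ x y : D s, x ≠ y → loc s x.1 = loc s y.1 → x.1.2.2 = y.1.2.2 →
      loc s (S x).1 ≠ loc s (S y).1 := by
    rintro ⟨⟨k, r, e⟩, hx⟩ ⟨⟨k', r', e'⟩, hy⟩ hne hloc he
    have he' : e = e' := he
    subst he'
    have hk : k = k' := by
      cases e
      · exact congrArg Prod.fst hloc
      · have : k + 1 = k' + 1 := congrArg Prod.fst hloc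
        omega
    subst hk
    have hrr : r ≠ r' := by
      rintro rfl
      exact hne rfl
    have hpair : ¬ (s.o k r = s.o k r' ∧ s.i k r = s.i k r') := by
      rintro ⟨a1, a2⟩
      rcases Nat.lt_or_gt_of_ne hrr with h | h
      · have := mono2 hs h (show r' < s.len k from hy); omega
      · have := mono2 hs h (show r < s.len k from hx); omega
    have heq : s.o k r = s.o k r' ∨ s.i k r = s.i k r' := by
      cases e
      · exact Or.inl (congrArg Prod.snd hloc)
      · exact Or.inr (congrArg Prod.snd hloc)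
    have hnop : ∀ q, ¬ F k q := by
      intro q hq
      obtain ⟨c1, c2, c3⟩ := hs.op_spec k q (hF1 k q hq)
      have d1 := c3 r hx
      have d2 := c3 r' hy
      omega
    have hid : ∀ q, sg F z k q = q := by
      intro q
      unfold sg
      rw [if_neg (fun h => hnop _ h.1), if_neg (fun h => hnop _ h.2.1)]
    intro hcon
    apply hpair
    cases e
    · have h1 : s.o k r = s.o k r' := congrArg Prod.snd hloc
      have h2 : s.i k (sg F z k r) = s.i k (sg F z k r') := congrArg Prod.snd hcon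
      rw [hid, hid] at h2
      exact ⟨h1, h2⟩
    · have h1 : s.i k r = s.i k r' := congrArg Prod.snd hloc
      have h2 : s.o k (sg F z k r) = s.o k (sg F z k r') := congrArg Prod.snd hcon
      rw [hid, hid] at h2
      exact ⟨h2, h1⟩
  have hne : L ≠ [] := by
    intro h
    rw [h] at h3
    simp at h3
  refine Tour.of_rel hL hne (fun v w => (∃ x : D s, vx s x.1 = v ∧ vx s (S x).1 = w) ∨
    (v ∈ L ∧ w ∈ L ∧ v.2 = w.2 ∧ v.1 ≠ w.1)) ?_ ?_ ?_ ?_ ?_
  · rintro v w (⟨x, rfl, rfl⟩ | ⟨h1, h2, h3, h4⟩)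
    · exact Or.inl ⟨S x, rfl, by rw [hSS]⟩
    · exact Or.inr ⟨h2, h1, h3.symm, h4.symm⟩
  · rintro v w (⟨x, rfl, rfl⟩ | ⟨h1, h2, h3, h4⟩)
    · exact ⟨hvL _, hvL _, hfar x⟩
    · refine ⟨h1, h2, ?_⟩
      have hd : dom v.2 w.2 := by
        rw [h3]; exact ⟨le_of_eq (by omega), le_rfl⟩
      have hd' : dom w.2 v.2 := by
        rw [h3]; exact ⟨le_of_eq (by omega), le_rfl⟩
      cases hv : v.1 with
      | false =>
        refine Or.inl ⟨hv, ?_, hd⟩
        cases hw : w.1 with
        | false => rw [hv, hw] at h4; exact absurd rfl h4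
        | true => rfl
      | true =>
        refine Or.inr ⟨hv, ?_, hd'⟩
        cases hw : w.1 with
        | false => rfl
        | true => rw [hv, hw] at h4; exact absurd rfl h4
  · rintro v (⟨x, h1, h2⟩ | ⟨h1, h2, h3, h4⟩)
    · have := congrArg Prod.fst (h1.trans h2.symm)
      rw [hvk, hvk, hSk] at this
      cases hx : x.1.2.2 <;> rw [hx] at this <;> exact Bool.noConfusion this
    · exact h4 rfl
  · intro v hv
    obtain ⟨x, rfl⟩ := hLv v hv
    have hxy : ∀ x' : D s, vx s x'.1 = vx s x.1 → x' = x ∨ x' = M x := by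
      intro x' h1
      exact hM4 x x' (congrArg Prod.snd h1)
    by_cases hk : (M x).1.2.2 = x.1.2.2
    · refine ⟨vx s (S x).1, vx s (S (M x)).1, ?_, ?_⟩
      · intro h1
        exact hstr x (M x) (hM1 x).symm (hM2 x).symm hk.symm (congrArg Prod.snd h1)
      · intro w
        constructor
        · rintro (⟨x', h1, rfl⟩ | ⟨h1, h2, h4, h5⟩)
          · rcases hxy x' h1 with h | h
            · left; rw [h]
            · right; rw [h]
          · exfalso
            obtain ⟨x', rfl⟩ := hLv w h2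
            rcases hM4 x x' h4.symm with h | h
            · rw [h] at h5; exact h5 rfl
            · rw [h] at h5
              exact h5 hk.symm
        · rintro (rfl | rfl)
          · exact Or.inl ⟨x, rfl, rfl⟩
          · refine Or.inl ⟨M x, ?_, rfl⟩
            exact Prod.ext hk (hM2 x)
    · refine ⟨vx s (S x).1, vx s (M x).1, ?_, ?_⟩
      · intro h1
        have h4 : loc s (S x).1 = loc s (M x).1 := congrArg Prod.snd h1
        rw [hM2 x] at h4
        exact hlevel x (congrArg Prod.fst h4)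
      · intro w
        constructor
        · rintro (⟨x', h1, rfl⟩ | ⟨h1, h2, h4, h5⟩)
          · rcases hxy x' h1 with h | h
            · left; rw [h]
            · exfalso
              rw [h] at h1
              exact hk (congrArg Prod.fst h1)
          · right
            obtain ⟨x', rfl⟩ := hLv w h2
            rcases hM4 x x' h4.symm with h | h
            · rw [h] at h5; exact absurd rfl h5
            · rw [h]
        · rintro (rfl | rfl)
          · exact Or.inl ⟨x, rfl, rfl⟩
          · exact Or.inr ⟨hvL _, hvL _, (hM2 x).symm, fun h => hk h.symm⟩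
  · rintro W ⟨v, hv, hvW⟩ hW w hw
    obtain ⟨x, rfl⟩ := hLv v hv
    obtain ⟨y, rfl⟩ := hLv w hw
    have h1 := Conn.closed (X := {x : D s | vx s x.1 ∈ W}) hMinv (hSinv z) (by
      intro x' hx'
      show vx s (M x').1 ∈ W
      by_cases hk : (M x').1.2.2 = x'.1.2.2
      · have : vx s (M x').1 = vx s x'.1 := Prod.ext hk (hM2 x')
        rw [this]; exact hx'
      · exact hW _ hx' _ (Or.inr ⟨hvL _, hvL _, (hM2 x').symm, fun h => hk h.symm⟩)) (by
      intro x' hx'
      exact hW _ hx' _ (Or.inl ⟨x', rfl, rfl⟩)) (hall x y)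
    exact h1.1 hvW

end Pool.Agent.H820R2.MS
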