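import Pool.Agent.H820R2.MS.Core

/-!
# Task T4: words give slot systems
-/

namespace Pool.Agent.H820R2.MS

/-- one step of a run -/
inductive T4Step {Γ Λ : Type} (gr : Λ → List Γ) :
    NOp → Evt Γ Λ → List (Γ × Bool) → List (Γ × Bool) → Prop
  | cup (P Q : List (Γ × Bool)) (c : Γ) :
      T4Step gr (0, P.length, P.length + Q.length) (Evt.cup c) (P ++ Q)
        (P ++ (c, false) :: (c, true) :: Q)
  | cap (P Q : List (Γ × Bool)) (c : Γ) :
      T4Step gr (1, P.length, P.length + Q.length + 2) Evt.cap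
        (P ++ (c, false) :: (c, true) :: Q) (P ++ Q)
  | grp (P g Q : List (Γ × Bool)) (t : Λ) (ht : gr t = g.map Prod.fst) (h2 : 2 ≤ g.length)
      (h4 : g.length ≤ 4) :
      T4Step gr (g.length, P.length, P.length + g.length + Q.length) (Evt.grp t)
        (P ++ (g ++ Q)) (P ++ (g ++ Q))

theorem T4_hist {Γ Λ : Type} (gr : Λ → List Γ) {w : List NOp} {e : List (Evt Γ Λ)}
    {s s' : List (Γ × Bool)} (h : Run gr w e s s') :
    e.length = w.length ∧ ∃ st : ℕ → List (Γ × Bool), st 0 = s ∧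
      (∀ p, w.length ≤ p → st p = s') ∧
      ∀ p, p < w.length → ∃ a ev, w[p]? = some a ∧ e[p]? = some ev ∧
        T4Step gr a ev (st p) (st (p + 1)) := by
  induction h with
  | nil s =>
    exact ⟨rfl, fun _ => s, rfl, fun _ _ => rfl, fun p hp => absurd hp (Nat.not_lt_zero p)⟩
  | cup P Q c _ ih =>
    obtain ⟨hl, st, h0, h1, h2⟩ := ih
    refine ⟨by simp [hl], fun p => Nat.casesOn p (P ++ Q) st, rfl, ?_, ?_⟩
    · intro p hp
      rcases p with _ | p
      · simp at hp
      · exact h1 p (by simpa using hp)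
    · intro p hp
      rcases p with _ | p
      · refine ⟨_, _, rfl, rfl, ?_⟩
        show T4Step gr _ _ (P ++ Q) (st 0)
        rw [h0]
        exact T4Step.cup P Q c
      · obtain ⟨a, ev, ha, hev, hs⟩ := h2 p (by simpa using hp)
        exact ⟨a, ev, by simpa using ha, by simpa using hev, hs⟩
  | cap P Q c _ ih =>
    obtain ⟨hl, st, h0, h1, h2⟩ := ih
    refine ⟨by simp [hl], fun p => Nat.casesOn p (P ++ (c, false) :: (c, true) :: Q) st, rfl, ?_, ?_⟩
    · intro p hp
      rcases p with _ | p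
      · simp at hp
      · exact h1 p (by simpa using hp)
    · intro p hp
      rcases p with _ | p
      · refine ⟨_, _, rfl, rfl, ?_⟩
        show T4Step gr _ _ (P ++ (c, false) :: (c, true) :: Q) (st 0)
        rw [h0]
        exact T4Step.cap P Q c
      · obtain ⟨a, ev, ha, hev, hs⟩ := h2 p (by simpa using hp)
        exact ⟨a, ev, by simpa using ha, by simpa using hev, hs⟩
  | grp P g Q t ht hg2 hg4 _ ih =>
    obtain ⟨hl, st, h0, h1, h2⟩ := ih
    refine ⟨by simp [hl], fun p => Nat.casesOn p (P ++ (g ++ Q)) st, rfl, ?_, ?_⟩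
    · intro p hp
      rcases p with _ | p
      · simp at hp
      · exact h1 p (by simpa using hp)
    · intro p hp
      rcases p with _ | p
      · refine ⟨_, _, rfl, rfl, ?_⟩
        show T4Step gr _ _ (P ++ (g ++ Q)) (st 0)
        rw [h0]
        exact T4Step.grp P g Q t ht hg2 hg4
      · obtain ⟨a, ev, ha, hev, hs⟩ := h2 p (by simpa using hp)
        exact ⟨a, ev, by simpa using ha, by simpa using hev, hs⟩

/-- numerical form of a step: `N` strands with labels `L`, before and after -/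
inductive T4K {Γ Λ : Type} (gr : Λ → List Γ) (N N' : ℕ) (L L' : ℕ → Γ) :
    NOp → Evt Γ Λ → Prop
  | cup (j : ℕ) (c : Γ) (hj : j ≤ N) (hN : N' = N + 2) (h1 : ∀ r < j, L' r = L r)
      (h2 : ∀ r, j ≤ r → L' (r + 2) = L r) (h3 : L' j = c) (h4 : L' (j + 1) = c) :
      T4K gr N N' L L' (0, j, N) (Evt.cup c)
  | cap (j : ℕ) (hj : j + 2 ≤ N) (hN : N = N' + 2) (h1 : ∀ r < j, L' r = L r)
      (h2 : ∀ r, j ≤ r → L' r = L (r + 2)) (h3 : L j = L (j + 1)) :
      T4K gr N N' L L' (1, j, N) Evt.cap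
  | grp (g j : ℕ) (t : Λ) (hg2 : 2 ≤ g) (hg4 : g ≤ 4) (hj : j + g ≤ N) (hN : N' = N)
      (h1 : ∀ r, L' r = L r) (h2 : (gr t).length = g)
      (h3 : ∀ (q : ℕ) (hq : q < (gr t).length), (gr t)[q] = L (j + q)) :
      T4K gr N N' L L' (g, j, N) (Evt.grp t)

/-- label of the strand `r` of a state -/
noncomputable def T4L {Γ : Type} [Nonempty Γ] (s : List (Γ × Bool)) (r : ℕ) : Γ :=
  (s.map Prod.fst).getD r (Classical.arbitrary Γ)

theorem T4K_of_step {Γ Λ : Type} [Nonempty Γ] (gr : Λ → List Γ) {a : NOp} {ev : Evt Γ Λ}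
    {s s' : List (Γ × Bool)} (h : T4Step gr a ev s s') :
    T4K gr s.length s'.length (T4L s) (T4L s') a ev := by
  cases h with
  | cup P Q c =>
    have e1 : (P ++ Q).length = P.length + Q.length := List.length_append
    rw [← e1]
    refine T4K.cup P.length c (by rw [e1]; omega) ?_ ?_ ?_ ?_ ?_
    · simp only [List.length_append, List.length_cons]; omega
    · intro r hr
      simp only [T4L, List.map_append, List.map_cons]
      rw [List.getD_append _ _ _ _ (by simpa using hr), List.getD_append _ _ _ _ (by simpa using hr)]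
    · intro r hr
      simp only [T4L, List.map_append, List.map_cons]
      rw [List.getD_append_right _ _ _ _ (by simp; omega),
        List.getD_append_right _ _ _ _ (by simpa using hr)]
      have e2 : r + 2 - (P.map Prod.fst).length = (r - (P.map Prod.fst).length) + 1 + 1 := by
        simp only [List.length_map]; omega
      rw [e2, List.getD_cons_succ, List.getD_cons_succ]
    · simp only [T4L, List.map_append, List.map_cons]
      rw [List.getD_append_right _ _ _ _ (by simp)]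
      simp
    · simp only [T4L, List.map_append, List.map_cons]
      rw [List.getD_append_right _ _ _ _ (by simp)]
      simp
  | cap P Q c =>
    have e1 : (P ++ (c, false) :: (c, true) :: Q).length = P.length + Q.length + 2 := by
      simp only [List.length_append, List.length_cons]; omega
    rw [← e1]
    refine T4K.cap P.length (by rw [e1]; omega) ?_ ?_ ?_ ?_
    · rw [e1]; simp only [List.length_append]
    · intro r hr
      simp only [T4L, List.map_append, List.map_cons]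
      rw [List.getD_append _ _ _ _ (by simpa using hr), List.getD_append _ _ _ _ (by simpa using hr)]
    · intro r hr
      simp only [T4L, List.map_append, List.map_cons]
      rw [List.getD_append_right _ _ _ _ (by simpa using hr),
        List.getD_append_right _ _ _ _ (by simp; omega)]
      have e2 : r + 2 - (P.map Prod.fst).length = (r - (P.map Prod.fst).length) + 1 + 1 := by
        simp only [List.length_map]; omega
      rw [e2, List.getD_cons_succ, List.getD_cons_succ]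
    · simp only [T4L, List.map_append, List.map_cons]
      rw [List.getD_append_right _ _ _ _ (by simp), List.getD_append_right _ _ _ _ (by simp)]
      simp
  | grp P g Q t ht h2 h4 =>
    have e1 : (P ++ (g ++ Q)).length = P.length + g.length + Q.length := by
      simp only [List.length_append]; omega
    rw [← e1]
    refine T4K.grp g.length P.length t h2 h4 (by rw [e1]; omega) rfl (fun _ => rfl)
      (by rw [ht]; simp) ?_
    intro q hq
    have hq' : q < g.length := by rw [ht] at hq; simpa using hq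
    simp only [T4L, List.map_append]
    rw [List.getD_append_right _ _ _ _ (by simp)]
    have e2 : P.length + q - (P.map Prod.fst).length = q := by simp
    rw [e2, List.getD_append _ _ _ _ (by simpa using hq')]
    rw [List.getD_eq_getElem _ _ (by simpa using hq')]
    simp only [ht]

/-- the slot system of a word -/
def T4sys {Γ : Type} (w : List NOp) (L : ℕ → ℕ → Γ) : Sys Γ where
  len k := if k / 5 < w.length then cnt (w.getD (k / 5) (0, 0, 0)) (k % 5) else 0
  o k r := oPos (w.getD (k / 5) (0, 0, 0)) (k % 5) r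
  i k r := iPos (w.getD (k / 5) (0, 0, 0)) (k % 5) r
  lab k r := if ((w.getD (k / 5) (0, 0, 0)).1 = 0 ∧ k % 5 = 4) ∨
      ((w.getD (k / 5) (0, 0, 0)).1 = 1 ∧ 1 ≤ k % 5) then L (k / 5 + 1) r else L (k / 5) r
  op k r := k / 5 < w.length ∧ k % 5 = 2 ∧ 2 ≤ (w.getD (k / 5) (0, 0, 0)).1 ∧
      (w.getD (k / 5) (0, 0, 0)).2.1 ≤ r ∧
      r + 1 < (w.getD (k / 5) (0, 0, 0)).2.1 + (w.getD (k / 5) (0, 0, 0)).1
  ins k j := k / 5 < w.length ∧ (w.getD (k / 5) (0, 0, 0)).1 = 0 ∧ k % 5 = 3 ∧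
      j = (w.getD (k / 5) (0, 0, 0)).2.1

/-- hypotheses on the history -/
structure T4H {Γ Λ : Type} (gr : Λ → List Γ) (w : List NOp) (e : List (Evt Γ Λ)) (N : ℕ → ℕ)
    (L : ℕ → ℕ → Γ) : Prop where
  zero : N 0 = 0
  top : ∀ p, w.length ≤ p → N p = 0
  step : ∀ p, p < w.length → ∃ ev, e[p]? = some ev ∧
    T4K gr (N p) (N (p + 1)) (L p) (L (p + 1)) (w.getD p (0, 0, 0)) ev

section
variable {Γ Λ : Type} {gr : Λ → List Γ} {w : List NOp} {e : List (Evt Γ Λ)} {N : ℕ → ℕ}
  {L : ℕ → ℕ → Γ}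

theorem T4_div (p t : ℕ) (ht : t < 5) : (5 * p + t) / 5 = p := by omega
theorem T4_mod (p t : ℕ) (ht : t < 5) : (5 * p + t) % 5 = t := by omega

/-- number of strands in the gap `5 p + t`, positions, labels for a cup -/
theorem T4_len (p t : ℕ) (ht : t < 5) (hp : p < w.length) :
    (T4sys w L).len (5 * p + t) = cnt (w.getD p (0, 0, 0)) t := by
  simp only [T4sys, T4_div p t ht, T4_mod p t ht, if_pos hp]

theorem T4_o (p t : ℕ) (ht : t < 5) (r : ℕ) :
    (T4sys w L).o (5 * p + t) r = oPos (w.getD p (0, 0, 0)) t r := by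
  simp only [T4sys, T4_div p t ht, T4_mod p t ht]

theorem T4_i (p t : ℕ) (ht : t < 5) (r : ℕ) :
    (T4sys w L).i (5 * p + t) r = iPos (w.getD p (0, 0, 0)) t r := by
  simp only [T4sys, T4_div p t ht, T4_mod p t ht]

theorem T4_lab (p t : ℕ) (ht : t < 5) (r : ℕ) :
    (T4sys w L).lab (5 * p + t) r =
      if ((w.getD p (0, 0, 0)).1 = 0 ∧ t = 4) ∨ ((w.getD p (0, 0, 0)).1 = 1 ∧ 1 ≤ t) then
        L (p + 1) r else L p r := by
  simp only [T4sys, T4_div p t ht, T4_mod p t ht]

theorem T4_op (p t : ℕ) (ht : t < 5) (r : ℕ) :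
    (T4sys w L).op (5 * p + t) r ↔ (p < w.length ∧ t = 2 ∧ 2 ≤ (w.getD p (0, 0, 0)).1 ∧
      (w.getD p (0, 0, 0)).2.1 ≤ r ∧
      r + 1 < (w.getD p (0, 0, 0)).2.1 + (w.getD p (0, 0, 0)).1) := by
  simp only [T4sys, T4_div p t ht, T4_mod p t ht]

theorem T4_ins (p t : ℕ) (ht : t < 5) (j : ℕ) :
    (T4sys w L).ins (5 * p + t) j ↔ (p < w.length ∧ (w.getD p (0, 0, 0)).1 = 0 ∧ t = 3 ∧
      j = (w.getD p (0, 0, 0)).2.1) := by
  simp only [T4sys, T4_div p t ht, T4_mod p t ht]

theorem T4_len_top (p t : ℕ) (ht : t < 5) (hp : w.length ≤ p) :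
    (T4sys w L).len (5 * p + t) = 0 := by
  simp only [T4sys, T4_div p t ht, if_neg (not_lt.2 hp)]

theorem T4_dec (k : ℕ) : ∃ p t, t < 5 ∧ k = 5 * p + t := ⟨k / 5, k % 5, by omega, by omega⟩

end


/-- length before the last step of a gap -/
theorem T4_near {Γ Λ : Type} {gr : Λ → List Γ} {N N' : ℕ} {L L' : ℕ → Γ} {a : NOp}
    {ev : Evt Γ Λ} (h : T4K gr N N' L L' a ev) (t : ℕ) (ht : t < 5) (r : ℕ) :
    oPos a t r ≤ iPos a t r + 1 ∧ iPos a t r ≤ oPos a t r + 1 := by
  cases h with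
  | cup j c hj hN h1 h2 h3 h4 =>
    interval_cases t <;> simp [oPos, iPos] <;> (constructor <;> split_ifs <;> omega)
  | cap j hj hN h1 h2 h3 =>
    interval_cases t <;> simp [oPos, iPos] <;> (try constructor) <;> (try split_ifs) <;> omega
  | grp g j τ hg2 hg4 hj hN h1 h2 h3 =>
    have hg0 : g ≠ 0 := by omega
    have hg1 : g ≠ 1 := by omega
    simp only [oPos, iPos, if_neg hg0, if_neg hg1]
    interval_cases t <;> simp [off] <;> (constructor <;> split_ifs <;> omega)


/-- the label function of a gap -/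
def T4lb {Γ : Type} (L L' : ℕ → Γ) (a : NOp) (t : ℕ) (r : ℕ) : Γ :=
  if (a.1 = 0 ∧ t = 4) ∨ (a.1 = 1 ∧ 1 ≤ t) then L' r else L r

theorem T4_mono {Γ Λ : Type} {gr : Λ → List Γ} {N N' : ℕ} {L L' : ℕ → Γ} {a : NOp}
    {ev : Evt Γ Λ} (h : T4K gr N N' L L' a ev) (t : ℕ) (ht : t < 5) (r : ℕ)
    (hr : r + 1 < cnt a t) :
    (oPos a t r < oPos a t (r + 1) ∧ iPos a t r < iPos a t (r + 1)) ∨
    (T4lb L L' a t r = T4lb L L' a t (r + 1) ∧ oPos a t r = oPos a t (r + 1) ∧
      iPos a t r < iPos a t (r + 1)) ∨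
    (T4lb L L' a t r = T4lb L L' a t (r + 1) ∧ oPos a t r < oPos a t (r + 1) ∧
      iPos a t r = iPos a t (r + 1)) := by
  cases h with
  | cup j c hj hN h1 h2 h3 h4 =>
    by_cases h4' : t = 4
    · subst h4'
      by_cases hrj : r = j
      · subst hrj
        right; left
        refine ⟨?_, ?_, ?_⟩
        · simp [T4lb, h3, h4]
        · simp [oPos]
        · simp [iPos]
      · left
        simp only [oPos, iPos]
        simp
        split_ifs <;> omega
    · left
      have ht4 : t < 4 := by omega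
      simp only [oPos, iPos, if_pos ht4]
      simp
      constructor <;> split_ifs <;> omega
  | cap j hj hN h1 h2 h3 =>
    by_cases h0 : t = 0
    · subst h0
      by_cases hrj : r = j
      · subst hrj
        right; right
        refine ⟨?_, ?_, ?_⟩
        · simp [T4lb, h3]
        · simp [oPos]
        · simp [iPos]
      · left
        simp only [oPos, iPos]
        simp
        split_ifs <;> omega
    · left
      simp only [oPos, iPos, if_neg h0]
      simp
      constructor <;> split_ifs <;> omega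
  | grp g j τ hg2 hg4 hj hN h1 h2 h3 =>
    have hg0 : g ≠ 0 := by omega
    have hg1 : g ≠ 1 := by omega
    left
    simp only [oPos, iPos, if_neg hg0, if_neg hg1]
    interval_cases t <;> simp [off] <;> (try constructor) <;> split_ifs <;> omega

theorem T4_cut {Γ Λ : Type} {gr : Λ → List Γ} {N N' : ℕ} {L L' : ℕ → Γ} {a : NOp}
    {ev : Evt Γ Λ} (h : T4K gr N N' L L' a ev) (t : ℕ) (ht : t < 5) (r : ℕ)
    (hr : r + 1 < cnt a t) :
    T4lb L L' a t r = T4lb L L' a t (r + 1) ∨ oPos a t r + 1 < iPos a t (r + 1) ∨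
    iPos a t r + 1 < oPos a t (r + 1) ∨ (t = 2 ∧ 2 ≤ a.1 ∧ a.2.1 ≤ r ∧ r + 1 < a.2.1 + a.1) := by
  cases h with
  | cup j c hj hN h1 h2 h3 h4 =>
    by_cases h4' : t = 4
    · subst h4'
      by_cases hrj : r = j
      · subst hrj
        left
        simp [T4lb, h3, h4]
      · right; left
        simp only [oPos, iPos]
        simp
        split_ifs <;> omega
    · right; left
      have ht4 : t < 4 := by omega
      simp only [oPos, iPos, if_pos ht4]
      simp
      split_ifs <;> omega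
  | cap j hj hN h1 h2 h3 =>
    by_cases h0 : t = 0
    · subst h0
      by_cases hrj : r = j
      · subst hrj
        left
        simp [T4lb, h3]
      · right; right; left
        simp only [oPos, iPos]
        simp
        split_ifs <;> omega
    · right; right; left
      simp only [oPos, iPos, if_neg h0]
      simp
      split_ifs <;> omega
  | grp g j τ hg2 hg4 hj hN h1 h2 h3 =>
    have hg0 : g ≠ 0 := by omega
    have hg1 : g ≠ 1 := by omega
    right
    simp only [oPos, iPos, if_neg hg0, if_neg hg1]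
    interval_cases t <;> simp [off] <;> split_ifs <;> omega

theorem T4_ops {Γ Λ : Type} {gr : Λ → List Γ} {N N' : ℕ} {L L' : ℕ → Γ} {a : NOp}
    {ev : Evt Γ Λ} (h : T4K gr N N' L L' a ev) (r : ℕ)
    (h2 : 2 ≤ a.1) (hr : a.2.1 ≤ r) (hr2 : r + 1 < a.2.1 + a.1) :
    r + 1 < cnt a 2 ∧ oPos a 2 (r + 1) = oPos a 2 r + 1 ∧ ∀ r', iPos a 2 r' = oPos a 2 r' := by
  cases h with
  | cup j c hj hN h1 h2 h3 h4 => simp at h2
  | cap j hj hN h1 h2 h3 => simp at h2
  | grp g j τ hg2 hg4 hj hN h1 h2 h3 =>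
    simp only at hr hr2
    have hg0 : g ≠ 0 := by omega
    have hg1 : g ≠ 1 := by omega
    refine ⟨?_, ?_, ?_⟩
    · simp only [cnt, if_neg hg0, if_neg hg1]; omega
    · simp only [oPos, if_neg hg0, if_neg hg1]
      simp [off]
      split_ifs <;> omega
    · intro r'
      simp only [oPos, iPos, if_neg hg0, if_neg hg1]
      simp [off]

/-- the positions before and after an operation are regular -/
theorem T4_o0 {Γ Λ : Type} {gr : Λ → List Γ} {N N' : ℕ} {L L' : ℕ → Γ} {a : NOp}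
    {ev : Evt Γ Λ} (h : T4K gr N N' L L' a ev) (r : ℕ) (hr : r < N) : oPos a 0 r = 2 * r := by
  cases h with
  | cup j c hj hN h1 h2 h3 h4 => simp [oPos]
  | cap j hj hN h1 h2 h3 => simp [oPos]
  | grp g j τ hg2 hg4 hj hN h1 h2 h3 =>
    have hg0 : g ≠ 0 := by omega
    have hg1 : g ≠ 1 := by omega
    simp only [oPos, if_neg hg0, if_neg hg1]
    simp [off]
    split_ifs <;> omega

theorem T4_i4 {Γ Λ : Type} {gr : Λ → List Γ} {N N' : ℕ} {L L' : ℕ → Γ} {a : NOp}
    {ev : Evt Γ Λ} (h : T4K gr N N' L L' a ev) (r : ℕ) (hr : r < N') : iPos a 4 r = 2 * r := by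
  cases h with
  | cup j c hj hN h1 h2 h3 h4 => simp [iPos]
  | cap j hj hN h1 h2 h3 => simp [iPos]
  | grp g j τ hg2 hg4 hj hN h1 h2 h3 =>
    have hg0 : g ≠ 0 := by omega
    have hg1 : g ≠ 1 := by omega
    simp only [iPos, if_neg hg0, if_neg hg1]
    simp [off]
    split_ifs <;> omega

theorem T4_cnt0 {Γ Λ : Type} {gr : Λ → List Γ} {N N' : ℕ} {L L' : ℕ → Γ} {a : NOp}
    {ev : Evt Γ Λ} (h : T4K gr N N' L L' a ev) : cnt a 0 = N := by
  cases h with
  | cup j c hj hN h1 h2 h3 h4 => simp [cnt]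
  | cap j hj hN h1 h2 h3 => simp [cnt]
  | grp g j τ hg2 hg4 hj hN h1 h2 h3 =>
    have hg0 : g ≠ 0 := by omega
    have hg1 : g ≠ 1 := by omega
    simp only [cnt, if_neg hg0, if_neg hg1]

theorem T4_cnt4 {Γ Λ : Type} {gr : Λ → List Γ} {N N' : ℕ} {L L' : ℕ → Γ} {a : NOp}
    {ev : Evt Γ Λ} (h : T4K gr N N' L L' a ev) : cnt a 4 = N' := by
  cases h with
  | cup j c hj hN h1 h2 h3 h4 => simp [cnt, hN]
  | cap j hj hN h1 h2 h3 => simp [cnt]; omega
  | grp g j τ hg2 hg4 hj hN h1 h2 h3 =>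
    have hg0 : g ≠ 0 := by omega
    have hg1 : g ≠ 1 := by omega
    simp only [cnt, if_neg hg0, if_neg hg1, hN]

theorem T4_lb0 {Γ Λ : Type} {gr : Λ → List Γ} {N N' : ℕ} {L L' : ℕ → Γ} {a : NOp}
    {ev : Evt Γ Λ} (_h : T4K gr N N' L L' a ev) (r : ℕ) : T4lb L L' a 0 r = L r := by
  simp [T4lb]

theorem T4_lb4 {Γ Λ : Type} {gr : Λ → List Γ} {N N' : ℕ} {L L' : ℕ → Γ} {a : NOp}
    {ev : Evt Γ Λ} (h : T4K gr N N' L L' a ev) (r : ℕ) : T4lb L L' a 4 r = L' r := by
  cases h with
  | cup j c hj hN h1 h2 h3 h4 => simp [T4lb]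
  | cap j hj hN h1 h2 h3 => simp [T4lb]
  | grp g j τ hg2 hg4 hj hN h1 h2 h3 =>
    have hg0 : g ≠ 0 := by omega
    have hg1 : g ≠ 1 := by omega
    simp [T4lb, hg0, hg1, h1]

/-- positions of strands in a gap are increasing at the upper end, if nothing ends -/
theorem T4_iinc {Γ Λ : Type} {gr : Λ → List Γ} {N N' : ℕ} {L L' : ℕ → Γ} {a : NOp}
    {ev : Evt Γ Λ} (h : T4K gr N N' L L' a ev) (t : ℕ) (ht : t < 5) (h0 : ¬ (a.1 = 1 ∧ t = 0))
    (r : ℕ) : iPos a t r < iPos a t (r + 1) := by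
  cases h with
  | cup j c hj hN h1 h2 h3 h4 =>
    simp only [iPos]
    simp
    split_ifs <;> omega
  | cap j hj hN h1 h2 h3 =>
    have h0' : t ≠ 0 := by
      intro h; exact h0 ⟨rfl, h⟩
    simp only [iPos, if_neg h0']
    simp
    split_ifs <;> omega
  | grp g j τ hg2 hg4 hj hN h1 h2 h3 =>
    have hg0 : g ≠ 0 := by omega
    have hg1 : g ≠ 1 := by omega
    simp only [iPos, if_neg hg0, if_neg hg1]
    interval_cases t <;> simp [off] <;> split_ifs <;> omega

/-- links inside an operation -/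
theorem T4_same {Γ Λ : Type} {gr : Λ → List Γ} {N N' : ℕ} {L L' : ℕ → Γ} {a : NOp}
    {ev : Evt Γ Λ} (h : T4K gr N N' L L' a ev) (t : ℕ) (ht : t < 4) (h0 : ¬ (a.1 = 1 ∧ t = 0))
    (h3' : ¬ (a.1 = 0 ∧ t = 3)) :
    cnt a (t + 1) = cnt a t ∧ ∀ r, oPos a (t + 1) r = iPos a t r ∧
      T4lb L L' a (t + 1) r = T4lb L L' a t r := by
  cases h with
  | cup j c hj hN h1 h2 h3 h4 =>
    have ht3 : t < 3 := by
      have : t ≠ 3 := fun h => h3' ⟨rfl, h⟩
      omega
    have a1 : t + 1 < 4 := by omega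
    have a2 : t ≠ 4 := by omega
    have a3 : t + 1 ≠ 4 := by omega
    have a4 : t < 4 := ht
    refine ⟨by simp [cnt, a1, a4], fun r => ⟨?_, ?_⟩⟩
    · simp only [oPos, iPos, if_pos a1, if_pos a4]
      simp
      split_ifs <;> omega
    · simp [T4lb, a2, a3]
  | cap j hj hN h1 h2 h3 =>
    have h0' : t ≠ 0 := by
      intro h; exact h0 ⟨rfl, h⟩
    have a1 : t + 1 ≠ 0 := by omega
    have a2 : 1 ≤ t := by omega
    refine ⟨by simp [cnt, h0'], fun r => ⟨?_, ?_⟩⟩
    · simp only [oPos, iPos, if_neg h0', if_neg a1]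
      simp
    · simp [T4lb, a2]
  | grp g j τ hg2 hg4 hj hN h1 h2 h3 =>
    have hg0 : g ≠ 0 := by omega
    have hg1 : g ≠ 1 := by omega
    refine ⟨by simp [cnt, hg0, hg1], fun r => ⟨?_, ?_⟩⟩
    · simp only [oPos, iPos, if_neg hg0, if_neg hg1]
    · simp [T4lb, hg0, hg1]


section good
variable {Γ Λ : Type} {gr : Λ → List Γ} {w : List NOp} {e : List (Evt Γ Λ)} {N : ℕ → ℕ}
  {L : ℕ → ℕ → Γ}

theorem T4_lab' (p t : ℕ) (ht : t < 5) (r : ℕ) :
    (T4sys w L).lab (5 * p + t) r = T4lb (L p) (L (p + 1)) (w.getD p (0, 0, 0)) t r := by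
  rw [T4_lab p t ht]
  rfl

theorem T4_len0 (H : T4H gr w e N L) (p : ℕ) : (T4sys w L).len (5 * p) = N p := by
  have e0 : 5 * p = 5 * p + 0 := rfl
  rw [e0]
  by_cases hp : p < w.length
  · rw [T4_len p 0 (by omega) hp]
    obtain ⟨ev, _, hK⟩ := H.step p hp
    exact T4_cnt0 hK
  · rw [T4_len_top p 0 (by omega) (by omega), H.top p (by omega)]

theorem T4_link_cup {N N' : ℕ} {p j : ℕ} {c : Γ} (hp : p < w.length)
    (ha : w.getD p (0, 0, 0) = (0, j, N)) (hj : j ≤ N) (hN : N' = N + 2)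
    (h1 : ∀ r < j, L (p + 1) r = L p r) (h2 : ∀ r, j ≤ r → L (p + 1) (r + 2) = L p r)
    (h3 : L (p + 1) j = c) (h4 : L (p + 1) (j + 1) = c) :
    (T4sys w L).InsAt (5 * p + 3) j := by
  have e1 : 5 * p + 3 + 1 = 5 * p + 4 := rfl
  have f3 : (3 : ℕ) < 5 := by omega
  have f4 : (4 : ℕ) < 5 := by omega
  unfold Sys.InsAt
  simp only [e1, T4_len p 3 f3 hp, T4_len p 4 f4 hp, T4_o p 4 f4, T4_i p 3 f3, T4_lab' p 3 f3,
    T4_lab' p 4 f4, ha]
  refine ⟨by simp [cnt], by simpa [cnt] using hj, ?_, ?_, ?_, ?_, ?_, ?_, ?_⟩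
  · intro r _
    simp [iPos]
    split_ifs <;> omega
  · intro r hr
    refine ⟨?_, ?_⟩
    · simp [oPos, iPos]
      split_ifs <;> omega
    · simp [T4lb, h1 r hr]
  · intro r hr _
    refine ⟨?_, ?_⟩
    · simp [oPos, iPos]
      split_ifs <;> omega
    · simp [T4lb, h2 r hr]
  · simp [oPos]
  · simp [T4lb, h3, h4]
  · intro r hr
    simp [oPos, iPos]
    split_ifs <;> omega
  · intro r hr _
    simp [oPos, iPos]
    split_ifs <;> omega

theorem T4_link_cap {N N' : ℕ} {p j : ℕ} (hp : p < w.length)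
    (ha : w.getD p (0, 0, 0) = (1, j, N)) (hj : j + 2 ≤ N) (hN : N = N' + 2)
    (h1 : ∀ r < j, L (p + 1) r = L p r) (h2 : ∀ r, j ≤ r → L (p + 1) r = L p (r + 2))
    (h3 : L p j = L p (j + 1)) :
    (T4sys w L).RemAt (5 * p + 0) j := by
  have e1 : 5 * p + 0 + 1 = 5 * p + 1 := rfl
  have f3 : (0 : ℕ) < 5 := by omega
  have f4 : (1 : ℕ) < 5 := by omega
  unfold Sys.RemAt
  simp only [e1, T4_len p 0 f3 hp, T4_len p 1 f4 hp, T4_o p 1 f4, T4_i p 0 f3, T4_lab' p 0 f3,
    T4_lab' p 1 f4, ha]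
  refine ⟨by simp [cnt]; omega, by simp [cnt]; omega, ?_, ?_, ?_, ?_, ?_, ?_, ?_⟩
  · intro r _
    simp [oPos]
    split_ifs <;> omega
  · intro r hr
    refine ⟨?_, ?_⟩
    · simp [oPos, iPos]
      split_ifs <;> omega
    · simp [T4lb, h1 r hr]
  · intro r hr _
    refine ⟨?_, ?_⟩
    · simp [oPos, iPos]
      split_ifs <;> omega
    · simp [T4lb, h2 r hr]
  · simp [iPos]
  · simp [T4lb, h3]
  · intro r hr
    simp [iPos]
    split_ifs <;> omega
  · intro r hr _
    simp [iPos]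
    split_ifs <;> omega

theorem T4_link (H : T4H gr w e N L) (k : ℕ) :
    (T4sys w L).Same k ∨ (∃ j, (T4sys w L).ins k j ∧ (T4sys w L).InsAt k j) ∨
      ∃ j, (T4sys w L).RemAt k j := by
  obtain ⟨p, t, ht, rfl⟩ := T4_dec k
  by_cases hp : p < w.length
  · obtain ⟨ev, _, hK⟩ := H.step p hp
    by_cases ht4 : t = 4
    · left
      subst ht4
      have e1 : 5 * p + 4 + 1 = 5 * (p + 1) + 0 := by omega
      have hl : (T4sys w L).len (5 * p + 4) = N (p + 1) := by
        rw [T4_len p 4 ht hp]; exact T4_cnt4 hK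
      have hl' : (T4sys w L).len (5 * (p + 1) + 0) = N (p + 1) := T4_len0 H (p + 1)
      unfold Sys.Same
      rw [e1, hl', hl]
      refine ⟨rfl, ?_, ?_⟩
      · intro r _
        rw [T4_i p 4 ht, T4_i p 4 ht]
        exact T4_iinc hK 4 ht (by rintro ⟨_, h⟩; omega) r
      · intro r hr
        by_cases hp1 : p + 1 < w.length
        · obtain ⟨ev', _, hK'⟩ := H.step (p + 1) hp1
          refine ⟨?_, ?_⟩
          · rw [T4_o (p + 1) 0 (by omega), T4_i p 4 ht, T4_o0 hK' r hr, T4_i4 hK r hr]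
          · rw [T4_lab' (p + 1) 0 (by omega), T4_lab' p 4 ht, T4_lb0 hK', T4_lb4 hK]
        · exfalso
          rw [H.top (p + 1) (by omega)] at hr
          exact Nat.not_lt_zero r hr
    · by_cases hs1 : (w.getD p (0, 0, 0)).1 = 1 ∧ t = 0
      · obtain ⟨hs1, rfl⟩ := hs1
        right; right
        generalize hA : w.getD p (0, 0, 0) = A at hK hs1
        cases hK with
        | cup j c hj hN h1 h2 h3 h4 => simp at hs1
        | cap j hj hN h1 h2 h3 => exact ⟨j, T4_link_cap hp hA hj hN h1 h2 h3⟩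
        | grp g j τ hg2 hg4 hj hN h1 h2 h3 =>
          exfalso
          simp only at hs1
          omega
      · by_cases hs0 : (w.getD p (0, 0, 0)).1 = 0 ∧ t = 3
        · obtain ⟨hs0, rfl⟩ := hs0
          right; left
          refine ⟨(w.getD p (0, 0, 0)).2.1, (T4_ins p 3 (by omega) _).2 ⟨hp, hs0, rfl, rfl⟩, ?_⟩
          generalize hA : w.getD p (0, 0, 0) = A at hK hs0
          cases hK with
          | cup j c hj hN h1 h2 h3 h4 => exact T4_link_cup hp hA hj hN h1 h2 h3 h4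
          | cap j hj hN h1 h2 h3 => simp at hs0
          | grp g j τ hg2 hg4 hj hN h1 h2 h3 =>
            exfalso
            simp only at hs0
            omega
        · left
          have ht' : t < 4 := by omega
          have ht5 : t + 1 < 5 := by omega
          obtain ⟨hc, hr⟩ := T4_same hK t ht' hs1 hs0
          have e1 : 5 * p + t + 1 = 5 * p + (t + 1) := rfl
          unfold Sys.Same
          rw [e1, T4_len p t ht hp, T4_len p (t + 1) ht5 hp]
          refine ⟨hc, ?_, ?_⟩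
          · intro r _
            rw [T4_i p t ht, T4_i p t ht]
            exact T4_iinc hK t ht hs1 r
          · intro r _
            rw [T4_o p (t + 1) ht5, T4_i p t ht, T4_lab' p (t + 1) ht5, T4_lab' p t ht]
            exact hr r
  · left
    have h1 : (T4sys w L).len (5 * p + t) = 0 := T4_len_top p t ht (by omega)
    have h2 : (T4sys w L).len (5 * p + t + 1) = 0 := by
      by_cases ht4 : t = 4
      · subst ht4
        have e1 : 5 * p + 4 + 1 = 5 * (p + 1) + 0 := by omega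
        rw [e1]
        exact T4_len_top (p + 1) 0 (by omega) (by omega)
      · exact T4_len_top p (t + 1) (by omega) (by omega)
    unfold Sys.Same
    rw [h1, h2]
    exact ⟨rfl, fun r hr => absurd hr (Nat.not_lt_zero _), fun r hr => absurd hr (Nat.not_lt_zero _)⟩

theorem T4_fresh_idx (hf : Fresh e) {p p' : ℕ} {ev : Evt Γ Λ} (h : e[p]? = some ev)
    (h' : e[p']? = some ev) (hc : ev ≠ Evt.cap) : p = p' := by
  have key : ∀ i j : ℕ, i < j → e[i]? = some ev → e[j]? = some ev → False := by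
    intro i j hij hi hj
    obtain ⟨hi1, hi2⟩ := List.getElem?_eq_some_iff.1 hi
    obtain ⟨hj1, hj2⟩ := List.getElem?_eq_some_iff.1 hj
    have := List.pairwise_iff_getElem.1 hf i j hi1 hj1 hij (by rw [hi2, hj2])
    rw [hi2] at this
    exact hc this
  rcases lt_trichotomy p p' with h1 | h1 | h1
  · exact (key p p' h1 h h').elim
  · exact h1
  · exact (key p' p h1 h' h).elim

theorem T4_ins_cup (H : T4H gr w e N L) {k j : ℕ} (h : (T4sys w L).ins k j) :
    ∃ p, k = 5 * p + 3 ∧ j = (w.getD p (0, 0, 0)).2.1 ∧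
      e[p]? = some (Evt.cup ((T4sys w L).lab (k + 1) j)) := by
  obtain ⟨p, t, ht, rfl⟩ := T4_dec k
  obtain ⟨hp, h0, rfl, rfl⟩ := (T4_ins p t ht j).1 h
  refine ⟨p, rfl, rfl, ?_⟩
  obtain ⟨ev, hev, hK⟩ := H.step p hp
  have e1 : 5 * p + 3 + 1 = 5 * p + 4 := rfl
  rw [e1, T4_lab' p 4 (by omega), T4_lb4 hK, hev]
  congr 1
  generalize w.getD p (0, 0, 0) = A at hK h0
  cases hK with
  | cup j c hj hN h1 h2 h3 h4 => simp only [h3]
  | cap j hj hN h1 h2 h3 => simp at h0
  | grp g j τ hg2 hg4 hj hN h1 h2 h3 =>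
    exfalso
    simp only at h0
    omega

theorem T4_good (H : T4H gr w e N L) (hf : Fresh e) : (T4sys w L).Good where
  len_zero := by
    have := T4_len0 H 0
    rw [H.zero] at this
    exact this
  len_top := by
    refine ⟨5 * w.length, fun k hk => ?_⟩
    obtain ⟨p, t, ht, rfl⟩ := T4_dec k
    exact T4_len_top p t ht (by omega)
  near := by
    intro k r hr
    obtain ⟨p, t, ht, rfl⟩ := T4_dec k
    by_cases hp : p < w.length
    · obtain ⟨ev, _, hK⟩ := H.step p hp
      rw [T4_o p t ht, T4_i p t ht]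
      exact T4_near hK t ht r
    · rw [T4_len_top p t ht (by omega)] at hr
      exact absurd hr (Nat.not_lt_zero _)
  mono := by
    intro k r hr
    obtain ⟨p, t, ht, rfl⟩ := T4_dec k
    by_cases hp : p < w.length
    · obtain ⟨ev, _, hK⟩ := H.step p hp
      rw [T4_len p t ht hp] at hr
      simp only [T4_o p t ht, T4_i p t ht, T4_lab' p t ht]
      exact T4_mono hK t ht r hr
    · rw [T4_len_top p t ht (by omega)] at hr
      exact absurd hr (Nat.not_lt_zero _)
  cut := by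
    intro k r hr
    obtain ⟨p, t, ht, rfl⟩ := T4_dec k
    by_cases hp : p < w.length
    · obtain ⟨ev, _, hK⟩ := H.step p hp
      rw [T4_len p t ht hp] at hr
      simp only [T4_o p t ht, T4_i p t ht, T4_lab' p t ht, T4_op p t ht]
      rcases T4_cut hK t ht r hr with h | h | h | h
      · exact Or.inl h
      · exact Or.inr (Or.inl h)
      · exact Or.inr (Or.inr (Or.inl h))
      · exact Or.inr (Or.inr (Or.inr ⟨hp, h⟩))
    · rw [T4_len_top p t ht (by omega)] at hr
      exact absurd hr (Nat.not_lt_zero _)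
  op_spec := by
    intro k r h
    obtain ⟨p, t, ht, rfl⟩ := T4_dec k
    obtain ⟨hp, rfl, h2, hr, hr2⟩ := (T4_op p t ht r).1 h
    obtain ⟨ev, _, hK⟩ := H.step p hp
    obtain ⟨a1, a2, a3⟩ := T4_ops hK r h2 hr hr2
    rw [T4_len p 2 ht hp]
    simp only [T4_o p 2 ht, T4_i p 2 ht]
    exact ⟨a1, a2, fun r' _ => a3 r'⟩
  link := T4_link H
  fresh := by
    intro k j k' j' h h' hl
    obtain ⟨p, rfl, rfl, he⟩ := T4_ins_cup H h
    obtain ⟨p', rfl, rfl, he'⟩ := T4_ins_cup H h'
    rw [← hl] at he'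
    have := T4_fresh_idx hf he he' (by simp)
    subst this
    exact ⟨rfl, rfl⟩

end good


section verts
variable {Γ Λ : Type} {gr : Λ → List Γ} {w : List NOp} {e : List (Evt Γ Λ)} {N : ℕ → ℕ}
  {L : ℕ → ℕ → Γ}

theorem T4_mem_darts (w : List NOp) (d : ℕ × ℕ × ℕ) : d ∈ darts w ↔
    ∃ p t r, p < w.length ∧ t < 5 ∧ r < 2 * w.length + 2 ∧ r < cnt (w.getD p (0, 0, 0)) t ∧
      d = (5 * p + t, oPos (w.getD p (0, 0, 0)) t r, iPos (w.getD p (0, 0, 0)) t r) := by
  unfold darts
  simp only [List.mem_flatMap, List.mem_map, List.mem_filter, List.mem_range, decide_eq_true_eq]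
  constructor
  · rintro ⟨⟨a, p⟩, ha, t, ht, r, ⟨hr, hc⟩, rfl⟩
    have hp := List.mem_zipIdx_iff_getElem?.1 ha
    simp only at hp
    have hl := (List.getElem?_eq_some_iff.1 hp).1
    have hg : w.getD p (0, 0, 0) = a := by
      rw [List.getD_eq_getElem?_getD, hp]; rfl
    refine ⟨p, t, r, hl, ht, hr, ?_, ?_⟩
    · rw [hg]; exact hc
    · rw [hg]
  · rintro ⟨p, t, r, hp, ht, hr, hc, rfl⟩
    refine ⟨(w.getD p (0, 0, 0), p), ?_, t, ht, r, ⟨hr, hc⟩, rfl⟩
    rw [List.mem_zipIdx_iff_getElem?]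
    simp only
    rw [List.getElem?_eq_getElem hp, List.getD_eq_getElem _ _ hp]

theorem T4_mem_verts (w : List NOp) (v : Vx) : v ∈ verts w ↔
    ∃ p t r, p < w.length ∧ t < 5 ∧ r < 2 * w.length + 2 ∧ r < cnt (w.getD p (0, 0, 0)) t ∧
      (v = (false, 5 * p + t, oPos (w.getD p (0, 0, 0)) t r) ∨
        v = (true, 5 * p + t + 1, iPos (w.getD p (0, 0, 0)) t r)) := by
  unfold verts
  rw [List.mem_dedup, List.mem_append, List.mem_map, List.mem_map]
  constructor
  · rintro (⟨d, hd, rfl⟩ | ⟨d, hd, rfl⟩)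
    · obtain ⟨p, t, r, hp, ht, hr, hc, rfl⟩ := (T4_mem_darts w d).1 hd
      exact ⟨p, t, r, hp, ht, hr, hc, Or.inl rfl⟩
    · obtain ⟨p, t, r, hp, ht, hr, hc, rfl⟩ := (T4_mem_darts w d).1 hd
      exact ⟨p, t, r, hp, ht, hr, hc, Or.inr rfl⟩
  · rintro ⟨p, t, r, hp, ht, hr, hc, rfl | rfl⟩
    · exact Or.inl ⟨_, (T4_mem_darts w _).2 ⟨p, t, r, hp, ht, hr, hc, rfl⟩, rfl⟩
    · exact Or.inr ⟨_, (T4_mem_darts w _).2 ⟨p, t, r, hp, ht, hr, hc, rfl⟩, rfl⟩

theorem T4_cnt_le {gr : Λ → List Γ} {N N' : ℕ} {L L' : ℕ → Γ} {a : NOp}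
    {ev : Evt Γ Λ} (h : T4K gr N N' L L' a ev) (t : ℕ) : cnt a t ≤ N + 2 := by
  cases h with
  | cup j c hj hN h1 h2 h3 h4 => simp only [cnt]; simp; try (split_ifs <;> omega)
  | cap j hj hN h1 h2 h3 => simp only [cnt]; simp; try (split_ifs <;> omega)
  | grp g j τ hg2 hg4 hj hN h1 h2 h3 =>
    have hg0 : g ≠ 0 := by omega
    have hg1 : g ≠ 1 := by omega
    simp only [cnt, if_neg hg0, if_neg hg1]; omega

theorem T4_N_le (H : T4H gr w e N L) (p : ℕ) : N p ≤ 2 * p := by
  induction p with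
  | zero => exact (H.zero).le
  | succ p ih =>
    by_cases hp : p < w.length
    · obtain ⟨ev, _, hK⟩ := H.step p hp
      generalize w.getD p (0, 0, 0) = A at hK
      cases hK with
      | cup j c hj hN h1 h2 h3 h4 => omega
      | cap j hj hN h1 h2 h3 => omega
      | grp g j τ hg2 hg4 hj hN h1 h2 h3 => omega
    · rw [H.top (p + 1) (by omega)]
      exact Nat.zero_le _

theorem T4_verts (H : T4H gr w e N L) (v : Vx) : v ∈ verts w ↔ (T4sys w L).IsVx v := by
  rw [T4_mem_verts]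
  unfold Sys.IsVx
  constructor
  · rintro ⟨p, t, r, hp, ht, _, hc, hv⟩
    refine ⟨5 * p + t, r, ?_, ?_⟩
    · rw [T4_len p t ht hp]; exact hc
    · rw [T4_o p t ht, T4_i p t ht]; exact hv
  · rintro ⟨k, r, hr, hv⟩
    obtain ⟨p, t, ht, rfl⟩ := T4_dec k
    by_cases hp : p < w.length
    · rw [T4_len p t ht hp] at hr
      rw [T4_o p t ht, T4_i p t ht] at hv
      obtain ⟨ev, _, hK⟩ := H.step p hp
      have h1 := T4_cnt_le hK t
      have h2 := T4_N_le H p
      exact ⟨p, t, r, hp, ht, by omega, hr, hv⟩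
    · rw [T4_len_top p t ht (by omega)] at hr
      exact absurd hr (Nat.not_lt_zero _)

theorem T4_pos_le {gr : Λ → List Γ} {N N' : ℕ} {L L' : ℕ → Γ} {a : NOp}
    {ev : Evt Γ Λ} (h : T4K gr N N' L L' a ev) (t : ℕ) (ht : t < 5) (r : ℕ) :
    oPos a t r ≤ 2 * r + 5 ∧ iPos a t r ≤ 2 * r + 5 := by
  cases h with
  | cup j c hj hN h1 h2 h3 h4 =>
    simp only [oPos, iPos]
    simp
    constructor <;> split_ifs <;> omega
  | cap j hj hN h1 h2 h3 =>
    simp only [oPos, iPos]
    simp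
    constructor <;> split_ifs <;> omega
  | grp g j τ hg2 hg4 hj hN h1 h2 h3 =>
    have hg0 : g ≠ 0 := by omega
    have hg1 : g ≠ 1 := by omega
    simp only [oPos, iPos, if_neg hg0, if_neg hg1]
    constructor
    · interval_cases t <;> simp [off] <;> split_ifs <;> omega
    · interval_cases t <;> simp [off] <;> split_ifs <;> omega

end verts

section span
variable {Γ Λ : Type} {gr : Λ → List Γ} {w : List NOp} {e : List (Evt Γ Λ)} {N : ℕ → ℕ}
  {L : ℕ → ℕ → Γ}

/-- data of a group -/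
theorem T4_grp_data (H : T4H gr w e N L) (hl : e.length = w.length) {p : ℕ} {τ : Λ}
    (he : e[p]? = some (Evt.grp τ)) : p < w.length ∧ 2 ≤ (w.getD p (0, 0, 0)).1 ∧
      (gr τ).length = (w.getD p (0, 0, 0)).1 ∧
      (w.getD p (0, 0, 0)).2.1 + (w.getD p (0, 0, 0)).1 ≤ N p ∧
      ∀ (q : ℕ) (hq : q < (gr τ).length), (gr τ)[q] = L p ((w.getD p (0, 0, 0)).2.1 + q) := by
  have hp : p < w.length := by
    rw [← hl]; exact (List.getElem?_eq_some_iff.1 he).1
  obtain ⟨ev, hev, hK⟩ := H.step p hp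
  rw [he] at hev
  obtain rfl : Evt.grp τ = ev := Option.some.inj hev
  refine ⟨hp, ?_⟩
  generalize w.getD p (0, 0, 0) = A at hK
  cases hK with
  | grp g j τ hg2 hg4 hj hN h1 h2 h3 => exact ⟨hg2, h2, hj, h3⟩

/-- a two-sided gap belongs to a group -/
theorem T4_op_data (H : T4H gr w e N L) {k r : ℕ} (h : (T4sys w L).op k r) :
    ∃ p τ, k = 5 * p + 2 ∧ e[p]? = some (Evt.grp τ) ∧ (w.getD p (0, 0, 0)).2.1 ≤ r ∧
      r + 1 < (w.getD p (0, 0, 0)).2.1 + (w.getD p (0, 0, 0)).1 := by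
  obtain ⟨p, t, ht, rfl⟩ := T4_dec k
  obtain ⟨hp, rfl, h2, hr, hr2⟩ := (T4_op p t ht r).1 h
  obtain ⟨ev, hev, hK⟩ := H.step p hp
  generalize hA : w.getD p (0, 0, 0) = A at hK h2 hr hr2
  cases hK with
  | cup j c hj hN h1 h2' h3 h4 => simp at h2
  | cap j hj hN h1 h2' h3 => simp at h2
  | grp g j τ hg2 hg4 hj hN h1 h2' h3 => exact ⟨p, τ, rfl, hev, by rw [hA]; exact hr, by rw [hA]; exact hr2⟩

theorem T4_lab2 (p r : ℕ) (h2 : 2 ≤ (w.getD p (0, 0, 0)).1) :
    (T4sys w L).lab (5 * p + 2) r = L p r := by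
  rw [T4_lab' p 2 (by omega)]
  unfold T4lb
  rw [if_neg]
  rintro (⟨_, h⟩ | ⟨h, _⟩) <;> omega

/-- every label of a strand is the label of a cup -/
theorem T4_lab_cup (H : T4H gr w e N L) (p r : ℕ) (hr : r < N p) : Evt.cup (L p r) ∈ e := by
  induction p generalizing r with
  | zero => rw [H.zero] at hr; exact absurd hr (Nat.not_lt_zero _)
  | succ p ih =>
    by_cases hp : p < w.length
    · obtain ⟨ev, hev, hK⟩ := H.step p hp
      generalize w.getD p (0, 0, 0) = A at hK
      cases hK with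
      | cup j c hj hN h1 h2 h3 h4 =>
        rcases lt_trichotomy r j with h | h | h
        · rw [h1 r h]; exact ih r (by omega)
        · subst h
          rw [h3]; exact List.mem_of_getElem? hev
        · by_cases h' : r = j + 1
          · subst h'
            rw [h4]; exact List.mem_of_getElem? hev
          · obtain ⟨r', rfl⟩ : ∃ r', r = r' + 2 := ⟨r - 2, by omega⟩
            rw [h2 r' (by omega)]; exact ih r' (by omega)
      | cap j hj hN h1 h2 h3 =>
        by_cases h : r < j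
        · rw [h1 r h]; exact ih r (by omega)
        · rw [h2 r (by omega)]; exact ih (r + 2) (by omega)
      | grp g j τ hg2 hg4 hj hN h1 h2 h3 =>
        rw [h1 r]; exact ih r (by omega)
    · rw [H.top (p + 1) (by omega)] at hr
      exact absurd hr (Nat.not_lt_zero _)

theorem T4_slot_cup (H : T4H gr w e N L) (k r : ℕ) (hr : r < (T4sys w L).len k) :
    Evt.cup ((T4sys w L).lab k r) ∈ e := by
  obtain ⟨p, t, ht, rfl⟩ := T4_dec k
  by_cases hp : p < w.length
  · rw [T4_len p t ht hp] at hr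
    rw [T4_lab' p t ht]
    obtain ⟨ev, hev, hK⟩ := H.step p hp
    have hA0 := T4_lab_cup H p
    have hA1 := T4_lab_cup H (p + 1)
    generalize w.getD p (0, 0, 0) = A at hK hr
    cases hK with
    | cup j c hj hN h1 h2 h3 h4 =>
      by_cases h : t = 4
      · subst h
        simp only [T4lb]
        simp
        apply hA1
        simp [cnt] at hr
        omega
      · simp only [T4lb]
        simp [h]
        apply hA0
        have : t < 4 := by omega
        simp [cnt, this] at hr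
        omega
    | cap j hj hN h1 h2 h3 =>
      by_cases h : t = 0
      · subst h
        simp only [T4lb]
        simp
        apply hA0
        simp [cnt] at hr
        omega
      · have h' : 1 ≤ t := by omega
        simp only [T4lb]
        simp [h']
        apply hA1
        simp [cnt, h] at hr
        omega
    | grp g j τ hg2 hg4 hj hN h1 h2 h3 =>
      have hg0 : g ≠ 0 := by omega
      have hg1 : g ≠ 1 := by omega
      simp only [T4lb]
      simp [hg0, hg1]
      apply hA0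
      simp [cnt, hg0, hg1] at hr
      omega
  · rw [T4_len_top p t ht (by omega)] at hr
    exact absurd hr (Nat.not_lt_zero _)

/-- the label of a cup is the label of a slot -/
theorem T4_cup_slot (H : T4H gr w e N L) (hl : e.length = w.length) {c : Γ}
    (hc : Evt.cup c ∈ e) : ∃ k r, r < (T4sys w L).len k ∧ (T4sys w L).lab k r = c := by
  obtain ⟨p, hp⟩ := List.mem_iff_getElem?.1 hc
  have hp' : p < w.length := by
    rw [← hl]; exact (List.getElem?_eq_some_iff.1 hp).1
  obtain ⟨ev, hev, hK⟩ := H.step p hp'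
  rw [hp] at hev
  obtain rfl : Evt.cup c = ev := Option.some.inj hev
  refine ⟨5 * p + 4, (w.getD p (0, 0, 0)).2.1, ?_, ?_⟩
  · rw [T4_len p 4 (by omega) hp', T4_cnt4 hK]
    generalize w.getD p (0, 0, 0) = A at hK
    cases hK with
    | cup j c hj hN h1 h2 h3 h4 => simp only; omega
  · rw [T4_lab' p 4 (by omega), T4_lb4 hK]
    generalize w.getD p (0, 0, 0) = A at hK
    cases hK with
    | cup j c hj hN h1 h2 h3 h4 => exact h3

theorem T4_span (H : T4H gr w e N L) (hl : e.length = w.length) (hf : Fresh e) :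
    (T4sys w L).Span ↔ GSpan gr (fun t => Evt.grp t ∈ e) (fun c => Evt.cup c ∈ e) := by
  constructor
  · rintro ⟨F, hF1, hF2, hF3⟩
    refine ⟨fun τ q => ∃ p, e[p]? = some (Evt.grp τ) ∧
      F (5 * p + 2) ((w.getD p (0, 0, 0)).2.1 + q), ?_, ?_⟩
    · rintro τ q ⟨⟨p, hp, hq⟩, ⟨p', hp', hq'⟩⟩
      have := T4_fresh_idx hf hp hp' (by simp)
      subst this
      exact hF2 _ _ ⟨hq, hq'⟩
    · intro S hS a b ha hb
      obtain ⟨k, r, hr, rfl⟩ := T4_cup_slot H hl ha
      obtain ⟨k', r', hr', rfl⟩ := T4_cup_slot H hl hb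
      refine hF3 S ?_ k r k' r' hr hr'
      intro k r hFk
      obtain ⟨p, τ, rfl, he, h1, h2⟩ := T4_op_data H (hF1 k r hFk)
      obtain ⟨hp, hg2, hgl, _, hgr⟩ := T4_grp_data H hl he
      rw [T4_lab2 p r hg2, T4_lab2 p (r + 1) hg2]
      obtain ⟨q, rfl⟩ : ∃ q, r = (w.getD p (0, 0, 0)).2.1 + q := ⟨r - (w.getD p (0, 0, 0)).2.1, by omega⟩
      have hq : q + 1 < (gr τ).length := by omega
      have := hS τ (List.mem_of_getElem? he) q hq ⟨p, he, hFk⟩
      rw [hgr q (by omega), hgr (q + 1) hq] at this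
      exact this
  · rintro ⟨f, hf1, hf2⟩
    refine ⟨fun k r => (T4sys w L).op k r ∧ ∃ p τ, k = 5 * p + 2 ∧ e[p]? = some (Evt.grp τ) ∧
      f τ (r - (w.getD p (0, 0, 0)).2.1), fun k r h => h.1, ?_, ?_⟩
    · rintro k r ⟨⟨h1, p, τ, rfl, he, hf⟩, ⟨_, p', τ', h2, he', hf'⟩⟩
      have : p' = p := by omega
      subst this
      rw [he] at he'
      obtain rfl : τ = τ' := by simpa using he'
      have h3 := ((T4_op p' 2 (by omega) r).1 h1).2.2.2.1
      have e1 : r + 1 - (w.getD p' (0, 0, 0)).2.1 = r - (w.getD p' (0, 0, 0)).2.1 + 1 := by omega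
      rw [e1] at hf'
      exact hf1 τ _ ⟨hf, hf'⟩
    · intro S hS k r k' r' hr hr'
      refine hf2 S ?_ _ _ (T4_slot_cup H k r hr) (T4_slot_cup H k' r' hr')
      intro τ hτ q hq hfq
      obtain ⟨p, he⟩ := List.mem_iff_getElem?.1 hτ
      obtain ⟨hp, hg2, hgl, hgN, hgr⟩ := T4_grp_data H hl he
      have hop : (T4sys w L).op (5 * p + 2) ((w.getD p (0, 0, 0)).2.1 + q) := by
        rw [T4_op p 2 (by omega)]
        refine ⟨hp, rfl, hg2, by omega, by omega⟩
      have := hS (5 * p + 2) ((w.getD p (0, 0, 0)).2.1 + q)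
        ⟨hop, p, τ, rfl, he, by rw [Nat.add_sub_cancel_left]; exact hfq⟩
      rw [T4_lab2 p _ hg2, T4_lab2 p _ hg2] at this
      rw [hgr q (by omega), hgr (q + 1) hq]
      exact this

end span

theorem T4_H {Γ Λ : Type} [Nonempty Γ] (gr : Λ → List Γ) {w : List NOp} {e : List (Evt Γ Λ)}
    (hR : Run gr w e [] []) : e.length = w.length ∧
      ∃ (N : ℕ → ℕ) (L : ℕ → ℕ → Γ), T4H gr w e N L := by
  obtain ⟨hl, st, h0, h1, h2⟩ := T4_hist gr hR
  refine ⟨hl, fun p => (st p).length, fun p => T4L (st p), ?_, ?_, ?_⟩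
  · simp [h0]
  · intro p hp
    simp [h1 p hp]
  · intro p hp
    obtain ⟨a, ev, ha, hev, hs⟩ := h2 p hp
    refine ⟨ev, hev, ?_⟩
    have hg : w.getD p (0, 0, 0) = a := by
      rw [List.getD_eq_getElem?_getD, ha]; rfl
    rw [hg]
    exact T4K_of_step gr hs

theorem word_sys {Γ Λ : Type} [Nonempty Γ] (gr : Λ → List Γ) {w : List NOp}
    {e : List (Evt Γ Λ)} (hR : Run gr w e [] []) (hf : Fresh e) :
    ∃ s : Sys Γ, s.Good ∧ (∀ v, v ∈ verts w ↔ s.IsVx v) ∧
      (s.Span ↔ GSpan gr (fun t => Evt.grp t ∈ e) (fun c => Evt.cup c ∈ e)) := by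
  obtain ⟨hl, N, L, H⟩ := T4_H gr hR
  exact ⟨T4sys w L, T4_good H hf, T4_verts H, T4_span H hl hf⟩

theorem verts_bound {Γ Λ : Type} (gr : Λ → List Γ) {w : List NOp} {e : List (Evt Γ Λ)}
    (hR : Run gr w e [] []) : ∀ v ∈ verts w, v.2.1 ≤ 5 * w.length ∧ v.2.2 ≤ 4 * w.length + 10 := by
  by_cases hΓ : Nonempty Γ
  · obtain ⟨hl, N, L, H⟩ := T4_H gr hR
    intro v hv
    obtain ⟨p, t, r, hp, ht, hr, hc, hv⟩ := (T4_mem_verts w v).1 hv
    obtain ⟨ev, hev, hK⟩ := H.step p hp
    obtain ⟨h1, h2⟩ := T4_pos_le hK t ht r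
    rcases hv with rfl | rfl
    · exact ⟨by simp only; omega, by simp only; omega⟩
    · exact ⟨by simp only; omega, by simp only; omega⟩
  · intro v hv
    exfalso
    obtain ⟨p, t, r, hp, _, _, _, _⟩ := (T4_mem_verts w v).1 hv
    obtain ⟨_, st, _, _, h2⟩ := T4_hist gr hR
    obtain ⟨a, ev, _, _, hs⟩ := h2 p hp
    generalize st p = s1 at hs
    generalize st (p + 1) = s2 at hs
    cases hs with
    | cup P Q c => exact hΓ ⟨c⟩
    | cap P Q c => exact hΓ ⟨c⟩
    | grp P g Q t ht h2 h4 => exact hΓ ⟨(g[0]).1⟩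

end Pool.Agent.H820R2.MS
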