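import Pool.Agent.H820R2.MS.SatDefs

/-!
# Maximum scatter TSP: completeness of the tile gadget
-/

namespace Pool.Agent.H820R2.MS

/-- The choice of adjacent pairs. -/
def T5b.f (T : ℕ → Prop) (k : ℕ → ℕ) : Tg → ℕ → Prop
  | Tg.link _, q => q = 0
  | Tg.top1 t, q => (T (2 * t) ∧ q = 0) ∨ (¬ T (2 * t) ∧ q = 1)
  | Tg.top2 t, q => (T (2 * t) ∧ q = 0) ∨ (¬ T (2 * t) ∧ q = 1)
  | Tg.top3 t, q => (T (2 * t) ∧ q = 0) ∨ (¬ T (2 * t) ∧ q = 1)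
  | Tg.g1 i j, q => (i ≤ k j ∧ (q = 0 ∨ q = 2)) ∨ (¬ i ≤ k j ∧ q = 1)
  | Tg.g2 i j, q => (i ≤ k j ∧ q = 1) ∨ (¬ i ≤ k j ∧ (q = 0 ∨ q = 2))
  | Tg.g3 i j, q => (i ≤ k j ∧ (q = 0 ∨ q = 2)) ∨ (¬ i ≤ k j ∧ q = 1)
  | Tg.g4 i j, q => (i ≤ k j ∧ q = 1) ∨ (¬ i ≤ k j ∧ (q = 0 ∨ q = 2))
  | Tg.g5 i j, q => (i ≤ k j ∧ q = 0) ∨ (¬ i ≤ k j ∧ q = 1)
  | Tg.g6 i _, q => (T i ∧ q = 1) ∨ (¬ T i ∧ q = 0)
  | Tg.g7 i _, q => (T i ∧ (q = 0 ∨ q = 2)) ∨ (¬ T i ∧ q = 1)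
  | Tg.g8 i _, q => (T i ∧ q = 1) ∨ (¬ T i ∧ (q = 0 ∨ q = 2))
  | Tg.g9 i j, q => (T i ∧ (q = 0 ∨ (q = 2 ∧ i = k j))) ∨ (¬ T i ∧ q = 1)
  | Tg.fin _, q => q = 1
  | Tg.bot _, q => q = 0

theorem T5b.f_conf (T : ℕ → Prop) (k : ℕ → ℕ) (t : Tg) (q : ℕ) :
    ¬ (T5b.f T k t q ∧ T5b.f T k t (q + 1)) := by
  rintro ⟨h1, h2⟩
  cases t <;> simp only [T5b.f] at h1 h2
  all_goals
    first
    | omega
    | (rcases h1 with ⟨a1, b1⟩ | ⟨a1, b1⟩ <;> rcases h2 with ⟨a2, b2⟩ | ⟨a2, b2⟩ <;>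
        first
        | exact absurd a1 a2
        | exact absurd a2 a1
        | omega)

theorem gspan_of_sel {n m : ℕ} {occ : ℕ → ℕ → Bool} (h : Sel n m occ) :
    GSpan (gr n m occ) (okT n m) (okL n m) := by
  obtain ⟨T, hT, hc⟩ := h
  choose! k hk hocc hTk using hc
  refine ⟨T5b.f T k, T5b.f_conf T k, ?_⟩
  intro S H
  -- the facts from the groups
  have hlink : ∀ t, t < 3 * n → (Lb.R t ∈ S ↔ Lb.R (t + 1) ∈ S) := fun t ht =>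
    H (Tg.link t) ht 0 (by simp [gr]) rfl
  have hR : ∀ t, t ≤ 3 * n → (Lb.R t ∈ S ↔ Lb.R 0 ∈ S) := by
    intro t
    induction t with
    | zero => intro _; rfl
    | succ t ih => intro ht; rw [← hlink t (by omega)]; exact ih (by omega)
  have hwl : ∀ a, a ≤ 6 * n → (wl a ∈ S ↔ Lb.R 0 ∈ S) := fun a ha => hR (a / 2) (by omega)
  -- top
  have top10 : ∀ t, t < n → T (2 * t) → (Lb.V (2 * t) 0 ∈ S ↔ Lb.R 0 ∈ S) := fun t ht h =>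
    (H (Tg.top1 t) ht 0 (by simp [gr]) (Or.inl ⟨h, rfl⟩)).trans (hwl _ (by omega))
  have top11 : ∀ t, t < n → ¬ T (2 * t) → (Lb.Q1 t ∈ S ↔ Lb.R 0 ∈ S) := fun t ht h =>
    ((H (Tg.top1 t) ht 1 (by simp [gr]) (Or.inr ⟨h, rfl⟩)).symm).trans
      (hwl (3 * (2 * t) + 1) (by omega))
  have top20 : ∀ t, t < n → T (2 * t) → (Lb.Q1 t ∈ S ↔ Lb.R 0 ∈ S) := fun t ht h =>
    (H (Tg.top2 t) ht 0 (by simp [gr]) (Or.inl ⟨h, rfl⟩)).trans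
      (hwl (3 * (2 * t) + 2) (by omega))
  have top21 : ∀ t, t < n → ¬ T (2 * t) → (Lb.Q2 t ∈ S ↔ Lb.R 0 ∈ S) := fun t ht h =>
    ((H (Tg.top2 t) ht 1 (by simp [gr]) (Or.inr ⟨h, rfl⟩)).symm).trans
      (hwl (3 * (2 * t) + 2) (by omega))
  have top30 : ∀ t, t < n → T (2 * t) → (Lb.Q2 t ∈ S ↔ Lb.R 0 ∈ S) := fun t ht h =>
    (H (Tg.top3 t) ht 0 (by simp [gr]) (Or.inl ⟨h, rfl⟩)).trans
      (hwl (3 * (2 * t + 1)) (by omega))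
  have top31 : ∀ t, t < n → ¬ T (2 * t) → (Lb.V (2 * t + 1) 0 ∈ S ↔ Lb.R 0 ∈ S) := fun t ht h =>
    ((H (Tg.top3 t) ht 1 (by simp [gr]) (Or.inr ⟨h, rfl⟩)).symm).trans
      (hwl (3 * (2 * t + 1)) (by omega))
  -- variable columns
  have colT : ∀ i j, i < 2 * n → j < m → T i →
      ((Lb.V i (j + 1) ∈ S ↔ Lb.R 0 ∈ S) ∧ (Lb.Z2 i j ∈ S ↔ Lb.R 0 ∈ S) ∧
        (Lb.Z1 i j ∈ S ↔ Lb.R 0 ∈ S) ∧ (Lb.W1 i j ∈ S ↔ Lb.R 0 ∈ S) ∧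
        (Lb.W2 i j ∈ S ↔ Lb.R 0 ∈ S)) := by
    intro i j hi hj h
    have e1 : Lb.V i (j + 1) ∈ S ↔ wl (3 * i + 1) ∈ S :=
      H (Tg.g7 i j) ⟨hi, hj⟩ 0 (by simp [gr]) (Or.inl ⟨h, Or.inl rfl⟩)
    have e2 : wl (3 * i + 1) ∈ S ↔ Lb.Z2 i j ∈ S :=
      H (Tg.g6 i j) ⟨hi, hj⟩ 1 (by simp [gr]) (Or.inl ⟨h, rfl⟩)
    have e3 : Lb.Z1 i j ∈ S ↔ Lb.W1 i j ∈ S :=
      H (Tg.g7 i j) ⟨hi, hj⟩ 2 (by simp [gr]) (Or.inl ⟨h, Or.inr rfl⟩)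
    have e4 : Lb.Z1 i j ∈ S ↔ Lb.Z2 i j ∈ S :=
      H (Tg.g8 i j) ⟨hi, hj⟩ 1 (by simp [gr]) (Or.inl ⟨h, rfl⟩)
    have e5 : Lb.W2 i j ∈ S ↔ Lb.Z2 i j ∈ S := by
      have := H (Tg.g9 i j) ⟨hi, hj⟩ 0 (by simp only [gr]; split_ifs <;> simp)
        (Or.inl ⟨h, Or.inl rfl⟩)
      simp only [gr] at this
      split_ifs at this <;> simpa using this
    have e0 := hwl (3 * i + 1) (by omega)
    have z2 := e2.symm.trans e0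
    have z1 := e4.trans z2
    exact ⟨e1.trans e0, z2, z1, e3.symm.trans z1, e5.trans z2⟩
  have colF : ∀ i j, i < 2 * n → j < m → ¬ T i →
      ((Lb.V i j ∈ S ↔ Lb.R 0 ∈ S) ∧ (Lb.Z2 i j ∈ S ↔ Lb.R 0 ∈ S) ∧
        (Lb.Z1 i j ∈ S ↔ Lb.R 0 ∈ S) ∧ (Lb.W1 i j ∈ S ↔ Lb.R 0 ∈ S) ∧
        (Lb.W2 i j ∈ S ↔ Lb.R 0 ∈ S)) := by
    intro i j hi hj h
    have e1 : Lb.V i j ∈ S ↔ wl (3 * i + 1) ∈ S :=
      H (Tg.g6 i j) ⟨hi, hj⟩ 0 (by simp [gr]) (Or.inr ⟨h, rfl⟩)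
    have e2 : wl (3 * i + 1) ∈ S ↔ Lb.Z1 i j ∈ S :=
      H (Tg.g7 i j) ⟨hi, hj⟩ 1 (by simp [gr]) (Or.inr ⟨h, rfl⟩)
    have e3 : Lb.Z2 i j ∈ S ↔ wl (3 * i + 2) ∈ S := by
      have := H (Tg.g9 i j) ⟨hi, hj⟩ 1 (by simp only [gr]; split_ifs <;> simp)
        (Or.inr ⟨h, rfl⟩)
      simp only [gr] at this
      split_ifs at this <;> simpa using this
    have e4 : Lb.W1 i j ∈ S ↔ Lb.Z1 i j ∈ S :=
      H (Tg.g8 i j) ⟨hi, hj⟩ 0 (by simp [gr]) (Or.inr ⟨h, Or.inl rfl⟩)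
    have e5 : Lb.Z2 i j ∈ S ↔ Lb.W2 i j ∈ S :=
      H (Tg.g8 i j) ⟨hi, hj⟩ 2 (by simp [gr]) (Or.inr ⟨h, Or.inr rfl⟩)
    have e0 := hwl (3 * i + 1) (by omega)
    have e00 := hwl (3 * i + 2) (by omega)
    have z2 := e3.trans e00
    have z1 := e2.symm.trans e0
    exact ⟨e1.trans e0, z2, z1, e4.trans z1, e5.symm.trans z2⟩
  have hV : ∀ i j, i < 2 * n → j ≤ m → (Lb.V i j ∈ S ↔ Lb.R 0 ∈ S) := by
    intro i j hi hj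
    by_cases h : T i
    · cases j with
      | zero =>
        rcases Nat.even_or_odd' i with ⟨t, rfl | rfl⟩
        · exact top10 t (by omega) h
        · exact top31 t (by omega) (fun h' => hT t (by omega) ⟨h', h⟩)
      | succ j => exact (colT i j hi (by omega) h).1
    · rcases Nat.lt_or_ge j m with hj' | hj'
      · exact (colF i j hi hj' h).1
      · obtain rfl : j = m := le_antisymm hj hj'
        exact (H (Tg.bot i) hi 0 (by simp [gr]) rfl).trans (hwl (3 * i + 1) (by omega))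
  -- rows
  have rowL : ∀ i j, i < 2 * n → j < m → i ≤ k j →
      ((lc i j ∈ S ↔ Lb.R 0 ∈ S) ∧ (Lb.Y i j ∈ S ↔ Lb.R 0 ∈ S) ∧ (Lb.W i j ∈ S ↔ Lb.R 0 ∈ S) ∧
        (Lb.U i j ∈ S ↔ Lb.R 0 ∈ S) ∧ (Lb.Y' i j ∈ S ↔ Lb.R 0 ∈ S) ∧
        (Lb.W' i j ∈ S ↔ Lb.R 0 ∈ S) ∧ (Lb.X i j ∈ S ↔ Lb.R 0 ∈ S)) := by
    intro i j hi hj h
    have e1 : lc i j ∈ S ↔ wl (3 * i) ∈ S :=
      H (Tg.g1 i j) ⟨hi, hj⟩ 0 (by simp [gr]) (Or.inl ⟨h, Or.inl rfl⟩)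
    have e2 : Lb.Y i j ∈ S ↔ Lb.W i j ∈ S :=
      H (Tg.g1 i j) ⟨hi, hj⟩ 2 (by simp [gr]) (Or.inl ⟨h, Or.inr rfl⟩)
    have e3 : Lb.Y i j ∈ S ↔ Lb.V i j ∈ S :=
      H (Tg.g2 i j) ⟨hi, hj⟩ 1 (by simp [gr]) (Or.inl ⟨h, rfl⟩)
    have e4 : Lb.U i j ∈ S ↔ Lb.V i j ∈ S :=
      H (Tg.g3 i j) ⟨hi, hj⟩ 0 (by simp [gr]) (Or.inl ⟨h, Or.inl rfl⟩)
    have e5 : Lb.Y' i j ∈ S ↔ Lb.W' i j ∈ S :=
      H (Tg.g3 i j) ⟨hi, hj⟩ 2 (by simp [gr]) (Or.inl ⟨h, Or.inr rfl⟩)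
    have e6 : Lb.Y' i j ∈ S ↔ wl (3 * i + 1) ∈ S :=
      H (Tg.g4 i j) ⟨hi, hj⟩ 1 (by simp [gr]) (Or.inl ⟨h, rfl⟩)
    have e7 : Lb.X i j ∈ S ↔ wl (3 * i + 2) ∈ S :=
      H (Tg.g5 i j) ⟨hi, hj⟩ 0 (by simp [gr]) (Or.inl ⟨h, rfl⟩)
    have w0 := hwl (3 * i) (by omega)
    have w1 := hwl (3 * i + 1) (by omega)
    have w2 := hwl (3 * i + 2) (by omega)
    have hv := hV i j hi hj.le
    have y := e3.trans hv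
    have y' := e6.trans w1
    exact ⟨e1.trans w0, y, e2.symm.trans y, e4.trans hv, y', e5.symm.trans y', e7.trans w2⟩
  have rowR : ∀ i j, i < 2 * n → j < m → ¬ i ≤ k j →
      ((Lb.J i j ∈ S ↔ Lb.R 0 ∈ S) ∧ (Lb.Y i j ∈ S ↔ Lb.R 0 ∈ S) ∧ (Lb.W i j ∈ S ↔ Lb.R 0 ∈ S) ∧
        (Lb.U i j ∈ S ↔ Lb.R 0 ∈ S) ∧ (Lb.Y' i j ∈ S ↔ Lb.R 0 ∈ S) ∧
        (Lb.W' i j ∈ S ↔ Lb.R 0 ∈ S) ∧ (Lb.X i j ∈ S ↔ Lb.R 0 ∈ S)) := by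
    intro i j hi hj h
    have e1 : wl (3 * i) ∈ S ↔ Lb.Y i j ∈ S :=
      H (Tg.g1 i j) ⟨hi, hj⟩ 1 (by simp [gr]) (Or.inr ⟨h, rfl⟩)
    have e2 : Lb.W i j ∈ S ↔ Lb.Y i j ∈ S :=
      H (Tg.g2 i j) ⟨hi, hj⟩ 0 (by simp [gr]) (Or.inr ⟨h, Or.inl rfl⟩)
    have e3 : Lb.V i j ∈ S ↔ Lb.U i j ∈ S :=
      H (Tg.g2 i j) ⟨hi, hj⟩ 2 (by simp [gr]) (Or.inr ⟨h, Or.inr rfl⟩)
    have e4 : Lb.V i j ∈ S ↔ Lb.Y' i j ∈ S :=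
      H (Tg.g3 i j) ⟨hi, hj⟩ 1 (by simp [gr]) (Or.inr ⟨h, rfl⟩)
    have e5 : Lb.W' i j ∈ S ↔ Lb.Y' i j ∈ S :=
      H (Tg.g4 i j) ⟨hi, hj⟩ 0 (by simp [gr]) (Or.inr ⟨h, Or.inl rfl⟩)
    have e6 : wl (3 * i + 1) ∈ S ↔ Lb.X i j ∈ S :=
      H (Tg.g4 i j) ⟨hi, hj⟩ 2 (by simp [gr]) (Or.inr ⟨h, Or.inr rfl⟩)
    have e7 : wl (3 * i + 2) ∈ S ↔ Lb.J i j ∈ S :=
      H (Tg.g5 i j) ⟨hi, hj⟩ 1 (by simp [gr]) (Or.inr ⟨h, rfl⟩)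
    have w0 := hwl (3 * i) (by omega)
    have w1 := hwl (3 * i + 1) (by omega)
    have w2 := hwl (3 * i + 2) (by omega)
    have hv := hV i j hi hj.le
    have y := e1.symm.trans w0
    have y' := e4.symm.trans hv
    exact ⟨e7.symm.trans w2, y, e2.trans y, e3.symm.trans hv, y', e5.trans y', e6.symm.trans w1⟩
  have hJ : ∀ i j, i < 2 * n → j < m → (Lb.J i j ∈ S ↔ Lb.R 0 ∈ S) := by
    intro i j hi hj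
    rcases Nat.lt_trichotomy i (k j) with h | h | h
    · have h1 := (rowL (i + 1) j (by have := hk j hj; omega) hj (by omega)).1
      simpa [lc] using h1
    · subst h
      have h9 : Lb.J (k j) j ∈ S ↔ wl (3 * (k j) + 2) ∈ S := by
        have hl : 2 + 1 < (gr n m occ (Tg.g9 (k j) j)).length := by
          simp [gr, hocc j hj]
        have := H (Tg.g9 (k j) j) ⟨hi, hj⟩ 2 hl (Or.inl ⟨hTk j hj, Or.inr ⟨rfl, rfl⟩⟩)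
        simp only [gr, hocc j hj, if_true] at this
        exact this.symm
      exact h9.trans (hwl _ (by omega))
    · exact (rowR i j hi hj (by omega)).1
  have hmid : ∀ i j, i < 2 * n → j < m →
      ((Lb.Y i j ∈ S ↔ Lb.R 0 ∈ S) ∧ (Lb.W i j ∈ S ↔ Lb.R 0 ∈ S) ∧
        (Lb.U i j ∈ S ↔ Lb.R 0 ∈ S) ∧ (Lb.Y' i j ∈ S ↔ Lb.R 0 ∈ S) ∧
        (Lb.W' i j ∈ S ↔ Lb.R 0 ∈ S) ∧ (Lb.X i j ∈ S ↔ Lb.R 0 ∈ S)) := by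
    intro i j hi hj
    by_cases h : i ≤ k j
    · exact (rowL i j hi hj h).2
    · exact (rowR i j hi hj h).2
  have hcol : ∀ i j, i < 2 * n → j < m →
      ((Lb.Z2 i j ∈ S ↔ Lb.R 0 ∈ S) ∧
        (Lb.Z1 i j ∈ S ↔ Lb.R 0 ∈ S) ∧ (Lb.W1 i j ∈ S ↔ Lb.R 0 ∈ S) ∧
        (Lb.W2 i j ∈ S ↔ Lb.R 0 ∈ S)) := by
    intro i j hi hj
    by_cases h : T i
    · exact (colT i j hi hj h).2
    · exact (colF i j hi hj h).2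
  have key : ∀ c, okL n m c → (c ∈ S ↔ Lb.R 0 ∈ S) := by
    intro c hc
    cases c with
    | R t => exact hR t hc
    | Q1 t =>
      by_cases h : T (2 * t)
      · exact top20 t hc h
      · exact top11 t hc h
    | Q2 t =>
      by_cases h : T (2 * t)
      · exact top30 t hc h
      · exact top21 t hc h
    | V i j => exact hV i j hc.1 hc.2
    | B j =>
      have h0 : 0 < 2 * n := lt_of_le_of_lt (Nat.zero_le _) (hk j hc)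
      have := (rowL 0 j h0 hc (Nat.zero_le _)).1
      simpa [lc] using this
    | E j =>
      exact ((H (Tg.fin j) hc 1 (by simp [gr]) rfl).symm).trans (hwl (6 * n) le_rfl)
    | J i j => exact hJ i j hc.1 hc.2
    | Y i j => exact (hmid i j hc.1 hc.2).1
    | W i j => exact (hmid i j hc.1 hc.2).2.1
    | U i j => exact (hmid i j hc.1 hc.2).2.2.1
    | Y' i j => exact (hmid i j hc.1 hc.2).2.2.2.1
    | W' i j => exact (hmid i j hc.1 hc.2).2.2.2.2.1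
    | X i j => exact (hmid i j hc.1 hc.2).2.2.2.2.2
    | Z1 i j => exact (hcol i j hc.1 hc.2).2.1
    | Z2 i j => exact (hcol i j hc.1 hc.2).1
    | W1 i j => exact (hcol i j hc.1 hc.2).2.2.1
    | W2 i j => exact (hcol i j hc.1 hc.2).2.2.2
  intro a b ha hb
  exact (key a ha).trans (key b hb).symm

end Pool.Agent.H820R2.MS
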