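import Pool.Agent.H820R2.MS.SatDefs

/-!
# Maximum scatter TSP in the plane: the events of the word of a formula
-/

namespace Pool.Agent.H820R2.MS

/-! ### Membership -/

theorem mem_satE_grp (n m : ℕ) (t : Tg) : Evt.grp t ∈ satE n m ↔ okT n m t := by
  cases t <;> simp [satE, rowE, tileE, topE, okT] <;> grind

theorem T6b_V (n m i j : ℕ) : Evt.cup (Lb.V i j) ∈ satE n m ↔ okL n m (Lb.V i j) := by
  simp [satE, rowE, tileE, topE, okL]
  constructor
  · rintro (⟨h1, h2⟩ | ⟨a, h1, h2, h3⟩)
    · omega
    · omega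
  · intro ⟨h1, h2⟩
    cases j with
    | zero => exact Or.inl ⟨h1, rfl⟩
    | succ j => exact Or.inr ⟨j, by omega, h1, rfl⟩

theorem mem_satE_cup (n m : ℕ) (c : Lb) : Evt.cup c ∈ satE n m ↔ okL n m c := by
  cases c
  case V i j => exact T6b_V n m i j
  all_goals simp [satE, rowE, tileE, topE, okL] <;> grind

/-! ### Freshness -/

theorem T6b_append {a b : List (Evt Lb Tg)} (g : Evt Lb Tg → ℕ) (k : ℕ) (ha : Fresh a)
    (hb : Fresh b) (h1 : ∀ x ∈ a, x = .cap ∨ g x = k) (h2 : ∀ x ∈ b, x = .cap ∨ k < g x) :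
    Fresh (a ++ b) := by
  refine List.pairwise_append.2 ⟨ha, hb, fun x hx y hy hxy => ?_⟩
  subst hxy
  rcases h1 x hx with h | h
  · exact h
  · rcases h2 x hy with h' | h'
    · exact h'
    · omega

theorem T6b_flatMap (N : ℕ) (F : ℕ → List (Evt Lb Tg)) (g : Evt Lb Tg → ℕ)
    (h1 : ∀ i, i < N → Fresh (F i)) (h2 : ∀ i, i < N → ∀ x ∈ F i, x = .cap ∨ g x = i) :
    Fresh ((List.range N).flatMap F) := by
  refine List.pairwise_flatMap.2 ⟨fun i hi => h1 i (List.mem_range.1 hi), ?_⟩
  refine List.Pairwise.imp_of_mem ?_ (List.pairwise_lt_range (n := N))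
  intro i j hi hj hij x hx y hy hxy
  subst hxy
  rcases h2 i (List.mem_range.1 hi) x hx with h | h
  · exact h
  · rcases h2 j (List.mem_range.1 hj) x hy with h' | h'
    · exact h'
    · omega

theorem T6b_map (N : ℕ) (F : ℕ → Evt Lb Tg) (g : Evt Lb Tg → ℕ)
    (h2 : ∀ i, i < N → g (F i) = i) : Fresh ((List.range N).map F) := by
  refine List.pairwise_map.2 ?_
  refine List.Pairwise.imp_of_mem ?_ (List.pairwise_lt_range (n := N))
  intro i j hi hj hij hxy
  have h3 := h2 i (List.mem_range.1 hi)
  have h4 := h2 j (List.mem_range.1 hj)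
  rw [hxy] at h3
  omega

/-- The phase of an event. -/
def T6b_ph : Evt Lb Tg → ℕ
  | .cup (.R _) => 0
  | .grp (.link _) => 1
  | .cup (.V _ 0) => 2
  | .cup (.Q1 _) => 3
  | .cup (.Q2 _) => 3
  | .grp (.top1 _) => 3
  | .grp (.top2 _) => 3
  | .grp (.top3 _) => 3
  | .grp (.bot _) => 5
  | _ => 4

/-- The row of an event. -/
def T6b_row : Evt Lb Tg → ℕ
  | .cup (.V _ j) => j - 1
  | .cup (.B j) => j
  | .cup (.E j) => j
  | .cup (.J _ j) => j
  | .cup (.Y _ j) => j
  | .cup (.W _ j) => j
  | .cup (.U _ j) => j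
  | .cup (.Y' _ j) => j
  | .cup (.W' _ j) => j
  | .cup (.X _ j) => j
  | .cup (.Z1 _ j) => j
  | .cup (.Z2 _ j) => j
  | .cup (.W1 _ j) => j
  | .cup (.W2 _ j) => j
  | .grp (.g1 _ j) => j
  | .grp (.g2 _ j) => j
  | .grp (.g3 _ j) => j
  | .grp (.g4 _ j) => j
  | .grp (.g5 _ j) => j
  | .grp (.g6 _ j) => j
  | .grp (.g7 _ j) => j
  | .grp (.g8 _ j) => j
  | .grp (.g9 _ j) => j
  | .grp (.fin j) => j
  | _ => 0

/-- The column of an event. -/
def T6b_col : Evt Lb Tg → ℕ
  | .cup (.R j) => j
  | .cup (.Q1 j) => j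
  | .cup (.Q2 j) => j
  | .cup (.V j _) => j
  | .cup (.J j _) => j
  | .cup (.Y j _) => j
  | .cup (.W j _) => j
  | .cup (.U j _) => j
  | .cup (.Y' j _) => j
  | .cup (.W' j _) => j
  | .cup (.X j _) => j
  | .cup (.Z1 j _) => j
  | .cup (.Z2 j _) => j
  | .cup (.W1 j _) => j
  | .cup (.W2 j _) => j
  | .grp (.link j) => j
  | .grp (.top1 j) => j
  | .grp (.top2 j) => j
  | .grp (.top3 j) => j
  | .grp (.g1 j _) => j
  | .grp (.g2 j _) => j
  | .grp (.g3 j _) => j
  | .grp (.g4 j _) => j
  | .grp (.g5 j _) => j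
  | .grp (.g6 j _) => j
  | .grp (.g7 j _) => j
  | .grp (.g8 j _) => j
  | .grp (.g9 j _) => j
  | .grp (.bot j) => j
  | _ => 0

/-- The part of a row. -/
def T6b_part : Evt Lb Tg → ℕ
  | .cup (.B _) => 0
  | .cup (.E _) => 2
  | .grp (.fin _) => 2
  | _ => 1

theorem T6b_caps (N : ℕ) : Fresh ((List.range N).map fun _ => (Evt.cap : Evt Lb Tg)) := by
  refine List.pairwise_map.2 ?_
  refine List.Pairwise.imp ?_ (List.pairwise_lt_range (n := N))
  intro i j _ _
  rfl

theorem T6b_tile (i j : ℕ) : Fresh (tileE i j) := by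
  simp [Fresh, tileE]

theorem T6b_top (t : ℕ) : Fresh (topE t) := by
  simp [Fresh, topE]

theorem T6b_tile_mem (i j : ℕ) : ∀ x ∈ tileE i j, x = .cap ∨
    (T6b_ph x = 4 ∧ T6b_part x = 1 ∧ T6b_row x = j ∧ T6b_col x = i) := by
  simp [tileE, T6b_ph, T6b_part, T6b_row, T6b_col]

theorem T6b_row_mem (n j : ℕ) : ∀ x ∈ rowE n j, x = .cap ∨ (T6b_ph x = 4 ∧ T6b_row x = j) := by
  intro x hx
  simp only [rowE, List.mem_append, List.mem_cons, List.mem_flatMap, List.not_mem_nil,
    or_false] at hx
  rcases hx with (rfl | ⟨i, -, hx⟩) | rfl | rfl | rfl | rfl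
  · exact Or.inr ⟨rfl, rfl⟩
  · rcases T6b_tile_mem i j x hx with h | h
    · exact Or.inl h
    · exact Or.inr ⟨h.1, h.2.2.1⟩
  · exact Or.inr ⟨rfl, rfl⟩
  · exact Or.inr ⟨rfl, rfl⟩
  · exact Or.inl rfl
  · exact Or.inl rfl

theorem T6b_fresh_row (n j : ℕ) : Fresh (rowE n j) := by
  have h1 : Fresh ((List.range (2 * n)).flatMap fun i => tileE i j) := by
    refine T6b_flatMap _ _ T6b_col (fun i _ => T6b_tile i j) ?_
    intro i _ x hx
    rcases T6b_tile_mem i j x hx with h | h
    · exact Or.inl h
    · exact Or.inr h.2.2.2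
  have h2 : Fresh ([.cup (.E j), .grp (.fin j), .cap, .cap] : List (Evt Lb Tg)) := by
    simp [Fresh]
  have h3 : Fresh ([.cup (.B j)] : List (Evt Lb Tg)) := by
    simp [Fresh]
  have h4 : ∀ x ∈ (List.range (2 * n)).flatMap (fun i => tileE i j), x = .cap ∨
      T6b_part x = 1 := by
    intro x hx
    obtain ⟨i, -, hx⟩ := List.mem_flatMap.1 hx
    rcases T6b_tile_mem i j x hx with h | h
    · exact Or.inl h
    · exact Or.inr h.2.1
  have h5 : ∀ x ∈ ([.cup (.E j), .grp (.fin j), .cap, .cap] : List (Evt Lb Tg)), x = .cap ∨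
      T6b_part x = 2 := by
    simp [T6b_part]
  have h6 : Fresh (((List.range (2 * n)).flatMap fun i => tileE i j) ++
      [.cup (.E j), .grp (.fin j), .cap, .cap]) := by
    refine T6b_append T6b_part 1 h1 h2 h4 fun x hx => ?_
    rcases h5 x hx with h | h
    · exact Or.inl h
    · exact Or.inr (by omega)
  have e : rowE n j = [.cup (.B j)] ++ (((List.range (2 * n)).flatMap fun i => tileE i j) ++
      [.cup (.E j), .grp (.fin j), .cap, .cap]) := rfl
  rw [e]
  refine T6b_append T6b_part 0 h3 h6 (by simp [T6b_part]) fun x hx => ?_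
  rcases List.mem_append.1 hx with hx | hx
  · rcases h4 x hx with h | h
    · exact Or.inl h
    · exact Or.inr (by omega)
  · rcases h5 x hx with h | h
    · exact Or.inl h
    · exact Or.inr (by omega)

theorem satE_fresh (n m : ℕ) : Fresh (satE n m) := by
  have c8 : ∀ x ∈ (List.range (3 * n + 1)).map (fun _ => (Evt.cap : Evt Lb Tg)), x = .cap := by
    simp
  have c7 : ∀ x ∈ ((List.range (2 * n)).map (fun _ => (Evt.cap : Evt Lb Tg))) ++
      (List.range (3 * n + 1)).map (fun _ => (Evt.cap : Evt Lb Tg)), x = .cap := by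
    intro x hx
    simp only [List.mem_append, List.mem_map] at hx
    rcases hx with ⟨_, _, rfl⟩ | ⟨_, _, rfl⟩ <;> rfl
  have f7 : Fresh (((List.range (2 * n)).map (fun _ => (Evt.cap : Evt Lb Tg))) ++
      (List.range (3 * n + 1)).map (fun _ => (Evt.cap : Evt Lb Tg))) :=
    T6b_append T6b_ph 6 (T6b_caps _) (T6b_caps _) (by simp) (fun x hx => Or.inl (c8 x hx))
  have m6 : ∀ x ∈ (List.range (2 * n)).map (fun i => (Evt.grp (.bot i) : Evt Lb Tg)),
      x = .cap ∨ T6b_ph x = 5 := by
    simp [T6b_ph]
  have f6 := T6b_append (a := (List.range (2 * n)).map (fun i => (Evt.grp (.bot i) : Evt Lb Tg)))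
    T6b_ph 5 (T6b_map _ _ T6b_col (fun i _ => rfl)) f7 m6 (fun x hx => Or.inl (c7 x hx))
  have m5 : ∀ x ∈ (List.range m).flatMap (fun j => rowE n j), x = .cap ∨ T6b_ph x = 4 := by
    intro x hx
    obtain ⟨j, -, hx⟩ := List.mem_flatMap.1 hx
    rcases T6b_row_mem n j x hx with h | h
    · exact Or.inl h
    · exact Or.inr h.1
  have m4 : ∀ x ∈ (List.range n).flatMap (fun t => topE t), x = .cap ∨ T6b_ph x = 3 := by
    intro x hx
    obtain ⟨j, -, hx⟩ := List.mem_flatMap.1 hx
    simp only [topE, List.mem_cons, List.not_mem_nil, or_false] at hx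
    rcases hx with rfl | rfl | rfl | rfl | rfl | rfl | rfl <;> simp [T6b_ph]
  have m3 : ∀ x ∈ (List.range (2 * n)).map (fun i => (Evt.cup (.V i 0) : Evt Lb Tg)),
      x = .cap ∨ T6b_ph x = 2 := by
    simp [T6b_ph]
  have m2 : ∀ x ∈ (List.range (3 * n)).map (fun i => (Evt.grp (.link i) : Evt Lb Tg)),
      x = .cap ∨ T6b_ph x = 1 := by
    simp [T6b_ph]
  have m1 : ∀ x ∈ (List.range (3 * n + 1)).map (fun i => (Evt.cup (.R i) : Evt Lb Tg)),
      x = .cap ∨ T6b_ph x = 0 := by
    simp [T6b_ph]
  have f5 := T6b_append (a := (List.range m).flatMap (fun j => rowE n j)) T6b_ph 4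
    (T6b_flatMap _ _ T6b_row (fun j _ => T6b_fresh_row n j) (fun j _ x hx => by
      rcases T6b_row_mem n j x hx with h | h
      · exact Or.inl h
      · exact Or.inr h.2)) f6 m5 (by
        intro x hx
        rcases List.mem_append.1 hx with hx | hx
        · rcases m6 x hx with h | h
          · exact Or.inl h
          · exact Or.inr (by omega)
        · exact Or.inl (c7 x hx))
  have f4 := T6b_append (a := (List.range n).flatMap (fun t => topE t)) T6b_ph 3
    (T6b_flatMap _ _ T6b_col (fun j _ => T6b_top j) (fun j _ x hx => by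
      simp only [topE, List.mem_cons, List.not_mem_nil, or_false] at hx
      rcases hx with rfl | rfl | rfl | rfl | rfl | rfl | rfl <;> simp [T6b_col])) f5 m4 (by
        intro x hx
        rcases List.mem_append.1 hx with hx | hx
        · rcases m5 x hx with h | h
          · exact Or.inl h
          · exact Or.inr (by omega)
        rcases List.mem_append.1 hx with hx | hx
        · rcases m6 x hx with h | h
          · exact Or.inl h
          · exact Or.inr (by omega)
        · exact Or.inl (c7 x hx))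
  have f3 := T6b_append (a := (List.range (2 * n)).map (fun i => (Evt.cup (.V i 0) : Evt Lb Tg)))
    T6b_ph 2 (T6b_map _ _ T6b_col (fun i _ => rfl)) f4 m3 (by
        intro x hx
        rcases List.mem_append.1 hx with hx | hx
        · rcases m4 x hx with h | h
          · exact Or.inl h
          · exact Or.inr (by omega)
        rcases List.mem_append.1 hx with hx | hx
        · rcases m5 x hx with h | h
          · exact Or.inl h
          · exact Or.inr (by omega)
        rcases List.mem_append.1 hx with hx | hx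
        · rcases m6 x hx with h | h
          · exact Or.inl h
          · exact Or.inr (by omega)
        · exact Or.inl (c7 x hx))
  have f2 := T6b_append (a := (List.range (3 * n)).map (fun i => (Evt.grp (.link i) : Evt Lb Tg)))
    T6b_ph 1 (T6b_map _ _ T6b_col (fun i _ => rfl)) f3 m2 (by
        intro x hx
        rcases List.mem_append.1 hx with hx | hx
        · rcases m3 x hx with h | h
          · exact Or.inl h
          · exact Or.inr (by omega)
        rcases List.mem_append.1 hx with hx | hx
        · rcases m4 x hx with h | h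
          · exact Or.inl h
          · exact Or.inr (by omega)
        rcases List.mem_append.1 hx with hx | hx
        · rcases m5 x hx with h | h
          · exact Or.inl h
          · exact Or.inr (by omega)
        rcases List.mem_append.1 hx with hx | hx
        · rcases m6 x hx with h | h
          · exact Or.inl h
          · exact Or.inr (by omega)
        · exact Or.inl (c7 x hx))
  exact T6b_append (a := (List.range (3 * n + 1)).map (fun i => (Evt.cup (.R i) : Evt Lb Tg)))
    T6b_ph 0 (T6b_map _ _ T6b_col (fun i _ => rfl)) f2 m1 (by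
        intro x hx
        rcases List.mem_append.1 hx with hx | hx
        · rcases m2 x hx with h | h
          · exact Or.inl h
          · exact Or.inr (by omega)
        rcases List.mem_append.1 hx with hx | hx
        · rcases m3 x hx with h | h
          · exact Or.inl h
          · exact Or.inr (by omega)
        rcases List.mem_append.1 hx with hx | hx
        · rcases m4 x hx with h | h
          · exact Or.inl h
          · exact Or.inr (by omega)
        rcases List.mem_append.1 hx with hx | hx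
        · rcases m5 x hx with h | h
          · exact Or.inl h
          · exact Or.inr (by omega)
        rcases List.mem_append.1 hx with hx | hx
        · rcases m6 x hx with h | h
          · exact Or.inl h
          · exact Or.inr (by omega)
        · exact Or.inl (c7 x hx))

end Pool.Agent.H820R2.MS
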