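import Pool.Agent.H820R2.MS.OccF
import Pool.Agent.H671R2.PolyAuto
import Pool.Agent.H687R2.IntPoly

/-!
# Maximum scatter TSP in the plane: polynomial-time computability of the reduction
-/

namespace Pool.Agent.H820R2.MS

open Pool.Agent.NPC

namespace T7

abbrev Fm : Type := List (Lit ℕ × Lit ℕ × Lit ℕ)

variable {α β γ : Type} [TEnc α] [TEnc β] [TEnc γ]

theorem poly_occF {f : α → Fm} {i j : α → ℕ} (hf : Poly f) (hi : Poly i) (hj : Poly j) :
    Poly (fun a => occF (f a) (i a) (j a)) := by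
  unfold occF
  fun_prop

theorem poly_tileW : Poly tileW := by
  refine (NPC.Poly.cond (b := fun b : Bool => b) (f := fun _ => tileW true)
    (g := fun _ => tileW false) NPC.Poly.id (NPC.Poly.const _) (NPC.Poly.const _)).congr fun b => ?_
  cases b <;> rfl

theorem poly_sh {f : α → ℕ} {g : α → ℕ} {h : α → NOp} (hf : Poly f) (hg : Poly g) (hh : Poly h) :
    Poly (fun a => sh (f a) (g a) (h a)) := by
  unfold sh
  fun_prop

/-- maps over a unary range -/
theorem mapR {n : α → ℕ} {F : α → ℕ → β} (hn : UPoly n)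
    (hF : Poly (fun p : α × ℕ => F p.1 p.2)) : Poly (fun a => (List.range (n a)).map (F a)) :=
  NPC.Poly.map (UPoly.range hn) hF

theorem flatR {n : α → ℕ} {F : α → ℕ → List β} (hn : UPoly n)
    (hF : Poly (fun p : α × ℕ => F p.1 p.2)) :
    Poly (fun a => (List.range (n a)).flatMap (F a)) :=
  NPC.Poly.flatMap (UPoly.range hn) hF

theorem ulen {f : α → Fm} (hf : Poly f) (c : ℕ) : UPoly (fun a => c * (f a).length) :=
  (UPoly.const c).mul (UPoly.length hf)

end T7

open T7

theorem poly_satW : Poly (fun φ : List (Lit ℕ × Lit ℕ × Lit ℕ) =>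
    satW (3 * φ.length) φ.length (occF φ)) := by
  have hid : Poly (fun φ : Fm => φ) := NPC.Poly.id
  have hu : ∀ c : ℕ, UPoly (fun φ : Fm => c * (3 * φ.length)) := fun c =>
    (UPoly.const c).mul (ulen hid 3)
  unfold satW
  refine NPC.Poly.append (mapR (F := fun _ t => ((0, 2 * t, 2 * t) : NOp))
    ((hu 3).add (UPoly.const 1)) (by fun_prop)) ?_
  refine NPC.Poly.append (mapR (F := fun (φ : Fm) t => ((2, 2 * t + 1, 6 * (3 * φ.length) + 2) : NOp))
    (hu 3) (by fun_prop)) ?_
  refine NPC.Poly.append (mapR (F := fun (φ : Fm) i =>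
    ((0, 5 * i + 1, 6 * (3 * φ.length) + 2 + 2 * i) : NOp)) (hu 2) (by fun_prop)) ?_
  refine NPC.Poly.append (flatR (F := fun (φ : Fm) t =>
    topW.map (sh (10 * t) (10 * (3 * φ.length) - 8))) (ulen hid 3) ?_) ?_
  · exact NPC.Poly.map (F := fun (p : Fm × ℕ) a => sh (10 * p.2) (10 * (3 * p.1.length) - 8) a)
      (NPC.Poly.const _) (poly_sh (by fun_prop) (by fun_prop) (by fun_prop))
  refine NPC.Poly.append (flatR (F := fun (φ : Fm) j => rowW (3 * φ.length) (fun i => occF φ i j))
    (UPoly.length hid) ?_) ?_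
  · unfold rowW
    refine NPC.Poly.append (NPC.Poly.cons (by fun_prop) ?_) (by fun_prop)
    refine flatR (F := fun (p : Fm × ℕ) i => (tileW (occF p.1 i p.2)).map
      (sh (5 * i) (10 * (3 * p.1.length) - 3)))
      ((UPoly.const 2).mul (ulen (NPC.Poly.fst NPC.Poly.id) 3)) ?_
    refine NPC.Poly.map (F := fun (q : (Fm × ℕ) × ℕ) a =>
      sh (5 * q.2) (10 * (3 * q.1.1.length) - 3) a) ?_ ?_
    · exact NPC.Poly.comp (g := tileW) poly_tileW (poly_occF (by fun_prop) (by fun_prop)
        (by fun_prop))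
    · exact poly_sh (by fun_prop) (by fun_prop) (by fun_prop)
  refine NPC.Poly.append (mapR (F := fun (φ : Fm) i => ((2, 5 * i + 2, 10 * (3 * φ.length) + 2) : NOp))
    (hu 2) (by fun_prop)) ?_
  refine NPC.Poly.append (mapR (F := fun (φ : Fm) i =>
    ((1, 3 * i + 1, 10 * (3 * φ.length) + 2 - 2 * i) : NOp)) (hu 2) (by fun_prop)) ?_
  exact mapR (F := fun (φ : Fm) t => ((1, 0, 6 * (3 * φ.length) + 2 - 2 * t) : NOp))
    ((hu 3).add (UPoly.const 1)) (by fun_prop)

namespace T7

variable {α β γ : Type} [TEnc α] [TEnc β] [TEnc γ]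

/-- Removing repetitions. -/
theorem poly_dedup [DecidableEq β] {l : α → List β} (hl : Poly l) :
    Poly (fun a => (l a).dedup) := by
  obtain ⟨r, hr⟩ := hl.sz_le
  have key : ∀ l : List β, l.foldr (fun b s => if b ∈ s then s else b :: s) [] = l.dedup := by
    intro l
    induction l with
    | nil => rfl
    | cons b l ih =>
      rw [List.foldr_cons, ih]
      by_cases h : b ∈ l
      · rw [List.dedup_cons_of_mem h, if_pos (List.mem_dedup.2 h)]
      · rw [List.dedup_cons_of_notMem h, if_neg (fun h' => h (List.mem_dedup.1 h'))]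
  have hsz : ∀ l : List β, sz (l.dedup) ≤ sz l := by
    intro l
    induction l with
    | nil => simp
    | cons b l ih =>
      by_cases h : b ∈ l
      · rw [List.dedup_cons_of_mem h, sz_list_cons]
        omega
      · rw [List.dedup_cons_of_notMem h, sz_list_cons, sz_list_cons]
        omega
  refine (NPC.Poly.foldr (s := fun _ => [])
    (F := fun _ b (s : List β) => if b ∈ s then s else b :: s)
    hl (NPC.Poly.const _) ?_ r ?_).congr fun a => key _
  · exact NPC.Poly.ite (p := fun p : α × β × List β => p.2.1 ∈ p.2.2)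
      (NPC.Poly.decide_mem (NPC.Poly.fst (NPC.Poly.snd NPC.Poly.id))
        (NPC.Poly.snd (NPC.Poly.snd NPC.Poly.id)))
      (NPC.Poly.snd (NPC.Poly.snd NPC.Poly.id)) (NPC.Poly.cons
      (NPC.Poly.fst (NPC.Poly.snd NPC.Poly.id)) (NPC.Poly.snd (NPC.Poly.snd NPC.Poly.id)))
  · intro a k _
    rw [key]
    exact (hsz _).trans ((Poly.sz_drop_le _ _).trans (hr a))

theorem poly_cnt {a : α → NOp} {t : α → ℕ} (ha : Poly a) (ht : Poly t) :
    Poly (fun x => cnt (a x) (t x)) := by
  unfold cnt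
  fun_prop

theorem poly_off {q : α → ℕ} {t : α → ℕ} (ht : Poly t) (hq : Poly q) :
    Poly (fun x => off (t x) (q x)) := by
  unfold off
  fun_prop

theorem poly_oPos {a : α → NOp} {t r : α → ℕ} (ha : Poly a) (ht : Poly t) (hr : Poly r) :
    Poly (fun x => oPos (a x) (t x) (r x)) := by
  have h := poly_off ht (q := fun x => r x - (a x).2.1) (by fun_prop)
  unfold oPos
  fun_prop

theorem poly_iPos {a : α → NOp} {t r : α → ℕ} (ha : Poly a) (ht : Poly t) (hr : Poly r) :
    Poly (fun x => iPos (a x) (t x) (r x)) := by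
  have h := poly_off (t := fun x => t x + 1) (q := fun x => r x - (a x).2.1) (by fun_prop)
    (by fun_prop)
  unfold iPos
  fun_prop

theorem poly_darts : Poly darts := by
  unfold darts
  refine NPC.Poly.flatMap (F := fun (w : List NOp) (e : NOp × ℕ) => (List.range 5).flatMap fun t =>
    ((List.range (2 * w.length + 2)).filter (fun r => decide (r < cnt e.1 t))).map fun r =>
      (5 * e.2 + t, oPos e.1 t r, iPos e.1 t r)) (NPC.Poly.zipIdx NPC.Poly.id) ?_
  refine NPC.Poly.flatMap (F := fun (p : List NOp × (NOp × ℕ)) t =>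
    ((List.range (2 * p.1.length + 2)).filter (fun r => decide (r < cnt p.2.1 t))).map fun r =>
      (5 * p.2.2 + t, oPos p.2.1 t r, iPos p.2.1 t r)) (NPC.Poly.const _) ?_
  refine NPC.Poly.map (F := fun (q : (List NOp × (NOp × ℕ)) × ℕ) r =>
    (5 * q.1.2.2 + q.2, oPos q.1.2.1 q.2 r, iPos q.1.2.1 q.2 r)) ?_ ?_
  · refine NPC.Poly.filter (p := fun (q : (List NOp × (NOp × ℕ)) × ℕ) r =>
      decide (r < cnt q.1.2.1 q.2)) ?_ ?_
    · exact UPoly.range (((UPoly.const 2).mul (UPoly.length (by fun_prop))).add (UPoly.const 2))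
    · exact NPC.Poly.decide_lt (by fun_prop) (poly_cnt (by fun_prop) (by fun_prop))
  · exact NPC.Poly.pair (by fun_prop) (NPC.Poly.pair
      (poly_oPos (by fun_prop) (by fun_prop) (by fun_prop))
      (poly_iPos (by fun_prop) (by fun_prop) (by fun_prop)))

theorem poly_verts : Poly verts := by
  have h := poly_darts
  unfold verts
  refine poly_dedup (NPC.Poly.append ?_ ?_)
  · exact NPC.Poly.map (F := fun (_ : List NOp) (d : ℕ × ℕ × ℕ) => ((false, d.1, d.2.1) : Vx)) h
      (by fun_prop)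
  · exact NPC.Poly.map (F := fun (_ : List NOp) (d : ℕ × ℕ × ℕ) =>
      ((true, d.1 + 1, d.2.2) : Vx)) h (by fun_prop)

theorem pow4 {e B : α → ℕ} (he : Poly e) (hB : UPoly B) (h : ∀ a, e a ≤ B a) :
    Poly (fun a => (4 : ℤ) ^ e a) :=
  NPC.Poly.ipow (NPC.Poly.const 4) (UPoly.of_le he hB h)

theorem poly_emb {H M : α → ℕ} {v : α → Vx} (hH : Poly H) (hM : UPoly M) (hv : Poly v) :
    Poly (fun a => emb (H a) (M a) (v a)) := by
  have hM' : Poly M := hM.toPoly
  have hB : UPoly (fun a => 4 * M a + 2) := ((UPoly.const 4).mul hM).add (UPoly.const 2)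
  have e1 : Poly (fun a => (4 : ℤ) ^ (4 * M a + 2)) :=
    NPC.Poly.ipow (NPC.Poly.const 4) hB
  have e2 : Poly (fun a => (4 : ℤ) ^ (2 * M a - ((v a).2.1 + H a + (v a).2.2))) :=
    pow4 (by fun_prop) hB (fun a => by omega)
  have e3 : Poly (fun a => (4 : ℤ) ^ (2 * (M a - ((v a).2.1 + H a - (v a).2.2)))) :=
    pow4 (by fun_prop) hB (fun a => by omega)
  have e4 : Poly (fun a => (4 : ℤ) ^ (M a - ((v a).2.1 + H a - (v a).2.2))) :=
    pow4 (by fun_prop) hB (fun a => by omega)
  have e5 : Poly (fun a => (4 : ℤ) ^ (2 * M a - 4 * (v a).2.2)) :=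
    pow4 (by fun_prop) hB (fun a => by omega)
  have e6 : Poly (fun a => (4 : ℤ) ^ (2 * M a + 1 - ((v a).2.1 + H a + (v a).2.2))) :=
    pow4 (by fun_prop) hB (fun a => by omega)
  have e7 : Poly (fun a => (4 : ℤ) ^ (M a - 2 * (v a).2.2)) :=
    pow4 (by fun_prop) hB (fun a => by omega)
  have e8 : Poly (fun a => ((4 : ℤ) ^ (4 * M a + 2)) ^ 2) :=
    NPC.Poly.ipow (n := fun _ => 2) e1 (UPoly.const 2)
  unfold emb
  refine NPC.Poly.ite (p := fun a => (v a).1 = true) (NPC.Poly.decide_eq (by fun_prop)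
    (NPC.Poly.const _)) (NPC.Poly.pair ?_ ?_) (NPC.Poly.pair ?_ ?_)
  · exact NPC.Poly.isub (NPC.Poly.imul (NPC.Poly.const 2) e8)
      (NPC.Poly.iadd (NPC.Poly.imul (NPC.Poly.const 2) e2) e3)
  · exact NPC.Poly.imul (NPC.Poly.imul (NPC.Poly.const 2) e1) e4
  · exact NPC.Poly.isub e5 e6
  · exact NPC.Poly.imul (NPC.Poly.imul (NPC.Poly.const 2) e1) e7

end T7

theorem poly_inst : Poly inst := by
  unfold inst
  have h13 : UPoly (fun w : List NOp => 13 * w.length + 21) :=
    ((UPoly.const 13).mul (UPoly.length NPC.Poly.id)).add (UPoly.const 21)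
  refine NPC.Poly.pair ?_ ?_
  · exact NPC.Poly.map (F := fun (w : List NOp) v =>
      emb (4 * w.length + 10) (13 * w.length + 21) v) poly_verts
      (poly_emb (H := fun p : List NOp × Vx => 4 * p.1.length + 10)
        (M := fun p : List NOp × Vx => 13 * p.1.length + 21) (by fun_prop)
        (h13.comp (f := fun p : List NOp × Vx => p.1) (by fun_prop)) (by fun_prop))
  · unfold thr
    exact NPC.Poly.mul (NPC.Poly.const 4) (NPC.Poly.npow (n := fun _ => 4)
      (NPC.Poly.npow (NPC.Poly.const 4) (((UPoly.const 4).mul h13).add (UPoly.const 2)))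
      (UPoly.const 4))

end Pool.Agent.H820R2.MS
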