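import Pool.Agent.H820R2.MS.OccF

/-!
# Maximum scatter TSP in the plane: satisfiability and selections of columns
-/

set_option autoImplicit false

namespace Pool.Agent.H820R2.MS

open Pool.Agent.NPC

private theorem t8_col (l : Lit ℕ) : ∃ i : ℕ, (decide (i % 2 = 0), i / 2) = l ∧ i / 2 = l.2 := by
  obtain ⟨b, v⟩ := l
  cases b
  · refine ⟨2 * v + 1, ?_, ?_⟩
    · have h1 : ¬ (2 * v + 1) % 2 = 0 := by omega
      have h2 : (2 * v + 1) / 2 = v := by omega
      rw [h2, decide_eq_false h1]
    · show (2 * v + 1) / 2 = v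
      omega
  · refine ⟨2 * v, ?_, ?_⟩
    · have h1 : (2 * v) % 2 = 0 := by omega
      have h2 : (2 * v) / 2 = v := by omega
      rw [h2, decide_eq_true h1]
    · show (2 * v) / 2 = v
      omega

theorem sat_iff_sel (φ : List (Lit ℕ × Lit ℕ × Lit ℕ)) (h : Bounded3 φ) :
    SAT3 φ ↔ Sel (3 * φ.length) φ.length (occF φ) := by
  classical
  have hget : ∀ j, j < φ.length → φ.getD j ((true, 0), (true, 0), (true, 0)) ∈ φ := by
    intro j hj
    rw [List.getD_eq_getElem _ _ hj]
    exact List.getElem_mem hj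
  constructor
  · rintro ⟨τ, hτ⟩
    refine ⟨fun i => τ (i / 2) = decide (i % 2 = 0), ?_, ?_⟩
    · rintro t - ⟨h1, h2⟩
      have e1 : (2 * t) / 2 = t := by omega
      have e2 : (2 * t + 1) / 2 = t := by omega
      have e3 : (2 * t) % 2 = 0 := by omega
      have e4 : ¬ (2 * t + 1) % 2 = 0 := by omega
      rw [e1, decide_eq_true e3] at h1
      rw [e2, decide_eq_false e4, h1] at h2
      exact Bool.noConfusion h2
    · intro j hj
      have hmem := hget j hj
      have hb := h _ hmem
      have key : ∀ l : Lit ℕ, l.2 < 3 * φ.length → τ l.2 = l.1 →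
          ((φ.getD j ((true, 0), (true, 0), (true, 0))).1 = l ∨
            (φ.getD j ((true, 0), (true, 0), (true, 0))).2.1 = l ∨
            (φ.getD j ((true, 0), (true, 0), (true, 0))).2.2 = l) →
          ∃ i < 2 * (3 * φ.length), occF φ i j = true ∧ τ (i / 2) = decide (i % 2 = 0) := by
        intro l hl hτl hor
        obtain ⟨i, hi1, hi2⟩ := t8_col l
        refine ⟨i, by omega, ?_, ?_⟩
        · unfold occF
          rw [decide_eq_true_eq, hi1]
          exact hor
        · rw [hi2, hτl]
          exact (congrArg Prod.fst hi1).symm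
      rcases hτ _ hmem with hc | hc | hc
      · exact key _ hb.1 hc (Or.inl rfl)
      · exact key _ hb.2.1 hc (Or.inr (Or.inl rfl))
      · exact key _ hb.2.2 hc (Or.inr (Or.inr rfl))
  · rintro ⟨T, hT1, hT2⟩
    refine ⟨fun v => decide (T (2 * v)), ?_⟩
    intro c hc
    obtain ⟨j, hj, hcj⟩ := List.getElem_of_mem hc
    obtain ⟨i, hi, hocc, hTi⟩ := hT2 j hj
    unfold occF at hocc
    rw [decide_eq_true_eq, List.getD_eq_getElem _ _ hj, hcj] at hocc
    have key : ∀ l : Lit ℕ, l = (decide (i % 2 = 0), i / 2) → decide (T (2 * l.2)) = l.1 := by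
      rintro l rfl
      show decide (T (2 * (i / 2))) = decide (i % 2 = 0)
      rcases Nat.mod_two_eq_zero_or_one i with h0 | h1
      · have e : 2 * (i / 2) = i := by omega
        rw [e, decide_eq_true hTi, decide_eq_true h0]
      · have e : 2 * (i / 2) + 1 = i := by omega
        have hn : ¬ T (2 * (i / 2)) := fun hh =>
          hT1 (i / 2) (by omega) ⟨hh, by rw [e]; exact hTi⟩
        have h0 : ¬ i % 2 = 0 := by omega
        rw [decide_eq_false hn, decide_eq_false h0]
    rcases hocc with h1 | h1 | h1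
    · exact Or.inl (key _ h1)
    · exact Or.inr (Or.inl (key _ h1))
    · exact Or.inr (Or.inr (key _ h1))

end Pool.Agent.H820R2.MS
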