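import Pool.Agent.H820R2.MS.Defs
import Pool.Agent.NPC.Dec
import Pool.Agent.H687R2.IntPoly
import Pool.Agent.H671R2.PolyAuto

/-!
# Maximum scatter TSP in the plane: membership in `NP`
-/

namespace Pool.Agent.H820R2.MS

open Pool.Agent.NPC

namespace T9

/-- test of absence of repetitions -/
def ndb (l : List (ℤ × ℤ)) : Bool :=
  l.zipIdx.all (fun p => l.zipIdx.all (fun q => decide (p.2 = q.2 ∨ ¬ p.1 = q.1)))

theorem ndb_poly {α : Type} [TEnc α] {l : α → List (ℤ × ℤ)} (hl : Poly l) :
    Poly (fun a => ndb (l a)) := by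
  refine Poly.all (p := fun a (p : (ℤ × ℤ) × ℕ) =>
    (l a).zipIdx.all (fun q => decide (p.2 = q.2 ∨ ¬ p.1 = q.1))) (Poly.zipIdx hl) ?_
  refine Poly.all (p := fun (x : α × ((ℤ × ℤ) × ℕ)) (q : (ℤ × ℤ) × ℕ) =>
    decide (x.2.2 = q.2 ∨ ¬ x.2.1 = q.1)) (Poly.zipIdx (hl.comp (Poly.fst Poly.id))) ?_
  exact Poly.decide_or (Poly.decide_eq (Poly.snd (Poly.snd (Poly.fst Poly.id)))
      (Poly.snd (Poly.snd Poly.id)))
    (Poly.decide_not (Poly.decide_eq (Poly.fst (Poly.snd (Poly.fst Poly.id)))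
      (Poly.fst (Poly.snd Poly.id))))

theorem ndb_iff (l : List (ℤ × ℤ)) : ndb l = true ↔ l.Nodup := by
  simp only [ndb, List.all_eq_true, decide_eq_true_eq, Prod.forall,
    List.mem_zipIdx_iff_getElem?]
  rw [List.nodup_iff_getElem?_ne_getElem?]
  constructor
  · intro h i j hij hj he
    have h1 : l[j]? = some l[j] := List.getElem?_eq_getElem hj
    rcases h l[j].1 l[j].2 i (by rw [he, h1]) l[j].1 l[j].2 j h1 with h2 | h2
    · omega
    · exact h2 rfl
  · intro h a a' i hi b b' j hj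
    by_cases hij : i = j
    · exact Or.inl hij
    · refine Or.inr ?_
      intro hab
      rcases lt_or_gt_of_ne hij with h1 | h1
      · exact h i j h1 (List.getElem?_eq_some_iff.1 hj).1 (by rw [hi, hj, hab])
      · exact h j i h1 (List.getElem?_eq_some_iff.1 hi).1 (by rw [hi, hj, hab])

/-- the list rotated by one place -/
def rot (l : List (ℤ × ℤ)) : List (ℤ × ℤ) := l.tail ++ l.head?.toList

theorem rot_length (l : List (ℤ × ℤ)) : (rot l).length = l.length := by
  cases l <;> simp [rot]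

theorem rot_getElem (l : List (ℤ × ℤ)) (i : ℕ) (h : i < l.length) (h' : i < (rot l).length) :
    (rot l)[i] = l[(i + 1) % l.length]'(Nat.mod_lt _ (Nat.zero_lt_of_lt h)) := by
  cases l with
  | nil => simp at h
  | cons a l =>
    simp only [rot, List.tail_cons, List.head?_cons, Option.toList_some]
    simp only [List.length_cons] at h
    by_cases hi : i < l.length
    · rw [List.getElem_append_left hi]
      have : (i + 1) % (a :: l).length = i + 1 := Nat.mod_eq_of_lt (by simp; omega)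
      simp only [this, List.getElem_cons_succ]
    · have hi' : i = l.length := by omega
      subst hi'
      rw [List.getElem_append_right (le_refl _)]
      have : (l.length + 1) % (a :: l).length = 0 := by simp
      simp only [this, List.getElem_cons_zero]
      simp

/-- the test of the distances along a tour -/
def tb (D : ℕ) (w : List (ℤ × ℤ)) : Bool :=
  (w.zip (rot w)).all (fun q => decide ((D : ℤ) ≤ dist2 q.1 q.2))

theorem tb_iff (D : ℕ) (w : List (ℤ × ℤ)) : tb D w = true ↔ ∀ (i : ℕ) (h : i < w.length),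
    (D : ℤ) ≤ dist2 w[i] (w[(i + 1) % w.length]'(Nat.mod_lt _ (Nat.zero_lt_of_lt h))) := by
  simp only [tb, List.all_eq_true, decide_eq_true_eq]
  constructor
  · intro h i hi
    have hi' : i < (rot w).length := by rw [rot_length]; exact hi
    have h1 := h (w[i], (rot w)[i]) (by
      have h2 : i < (w.zip (rot w)).length := by
        rw [List.length_zip]; exact lt_min hi hi'
      have h3 := List.getElem_mem h2
      rwa [List.getElem_zip] at h3)
    simpa only [rot_getElem w i hi hi'] using h1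
  · intro h q hq
    obtain ⟨i, hi, rfl⟩ := List.getElem_of_mem hq
    rw [List.length_zip] at hi
    have hi1 : i < w.length := lt_of_lt_of_le hi (min_le_left _ _)
    have hi2 : i < (rot w).length := lt_of_lt_of_le hi (min_le_right _ _)
    rw [List.getElem_zip]
    simpa only [rot_getElem w i hi1 hi2] using h i hi1

/-- The certificates: the tours. -/
def cyb (x : (List (ℤ × ℤ) × ℕ) × List (ℤ × ℤ)) : Bool :=
  ndb x.1.1 && (decide (3 ≤ x.1.1.length) && (ndb x.2 && (x.1.1.all (fun v => decide (v ∈ x.2)) &&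
    (x.2.all (fun v => decide (v ∈ x.1.1)) && tb x.1.2 x.2))))

theorem dist2_poly {α : Type} [TEnc α] {p q : α → ℤ × ℤ} (hp : Poly p) (hq : Poly q) :
    Poly (fun a => dist2 (p a) (q a)) := by
  have h1 : Poly (fun a => (p a).1 - (q a).1) := Poly.isub (Poly.fst hp) (Poly.fst hq)
  have h2 : Poly (fun a => (p a).2 - (q a).2) := Poly.isub (Poly.snd hp) (Poly.snd hq)
  refine (Poly.iadd (Poly.imul h1 h1) (Poly.imul h2 h2)).congr fun a => ?_
  simp only [dist2]
  ring

theorem cyb_poly : Poly cyb := by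
  have h1 : Poly (fun x : (List (ℤ × ℤ) × ℕ) × List (ℤ × ℤ) => x.1) := Poly.fst Poly.id
  have h2 : Poly (fun x : (List (ℤ × ℤ) × ℕ) × List (ℤ × ℤ) => x.2) := Poly.snd Poly.id
  refine Poly.and (ndb_poly (Poly.fst h1)) (Poly.and (Poly.decide_le (NPC.Poly.const 3)
    (Poly.length (Poly.fst h1))) (Poly.and (ndb_poly h2) (Poly.and ?_ (Poly.and ?_ ?_))))
  · exact Poly.all (p := fun (x : (List (ℤ × ℤ) × ℕ) × List (ℤ × ℤ)) (v : ℤ × ℤ) =>
      decide (v ∈ x.2)) (Poly.fst h1)
      ((Poly.decide_mem (Poly.snd Poly.id) (Poly.snd (Poly.fst Poly.id))).congr fun a => by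
        simp only [decide_eq_decide])
  · exact Poly.all (p := fun (x : (List (ℤ × ℤ) × ℕ) × List (ℤ × ℤ)) (v : ℤ × ℤ) =>
      decide (v ∈ x.1.1)) h2
      ((Poly.decide_mem (Poly.snd Poly.id) (Poly.fst (Poly.fst (Poly.fst Poly.id)))).congr
        fun a => by simp only [decide_eq_decide])
  · refine Poly.all (p := fun (x : (List (ℤ × ℤ) × ℕ) × List (ℤ × ℤ)) (q : (ℤ × ℤ) × (ℤ × ℤ)) =>
      decide ((x.1.2 : ℤ) ≤ dist2 q.1 q.2)) ?_ ?_
    · refine Poly.zip h2 ?_
      refine Poly.append (Poly.tail h2) ?_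
      have h3 : Poly (fun x : (List (ℤ × ℤ) × ℕ) × List (ℤ × ℤ) => x.2.head?) := Poly.head? h2
      exact (Poly.optElim (o := fun x : (List (ℤ × ℤ) × ℕ) × List (ℤ × ℤ) => x.2.head?)
        (g := fun _ => ([] : List (ℤ × ℤ))) (h := fun _ v => [v]) h3 (NPC.Poly.const _)
        (Poly.cons (Poly.snd Poly.id) (NPC.Poly.const []))).congr fun x => by
          cases x.2.head? <;> rfl
    · exact Poly.ile (Poly.natCast (Poly.snd (Poly.fst (Poly.fst Poly.id))))
        (dist2_poly (Poly.fst (Poly.snd Poly.id)) (Poly.snd (Poly.snd Poly.id)))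

end T9

theorem inNP_maxScatter : InNPP MaxScatter := by
  refine inNPP_of T9.cyb_poly ((Polynomial.X) * (Polynomial.X + 1) + 1) ?_
  intro I
  constructor
  · rintro ⟨h1, h2, w, hw, h3⟩
    refine ⟨w, ?_, ?_⟩
    · have h4 := sz_le_length_mul w (sz I) (fun v hv => by
        have h5 := sz_le_of_mem (hw.subset hv)
        have h6 : sz I = sz I.1 + sz I.2 + 1 := sz_pair I.1 I.2
        omega)
      have h5 := length_lt_sz I.1
      have h6 : sz I = sz I.1 + sz I.2 + 1 := sz_pair I.1 I.2
      have h7 : w.length ≤ sz I := by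
        rw [hw.length_eq]
        omega
      simp only [Polynomial.eval_add, Polynomial.eval_mul, Polynomial.eval_X,
        Polynomial.eval_one]
      exact h4.trans (Nat.add_le_add_right (Nat.mul_le_mul_right _ h7) 1)
    · simp only [T9.cyb, Bool.and_eq_true, decide_eq_true_eq, List.all_eq_true]
      exact ⟨(T9.ndb_iff _).2 h1, h2, (T9.ndb_iff _).2 (hw.nodup_iff.2 h1),
        fun v hv => hw.mem_iff.2 hv, fun v hv => hw.mem_iff.1 hv, (T9.tb_iff _ _).2 h3⟩
  · rintro ⟨w, -, hw⟩
    simp only [T9.cyb, Bool.and_eq_true, decide_eq_true_eq, List.all_eq_true] at hw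
    obtain ⟨h1, h2, h3, h4, h5, h6⟩ := hw
    rw [T9.ndb_iff] at h1 h3
    exact ⟨h1, h2, w, (List.perm_ext_iff_of_nodup h3 h1).2 fun v => ⟨h5 v, h4 v⟩,
      (T9.tb_iff _ _).1 h6⟩

end Pool.Agent.H820R2.MS
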