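import Pool.Agent.H820R2.MS.T5a
import Pool.Agent.H820R2.MS.SatRun
import Pool.Agent.H820R2.MS.T4
import Pool.Agent.H820R2.MS.T5b
import Pool.Agent.H820R2.MS.T1
import Pool.Agent.H820R2.MS.T2
import Pool.Agent.H820R2.MS.T3
import Pool.Agent.H820R2.MS.T6b
import Pool.Agent.H820R2.MS.T7
import Pool.Agent.H820R2.MS.T8
import Pool.Agent.H820R2.MS.T9
import Pool.Agent.H820R2.MS.DefsQ

/-!
# Maximum scatter TSP in the plane: assembly
-/

namespace Pool.Agent.H820R2.MS

open Pool.Agent.NPC

theorem three_le (n m : ℕ) (occ : ℕ → ℕ → Bool) : 3 ≤ (verts (satW n m occ)).length := by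
  classical
  have h0 : ∃ w, satW n m occ = ((0, 0, 0) : NOp) :: w := by
    refine ⟨(satW n m occ).tail, ?_⟩
    unfold satW
    rw [List.range_succ_eq_map]
    rfl
  obtain ⟨w, hw⟩ := h0
  rw [hw]
  set W : List NOp := ((0, 0, 0) : NOp) :: w with hW
  have hd : ∀ r < 2, (4, oPos (0, 0, 0) 4 r, iPos (0, 0, 0) 4 r) ∈ darts W := by
    intro r hr
    unfold darts
    rw [List.mem_flatMap]
    refine ⟨((0, 0, 0), 0), ?_, ?_⟩
    · rw [List.mem_zipIdx_iff_getElem?]
      simp [hW]
    · rw [List.mem_flatMap]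
      refine ⟨4, by simp, ?_⟩
      rw [List.mem_map]
      refine ⟨r, ?_, by simp⟩
      rw [List.mem_filter, List.mem_range]
      refine ⟨by omega, ?_⟩
      simp [cnt]
      omega
  have h1 : ((false, 4, 1) : Vx) ∈ verts W := by
    unfold verts
    rw [List.mem_dedup, List.mem_append, List.mem_map]
    exact Or.inl ⟨_, hd 0 (by omega), by simp [oPos]⟩
  have h2 : ((true, 5, 0) : Vx) ∈ verts W := by
    unfold verts
    rw [List.mem_dedup, List.mem_append, List.mem_map, List.mem_map]
    exact Or.inr ⟨_, hd 0 (by omega), by simp [iPos]⟩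
  have h3 : ((true, 5, 2) : Vx) ∈ verts W := by
    unfold verts
    rw [List.mem_dedup, List.mem_append, List.mem_map, List.mem_map]
    exact Or.inr ⟨_, hd 1 (by omega), by simp [iPos]⟩
  have h4 : ({(false, 4, 1), (true, 5, 0), (true, 5, 2)} : Finset Vx) ⊆ (verts W).toFinset := by
    intro x hx
    simp only [Finset.mem_insert, Finset.mem_singleton] at hx
    rw [List.mem_toFinset]
    rcases hx with rfl | rfl | rfl <;> assumption
  have h5 := Finset.card_le_card h4
  have h6 : ({(false, 4, 1), (true, 5, 0), (true, 5, 2)} : Finset Vx).card = 3 := by decide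
  have h7 := List.toFinset_card_le (verts W)
  omega

/-- The far graph of the word of a formula has a Hamiltonian cycle iff the formula is
satisfiable. -/
theorem tour_far_iff (n m : ℕ) (occ : ℕ → ℕ → Bool) :
    Tour Far (verts (satW n m occ)) ↔ Sel n m occ := by
  classical
  have : Nonempty Lb := ⟨Lb.R 0⟩
  obtain ⟨s, hs, hv, hspan⟩ := word_sys (gr n m occ) (sat_run n m occ) (satE_fresh n m)
  have hnd : (verts (satW n m occ)).Nodup := List.nodup_dedup _
  have h3 := three_le n m occ
  have e1 : (fun t => Evt.grp t ∈ satE n m) = okT n m := by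
    funext t; exact propext (mem_satE_grp n m t)
  have e2 : (fun c => Evt.cup c ∈ satE n m) = okL n m := by
    funext c; exact propext (mem_satE_cup n m c)
  rw [e1, e2] at hspan
  constructor
  · intro h
    exact sel_of_gspan (hspan.1 (s.sound hs _ hnd hv h3 h))
  · intro h
    exact s.complete hs _ hnd hv h3 (hspan.2 (gspan_of_sel h))

/-- The bounds needed for the embedding. -/
theorem bounds (n m : ℕ) (occ : ℕ → ℕ → Bool) : ∀ v ∈ verts (satW n m occ),
    v.2.2 ≤ 4 * (satW n m occ).length + 10 ∧
      v.2.1 + (4 * (satW n m occ).length + 10) + v.2.2 ≤ 13 * (satW n m occ).length + 21 := by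
  intro v hv
  obtain ⟨h1, h2⟩ := verts_bound (gr n m occ) (sat_run n m occ) v hv
  omega

theorem inst_nodup (n m : ℕ) (occ : ℕ → ℕ → Bool) : (inst (satW n m occ)).1.Nodup := by
  refine List.Nodup.map_on (fun v hv w hw h => ?_) (List.nodup_dedup _)
  exact emb_inj _ _ v w (bounds n m occ v hv) (bounds n m occ w hw) h

theorem inst_iff (n m : ℕ) (occ : ℕ → ℕ → Bool) : MaxScatter (inst (satW n m occ)) ↔ Sel n m occ := by
  rw [← tour_far_iff, ← tour_emb_iff _ _ _ (bounds n m occ)]
  constructor
  · rintro ⟨-, -, h⟩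
    exact h
  · intro h
    refine ⟨inst_nodup n m occ, ?_, h⟩
    simp only [inst, List.length_map]
    exact three_le n m occ

/-- The maximum scatter TSP in the Euclidean plane is NP-hard. -/
theorem npHard_maxScatter : NPHardP MaxScatter := by
  refine (HardPr.trans (Pr' := fun _ => True) hardPr_SAT3b
    (f := fun φ => inst (satW (3 * φ.length) φ.length (occF φ)))
    (poly_inst.comp poly_satW) (fun _ _ => trivial) ?_).toHardI.toNPHardP
  intro φ hφ
  rw [inst_iff]
  exact sat_iff_sel φ hφ.2.1

end Pool.Agent.H820R2.MS
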