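import Pool.Agent.H820R2.MS.Final

/-!
# Maximum scatter TSP in the plane: rational coordinates
-/

namespace Pool.Agent.H820R2.MS

open Pool.Agent.NPC

theorem tour_map_iff {α β : Type} (f : α → β) (R : β → β → Prop) (L : List α) :
    Tour R (L.map f) ↔ Tour (fun p q => R (f p) (f q)) L := by
  constructor
  · rintro ⟨σ, h1, h2⟩
    obtain ⟨τ, h3, rfl⟩ := T1.emb_perm f h1
    refine ⟨τ, h3, fun i hi => ?_⟩
    have h4 := h2 i (by rw [List.length_map]; exact hi)
    simpa only [List.getElem_map, List.length_map] using h4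
  · rintro ⟨τ, h3, h2⟩
    refine ⟨τ.map f, h3.map _, fun i hi => ?_⟩
    rw [List.length_map] at hi
    have h4 := h2 i hi
    simpa only [List.getElem_map, List.length_map] using h4

/-- Integer points as rational points. -/
def toQ (p : ℤ × ℤ) : ℚ × ℚ := ((p.1 : ℚ), (p.2 : ℚ))

theorem toQ_inj : Function.Injective toQ := by
  rintro ⟨a, b⟩ ⟨c, d⟩ h
  simp only [toQ, Prod.mk.injEq, Int.cast_inj] at h
  rw [h.1, h.2]

/-- The rational instance of a word. -/
def instQ (w : List NOp) : List (ℚ × ℚ) × ℚ :=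
  ((inst w).1.map toQ, (((2 * (4 ^ (4 * (13 * w.length + 21) + 2)) ^ 2 : ℕ) : ℤ) : ℚ))

theorem poly_intCast {α : Type} [TEnc α] {f : α → ℤ} (hf : Poly f) :
    Poly (fun a => ((f a : ℤ) : ℚ)) :=
  NPC.Poly.of_toT ((NPC.Poly.toT' (NPC.Poly.pair hf (NPC.Poly.const (1 : ℕ)))).congr fun a => by
    change toT (f a, 1) = toT (((f a : ℤ) : ℚ).num, ((f a : ℤ) : ℚ).den)
    rw [Rat.num_intCast, Rat.den_intCast])

theorem poly_instQ : Poly instQ := by
  have h13 : UPoly (fun w : List NOp => 13 * w.length + 21) :=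
    ((UPoly.const 13).mul (UPoly.length NPC.Poly.id)).add (UPoly.const 21)
  unfold instQ
  refine NPC.Poly.pair ?_ ?_
  · refine NPC.Poly.map (F := fun _ p => toQ p) (NPC.Poly.fst poly_inst) ?_
    exact NPC.Poly.pair (poly_intCast (NPC.Poly.fst (NPC.Poly.snd NPC.Poly.id)))
      (poly_intCast (NPC.Poly.snd (NPC.Poly.snd NPC.Poly.id)))
  · exact poly_intCast (NPC.Poly.natCast_int (NPC.Poly.mul (NPC.Poly.const 2) (NPC.Poly.npow (n := fun _ => 2)
      (NPC.Poly.npow (NPC.Poly.const 4) (((UPoly.const 4).mul h13).add (UPoly.const 2)))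
      (UPoly.const 2))))

theorem instQ_iff (w : List NOp) : MaxScatterQ (instQ w) ↔ MaxScatter (inst w) := by
  unfold MaxScatterQ MaxScatter
  refine and_congr ?_ (and_congr ?_ ?_)
  · exact List.nodup_map_iff toQ_inj
  · simp only [instQ, List.length_map]
  · simp only [instQ]
    rw [tour_map_iff]
    have h : (fun p q : ℤ × ℤ => (((((2 * (4 ^ (4 * (13 * w.length + 21) + 2)) ^ 2 : ℕ) : ℤ) : ℚ)) : ℝ)
        ≤ dist (ptQ (toQ p)) (ptQ (toQ q))) = fun p q => (((inst w).2 : ℕ) : ℤ) ≤ dist2 p q := by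
      funext p q
      rw [eq_iff_iff, le_dist_iff]
      have h0 : ¬ ((((2 * (4 ^ (4 * (13 * w.length + 21) + 2)) ^ 2 : ℕ) : ℤ) : ℚ) < 0) := by
        rw [not_lt]
        positivity
      rw [or_iff_right h0]
      simp only [inst, thr, toQ, dist2]
      generalize 4 * (13 * w.length + 21) + 2 = e
      rw [← @Int.cast_le ℚ]
      push_cast
      have : ((2 : ℚ) * (4 ^ e) ^ 2) ^ 2 = 4 * (4 ^ e) ^ 4 := by ring
      rw [this]
    rw [h]

/-- The Euclidean Max-Scatter-TSP in the plane, with rational coordinates, is NP-hard. -/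
theorem npHard_maxScatterQ : NPHardP MaxScatterQ := by
  refine (HardPr.trans (Pr' := fun _ => True) hardPr_SAT3b
    (f := fun φ => instQ (satW (3 * φ.length) φ.length (occF φ)))
    (poly_instQ.comp poly_satW) (fun _ _ => trivial) ?_).toHardI.toNPHardP
  intro φ hφ
  rw [instQ_iff, inst_iff]
  exact sat_iff_sel φ hφ.2.1

end Pool.Agent.H820R2.MS
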