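import Pool.Agent.H820R2.MS.SatDefs
import Pool.Agent.NPC.Sat2

/-!
# Maximum scatter TSP in the plane: literal occurrences
-/

namespace Pool.Agent.H820R2.MS

open Pool.Agent.NPC

/-- Literal `i` (column `i`) occurs in clause `j`. -/
def occF (φ : List (Lit ℕ × Lit ℕ × Lit ℕ)) (i j : ℕ) : Bool :=
  decide ((φ.getD j ((true, 0), (true, 0), (true, 0))).1 = (decide (i % 2 = 0), i / 2) ∨
    (φ.getD j ((true, 0), (true, 0), (true, 0))).2.1 = (decide (i % 2 = 0), i / 2) ∨
    (φ.getD j ((true, 0), (true, 0), (true, 0))).2.2 = (decide (i % 2 = 0), i / 2))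

end Pool.Agent.H820R2.MS
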