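import Pool.Agent.H820R2.MS.Core

/-!
# Maximum scatter TSP in the plane: the word of a formula

`n` variables, `m` clauses; column `2 v` is the literal `v`, column `2 v + 1` its negation;
`occ i j` says that the literal of column `i` occurs in clause `j`.
-/

namespace Pool.Agent.H820R2.MS

/-- Labels (closed curves). -/
inductive Lb : Type
  | R (t : ℕ)
  | Q1 (t : ℕ)
  | Q2 (t : ℕ)
  | V (i j : ℕ)
  | B (j : ℕ)
  | E (j : ℕ)
  | J (i j : ℕ)
  | Y (i j : ℕ)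
  | W (i j : ℕ)
  | U (i j : ℕ)
  | Y' (i j : ℕ)
  | W' (i j : ℕ)
  | X (i j : ℕ)
  | Z1 (i j : ℕ)
  | Z2 (i j : ℕ)
  | W1 (i j : ℕ)
  | W2 (i j : ℕ)
  deriving DecidableEq

/-- Tags of groups. -/
inductive Tg : Type
  | link (t : ℕ)
  | top1 (t : ℕ)
  | top2 (t : ℕ)
  | top3 (t : ℕ)
  | g1 (i j : ℕ)
  | g2 (i j : ℕ)
  | g3 (i j : ℕ)
  | g4 (i j : ℕ)
  | g5 (i j : ℕ)
  | g6 (i j : ℕ)
  | g7 (i j : ℕ)
  | g8 (i j : ℕ)
  | g9 (i j : ℕ)
  | fin (j : ℕ)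
  | bot (i : ℕ)
  deriving DecidableEq

/-- The label of the curve of the wall strand `k`: column `i` has the wall strands
`3 i`, `3 i + 1`, `3 i + 2`. -/
def wl (k : ℕ) : Lb := Lb.R (k / 2)

/-- The wall strand `k`. -/
def ws (k : ℕ) : Lb × Bool := (Lb.R (k / 2), decide (k % 2 = 1))

/-- The label to the left of column `i` in row `j`. -/
def lc (i j : ℕ) : Lb := if i = 0 then Lb.B j else Lb.J (i - 1) j

/-- The labels of the groups. -/
def gr (n m : ℕ) (occ : ℕ → ℕ → Bool) : Tg → List Lb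
  | Tg.link t => [Lb.R t, Lb.R (t + 1)]
  | Tg.top1 t => [Lb.V (2 * t) 0, wl (3 * (2 * t) + 1), Lb.Q1 t]
  | Tg.top2 t => [Lb.Q1 t, wl (3 * (2 * t) + 2), Lb.Q2 t]
  | Tg.top3 t => [Lb.Q2 t, wl (3 * (2 * t + 1)), Lb.V (2 * t + 1) 0]
  | Tg.g1 i j => [lc i j, wl (3 * i), Lb.Y i j, Lb.W i j]
  | Tg.g2 i j => [Lb.W i j, Lb.Y i j, Lb.V i j, Lb.U i j]
  | Tg.g3 i j => [Lb.U i j, Lb.V i j, Lb.Y' i j, Lb.W' i j]
  | Tg.g4 i j => [Lb.W' i j, Lb.Y' i j, wl (3 * i + 1), Lb.X i j]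
  | Tg.g5 i j => [Lb.X i j, wl (3 * i + 2), Lb.J i j]
  | Tg.g6 i j => [Lb.V i j, wl (3 * i + 1), Lb.Z2 i j]
  | Tg.g7 i j => [Lb.V i (j + 1), wl (3 * i + 1), Lb.Z1 i j, Lb.W1 i j]
  | Tg.g8 i j => [Lb.W1 i j, Lb.Z1 i j, Lb.Z2 i j, Lb.W2 i j]
  | Tg.g9 i j => if occ i j then [Lb.W2 i j, Lb.Z2 i j, wl (3 * i + 2), Lb.J i j]
      else [Lb.W2 i j, Lb.Z2 i j, wl (3 * i + 2)]
  | Tg.fin j => [lc (2 * n) j, wl (6 * n), Lb.E j]
  | Tg.bot i => [Lb.V i m, wl (3 * i + 1)]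

/-- The tags that occur. -/
def okT (n m : ℕ) : Tg → Prop
  | Tg.link t => t < 3 * n
  | Tg.top1 t => t < n
  | Tg.top2 t => t < n
  | Tg.top3 t => t < n
  | Tg.g1 i j => i < 2 * n ∧ j < m
  | Tg.g2 i j => i < 2 * n ∧ j < m
  | Tg.g3 i j => i < 2 * n ∧ j < m
  | Tg.g4 i j => i < 2 * n ∧ j < m
  | Tg.g5 i j => i < 2 * n ∧ j < m
  | Tg.g6 i j => i < 2 * n ∧ j < m
  | Tg.g7 i j => i < 2 * n ∧ j < m
  | Tg.g8 i j => i < 2 * n ∧ j < m
  | Tg.g9 i j => i < 2 * n ∧ j < m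
  | Tg.fin j => j < m
  | Tg.bot i => i < 2 * n

/-- The labels that occur. -/
def okL (n m : ℕ) : Lb → Prop
  | Lb.R t => t ≤ 3 * n
  | Lb.Q1 t => t < n
  | Lb.Q2 t => t < n
  | Lb.V i j => i < 2 * n ∧ j ≤ m
  | Lb.B j => j < m
  | Lb.E j => j < m
  | Lb.J i j => i < 2 * n ∧ j < m
  | Lb.Y i j => i < 2 * n ∧ j < m
  | Lb.W i j => i < 2 * n ∧ j < m
  | Lb.U i j => i < 2 * n ∧ j < m
  | Lb.Y' i j => i < 2 * n ∧ j < m
  | Lb.W' i j => i < 2 * n ∧ j < m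
  | Lb.X i j => i < 2 * n ∧ j < m
  | Lb.Z1 i j => i < 2 * n ∧ j < m
  | Lb.Z2 i j => i < 2 * n ∧ j < m
  | Lb.W1 i j => i < 2 * n ∧ j < m
  | Lb.W2 i j => i < 2 * n ∧ j < m

/-- The logical content: a set of columns which contains no variable together with its negation,
and meets every clause. -/
def Sel (n m : ℕ) (occ : ℕ → ℕ → Bool) : Prop :=
  ∃ T : ℕ → Prop, (∀ t < n, ¬ (T (2 * t) ∧ T (2 * t + 1))) ∧
    ∀ j < m, ∃ i < 2 * n, occ i j = true ∧ T i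

/-! ## The word -/

/-- Shift of an operation, by `b` in the index and by `l` in the length. -/
def sh (b l : ℕ) (a : NOp) : NOp := (a.1, a.2.1 + b, a.2.2 + l)

/-- The operations of a variable on top, relative to the index of its first strand. -/
def topW : List NOp :=
  [(0, 4, 10), (3, 2, 12), (0, 7, 12), (3, 5, 14), (3, 8, 14), (1, 7, 14), (1, 4, 12)]

/-- The operations of a tile, relative to the index of its first strand. -/
def tileW (b : Bool) : List NOp :=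
  [(0, 3, 7), (0, 4, 9), (4, 1, 11), (1, 0, 11), (0, 6, 9), (4, 3, 11), (1, 2, 11), (1, 1, 9),
   (0, 5, 7), (0, 6, 9), (4, 3, 11), (1, 2, 11), (0, 8, 9), (4, 5, 11), (1, 4, 11), (1, 3, 9),
   (0, 7, 7), (3, 5, 9), (1, 4, 9), (0, 4, 7), (3, 2, 9), (1, 1, 9), (0, 1, 7), (0, 5, 9),
   (0, 4, 11), (0, 5, 13), (4, 2, 15), (4, 6, 15), (if b then 4 else 3, 10, 15), (1, 5, 15),
   (1, 4, 13), (1, 5, 11), (1, 4, 9)]

/-- The operations of a row. -/
def rowW (n : ℕ) (oc : ℕ → Bool) : List NOp :=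
  (0, 0, 10 * n + 2) ::
    ((List.range (2 * n)).flatMap fun i => (tileW (oc i)).map (sh (5 * i) (10 * n - 3))) ++
    [(0, 10 * n + 3, 10 * n + 4), (3, 10 * n + 1, 10 * n + 6), (1, 10 * n + 3, 10 * n + 6),
      (1, 10 * n, 10 * n + 4)]

/-- The word of a formula. -/
def satW (n m : ℕ) (occ : ℕ → ℕ → Bool) : List NOp :=
  ((List.range (3 * n + 1)).map fun t => ((0, 2 * t, 2 * t) : NOp)) ++
  (((List.range (3 * n)).map fun t => ((2, 2 * t + 1, 6 * n + 2) : NOp)) ++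
  (((List.range (2 * n)).map fun i => ((0, 5 * i + 1, 6 * n + 2 + 2 * i) : NOp)) ++
  (((List.range n).flatMap fun t => topW.map (sh (10 * t) (10 * n - 8))) ++
  (((List.range m).flatMap fun j => rowW n (fun i => occ i j)) ++
  (((List.range (2 * n)).map fun i => ((2, 5 * i + 2, 10 * n + 2) : NOp)) ++
  (((List.range (2 * n)).map fun i => ((1, 3 * i + 1, 10 * n + 2 - 2 * i) : NOp)) ++
  ((List.range (3 * n + 1)).map fun t => ((1, 0, 6 * n + 2 - 2 * t) : NOp))))))))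

/-- The events of a variable on top. -/
def topE (t : ℕ) : List (Evt Lb Tg) :=
  [.cup (.Q1 t), .grp (.top1 t), .cup (.Q2 t), .grp (.top2 t), .grp (.top3 t), .cap, .cap]

/-- The events of a tile. -/
def tileE (i j : ℕ) : List (Evt Lb Tg) :=
  [.cup (.Y i j), .cup (.W i j), .grp (.g1 i j), .cap, .cup (.U i j), .grp (.g2 i j), .cap, .cap,
   .cup (.Y' i j), .cup (.W' i j), .grp (.g3 i j), .cap, .cup (.X i j), .grp (.g4 i j), .cap, .cap,
   .cup (.J i j), .grp (.g5 i j), .cap, .cup (.Z2 i j), .grp (.g6 i j), .cap,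
   .cup (.V i (j + 1)), .cup (.W2 i j), .cup (.Z1 i j), .cup (.W1 i j), .grp (.g7 i j),
   .grp (.g8 i j), .grp (.g9 i j), .cap, .cap, .cap, .cap]

/-- The events of a row. -/
def rowE (n j : ℕ) : List (Evt Lb Tg) :=
  .cup (.B j) :: ((List.range (2 * n)).flatMap fun i => tileE i j) ++
    [.cup (.E j), .grp (.fin j), .cap, .cap]

/-- The events of a formula. -/
def satE (n m : ℕ) : List (Evt Lb Tg) :=
  ((List.range (3 * n + 1)).map fun t => Evt.cup (.R t)) ++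
  (((List.range (3 * n)).map fun t => Evt.grp (.link t)) ++
  (((List.range (2 * n)).map fun i => Evt.cup (.V i 0)) ++
  (((List.range n).flatMap fun t => topE t) ++
  (((List.range m).flatMap fun j => rowE n j) ++
  (((List.range (2 * n)).map fun i => Evt.grp (.bot i)) ++
  (((List.range (2 * n)).map fun _ => Evt.cap) ++
  ((List.range (3 * n + 1)).map fun _ => Evt.cap)))))))

end Pool.Agent.H820R2.MS
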