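import Pool.Agent.H820R2.MS.OccF
import Pool.Agent.H671R2.PolyAuto
import Pool.Agent.H687R2.IntPoly
import Pool.Agent.NPC.Sat2

/-!
Exact statements of the tasks of the project MaxScatter (helper820). Each task goes to its own file
Pool/Agent/H820R2/MS/<Task>.lean, namespace Pool.Agent.H820R2.MS, importing only what it needs
(Core or SatDefs, and other tasks if said so in the note).
-/

namespace Pool.Agent.H820R2.MS

open Pool.Agent.NPC

/-! ### T0a, T0b: tours and 2-regular connected relations -/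

theorem Tour.exists_rel {α : Type} {R : α → α → Prop} (hR : ∀ v w, R v w → R w v) {P : List α}
    (hP : P.Nodup) (h3 : 3 ≤ P.length) (h : Tour R P) :
    ∃ E : α → α → Prop, (∀ v w, E v w → E w v) ∧ (∀ v w, E v w → v ∈ P ∧ w ∈ P ∧ R v w) ∧
      (∀ v ∈ P, ∃ a b, a ≠ b ∧ ∀ w, E v w ↔ w = a ∨ w = b) ∧
      ∀ W : Set α, (∃ v ∈ P, v ∈ W) → (∀ v ∈ W, ∀ w, E v w → w ∈ W) → ∀ v ∈ P, v ∈ W := by
  sorry

theorem Tour.of_rel {α : Type} {R : α → α → Prop} {P : List α} (hP : P.Nodup) (hne : P ≠ [])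
    (E : α → α → Prop) (h1 : ∀ v w, E v w → E w v) (h2 : ∀ v w, E v w → v ∈ P ∧ w ∈ P ∧ R v w)
    (h3 : ∀ v, ¬ E v v) (h4 : ∀ v ∈ P, ∃ a b, a ≠ b ∧ ∀ w, E v w ↔ w = a ∨ w = b)
    (h5 : ∀ W : Set α, (∃ v ∈ P, v ∈ W) → (∀ v ∈ W, ∀ w, E v w → w ∈ W) → ∀ v ∈ P, v ∈ W) :
    Tour R P := by
  sorry

/-! ### T1: the embedding -/

theorem emb_far (H M : ℕ) (v w : Vx) (hv : v.2.2 ≤ H ∧ v.2.1 + H + v.2.2 ≤ M)
    (hw : w.2.2 ≤ H ∧ w.2.1 + H + w.2.2 ≤ M) :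
    (thr M : ℤ) ≤ dist2 (emb H M v) (emb H M w) ↔ Far v w := by
  sorry

theorem emb_inj (H M : ℕ) (v w : Vx) (hv : v.2.2 ≤ H ∧ v.2.1 + H + v.2.2 ≤ M)
    (hw : w.2.2 ≤ H ∧ w.2.1 + H + w.2.2 ≤ M) (h : emb H M v = emb H M w) : v = w := by
  sorry

theorem tour_emb_iff (H M : ℕ) (L : List Vx) (hL : ∀ v ∈ L, v.2.2 ≤ H ∧ v.2.1 + H + v.2.2 ≤ M) :
    Tour (fun p q => (thr M : ℤ) ≤ dist2 p q) (L.map (emb H M)) ↔ Tour Far L := by
  sorry

/-! ### T2a: tightness (pure counting) -/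

theorem tight (A B : Finset (ℕ × ℕ)) (EF : Finset ((ℕ × ℕ) × (ℕ × ℕ))) (N : ℕ)
    (hE : ∀ e ∈ EF, e.1 ∈ A ∧ e.2 ∈ B ∧ dom e.1 e.2)
    (hA : ∀ a ∈ A, (EF.filter (fun e => e.1 = a)).card = 2)
    (hB : ∀ b ∈ B, (EF.filter (fun e => e.2 = b)).card = 2)
    (h1 : 2 * ∑ b ∈ B, b.1 = 2 * ∑ a ∈ A, a.1 + N) (h2 : 2 * A.card = N + (A ∩ B).card) :
    (∀ x ∈ A ∩ B, (x, x) ∈ EF) ∧ ∀ e ∈ EF, e.1 ≠ e.2 → e.2.1 = e.1.1 + 1 := by
  sorry

/-! ### T2, T3: layered slot systems -/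

theorem Sys.sound {Γ : Type} (s : Sys Γ) (hs : s.Good) (L : List Vx) (hL : L.Nodup)
    (hm : ∀ v, v ∈ L ↔ s.IsVx v) (h3 : 3 ≤ L.length) (h : Tour Far L) : s.Span := by
  sorry

theorem Sys.complete {Γ : Type} (s : Sys Γ) (hs : s.Good) (L : List Vx) (hL : L.Nodup)
    (hm : ∀ v, v ∈ L ↔ s.IsVx v) (h3 : 3 ≤ L.length) (h : s.Span) : Tour Far L := by
  sorry

/-! ### T4: words -/

theorem word_sys {Γ Λ : Type} (gr : Λ → List Γ) {w : List NOp} {e : List (Evt Γ Λ)}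
    (hR : Run gr w e [] []) (hf : Fresh e) : ∃ s : Sys Γ, s.Good ∧ (∀ v, v ∈ verts w ↔ s.IsVx v) ∧
      (s.Span ↔ GSpan gr (fun t => Evt.grp t ∈ e) (fun c => Evt.cup c ∈ e)) := by
  sorry

theorem verts_bound {Γ Λ : Type} (gr : Λ → List Γ) {w : List NOp} {e : List (Evt Γ Λ)}
    (hR : Run gr w e [] []) : ∀ v ∈ verts w, v.2.1 ≤ 5 * w.length ∧ v.2.2 ≤ 4 * w.length + 10 := by
  sorry

/-! ### T5: the logic of the tiles -/

theorem sel_of_gspan {n m : ℕ} {occ : ℕ → ℕ → Bool}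
    (h : GSpan (gr n m occ) (okT n m) (okL n m)) : Sel n m occ := by
  sorry

theorem gspan_of_sel {n m : ℕ} {occ : ℕ → ℕ → Bool} (h : Sel n m occ) :
    GSpan (gr n m occ) (okT n m) (okL n m) := by
  sorry

/-! ### T6: the word of a formula -/

theorem sat_run (n m : ℕ) (occ : ℕ → ℕ → Bool) :
    Run (gr n m occ) (satW n m occ) (satE n m) [] [] := by
  sorry

theorem satE_fresh (n m : ℕ) : Fresh (satE n m) := by
  sorry

theorem mem_satE_grp (n m : ℕ) (t : Tg) : Evt.grp t ∈ satE n m ↔ okT n m t := by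
  sorry

theorem mem_satE_cup (n m : ℕ) (c : Lb) : Evt.cup c ∈ satE n m ↔ okL n m c := by
  sorry

/-! ### T7, T8: polynomial time, and the formula -/

theorem poly_inst : Poly inst := by
  sorry

theorem poly_satW : Poly (fun φ : List (Lit ℕ × Lit ℕ × Lit ℕ) =>
    satW (3 * φ.length) φ.length (occF φ)) := by
  sorry

theorem sat_iff_sel (φ : List (Lit ℕ × Lit ℕ × Lit ℕ)) (h : Bounded3 φ) :
    SAT3 φ ↔ Sel (3 * φ.length) φ.length (occF φ) := by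
  sorry

/-! ### T9: membership in NP (separate file, imports NPC.Dec or what is needed) -/

theorem inNP_maxScatter : InNPP MaxScatter := by
  sorry

end Pool.Agent.H820R2.MS
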