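import Pool.Agent.H820R2.MS.SatDefs

/-!
# Maximum scatter TSP: soundness of the tile gadget
-/

namespace Pool.Agent.H820R2.MS

/-- The adjacent pairs of the groups. -/
inductive T5a.Sp (n m : ℕ) (occ : ℕ → ℕ → Bool) : Tg → ℕ → Lb → Lb → Prop
  | link (t : ℕ) : T5a.Sp n m occ (.link t) 0 (.R t) (.R (t + 1))
  | top10 (t r : ℕ) (h : t < n) : T5a.Sp n m occ (.top1 t) 0 (.V (2 * t) 0) (.R r)
  | top11 (t r : ℕ) (h : t < n) : T5a.Sp n m occ (.top1 t) 1 (.R r) (.Q1 t)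
  | top20 (t r : ℕ) (h : t < n) : T5a.Sp n m occ (.top2 t) 0 (.Q1 t) (.R r)
  | top21 (t r : ℕ) (h : t < n) : T5a.Sp n m occ (.top2 t) 1 (.R r) (.Q2 t)
  | top30 (t r : ℕ) (h : t < n) : T5a.Sp n m occ (.top3 t) 0 (.Q2 t) (.R r)
  | top31 (t r : ℕ) (h : t < n) : T5a.Sp n m occ (.top3 t) 1 (.R r) (.V (2 * t + 1) 0)
  | g10B (j r : ℕ) (hi : 0 < 2 * n) : T5a.Sp n m occ (.g1 0 j) 0 (.B j) (.R r)
  | g10J (i j r : ℕ) (hi : i + 1 < 2 * n) : T5a.Sp n m occ (.g1 (i + 1) j) 0 (.J i j) (.R r)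
  | g11 (i j r : ℕ) : T5a.Sp n m occ (.g1 i j) 1 (.R r) (.Y i j)
  | g12 (i j : ℕ) : T5a.Sp n m occ (.g1 i j) 2 (.Y i j) (.W i j)
  | g20 (i j : ℕ) : T5a.Sp n m occ (.g2 i j) 0 (.W i j) (.Y i j)
  | g21 (i j : ℕ) : T5a.Sp n m occ (.g2 i j) 1 (.Y i j) (.V i j)
  | g22 (i j : ℕ) : T5a.Sp n m occ (.g2 i j) 2 (.V i j) (.U i j)
  | g30 (i j : ℕ) : T5a.Sp n m occ (.g3 i j) 0 (.U i j) (.V i j)
  | g31 (i j : ℕ) : T5a.Sp n m occ (.g3 i j) 1 (.V i j) (.Y' i j)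
  | g32 (i j : ℕ) : T5a.Sp n m occ (.g3 i j) 2 (.Y' i j) (.W' i j)
  | g40 (i j : ℕ) : T5a.Sp n m occ (.g4 i j) 0 (.W' i j) (.Y' i j)
  | g41 (i j r : ℕ) : T5a.Sp n m occ (.g4 i j) 1 (.Y' i j) (.R r)
  | g42 (i j r : ℕ) : T5a.Sp n m occ (.g4 i j) 2 (.R r) (.X i j)
  | g50 (i j r : ℕ) : T5a.Sp n m occ (.g5 i j) 0 (.X i j) (.R r)
  | g51 (i j r : ℕ) : T5a.Sp n m occ (.g5 i j) 1 (.R r) (.J i j)
  | g60 (i j r : ℕ) : T5a.Sp n m occ (.g6 i j) 0 (.V i j) (.R r)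
  | g61 (i j r : ℕ) : T5a.Sp n m occ (.g6 i j) 1 (.R r) (.Z2 i j)
  | g70 (i j r : ℕ) : T5a.Sp n m occ (.g7 i j) 0 (.V i (j + 1)) (.R r)
  | g71 (i j r : ℕ) : T5a.Sp n m occ (.g7 i j) 1 (.R r) (.Z1 i j)
  | g72 (i j : ℕ) : T5a.Sp n m occ (.g7 i j) 2 (.Z1 i j) (.W1 i j)
  | g80 (i j : ℕ) : T5a.Sp n m occ (.g8 i j) 0 (.W1 i j) (.Z1 i j)
  | g81 (i j : ℕ) : T5a.Sp n m occ (.g8 i j) 1 (.Z1 i j) (.Z2 i j)
  | g82 (i j : ℕ) : T5a.Sp n m occ (.g8 i j) 2 (.Z2 i j) (.W2 i j)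
  | g90 (i j : ℕ) : T5a.Sp n m occ (.g9 i j) 0 (.W2 i j) (.Z2 i j)
  | g91 (i j r : ℕ) : T5a.Sp n m occ (.g9 i j) 1 (.Z2 i j) (.R r)
  | g92 (i j r : ℕ) (ho : occ i j = true) : T5a.Sp n m occ (.g9 i j) 2 (.R r) (.J i j)
  | fin0B (j r : ℕ) (h : n = 0) : T5a.Sp n m occ (.fin j) 0 (.B j) (.R r)
  | fin0J (i j r : ℕ) (h : i + 1 = 2 * n) : T5a.Sp n m occ (.fin j) 0 (.J i j) (.R r)
  | fin1 (j r : ℕ) : T5a.Sp n m occ (.fin j) 1 (.R r) (.E j)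
  | bot (i r : ℕ) : T5a.Sp n m occ (.bot i) 0 (.V i m) (.R r)

theorem T5a.sp_of {n m : ℕ} {occ : ℕ → ℕ → Bool} (t : Tg) (ht : okT n m t) (q : ℕ)
    (hq : q + 1 < (gr n m occ t).length) :
    T5a.Sp n m occ t q ((gr n m occ t)[q]) ((gr n m occ t)[q + 1]) := by
  cases t with
  | link t =>
    simp only [gr, List.length_cons, List.length_nil] at hq
    obtain rfl : q = 0 := by omega
    exact .link t
  | top1 t =>
    simp only [gr, List.length_cons, List.length_nil] at hq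
    obtain rfl | rfl : q = 0 ∨ q = 1 := by omega
    · exact .top10 t _ ht
    · exact .top11 t _ ht
  | top2 t =>
    simp only [gr, List.length_cons, List.length_nil] at hq
    obtain rfl | rfl : q = 0 ∨ q = 1 := by omega
    · exact .top20 t _ ht
    · exact .top21 t _ ht
  | top3 t =>
    simp only [gr, List.length_cons, List.length_nil] at hq
    obtain rfl | rfl : q = 0 ∨ q = 1 := by omega
    · exact .top30 t _ ht
    · exact .top31 t _ ht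
  | g1 i j =>
    simp only [gr, List.length_cons, List.length_nil] at hq
    obtain rfl | rfl | rfl : q = 0 ∨ q = 1 ∨ q = 2 := by omega
    · cases i with
      | zero => exact .g10B j _ ht.1
      | succ i => exact .g10J i j _ ht.1
    · exact .g11 i j _
    · exact .g12 i j
  | g2 i j =>
    simp only [gr, List.length_cons, List.length_nil] at hq
    obtain rfl | rfl | rfl : q = 0 ∨ q = 1 ∨ q = 2 := by omega
    · exact .g20 i j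
    · exact .g21 i j
    · exact .g22 i j
  | g3 i j =>
    simp only [gr, List.length_cons, List.length_nil] at hq
    obtain rfl | rfl | rfl : q = 0 ∨ q = 1 ∨ q = 2 := by omega
    · exact .g30 i j
    · exact .g31 i j
    · exact .g32 i j
  | g4 i j =>
    simp only [gr, List.length_cons, List.length_nil] at hq
    obtain rfl | rfl | rfl : q = 0 ∨ q = 1 ∨ q = 2 := by omega
    · exact .g40 i j
    · exact .g41 i j _
    · exact .g42 i j _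
  | g5 i j =>
    simp only [gr, List.length_cons, List.length_nil] at hq
    obtain rfl | rfl : q = 0 ∨ q = 1 := by omega
    · exact .g50 i j _
    · exact .g51 i j _
  | g6 i j =>
    simp only [gr, List.length_cons, List.length_nil] at hq
    obtain rfl | rfl : q = 0 ∨ q = 1 := by omega
    · exact .g60 i j _
    · exact .g61 i j _
  | g7 i j =>
    simp only [gr, List.length_cons, List.length_nil] at hq
    obtain rfl | rfl | rfl : q = 0 ∨ q = 1 ∨ q = 2 := by omega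
    · exact .g70 i j _
    · exact .g71 i j _
    · exact .g72 i j
  | g8 i j =>
    simp only [gr, List.length_cons, List.length_nil] at hq
    obtain rfl | rfl | rfl : q = 0 ∨ q = 1 ∨ q = 2 := by omega
    · exact .g80 i j
    · exact .g81 i j
    · exact .g82 i j
  | g9 i j =>
    by_cases ho : occ i j = true
    · have e : gr n m occ (.g9 i j) = [Lb.W2 i j, Lb.Z2 i j, wl (3 * i + 2), Lb.J i j] := by
        simp [gr, ho]
      simp only [e, List.length_cons, List.length_nil] at hq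
      obtain rfl | rfl | rfl : q = 0 ∨ q = 1 ∨ q = 2 := by omega
      · simp only [e]; exact .g90 i j
      · simp only [e]; exact .g91 i j _
      · simp only [e]; exact .g92 i j _ ho
    · have e : gr n m occ (.g9 i j) = [Lb.W2 i j, Lb.Z2 i j, wl (3 * i + 2)] := by
        simp [gr, ho]
      simp only [e, List.length_cons, List.length_nil] at hq
      obtain rfl | rfl : q = 0 ∨ q = 1 := by omega
      · simp only [e]; exact .g90 i j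
      · simp only [e]; exact .g91 i j _
  | fin j =>
    simp only [gr, List.length_cons, List.length_nil] at hq
    obtain rfl | rfl : q = 0 ∨ q = 1 := by omega
    · rcases Nat.eq_zero_or_pos n with h0 | h0
      · subst h0
        exact .fin0B j _ rfl
      · obtain ⟨i, hi⟩ : ∃ i, i + 1 = 2 * n := ⟨2 * n - 1, by omega⟩
        have e : lc (2 * n) j = Lb.J i j := by
          rw [← hi]; rfl
        change T5a.Sp n m occ (.fin j) 0 (lc (2 * n) j) _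
        rw [e]
        exact .fin0J i j _ hi
    · exact .fin1 j _
  | bot i =>
    simp only [gr, List.length_cons, List.length_nil] at hq
    obtain rfl : q = 0 := by omega
    exact .bot i _

/-- The cut lemma. -/
theorem T5a.cut {n m : ℕ} {occ : ℕ → ℕ → Bool} {f : Tg → ℕ → Prop}
    (h : ∀ S : Set Lb, (∀ t, okT n m t → ∀ (q : ℕ) (hq : q + 1 < (gr n m occ t).length), f t q →
      ((gr n m occ t)[q] ∈ S ↔ (gr n m occ t)[q + 1] ∈ S)) → ∀ a b, okL n m a → okL n m b →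
      (a ∈ S ↔ b ∈ S)) (S : Lb → Prop) (a : Lb) (ha : okL n m a) (haS : S a) (hb : ¬ S (.R 0)) :
    ∃ t q x y, T5a.Sp n m occ t q x y ∧ f t q ∧ ((S x ∧ ¬ S y) ∨ (S y ∧ ¬ S x)) := by
  by_contra hno
  push Not at hno
  have := h {c | S c} (fun t ht q hq hf => by
    have := hno t q _ _ (T5a.sp_of t ht q hq) hf
    change S _ ↔ S _
    tauto) a (.R 0) ha (Nat.zero_le _)
  exact hb (this.1 haS)



section

variable {n m : ℕ} {occ : ℕ → ℕ → Bool} {f : Tg → ℕ → Prop}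

/-- The connectivity hypothesis. -/
def T5a.Con (n m : ℕ) (occ : ℕ → ℕ → Bool) (f : Tg → ℕ → Prop) : Prop :=
  ∀ S : Set Lb, (∀ t, okT n m t → ∀ (q : ℕ) (hq : q + 1 < (gr n m occ t).length), f t q →
      ((gr n m occ t)[q] ∈ S ↔ (gr n m occ t)[q + 1] ∈ S)) → ∀ a b, okL n m a → okL n m b →
      (a ∈ S ↔ b ∈ S)

theorem T5a.q1 (h : T5a.Con n m occ f) (t0 : ℕ) (ht : t0 < n) : f (.top1 t0) 1 ∨ f (.top2 t0) 0 := by
  obtain ⟨t, q, x, y, hs, hf, hx⟩ := T5a.cut h (fun c => c = .Q1 t0) (.Q1 t0) ht rfl (by simp)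
  cases hs <;> simp at hx
  · subst hx; exact Or.inl hf
  · subst hx; exact Or.inr hf

theorem T5a.q2 (h : T5a.Con n m occ f) (t0 : ℕ) (ht : t0 < n) : f (.top2 t0) 1 ∨ f (.top3 t0) 0 := by
  obtain ⟨t, q, x, y, hs, hf, hx⟩ := T5a.cut h (fun c => c = .Q2 t0) (.Q2 t0) ht rfl (by simp)
  cases hs <;> simp at hx
  · subst hx; exact Or.inl hf
  · subst hx; exact Or.inr hf

theorem T5a.w (h : T5a.Con n m occ f) (i0 j0 : ℕ) (hi : i0 < 2 * n ∧ j0 < m) :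
    f (.g1 i0 j0) 2 ∨ f (.g2 i0 j0) 0 := by
  obtain ⟨t, q, x, y, hs, hf, hx⟩ := T5a.cut h (fun c => c = .W i0 j0) (.W i0 j0) hi rfl (by simp)
  cases hs <;> simp at hx
  · obtain ⟨rfl, rfl⟩ := hx; exact Or.inl hf
  · obtain ⟨rfl, rfl⟩ := hx; exact Or.inr hf

theorem T5a.yw (h : T5a.Con n m occ f) (i0 j0 : ℕ) (hi : i0 < 2 * n ∧ j0 < m) :
    f (.g1 i0 j0) 1 ∨ f (.g2 i0 j0) 1 := by
  obtain ⟨t, q, x, y, hs, hf, hx⟩ := T5a.cut h (fun c => c = .Y i0 j0 ∨ c = .W i0 j0) (.W i0 j0) hi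
    (Or.inr rfl) (by simp)
  cases hs <;> simp at hx
  · obtain ⟨rfl, rfl⟩ := hx; exact Or.inl hf
  · omega
  · omega
  · obtain ⟨rfl, rfl⟩ := hx; exact Or.inr hf

theorem T5a.u (h : T5a.Con n m occ f) (i0 j0 : ℕ) (hi : i0 < 2 * n ∧ j0 < m) :
    f (.g2 i0 j0) 2 ∨ f (.g3 i0 j0) 0 := by
  obtain ⟨t, q, x, y, hs, hf, hx⟩ := T5a.cut h (fun c => c = .U i0 j0) (.U i0 j0) hi rfl (by simp)
  cases hs <;> simp at hx
  · obtain ⟨rfl, rfl⟩ := hx; exact Or.inl hf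
  · obtain ⟨rfl, rfl⟩ := hx; exact Or.inr hf

theorem T5a.yw' (h : T5a.Con n m occ f) (i0 j0 : ℕ) (hi : i0 < 2 * n ∧ j0 < m) :
    f (.g3 i0 j0) 1 ∨ f (.g4 i0 j0) 1 := by
  obtain ⟨t, q, x, y, hs, hf, hx⟩ := T5a.cut h (fun c => c = .Y' i0 j0 ∨ c = .W' i0 j0)
    (.W' i0 j0) hi (Or.inr rfl) (by simp)
  cases hs <;> simp at hx
  · obtain ⟨rfl, rfl⟩ := hx; exact Or.inl hf
  · omega
  · omega
  · obtain ⟨rfl, rfl⟩ := hx; exact Or.inr hf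

theorem T5a.w' (h : T5a.Con n m occ f) (i0 j0 : ℕ) (hi : i0 < 2 * n ∧ j0 < m) :
    f (.g3 i0 j0) 2 ∨ f (.g4 i0 j0) 0 := by
  obtain ⟨t, q, x, y, hs, hf, hx⟩ := T5a.cut h (fun c => c = .W' i0 j0) (.W' i0 j0) hi rfl (by simp)
  cases hs <;> simp at hx
  · obtain ⟨rfl, rfl⟩ := hx; exact Or.inl hf
  · obtain ⟨rfl, rfl⟩ := hx; exact Or.inr hf

theorem T5a.x (h : T5a.Con n m occ f) (i0 j0 : ℕ) (hi : i0 < 2 * n ∧ j0 < m) :
    f (.g4 i0 j0) 2 ∨ f (.g5 i0 j0) 0 := by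
  obtain ⟨t, q, x, y, hs, hf, hx⟩ := T5a.cut h (fun c => c = .X i0 j0) (.X i0 j0) hi rfl (by simp)
  cases hs <;> simp at hx
  · obtain ⟨rfl, rfl⟩ := hx; exact Or.inl hf
  · obtain ⟨rfl, rfl⟩ := hx; exact Or.inr hf

theorem T5a.jj (h : T5a.Con n m occ f) (i0 j0 : ℕ) (hi : i0 < 2 * n ∧ j0 < m) :
    f (.g5 i0 j0) 1 ∨ (occ i0 j0 = true ∧ f (.g9 i0 j0) 2) ∨
      (i0 + 1 < 2 * n ∧ f (.g1 (i0 + 1) j0) 0) ∨ (i0 + 1 = 2 * n ∧ f (.fin j0) 0) := by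
  obtain ⟨t, q, x, y, hs, hf, hx⟩ := T5a.cut h (fun c => c = .J i0 j0) (.J i0 j0) hi rfl (by simp)
  cases hs <;> simp at hx
  · rename_i hh
    obtain ⟨rfl, rfl⟩ := hx; exact Or.inr (Or.inr (Or.inl ⟨hh, hf⟩))
  · obtain ⟨rfl, rfl⟩ := hx; exact Or.inl hf
  · rename_i hh
    obtain ⟨rfl, rfl⟩ := hx; exact Or.inr (Or.inl ⟨hh, hf⟩)
  · rename_i hh
    obtain ⟨rfl, rfl⟩ := hx; exact Or.inr (Or.inr (Or.inr ⟨hh, hf⟩))

theorem T5a.bb (h : T5a.Con n m occ f) (j0 : ℕ) (hj : j0 < m) :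
    (0 < 2 * n ∧ f (.g1 0 j0) 0) ∨ (n = 0 ∧ f (.fin j0) 0) := by
  obtain ⟨t, q, x, y, hs, hf, hx⟩ := T5a.cut h (fun c => c = .B j0) (.B j0) hj rfl (by simp)
  cases hs <;> simp at hx
  · rename_i hh
    subst hx; exact Or.inl ⟨hh, hf⟩
  · rename_i hh
    subst hx; exact Or.inr ⟨hh, hf⟩

theorem T5a.ee (h : T5a.Con n m occ f) (j0 : ℕ) (hj : j0 < m) : f (.fin j0) 1 := by
  obtain ⟨t, q, x, y, hs, hf, hx⟩ := T5a.cut h (fun c => c = .E j0) (.E j0) hj rfl (by simp)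
  cases hs <;> simp at hx
  · subst hx; exact hf

theorem T5a.zw1 (h : T5a.Con n m occ f) (i0 j0 : ℕ) (hi : i0 < 2 * n ∧ j0 < m) :
    f (.g7 i0 j0) 1 ∨ f (.g8 i0 j0) 1 := by
  obtain ⟨t, q, x, y, hs, hf, hx⟩ := T5a.cut h (fun c => c = .Z1 i0 j0 ∨ c = .W1 i0 j0)
    (.W1 i0 j0) hi (Or.inr rfl) (by simp)
  cases hs <;> simp at hx
  · obtain ⟨rfl, rfl⟩ := hx; exact Or.inl hf
  · omega
  · omega
  · obtain ⟨rfl, rfl⟩ := hx; exact Or.inr hf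

theorem T5a.zw2 (h : T5a.Con n m occ f) (i0 j0 : ℕ) (hi : i0 < 2 * n ∧ j0 < m) :
    f (.g6 i0 j0) 1 ∨ f (.g8 i0 j0) 1 ∨ f (.g9 i0 j0) 1 := by
  obtain ⟨t, q, x, y, hs, hf, hx⟩ := T5a.cut h (fun c => c = .Z2 i0 j0 ∨ c = .W2 i0 j0)
    (.W2 i0 j0) hi (Or.inr rfl) (by simp)
  cases hs <;> simp at hx
  · obtain ⟨rfl, rfl⟩ := hx; exact Or.inl hf
  · obtain ⟨rfl, rfl⟩ := hx; exact Or.inr (Or.inl hf)
  · omega
  · omega
  · obtain ⟨rfl, rfl⟩ := hx; exact Or.inr (Or.inr hf)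

theorem T5a.w1 (h : T5a.Con n m occ f) (i0 j0 : ℕ) (hi : i0 < 2 * n ∧ j0 < m) :
    f (.g7 i0 j0) 2 ∨ f (.g8 i0 j0) 0 := by
  obtain ⟨t, q, x, y, hs, hf, hx⟩ := T5a.cut h (fun c => c = .W1 i0 j0) (.W1 i0 j0) hi rfl (by simp)
  cases hs <;> simp at hx
  · obtain ⟨rfl, rfl⟩ := hx; exact Or.inl hf
  · obtain ⟨rfl, rfl⟩ := hx; exact Or.inr hf

theorem T5a.w2 (h : T5a.Con n m occ f) (i0 j0 : ℕ) (hi : i0 < 2 * n ∧ j0 < m) :
    f (.g8 i0 j0) 2 ∨ f (.g9 i0 j0) 0 := by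
  obtain ⟨t, q, x, y, hs, hf, hx⟩ := T5a.cut h (fun c => c = .W2 i0 j0) (.W2 i0 j0) hi rfl (by simp)
  cases hs <;> simp at hx
  · obtain ⟨rfl, rfl⟩ := hx; exact Or.inl hf
  · obtain ⟨rfl, rfl⟩ := hx; exact Or.inr hf

theorem T5a.zz (h : T5a.Con n m occ f) (i0 j0 : ℕ) (hi : i0 < 2 * n ∧ j0 < m) :
    f (.g6 i0 j0) 1 ∨ f (.g7 i0 j0) 1 ∨ f (.g9 i0 j0) 1 := by
  obtain ⟨t, q, x, y, hs, hf, hx⟩ := T5a.cut h
    (fun c => c = .Z1 i0 j0 ∨ c = .W1 i0 j0 ∨ c = .Z2 i0 j0 ∨ c = .W2 i0 j0)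
    (.Z1 i0 j0) hi (Or.inl rfl) (by simp)
  cases hs <;> simp at hx
  · obtain ⟨rfl, rfl⟩ := hx; exact Or.inl hf
  · obtain ⟨rfl, rfl⟩ := hx; exact Or.inr (Or.inl hf)
  · omega
  · omega
  · omega
  · omega
  · omega
  · obtain ⟨rfl, rfl⟩ := hx; exact Or.inr (Or.inr hf)

/-- The top port of a column. -/
def T5a.top (f : Tg → ℕ → Prop) (i : ℕ) : ℕ → Prop
  | 0 => if i % 2 = 0 then f (.top1 (i / 2)) 0 else f (.top3 (i / 2)) 1
  | j + 1 => f (.g7 i j) 0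

theorem T5a.top_ev (t : ℕ) (h : f (.top1 t) 0) : T5a.top f (2 * t) 0 := by
  simpa [T5a.top] using h

theorem T5a.top_od (t : ℕ) (h : f (.top3 t) 1) : T5a.top f (2 * t + 1) 0 := by
  have h1 : (2 * t + 1) / 2 = t := by omega
  simpa [T5a.top, h1, Nat.add_mod] using h

theorem T5a.vv (h : T5a.Con n m occ f) (i0 j0 : ℕ) (hi : i0 < 2 * n ∧ j0 < m) (p r : Prop) :
    T5a.top f i0 j0 ∨ f (.g6 i0 j0) 0 ∨ (¬ p ∧ f (.g2 i0 j0) 1) ∨ (p ∧ f (.g1 i0 j0) 1) ∨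
      (¬ r ∧ f (.g3 i0 j0) 1) ∨ (r ∧ f (.g4 i0 j0) 1) := by
  obtain ⟨t, q, x, y, hs, hf, hx⟩ := T5a.cut h
    (fun c => c = .V i0 j0 ∨ c = .U i0 j0 ∨ (p ∧ (c = .Y i0 j0 ∨ c = .W i0 j0)) ∨
      (r ∧ (c = .Y' i0 j0 ∨ c = .W' i0 j0))) (.V i0 j0) ⟨hi.1, hi.2.le⟩ (Or.inl rfl) (by simp)
  cases hs <;> simp at hx
  · obtain ⟨rfl, rfl⟩ := hx; exact Or.inl (T5a.top_ev _ hf)
  · obtain ⟨rfl, rfl⟩ := hx; exact Or.inl (T5a.top_od _ hf)
  · obtain ⟨hp, rfl, rfl⟩ := hx; exact Or.inr (Or.inr (Or.inr (Or.inl ⟨hp, hf⟩)))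
  · obtain ⟨⟨hp, rfl, rfl⟩, h2⟩ := hx; exact absurd rfl (h2 hp rfl)
  · obtain ⟨⟨hp, rfl, rfl⟩, h2⟩ := hx; exact absurd rfl (h2 hp rfl)
  · rcases hx with ⟨⟨hp, rfl, rfl⟩, h2⟩ | ⟨⟨rfl, rfl⟩, h2⟩
    · exact absurd rfl (h2 rfl)
    · exact Or.inr (Or.inr (Or.inl ⟨fun hp => h2 hp rfl rfl, hf⟩))
  · obtain ⟨⟨rfl, rfl⟩, h2⟩ := hx; exact absurd rfl (h2 rfl)
  · obtain ⟨⟨rfl, rfl⟩, h2⟩ := hx; exact absurd rfl (h2 rfl)
  · rcases hx with ⟨⟨rfl, rfl⟩, h2⟩ | ⟨⟨hp, rfl, rfl⟩, h2⟩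
    · exact Or.inr (Or.inr (Or.inr (Or.inr (Or.inl ⟨fun hp => h2 hp rfl rfl, hf⟩))))
    · exact absurd rfl (h2 rfl)
  · obtain ⟨⟨hp, rfl, rfl⟩, h2⟩ := hx; exact absurd rfl (h2 hp rfl)
  · obtain ⟨⟨hp, rfl, rfl⟩, h2⟩ := hx; exact absurd rfl (h2 hp rfl)
  · obtain ⟨hp, rfl, rfl⟩ := hx
    exact Or.inr (Or.inr (Or.inr (Or.inr (Or.inr ⟨hp, hf⟩))))
  · obtain ⟨rfl, rfl⟩ := hx; exact Or.inr (Or.inl hf)
  · obtain ⟨rfl, rfl⟩ := hx; exact Or.inl hf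
  · omega

theorem T5a.col (h : T5a.Con n m occ f) (hc : ∀ t q, ¬ (f t q ∧ f t (q + 1))) (i j : ℕ)
    (hi : i < 2 * n ∧ j < m) (ht : ¬ T5a.top f i j) :
    ¬ T5a.top f i (j + 1) ∧ ¬ f (.g9 i j) 2 := by
  have h6 : f (.g6 i j) 0 := by
    by_contra h6
    have c1 := hc (.g2 i j) 0
    have c2 := hc (.g1 i j) 1
    have c3 := hc (.g3 i j) 1
    have c4 := hc (.g4 i j) 0
    have w := T5a.w h i j hi
    have w' := T5a.w' h i j hi
    have hv := T5a.vv h i j hi (f (.g2 i j) 1) (f (.g3 i j) 1)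
    by_cases a1 : f (.g2 i j) 1 <;> by_cases a2 : f (.g3 i j) 1 <;> simp_all
  have n6 : ¬ f (.g6 i j) 1 := fun h' => hc _ 0 ⟨h6, h'⟩
  have z1 := T5a.zw1 h i j hi
  have z2 := T5a.zw2 h i j hi
  have zz := T5a.zz h i j hi
  have w1 := T5a.w1 h i j hi
  have w2 := T5a.w2 h i j hi
  have h8 : ¬ f (.g8 i j) 1 := by
    intro h8
    have b1 : ¬ f (.g8 i j) 0 := fun h' => hc _ 0 ⟨h', h8⟩
    have b2 : ¬ f (.g8 i j) 2 := fun h' => hc _ 1 ⟨h8, h'⟩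
    have b3 : f (.g7 i j) 2 := w1.resolve_right b1
    have b4 : f (.g9 i j) 0 := w2.resolve_left b2
    have b5 : ¬ f (.g7 i j) 1 := fun h' => hc _ 1 ⟨h', b3⟩
    have b6 : ¬ f (.g9 i j) 1 := fun h' => hc _ 0 ⟨b4, h'⟩
    tauto
  have h7 : f (.g7 i j) 1 := z1.resolve_right h8
  have h9 : f (.g9 i j) 1 := by tauto
  exact ⟨fun h' => hc _ 0 ⟨h', h7⟩, fun h' => hc _ 1 ⟨h9, h'⟩⟩

theorem T5a.col_all (h : T5a.Con n m occ f) (hc : ∀ t q, ¬ (f t q ∧ f t (q + 1))) (i : ℕ)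
    (hi : i < 2 * n) (ht : ¬ T5a.top f i 0) : ∀ j, j ≤ m → ¬ T5a.top f i j := by
  intro j
  induction j with
  | zero => intro _; exact ht
  | succ j ih => intro hj; exact (T5a.col h hc i j ⟨hi, hj⟩ (ih (by omega))).1

theorem T5a.push (h : T5a.Con n m occ f) (hc : ∀ t q, ¬ (f t q ∧ f t (q + 1))) (i j : ℕ)
    (hi : i < 2 * n ∧ j < m) (h1 : f (.g1 i j) 0) :
    (occ i j = true ∧ f (.g9 i j) 2) ∨
      (i + 1 < 2 * n ∧ f (.g1 (i + 1) j) 0) ∨ (i + 1 = 2 * n ∧ f (.fin j) 0) := by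
  have a1 : f (.g2 i j) 1 := (T5a.yw h i j hi).resolve_left fun h' => hc _ 0 ⟨h1, h'⟩
  have a2 : f (.g3 i j) 0 := (T5a.u h i j hi).resolve_left fun h' => hc _ 1 ⟨a1, h'⟩
  have a3 : f (.g4 i j) 1 := (T5a.yw' h i j hi).resolve_left fun h' => hc _ 0 ⟨a2, h'⟩
  have a4 : f (.g5 i j) 0 := (T5a.x h i j hi).resolve_left fun h' => hc _ 1 ⟨a3, h'⟩
  exact (T5a.jj h i j hi).resolve_left fun h' => hc _ 0 ⟨a4, h'⟩

end

theorem sel_of_gspan {n m : ℕ} {occ : ℕ → ℕ → Bool}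
    (h : GSpan (gr n m occ) (okT n m) (okL n m)) : Sel n m occ := by
  obtain ⟨f, hc, h⟩ := h
  have h : T5a.Con n m occ f := h
  refine ⟨fun i => T5a.top f i 0, ?_, ?_⟩
  · rintro t ht ⟨h1, h2⟩
    have h1 : f (.top1 t) 0 := by simpa [T5a.top] using h1
    have h2 : f (.top3 t) 1 := by
      have e : (2 * t + 1) / 2 = t := by omega
      simpa [T5a.top, e, Nat.add_mod] using h2
    have a1 : f (.top2 t) 0 := (T5a.q1 h t ht).resolve_left fun h' => hc _ 0 ⟨h1, h'⟩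
    have a2 : f (.top3 t) 0 := (T5a.q2 h t ht).resolve_left fun h' => hc _ 0 ⟨a1, h'⟩
    exact hc _ 0 ⟨a2, h2⟩
  · intro j hj
    have hfin : ¬ f (.fin j) 0 := fun h' => hc _ 0 ⟨h', T5a.ee h j hj⟩
    by_contra hno
    push Not at hno
    have hg9 : ∀ i, i < 2 * n → ¬ (occ i j = true ∧ f (.g9 i j) 2) := by
      rintro i hi ⟨ho, h9⟩
      have ht := hno i hi ho
      exact (T5a.col h hc i j ⟨hi, hj⟩ (T5a.col_all h hc i hi ht j hj.le)).2 h9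
    have hall : ∀ i, i < 2 * n → f (.g1 i j) 0 := by
      intro i
      induction i with
      | zero =>
        intro hi
        rcases T5a.bb h j hj with h1 | h1
        · exact h1.2
        · exact absurd h1.2 hfin
      | succ i ih =>
        intro hi
        rcases T5a.push h hc i j ⟨by omega, hj⟩ (ih (by omega)) with h1 | h1 | h1
        · exact absurd h1 (hg9 i (by omega))
        · exact h1.2
        · exact absurd h1.2 hfin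
    rcases T5a.bb h j hj with h1 | h1
    · obtain ⟨i, hi⟩ : ∃ i, i + 1 = 2 * n := ⟨2 * n - 1, by omega⟩
      rcases T5a.push h hc i j ⟨by omega, hj⟩ (hall i (by omega)) with h1 | h1 | h1
      · exact hg9 i (by omega) h1
      · omega
      · exact hfin h1.2
    · exact hfin h1.2

end Pool.Agent.H820R2.MS
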