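import Pool.Agent.H820R2.MS.DefsQ
import Pool.Agent.H820R2.MS.T9
import Pool.Agent.H670R2.RatDec

/-!
# Maximum scatter TSP in the plane with rational coordinates: membership in `NP`
-/

namespace Pool.Agent.H820R2.MS

open Pool.Agent.NPC

namespace T9Q

/-- test of absence of repetitions -/
def ndb (l : List (ℚ × ℚ)) : Bool :=
  l.zipIdx.all (fun p => l.zipIdx.all (fun q => decide (p.2 = q.2 ∨ ¬ p.1 = q.1)))

theorem ndb_poly {α : Type} [TEnc α] {l : α → List (ℚ × ℚ)} (hl : Poly l) :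
    Poly (fun a => ndb (l a)) := by
  refine Poly.all (p := fun a (p : (ℚ × ℚ) × ℕ) =>
    (l a).zipIdx.all (fun q => decide (p.2 = q.2 ∨ ¬ p.1 = q.1))) (Poly.zipIdx hl) ?_
  refine Poly.all (p := fun (x : α × ((ℚ × ℚ) × ℕ)) (q : (ℚ × ℚ) × ℕ) =>
    decide (x.2.2 = q.2 ∨ ¬ x.2.1 = q.1)) (Poly.zipIdx (hl.comp (Poly.fst Poly.id))) ?_
  exact Poly.decide_or (Poly.decide_eq (Poly.snd (Poly.snd (Poly.fst Poly.id)))
      (Poly.snd (Poly.snd Poly.id)))
    (Poly.decide_not (Poly.decide_eq (Poly.fst (Poly.snd (Poly.fst Poly.id)))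
      (Poly.fst (Poly.snd Poly.id))))

theorem ndb_iff (l : List (ℚ × ℚ)) : ndb l = true ↔ l.Nodup := by
  simp only [ndb, List.all_eq_true, decide_eq_true_eq, Prod.forall,
    List.mem_zipIdx_iff_getElem?]
  rw [List.nodup_iff_getElem?_ne_getElem?]
  constructor
  · intro h i j hij hj he
    have h1 : l[j]? = some l[j] := List.getElem?_eq_getElem hj
    rcases h l[j].1 l[j].2 i (by rw [he, h1]) l[j].1 l[j].2 j h1 with h2 | h2
    · omega
    · exact h2 rfl
  · intro h a a' i hi b b' j hj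
    by_cases hij : i = j
    · exact Or.inl hij
    · refine Or.inr ?_
      intro hab
      rcases lt_or_gt_of_ne hij with h1 | h1
      · exact h i j h1 (List.getElem?_eq_some_iff.1 hj).1 (by rw [hi, hj, hab])
      · exact h j i h1 (List.getElem?_eq_some_iff.1 hi).1 (by rw [hi, hj, hab])

/-- the list rotated by one place -/
def rot (l : List (ℚ × ℚ)) : List (ℚ × ℚ) := l.tail ++ l.head?.toList

theorem rot_length (l : List (ℚ × ℚ)) : (rot l).length = l.length := by
  cases l <;> simp [rot]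

theorem rot_getElem (l : List (ℚ × ℚ)) (i : ℕ) (h : i < l.length) (h' : i < (rot l).length) :
    (rot l)[i] = l[(i + 1) % l.length]'(Nat.mod_lt _ (Nat.zero_lt_of_lt h)) := by
  cases l with
  | nil => simp at h
  | cons a l =>
    simp only [rot, List.tail_cons, List.head?_cons, Option.toList_some]
    simp only [List.length_cons] at h
    by_cases hi : i < l.length
    · rw [List.getElem_append_left hi]
      have : (i + 1) % (a :: l).length = i + 1 := Nat.mod_eq_of_lt (by simp; omega)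
      simp only [this, List.getElem_cons_succ]
    · have hi' : i = l.length := by omega
      subst hi'
      rw [List.getElem_append_right (le_refl _)]
      have : (l.length + 1) % (a :: l).length = 0 := by simp
      simp only [this, List.getElem_cons_zero]
      simp

/-- the comparison of a distance with a rational number, over the integers -/
def rt (L : ℚ) (p q : ℚ × ℚ) : Prop :=
  L.num < 0 ∨
    (L.num * ((p.1.den * q.1.den : ℕ) * (p.2.den * q.2.den : ℕ) : ℤ)) *
      (L.num * ((p.1.den * q.1.den : ℕ) * (p.2.den * q.2.den : ℕ) : ℤ)) ≤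
    ((L.den : ℤ) * ((p.1.num * q.1.den - q.1.num * p.1.den) * (p.2.den * q.2.den : ℕ))) *
      ((L.den : ℤ) * ((p.1.num * q.1.den - q.1.num * p.1.den) * (p.2.den * q.2.den : ℕ))) +
    ((L.den : ℤ) * ((p.2.num * q.2.den - q.2.num * p.2.den) * (p.1.den * q.1.den : ℕ))) *
      ((L.den : ℤ) * ((p.2.num * q.2.den - q.2.num * p.2.den) * (p.1.den * q.1.den : ℕ)))

instance (L : ℚ) (p q : ℚ × ℚ) : Decidable (rt L p q) := by unfold rt; infer_instance

theorem rt_iff (L : ℚ) (p q : ℚ × ℚ) : rt L p q ↔ (L : ℝ) ≤ dist (ptQ p) (ptQ q) := by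
  rw [le_dist_iff, rt, Rat.num_neg]
  refine or_congr_right ?_
  have e1 : (0 : ℚ) < L.den := by exact_mod_cast L.den_pos
  have e2 : (0 : ℚ) < p.1.den := by exact_mod_cast p.1.den_pos
  have e3 : (0 : ℚ) < q.1.den := by exact_mod_cast q.1.den_pos
  have e4 : (0 : ℚ) < p.2.den := by exact_mod_cast p.2.den_pos
  have e5 : (0 : ℚ) < q.2.den := by exact_mod_cast q.2.den_pos
  have f1 : (L.num : ℚ) = L * L.den := (Rat.mul_den_eq_num L).symm
  have f2 : (p.1.num : ℚ) = p.1 * p.1.den := (Rat.mul_den_eq_num p.1).symm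
  have f3 : (q.1.num : ℚ) = q.1 * q.1.den := (Rat.mul_den_eq_num q.1).symm
  have f4 : (p.2.num : ℚ) = p.2 * p.2.den := (Rat.mul_den_eq_num p.2).symm
  have f5 : (q.2.num : ℚ) = q.2 * q.2.den := (Rat.mul_den_eq_num q.2).symm
  rw [← Int.cast_le (R := ℚ)]
  push_cast
  rw [f1, f2, f3, f4, f5]
  set K : ℚ := (L.den * (p.1.den * q.1.den) * (p.2.den * q.2.den)) with hK
  have hK0 : 0 < K := by positivity
  have hK2 : 0 < K ^ 2 := by positivity
  constructor
  · intro h
    refine le_of_mul_le_mul_left ?_ hK2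
    calc K ^ 2 * L ^ 2 = _ := by rw [hK]; ring
      _ ≤ _ := h
      _ = K ^ 2 * ((p.1 - q.1) ^ 2 + (p.2 - q.2) ^ 2) := by rw [hK]; ring
  · intro h
    calc _ = K ^ 2 * L ^ 2 := by rw [hK]; ring
      _ ≤ K ^ 2 * ((p.1 - q.1) ^ 2 + (p.2 - q.2) ^ 2) := mul_le_mul_of_nonneg_left h hK2.le
      _ = _ := by rw [hK]; ring

theorem rt_poly {α : Type} [TEnc α] {L : α → ℚ} {p q : α → ℚ × ℚ} (hL : Poly L) (hp : Poly p)
    (hq : Poly q) : Poly (fun a => decide (rt (L a) (p a) (q a))) := by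
  have ln := H670R2.poly_num hL
  have ld := Poly.natCast (H670R2.poly_den hL)
  have p1 := H670R2.poly_num (Poly.fst hp)
  have p2 := H670R2.poly_num (Poly.snd hp)
  have q1 := H670R2.poly_num (Poly.fst hq)
  have q2 := H670R2.poly_num (Poly.snd hq)
  have dp1 := H670R2.poly_den (Poly.fst hp)
  have dp2 := H670R2.poly_den (Poly.snd hp)
  have dq1 := H670R2.poly_den (Poly.fst hq)
  have dq2 := H670R2.poly_den (Poly.snd hq)
  have b1 := Poly.natCast (Poly.mul dp1 dq1)
  have b2 := Poly.natCast (Poly.mul dp2 dq2)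
  have u := Poly.imul ln (Poly.imul b1 b2)
  have v := Poly.imul ld (Poly.imul (Poly.isub (Poly.imul p1 (Poly.natCast dq1))
    (Poly.imul q1 (Poly.natCast dp1))) b2)
  have w := Poly.imul ld (Poly.imul (Poly.isub (Poly.imul p2 (Poly.natCast dq2))
    (Poly.imul q2 (Poly.natCast dp2))) b1)
  exact (Poly.decide_or (Poly.isNeg ln) (Poly.ile (Poly.imul u u)
    (Poly.iadd (Poly.imul v v) (Poly.imul w w)))).congr fun a => by
      simp only [rt]

/-- the test of the distances along a tour -/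
def tb (D : ℚ) (w : List (ℚ × ℚ)) : Bool :=
  (w.zip (rot w)).all (fun q => decide (rt D q.1 q.2))

theorem tb_iff (D : ℚ) (w : List (ℚ × ℚ)) : tb D w = true ↔ ∀ (i : ℕ) (h : i < w.length),
    (D : ℝ) ≤ dist (ptQ w[i])
      (ptQ (w[(i + 1) % w.length]'(Nat.mod_lt _ (Nat.zero_lt_of_lt h)))) := by
  simp only [tb, List.all_eq_true, decide_eq_true_eq]
  constructor
  · intro h i hi
    have hi' : i < (rot w).length := by rw [rot_length]; exact hi
    have h1 := h (w[i], (rot w)[i]) (by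
      have h2 : i < (w.zip (rot w)).length := by
        rw [List.length_zip]; exact lt_min hi hi'
      have h3 := List.getElem_mem h2
      rwa [List.getElem_zip] at h3)
    simpa only [rot_getElem w i hi hi'] using (rt_iff _ _ _).1 h1
  · intro h q hq
    obtain ⟨i, hi, rfl⟩ := List.getElem_of_mem hq
    rw [List.length_zip] at hi
    have hi1 : i < w.length := lt_of_lt_of_le hi (min_le_left _ _)
    have hi2 : i < (rot w).length := lt_of_lt_of_le hi (min_le_right _ _)
    rw [List.getElem_zip]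
    simpa only [rot_getElem w i hi1 hi2] using (rt_iff _ _ _).2 (h i hi1)

/-- The certificates: the tours. -/
def cyb (x : (List (ℚ × ℚ) × ℚ) × List (ℚ × ℚ)) : Bool :=
  ndb x.1.1 && (decide (3 ≤ x.1.1.length) && (ndb x.2 && (x.1.1.all (fun v => decide (v ∈ x.2)) &&
    (x.2.all (fun v => decide (v ∈ x.1.1)) && tb x.1.2 x.2))))

theorem cyb_poly : Poly cyb := by
  have h1 : Poly (fun x : (List (ℚ × ℚ) × ℚ) × List (ℚ × ℚ) => x.1) := Poly.fst Poly.id
  have h2 : Poly (fun x : (List (ℚ × ℚ) × ℚ) × List (ℚ × ℚ) => x.2) := Poly.snd Poly.id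
  refine Poly.and (ndb_poly (Poly.fst h1)) (Poly.and (Poly.decide_le (NPC.Poly.const 3)
    (Poly.length (Poly.fst h1))) (Poly.and (ndb_poly h2) (Poly.and ?_ (Poly.and ?_ ?_))))
  · exact Poly.all (p := fun (x : (List (ℚ × ℚ) × ℚ) × List (ℚ × ℚ)) (v : ℚ × ℚ) =>
      decide (v ∈ x.2)) (Poly.fst h1)
      ((Poly.decide_mem (Poly.snd Poly.id) (Poly.snd (Poly.fst Poly.id))).congr fun a => by
        simp only [decide_eq_decide])
  · exact Poly.all (p := fun (x : (List (ℚ × ℚ) × ℚ) × List (ℚ × ℚ)) (v : ℚ × ℚ) =>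
      decide (v ∈ x.1.1)) h2
      ((Poly.decide_mem (Poly.snd Poly.id) (Poly.fst (Poly.fst (Poly.fst Poly.id)))).congr
        fun a => by simp only [decide_eq_decide])
  · refine Poly.all (p := fun (x : (List (ℚ × ℚ) × ℚ) × List (ℚ × ℚ)) (q : (ℚ × ℚ) × (ℚ × ℚ)) =>
      decide (rt x.1.2 q.1 q.2)) ?_ ?_
    · refine Poly.zip h2 ?_
      refine Poly.append (Poly.tail h2) ?_
      have h3 : Poly (fun x : (List (ℚ × ℚ) × ℚ) × List (ℚ × ℚ) => x.2.head?) := Poly.head? h2
      exact (Poly.optElim (o := fun x : (List (ℚ × ℚ) × ℚ) × List (ℚ × ℚ) => x.2.head?)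
        (g := fun _ => ([] : List (ℚ × ℚ))) (h := fun _ v => [v]) h3 (NPC.Poly.const _)
        (Poly.cons (Poly.snd Poly.id) (NPC.Poly.const []))).congr fun x => by
          cases x.2.head? <;> rfl
    · exact rt_poly (Poly.snd (Poly.fst (Poly.fst Poly.id)))
        (Poly.fst (Poly.snd Poly.id)) (Poly.snd (Poly.snd Poly.id))

end T9Q

theorem inNP_maxScatterQ : InNPP MaxScatterQ := by
  refine inNPP_of T9Q.cyb_poly ((Polynomial.X) * (Polynomial.X + 1) + 1) ?_
  intro I
  constructor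
  · rintro ⟨h1, h2, w, hw, h3⟩
    refine ⟨w, ?_, ?_⟩
    · have h4 := sz_le_length_mul w (sz I) (fun v hv => by
        have h5 := sz_le_of_mem (hw.subset hv)
        have h6 : sz I = sz I.1 + sz I.2 + 1 := sz_pair I.1 I.2
        omega)
      have h5 := length_lt_sz I.1
      have h6 : sz I = sz I.1 + sz I.2 + 1 := sz_pair I.1 I.2
      have h7 : w.length ≤ sz I := by
        rw [hw.length_eq]
        omega
      simp only [Polynomial.eval_add, Polynomial.eval_mul, Polynomial.eval_X,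
        Polynomial.eval_one]
      exact h4.trans (Nat.add_le_add_right (Nat.mul_le_mul_right _ h7) 1)
    · simp only [T9Q.cyb, Bool.and_eq_true, decide_eq_true_eq, List.all_eq_true]
      exact ⟨(T9Q.ndb_iff _).2 h1, h2, (T9Q.ndb_iff _).2 (hw.nodup_iff.2 h1),
        fun v hv => hw.mem_iff.2 hv, fun v hv => hw.mem_iff.1 hv, (T9Q.tb_iff _ _).2 h3⟩
  · rintro ⟨w, -, hw⟩
    simp only [T9Q.cyb, Bool.and_eq_true, decide_eq_true_eq, List.all_eq_true] at hw
    obtain ⟨h1, h2, h3, h4, h5, h6⟩ := hw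
    rw [T9Q.ndb_iff] at h1 h3
    exact ⟨h1, h2, w, (List.perm_ext_iff_of_nodup h3 h1).2 fun v => ⟨h5 v, h4 v⟩,
      (T9Q.tb_iff _ _).1 h6⟩

end Pool.Agent.H820R2.MS
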